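import Pool.Agent.Lib.MP_d0f9e0_co.Gap.SymRank

set_option autoImplicit false

open Matrix
open scoped ComplexOrder

namespace Pool.Agent.Lib.MP_d0f9e0_co.Gap

section Abs

variable {H : Type*} [NormedAddCommGroup H] [InnerProductSpace ℂ H] [FiniteDimensional ℂ H]
variable {ι : Type*} [Fintype ι]


/-- Dimension bound for compressions of operators to a subspace. -/
theorem abstract_rank (L : ι → H →ₗ[ℂ] H) (hL : ∀ a, (L a).IsSymmetric) (W : Submodule ℂ H)
    (hsym : ∀ u ∈ W, ∀ v ∈ W, ∀ w ∈ W, ∀ z ∈ W,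
      ∑ a, (inner ℂ u (L a v)) * (inner ℂ w (L a z)) = ∑ a, (inner ℂ u (L a z)) * (inner ℂ w (L a v)))
    (hker : ∀ x ∈ W, (∀ a, ∀ y ∈ W, (inner ℂ y (L a x)) = 0) → x = 0)
    (Rl : Submodule ℂ (EuclideanSpace ℂ ι))
    (hrel : ∀ c ∈ Rl, ∀ x ∈ W, ∀ y ∈ W, ∑ a, c a * (inner ℂ y (L a x)) = 0) :
    Module.finrank ℂ W + Module.finrank ℂ Rl ≤ Fintype.card ι := by
  classical
  let b := stdOrthonormalBasis ℂ W
  let K : ι → Matrix (Fin (Module.finrank ℂ W)) (Fin (Module.finrank ℂ W)) ℂ := fun a =>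
    Matrix.of fun i j => (inner ℂ (b i : H) (L a (b j : H)))
  have hKapp : ∀ a i j, K a i j = (inner ℂ (b i : H) (L a (b j : H))) := fun a i j => rfl
  have h := card_add_finrank_rel K ?_ ?_ ?_ Rl ?_
  · rwa [Fintype.card_fin] at h
  · intro a
    ext i j
    rw [Matrix.conjTranspose_apply, hKapp, hKapp, ← hL a, Complex.star_def, inner_conj_symm]
  · intro p q r s
    simp only [hKapp]
    exact hsym _ (b p).2 _ (b q).2 _ (b r).2 _ (b s).2
  · intro x hx
    set X : W := ∑ j, x j • b j with hX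
    have h1 : ∀ a, ∀ y ∈ W, (inner ℂ y (L a (X : H))) = 0 := by
      intro a y hy
      have h2 : ∀ i, (inner ℂ (b i : H) (L a (X : H))) = 0 := by
        intro i
        have h3 := congrFun (hx a) i
        rw [Matrix.mulVec, dotProduct, Pi.zero_apply] at h3
        rw [← h3, hX]
        push_cast
        rw [map_sum, inner_sum]
        refine Finset.sum_congr rfl fun j _ => ?_
        rw [map_smul, inner_smul_right, hKapp, mul_comm]
      have h4 := b.sum_repr' ⟨y, hy⟩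
      have h5 : y = ∑ i, (inner ℂ (b i) (⟨y, hy⟩ : W)) • (b i : H) := by
        have := congrArg (fun z : W => (z : H)) h4
        simp only [Submodule.coe_sum, Submodule.coe_smul] at this
        exact this.symm
      rw [h5, sum_inner]
      refine Finset.sum_eq_zero fun i _ => ?_
      rw [inner_smul_left, h2, mul_zero]
    have h6 := hker X X.2 h1
    have h7 : X = 0 := by
      ext
      exact h6
    have h8 := b.toBasis.linearIndependent
    rw [Fintype.linearIndependent_iff] at h8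
    funext j
    refine h8 x ?_ j
    rw [← h7, hX]
    simp
  · intro c hc
    ext i j
    rw [Matrix.sum_apply]
    have := hrel c hc _ (b j).2 _ (b i).2
    simpa [hKapp] using this

theorem poly_aux (c1 c2 c3 c4 : ℝ) (h : ∀ t : ℝ, 0 ≤ c1 * t + c2 * t ^ 2 + c3 * t ^ 3 + c4 * t ^ 4) :
    c1 ≤ 0 := by
  by_contra hc
  push Not at hc
  set M : ℝ := |c2| + |c3| + |c4| + 1 with hM
  have hM1 : 1 ≤ M := by
    have := abs_nonneg c2
    have := abs_nonneg c3
    have := abs_nonneg c4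
    linarith
  set ε : ℝ := min 1 (c1 / (2 * M)) with hε
  have hε0 : 0 < ε := lt_min one_pos (by positivity)
  have hε1 : ε ≤ 1 := min_le_left _ _
  have hε2 : ε * M ≤ c1 / 2 := by
    have h1 : ε ≤ c1 / (2 * M) := min_le_right _ _
    calc ε * M ≤ c1 / (2 * M) * M := mul_le_mul_of_nonneg_right h1 (by linarith)
      _ = c1 / 2 := by field_simp
  have h1 := h (-ε)
  have h2 : c2 * ε ^ 2 ≤ |c2| * ε ^ 2 := mul_le_mul_of_nonneg_right (le_abs_self _) (by positivity)
  have h3 : -(c3 * ε ^ 3) ≤ |c3| * ε ^ 2 := by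
    calc -(c3 * ε ^ 3) = (-c3) * ε ^ 3 := by ring
      _ ≤ |c3| * ε ^ 3 := mul_le_mul_of_nonneg_right (neg_le_abs _) (by positivity)
      _ ≤ |c3| * ε ^ 2 := mul_le_mul_of_nonneg_left
          (pow_le_pow_of_le_one hε0.le hε1 (by norm_num)) (abs_nonneg _)
  have h4 : c4 * ε ^ 4 ≤ |c4| * ε ^ 2 := by
    calc c4 * ε ^ 4 ≤ |c4| * ε ^ 4 := mul_le_mul_of_nonneg_right (le_abs_self _) (by positivity)
      _ ≤ |c4| * ε ^ 2 := mul_le_mul_of_nonneg_left
          (pow_le_pow_of_le_one hε0.le hε1 (by norm_num)) (abs_nonneg _)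
  have h5 : c1 * ε ≤ ε * (ε * M) := by
    have : 0 ≤ -(c1 * ε) + c2 * ε ^ 2 - c3 * ε ^ 3 + c4 * ε ^ 4 := by
      have e : c1 * -ε + c2 * (-ε) ^ 2 + c3 * (-ε) ^ 3 + c4 * (-ε) ^ 4 =
        -(c1 * ε) + c2 * ε ^ 2 - c3 * ε ^ 3 + c4 * ε ^ 4 := by ring
      rwa [e] at h1
    have hx : ε ^ 2 ≥ 0 := sq_nonneg _
    nlinarith
  have h6 : ε * (ε * M) ≤ ε * (c1 / 2) := mul_le_mul_of_nonneg_left hε2 hε0.le
  nlinarith

end Abs

end Pool.Agent.Lib.MP_d0f9e0_co.Gap
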