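import Pool.Agent.Lib.MP_d0f9e0_co.Gap.ModelData

set_option autoImplicit false

open Matrix
open scoped ComplexOrder

namespace Pool.Agent.Lib.MP_d0f9e0_co.Gap

section CB2

variable {n : Type*} [Fintype n] [DecidableEq n]

/-- Facts about a Hermitian matrix: some eigenvalue is at least a given Rayleigh quotient, and the
sum of squares of the eigenvalues is the trace of the square. -/
theorem exists_eig (S : Matrix n n ℂ) (hS : S.IsHermitian) (y : n → ℂ) (hy : star y ⬝ᵥ y = 1)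
    (X t2 : ℝ) (hX : star y ⬝ᵥ (S *ᵥ y) = (X : ℂ)) (ht : trace (S * S) = (t2 : ℂ)) :
    ∃ (lam : ℝ) (f : n → ℂ), star f ⬝ᵥ f = 1 ∧ S *ᵥ f = (lam : ℂ) • f ∧ X ≤ lam ∧
      lam ^ 2 ≤ t2 := by
  classical
  obtain ⟨U, hU⟩ : ∃ U : Matrix n n ℂ, U = (hS.eigenvectorUnitary : Matrix n n ℂ) := ⟨_, rfl⟩
  set ev := hS.eigenvalues with hev
  have hUU : Uᴴ * U = 1 := by
    rw [hU, ← Matrix.star_eq_conjTranspose]
    exact Unitary.coe_star_mul_self _
  have hUU' : U * Uᴴ = 1 := by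
    rw [hU, ← Matrix.star_eq_conjTranspose]
    exact Unitary.coe_mul_star_self _
  have hSU : Uᴴ * S * U = diagonal (fun i => (ev i : ℂ)) := by
    have := hS.conjStarAlgAut_star_eigenvectorUnitary
    rw [Unitary.conjStarAlgAut_star_apply] at this
    rw [hU, ← Matrix.star_eq_conjTranspose]
    exact this
  have hSU2 : S * U = U * diagonal (fun i => (ev i : ℂ)) := by
    rw [← hSU]
    calc S * U = (U * Uᴴ) * S * U := by rw [hUU', Matrix.one_mul]
      _ = _ := by simp only [Matrix.mul_assoc]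
  have hSdec : S = U * diagonal (fun i => (ev i : ℂ)) * Uᴴ := by
    rw [← hSU2, Matrix.mul_assoc, hUU', Matrix.mul_one]
  -- Rayleigh quotient
  obtain ⟨z, hz⟩ : ∃ z : n → ℂ, z = Uᴴ *ᵥ y := ⟨_, rfl⟩
  have hstarz : star z = star y ᵥ* U := by
    rw [hz, Matrix.star_mulVec, Matrix.conjTranspose_conjTranspose]
  have hz1 : ∑ i, ‖z i‖ ^ 2 = 1 := by
    have h1 : star z ⬝ᵥ z = 1 := by
      rw [hstarz, hz, ← Matrix.dotProduct_mulVec, Matrix.mulVec_mulVec, hUU', Matrix.one_mulVec, hy]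
    have h2 : star z ⬝ᵥ z = ((∑ i, ‖z i‖ ^ 2 : ℝ) : ℂ) := by
      rw [dotProduct]
      push_cast
      refine Finset.sum_congr rfl fun i _ => ?_
      rw [Pi.star_apply, Complex.star_def, ← Complex.normSq_eq_conj_mul_self,
        Complex.normSq_eq_norm_sq]
      push_cast; rfl
    rw [h2] at h1
    exact_mod_cast h1
  have hz2 : ∑ i, ev i * ‖z i‖ ^ 2 = X := by
    have h1 : star y ⬝ᵥ (S *ᵥ y) = ((∑ i, ev i * ‖z i‖ ^ 2 : ℝ) : ℂ) := by
      rw [hSdec, ← Matrix.mulVec_mulVec, ← hz, ← Matrix.mulVec_mulVec, Matrix.dotProduct_mulVec,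
        ← hstarz, dotProduct]
      push_cast
      refine Finset.sum_congr rfl fun i _ => ?_
      rw [Matrix.mulVec_diagonal, Pi.star_apply, Complex.star_def]
      have h2 : (starRingEnd ℂ) (z i) * z i = ((‖z i‖ ^ 2 : ℝ) : ℂ) := by
        rw [← Complex.normSq_eq_conj_mul_self, Complex.normSq_eq_norm_sq]
      push_cast at h2
      linear_combination (ev i : ℂ) * h2
    rw [h1] at hX
    exact_mod_cast hX
  have hex : ∃ i, X ≤ ev i := by
    by_contra hcon
    push Not at hcon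
    have h1 : ∑ i, (X - ev i) * ‖z i‖ ^ 2 = 0 := by
      simp only [sub_mul, Finset.sum_sub_distrib]
      rw [← Finset.mul_sum, hz1, hz2]
      ring
    have h2 : ∀ i ∈ Finset.univ, 0 ≤ (X - ev i) * ‖z i‖ ^ 2 := fun i _ =>
      mul_nonneg (by linarith [hcon i]) (sq_nonneg _)
    rw [Finset.sum_eq_zero_iff_of_nonneg h2] at h1
    have h3 : ∀ i, ‖z i‖ ^ 2 = 0 := by
      intro i
      rcases mul_eq_zero.mp (h1 i (Finset.mem_univ i)) with h4 | h4
      · exfalso; linarith [hcon i]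
      · exact h4
    simp only [h3, Finset.sum_const_zero] at hz1
    exact zero_ne_one hz1
  obtain ⟨i, hi⟩ := hex
  have htr : ∑ j, ev j ^ 2 = t2 := by
    have h1 : trace (S * S) = trace ((Uᴴ * S * U) * (Uᴴ * S * U)) := by
      have : (Uᴴ * S * U) * (Uᴴ * S * U) = Uᴴ * (S * S * U) := by
        calc (Uᴴ * S * U) * (Uᴴ * S * U) = Uᴴ * S * (U * Uᴴ) * S * U := by
              simp only [Matrix.mul_assoc]
          _ = _ := by rw [hUU', Matrix.mul_one]; simp only [Matrix.mul_assoc]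
      rw [this, Matrix.trace_mul_comm Uᴴ, Matrix.mul_assoc (S * S), hUU', Matrix.mul_one]
    rw [h1, hSU, Matrix.diagonal_mul_diagonal, Matrix.trace_diagonal] at ht
    have h2 : ((∑ j, ev j ^ 2 : ℝ) : ℂ) = (t2 : ℂ) := by
      rw [← ht]
      push_cast
      refine Finset.sum_congr rfl fun j _ => ?_
      ring
    exact_mod_cast h2
  refine ⟨ev i, fun j => U j i, ?_, ?_, hi, ?_⟩
  · have h1 := congrFun (congrFun hUU i) i
    rw [Matrix.mul_apply, Matrix.one_apply_eq] at h1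
    rw [← h1]
    rfl
  · funext j
    have h1 := congrFun (congrFun hSU2 j) i
    rw [Matrix.mul_diagonal] at h1
    rw [Pi.smul_apply, smul_eq_mul, mul_comm, ← h1]
    rfl
  · rw [← htr]
    exact Finset.single_le_sum (f := fun j => ev j ^ 2) (fun j _ => sq_nonneg _)
      (Finset.mem_univ i)

theorem final_ineq (d N k : ℕ) (α X lam : ℝ) (hα0 : 0 ≤ α) (hα1 : α < 1)
    (hX : X = 1 + ((N : ℝ) - 1) * α) (hXd : (d : ℝ) < X) (hNk : N + k = d ^ 2)
    (hkd : k + 2 ≤ d) (h1 : X ≤ lam) (h2 : lam ^ 2 ≤ N * X)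
    (h3 : 0 ≤ α * lam ^ 2 - X * lam + (1 - α) * d * X) : False := by
  have hd2 : (2 : ℝ) ≤ d := by
    have : 2 ≤ d := by omega
    exact_mod_cast this
  have hkR : (k : ℝ) + 2 ≤ d := by exact_mod_cast hkd
  have hk0 : (0 : ℝ) ≤ k := Nat.cast_nonneg k
  have hNR : (N : ℝ) + k = (d : ℝ) ^ 2 := by exact_mod_cast hNk
  have hX0 : 0 < X := by linarith
  have hM : (d : ℝ) ^ 2 - 2 * d + 2 ≤ (N : ℝ) - d := by linarith
  have hN1 : 1 ≤ (N : ℝ) - 1 := by nlinarith
  -- α (N-d)^2 > k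
  have hkey : (k : ℝ) < α * ((N : ℝ) - d) ^ 2 := by
    have e1 : (d : ℝ) - 1 < α * ((N : ℝ) - 1) := by
      have : X - 1 = α * ((N : ℝ) - 1) := by rw [hX]; ring
      linarith
    have e2 : (N : ℝ) - 1 ≤ ((N : ℝ) - d) ^ 2 := by
      obtain ⟨M, hM'⟩ : ∃ M : ℝ, M = (N : ℝ) - d := ⟨_, rfl⟩
      have f1 : (d : ℝ) - 1 ≤ M - 1 := by nlinarith
      have f2 : 1 ≤ M := by nlinarith
      have f3 : (M - 1) ≤ M * (M - 1) := by nlinarith
      rw [← hM']
      have f4 : (N : ℝ) - 1 = M + (d - 1) := by rw [hM']; ring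
      rw [f4]
      nlinarith
    have e3 : (k : ℝ) * ((N : ℝ) - 1) < α * ((N : ℝ) - 1) * ((N : ℝ) - d) ^ 2 := by
      have e4 : 0 < ((N : ℝ) - d) ^ 2 := by linarith
      calc (k : ℝ) * ((N : ℝ) - 1) ≤ (k : ℝ) * ((N : ℝ) - d) ^ 2 :=
            mul_le_mul_of_nonneg_left e2 hk0
        _ < α * ((N : ℝ) - 1) * ((N : ℝ) - d) ^ 2 := by
            apply mul_lt_mul_of_pos_right _ e4
            linarith
    nlinarith
  have hNX0 : 0 ≤ (N : ℝ) * X := (sq_nonneg lam).trans h2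
  obtain ⟨y, hy⟩ : ∃ y : ℝ, y = Real.sqrt (N * X) := ⟨_, rfl⟩
  have hy2 : y ^ 2 = N * X := by rw [hy, Real.sq_sqrt hNX0]
  have hy0 : 0 ≤ y := by rw [hy]; exact Real.sqrt_nonneg _
  have hly : lam ≤ y := by
    rw [hy]
    exact Real.le_sqrt_of_sq_le h2
  have hα1' : 0 < 1 - α := by linarith
  have hgap : (α * N + (1 - α) * d) ^ 2 < N * X := by
    have e1 : (N : ℝ) * X - (α * N + (1 - α) * d) ^ 2 = (1 - α) * (α * ((N : ℝ) - d) ^ 2 - k) := by
      have : (k : ℝ) = (d : ℝ) ^ 2 - N := by linarith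
      rw [hX, this]; ring
    have e2 : 0 < (1 - α) * (α * ((N : ℝ) - d) ^ 2 - k) := mul_pos hα1' (by linarith)
    linarith
  have hyy : α * N + (1 - α) * d < y := by
    rw [← hy2] at hgap
    exact lt_of_pow_lt_pow_left₀ 2 hy0 hgap
  have hl1 : α * lam ^ 2 ≤ α * ((X + y) * lam - X * y) := by
    apply mul_le_mul_of_nonneg_left _ hα0
    nlinarith
  -- values at the ends
  have hfX : α * ((X + y) * X - X * y) - X * X + (1 - α) * d * X < 0 := by
    have : α * ((X + y) * X - X * y) - X * X + (1 - α) * d * X = (1 - α) * X * (d - X) := by ring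
    rw [this]
    exact mul_neg_of_pos_of_neg (mul_pos hα1' hX0) (by linarith)
  have hfy : α * ((X + y) * y - X * y) - X * y + (1 - α) * d * X < 0 := by
    have : α * ((X + y) * y - X * y) - X * y + (1 - α) * d * X =
        X * (α * N - y + (1 - α) * d) := by
      have : α * ((X + y) * y - X * y) = α * y ^ 2 := by ring
      rw [this, hy2]; ring
    rw [this]
    exact mul_neg_of_pos_of_neg hX0 (by linarith)
  have hl2 : 0 ≤ α * ((X + y) * lam - X * y) - X * lam + (1 - α) * d * X := by linarith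
  rcases (h1.trans hly).lt_or_eq with hlt | heq
  · have e1 : (y - X) * (α * ((X + y) * lam - X * y) - X * lam + (1 - α) * d * X) =
        (y - lam) * (α * ((X + y) * X - X * y) - X * X + (1 - α) * d * X) +
        (lam - X) * (α * ((X + y) * y - X * y) - X * y + (1 - α) * d * X) := by ring
    have e2 : 0 ≤ (y - X) * (α * ((X + y) * lam - X * y) - X * lam + (1 - α) * d * X) :=
      mul_nonneg (by linarith) hl2
    rcases h1.lt_or_eq with hlt2 | heq2
    · have e3 : (lam - X) * (α * ((X + y) * y - X * y) - X * y + (1 - α) * d * X) < 0 :=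
        mul_neg_of_pos_of_neg (by linarith) hfy
      have e4 : (y - lam) * (α * ((X + y) * X - X * y) - X * X + (1 - α) * d * X) ≤ 0 :=
        mul_nonpos_of_nonneg_of_nonpos (by linarith) hfX.le
      linarith
    · rw [← heq2] at hl2
      linarith
  · have e1 : lam = X := le_antisymm (by linarith) h1
    rw [e1] at hl2
    linarith

theorem case_B2 {κ : Type*} [Fintype κ] (x : κ → n → ℂ) (d : ℕ) (hd : Fintype.card n = d)
    (hx : ∀ i, star (x i) ⬝ᵥ x i = 1) (α : ℝ) (hα0 : 0 ≤ α) (hα1 : α < 1)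
    (hxy : ∀ i j, i ≠ j → ‖star (x i) ⬝ᵥ x j‖ ^ 2 = α) (X : ℝ)
    (hX : X = 1 + ((Fintype.card κ : ℝ) - 1) * α) (i₀ : κ) (hXd : (d : ℝ) < X)
    (k : ℕ) (hNk : Fintype.card κ + k = d ^ 2) (hkd : k + 2 ≤ d)
    (G : Fin k → Matrix n n ℂ) (hG : ∀ a, (G a).IsHermitian)
    (hT1 : ∀ p q r s, ∑ i, vecMulVec (x i) (star (x i)) p q * vecMulVec (x i) (star (x i)) r s
        - ((α / X : ℝ) : ℂ) * ((∑ i, vecMulVec (x i) (star (x i))) p q *
            (∑ i, vecMulVec (x i) (star (x i))) r s)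
        + ((1 - α : ℝ) : ℂ) * ∑ a, G a p q * G a r s =
        ((1 - α : ℝ) : ℂ) * ((if p = s then 1 else 0) * (if q = r then 1 else 0))) : False := by
  classical
  have hX0 : 0 < X := lt_of_le_of_lt (Nat.cast_nonneg d) hXd
  obtain ⟨S, hS⟩ : ∃ S : Matrix n n ℂ, S = ∑ i, vecMulVec (x i) (star (x i)) := ⟨_, rfl⟩
  rw [← hS] at hT1
  have hSH : S.IsHermitian := by
    rw [hS, Matrix.IsHermitian, Matrix.conjTranspose_sum]
    exact Finset.sum_congr rfl fun i _ => (proj_isHermitian _)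
  have hrow : ∀ i, ∑ j, ‖star (x i) ⬝ᵥ x j‖ ^ 2 = X := by
    intro i
    have h1 : ∀ j, ‖star (x i) ⬝ᵥ x j‖ ^ 2 = (if i = j then 1 - α else 0) + α := by
      intro j
      by_cases h : i = j
      · rw [if_pos h, ← h, hx]; simp
      · rw [if_neg h, hxy i j h, zero_add]
    simp only [h1, Finset.sum_add_distrib, Finset.sum_ite_eq, Finset.mem_univ, if_true,
      Finset.sum_const, Finset.card_univ, nsmul_eq_mul]
    rw [hX]; ring
  have hSx : star (x i₀) ⬝ᵥ (S *ᵥ x i₀) = (X : ℂ) := by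
    rw [hS, Matrix.sum_mulVec, dotProduct_sum, ← hrow i₀]
    push_cast
    refine Finset.sum_congr rfl fun j _ => ?_
    rw [Matrix.vecMulVec_mulVec]
    have h1 : star (x j) ⬝ᵥ x i₀ = star (star (x i₀) ⬝ᵥ x j) := by
      rw [← Matrix.star_dotProduct_star, star_star, dotProduct_comm]
    rw [h1, Complex.star_def]
    change star (x i₀) ⬝ᵥ (MulOpposite.op ((starRingEnd ℂ) (star (x i₀) ⬝ᵥ x j)) • x j) = _
    rw [dotProduct_smul, op_smul_eq_mul, Complex.mul_conj, Complex.normSq_eq_norm_sq]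
    push_cast; rfl
  have hSS : trace (S * S) = (((Fintype.card κ : ℝ) * X : ℝ) : ℂ) := by
    rw [hS, Matrix.sum_mul, Matrix.trace_sum]
    have h1 : ∀ i, trace (vecMulVec (x i) (star (x i)) * ∑ j, vecMulVec (x j) (star (x j))) =
        (X : ℂ) := by
      intro i
      rw [Matrix.mul_sum, Matrix.trace_sum, ← hrow i]
      push_cast
      refine Finset.sum_congr rfl fun j _ => ?_
      rw [trace_proj_mul]
      push_cast; rfl
    simp only [h1, Finset.sum_const, Finset.card_univ, nsmul_eq_mul]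
    push_cast; rfl
  obtain ⟨lam, f, hf1, hf2, hl1, hl2⟩ := exists_eig S hSH (x i₀) (hx i₀) X
    ((Fintype.card κ : ℝ) * X) hSx hSS
  -- contraction
  have hmat : S - ((α / X : ℝ) : ℂ) • (S * S) + ((1 - α : ℝ) : ℂ) • ∑ a, G a * G a =
      (((1 - α) * d : ℝ) : ℂ) • 1 := by
    ext p s
    have h1 : ∑ q, (∑ i, vecMulVec (x i) (star (x i)) p q * vecMulVec (x i) (star (x i)) q s
        - ((α / X : ℝ) : ℂ) * (S p q * S q s)
        + ((1 - α : ℝ) : ℂ) * ∑ a, G a p q * G a q s) =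
        ∑ q : n, ((1 - α : ℝ) : ℂ) * ((if p = s then 1 else 0) * (if q = q then 1 else 0)) :=
      Finset.sum_congr rfl fun q _ => hT1 p q q s
    have e1 : ∑ q, ∑ i, vecMulVec (x i) (star (x i)) p q * vecMulVec (x i) (star (x i)) q s =
        S p s := by
      rw [Finset.sum_comm, hS, Matrix.sum_apply]
      refine Finset.sum_congr rfl fun i _ => ?_
      have h2 : vecMulVec (x i) (star (x i)) * vecMulVec (x i) (star (x i)) =
          vecMulVec (x i) (star (x i)) := by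
        rw [Matrix.vecMulVec_mul_vecMulVec, hx, one_smul]
      rw [← Matrix.mul_apply, h2]
    have e2 : ∑ q, ((α / X : ℝ) : ℂ) * (S p q * S q s) = ((α / X : ℝ) : ℂ) * (S * S) p s := by
      rw [Matrix.mul_apply, Finset.mul_sum]
    have e3 : ∑ q, ((1 - α : ℝ) : ℂ) * ∑ a, G a p q * G a q s =
        ((1 - α : ℝ) : ℂ) * (∑ a, G a * G a) p s := by
      rw [← Finset.mul_sum, Finset.sum_comm, Matrix.sum_apply]
      congr 1
    simp only [Finset.sum_add_distrib, Finset.sum_sub_distrib] at h1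
    rw [e1, e2, e3] at h1
    simp only [Matrix.add_apply, Matrix.sub_apply, Matrix.smul_apply, smul_eq_mul]
    rw [h1]
    simp only [if_true, mul_one, Finset.sum_const, Finset.card_univ, hd, nsmul_eq_mul]
    rw [Matrix.one_apply]
    push_cast
    ring
  have hquad : (lam : ℝ) - α / X * lam ^ 2 ≤ (1 - α) * d := by
    have h1 := congrArg (fun M => star f ⬝ᵥ (M *ᵥ f)) hmat
    simp only [Matrix.add_mulVec, Matrix.sub_mulVec, Matrix.smul_mulVec, dotProduct_add,
      dotProduct_sub, dotProduct_smul, Matrix.one_mulVec, hf1, smul_eq_mul, mul_one] at h1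
    have e1 : star f ⬝ᵥ (S *ᵥ f) = (lam : ℂ) := by
      rw [hf2, dotProduct_smul, hf1, smul_eq_mul, mul_one]
    have e2 : star f ⬝ᵥ ((S * S) *ᵥ f) = ((lam ^ 2 : ℝ) : ℂ) := by
      rw [← Matrix.mulVec_mulVec, hf2, Matrix.mulVec_smul, hf2, dotProduct_smul, dotProduct_smul,
        hf1, smul_eq_mul, smul_eq_mul]
      push_cast; ring
    have e3 : ∃ r : ℝ, 0 ≤ r ∧ star f ⬝ᵥ ((∑ a, G a * G a) *ᵥ f) = (r : ℂ) := by
      refine ⟨∑ a, (star (G a *ᵥ f) ⬝ᵥ (G a *ᵥ f)).re, ?_, ?_⟩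
      · refine Finset.sum_nonneg fun a _ => ?_
        have := dotProduct_star_self_nonneg (G a *ᵥ f)
        exact (Complex.le_def.mp this).1
      · rw [Matrix.sum_mulVec, dotProduct_sum]
        push_cast
        refine Finset.sum_congr rfl fun a _ => ?_
        have h2 : star f ⬝ᵥ ((G a * G a) *ᵥ f) = star (G a *ᵥ f) ⬝ᵥ (G a *ᵥ f) := by
          rw [← Matrix.mulVec_mulVec, Matrix.star_mulVec, (hG a).eq, Matrix.dotProduct_mulVec]
        rw [h2]
        have h3 := dotProduct_star_self_nonneg (G a *ᵥ f)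
        have h4 := (Complex.le_def.mp h3).2
        apply Complex.ext
        · simp
        · simpa using h4.symm
    obtain ⟨r, hr0, hr⟩ := e3
    rw [e1, e2, hr] at h1
    have h5 : lam - α / X * lam ^ 2 + (1 - α) * r = (1 - α) * d := by exact_mod_cast h1
    have : 0 ≤ (1 - α) * r := mul_nonneg (by linarith) hr0
    linarith
  refine final_ineq d (Fintype.card κ) k α X lam hα0 hα1 hX hXd hNk hkd hl1 hl2 ?_
  have h6 : X * (lam - α / X * lam ^ 2) ≤ X * ((1 - α) * d) :=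
    mul_le_mul_of_nonneg_left hquad hX0.le
  have h7 : X * (lam - α / X * lam ^ 2) = X * lam - α * lam ^ 2 := by
    field_simp
  rw [h7] at h6
  linarith

end CB2

end Pool.Agent.Lib.MP_d0f9e0_co.Gap
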