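import Pool.Agent.Lib.MP_d0f9e0_co.Gap.Cases
import Pool.Agent.Lib.MP_d0f9e0_co.Gap.CaseB2

set_option autoImplicit false

open Matrix
open scoped ComplexOrder

namespace Pool.Agent.Lib.MP_d0f9e0_co.Gap

section AF

variable {n : Type*} [Fintype n] [DecidableEq n]

theorem angle_forced {κ : Type*} [Fintype κ] (x : κ → n → ℂ) (d : ℕ) (hd : Fintype.card n = d)
    (hx : ∀ i, star (x i) ⬝ᵥ x i = 1) (α : ℝ) (hα0 : 0 ≤ α) (hα1 : α < 1)
    (hxy : ∀ i j, i ≠ j → ‖star (x i) ⬝ᵥ x j‖ ^ 2 = α)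
    (h2 : 2 ≤ Fintype.card κ) (hbig : d ^ 2 + 1 < Fintype.card κ + d) :
    α * ((d : ℝ) + 1) = 1 := by
  classical
  obtain ⟨N, hN⟩ : ∃ N : ℕ, N = Fintype.card κ := ⟨_, rfl⟩
  have hNR : (2 : ℝ) ≤ N := by rw [hN]; exact_mod_cast h2
  obtain ⟨X, hX⟩ : ∃ X : ℝ, X = 1 + ((Fintype.card κ : ℝ) - 1) * α := ⟨_, rfl⟩
  have hX' : X = 1 + ((N : ℝ) - 1) * α := by rw [hX, hN]
  have hX1 : 1 ≤ X := by
    rw [hX']
    have : 0 ≤ ((N : ℝ) - 1) * α := mul_nonneg (by linarith) hα0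
    linarith
  have hX0 : 0 < X := by linarith
  have hne : Nonempty κ := by
    rw [← Fintype.card_pos_iff]; omega
  obtain ⟨i₀⟩ := hne
  obtain ⟨k, G, ν, hNk, hGH, hGG, hGν, hGP, hS, hν, hT1⟩ :=
    model_data x d hd hx α hα0 hα1 hxy X hX hX0
  rw [← hN] at hNk hbig hν
  have hkd : k + 2 ≤ d := by omega
  have hkR : (k : ℝ) + 2 ≤ d := by exact_mod_cast hkd
  have hNkR : (N : ℝ) + k = (d : ℝ) ^ 2 := by exact_mod_cast hNk
  have hk0 : (0 : ℝ) ≤ k := Nat.cast_nonneg k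
  have hF := sym_form x k G ν α X hα1 hX0 hS hT1 (1 - ∑ a, (ν a : ℂ) • G a) rfl
  obtain ⟨ν2, hν2⟩ : ∃ ν2 : ℝ, ν2 = (d : ℝ) - N / X := ⟨_, rfl⟩
  rw [← hν2] at hν
  have hν0 : 0 ≤ ν2 := by rw [← hν]; exact Finset.sum_nonneg fun a _ => sq_nonneg _
  have hα1' : 0 < 1 - α := by linarith
  obtain ⟨c, hc⟩ : ∃ c : ℝ, c = α * X / (1 - α) := ⟨_, rfl⟩
  rw [← hc] at hF
  have hc0 : 0 ≤ c := by rw [hc]; exact div_nonneg (mul_nonneg hα0 hX0.le) hα1'.le
  -- basic relation
  have hcα : c * (1 - α) = α * X := by rw [hc]; field_simp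
  have hXν : X * ν2 = d * X - N := by rw [hν2]; field_simp
  have hcU : (1 - c * (1 + ν2)) * (1 - α) = X * (1 - α * (d + 1)) := by
    have e1 : (1 - c * (1 + ν2)) * (1 - α) = (1 - α) - (c * (1 - α)) * (1 + ν2) := by ring
    rw [e1, hcα]
    have e2 : α * X * (1 + ν2) = α * (X + X * ν2) := by ring
    rw [e2, hXν]
    have e3 : 1 - α = X - α * N := by rw [hX']; ring
    rw [e3]; ring
  rcases lt_trichotomy (α * ((d : ℝ) + 1)) 1 with hlt | heq | hgt
  · exfalso
    -- positive definite case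
    obtain ⟨D, hD⟩ : ∃ D : ℝ, D = 1 - c * (1 + ν2) := ⟨_, rfl⟩
    have hD0 : 0 < D := by
      rw [← hD] at hcU
      have e1 : 0 < X * (1 - α * (d + 1)) := mul_pos hX0 (by linarith)
      rw [← hcU] at e1
      exact pos_of_mul_pos_left e1 hα1'.le
    obtain ⟨rt, hrt⟩ : ∃ rt : ℝ, rt = Real.sqrt D := ⟨_, rfl⟩
    have hrt2 : rt ^ 2 = D := by rw [hrt, Real.sq_sqrt hD0.le]
    have hrt0 : 0 < rt := by rw [hrt]; exact Real.sqrt_pos.mpr hD0
    have hU0 : 0 < 1 + ν2 := by linarith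
    obtain ⟨c', hc'⟩ : ∃ c' : ℝ, c' = (1 - rt) / (1 + ν2) := ⟨_, rfl⟩
    have hc'U : c' * (1 + ν2) = 1 - rt := by rw [hc']; field_simp
    have h1 := case_A k G hGH ν c ν2 c' hν (1 - ∑ a, (ν a : ℂ) • G a) rfl hF (by
        have e1 : (c' ^ 2 * (1 + ν2) - 2 * c' + c) * (1 + ν2) = 0 := by
          have e2 : (c' ^ 2 * (1 + ν2) - 2 * c' + c) * (1 + ν2) =
            (c' * (1 + ν2)) ^ 2 - 2 * (c' * (1 + ν2)) + c * (1 + ν2) := by ring
          rw [e2, hc'U]
          have e3 : c * (1 + ν2) = 1 - D := by rw [hD]; ring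
          rw [e3, ← hrt2]; ring
        rcases mul_eq_zero.mp e1 with h | h
        · linarith
        · exfalso; linarith) (by rw [hc'U]; intro h; linarith)
    rw [hd] at h1
    omega
  · exact heq
  · exfalso
    have hUneg : 0 < c * (1 + ν2) - 1 := by
      have e1 : X * (1 - α * (d + 1)) < 0 := mul_neg_of_pos_of_neg hX0 (by linarith)
      rw [← hcU] at e1
      by_contra hcon
      push Not at hcon
      have : 0 ≤ (1 - c * (1 + ν2)) * (1 - α) := mul_nonneg (by linarith) hα1'.le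
      linarith
    rcases lt_or_ge (c * ν2) 1 with hs | hs
    · obtain ⟨t2, ht2⟩ : ∃ t2 : ℝ, t2 = Real.sqrt (1 - c * ν2) := ⟨_, rfl⟩
      have ht22 : t2 ^ 2 = 1 - c * ν2 := by rw [ht2, Real.sq_sqrt (by linarith)]
      have ht20 : 0 < t2 := by rw [ht2]; exact Real.sqrt_pos.mpr (by linarith)
      obtain ⟨s', hs'⟩ : ∃ s' : ℝ, s' = c / (1 + t2) := ⟨_, rfl⟩
      have hs'ν : s' * ν2 = 1 - t2 := by
        rw [hs']
        have : c * ν2 = (1 - t2) * (1 + t2) := by nlinarith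
        field_simp
        linarith
      obtain ⟨r', hr'⟩ : ∃ r' : ℝ, r' = c / t2 := ⟨_, rfl⟩
      obtain ⟨μ2, hμ2⟩ : ∃ μ2 : ℝ, μ2 = (c * (1 + ν2) - 1) / t2 ^ 2 := ⟨_, rfl⟩
      have h1 := case_B1 k G hGH hGG ν hGν (x i₀) (hx i₀) (fun a => hGP a i₀) c ν2 s' r' μ2 hν
        (1 - ∑ a, (ν a : ℂ) • G a) rfl hF (by
          have e1 : 2 * s' - s' ^ 2 * ν2 = s' * (2 - s' * ν2) := by ring
          rw [e1, hs'ν, hs']
          field_simp
          ring) (by
          rw [hs'ν, hr']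
          field_simp
          ring) (by
          rw [hμ2, hr']
          have : (c / t2) ^ 2 * ν2 - (c * (1 + ν2) - 1) / t2 ^ 2 =
            (c * (c * ν2) - c - c * ν2 + 1) / t2 ^ 2 := by
            field_simp
            ring
          rw [this]
          have e1 : c * ν2 = 1 - t2 ^ 2 := by linarith
          rw [e1]
          field_simp
          ring) (by rw [hμ2]; positivity) (by rw [hs'ν]; intro h; linarith)
      rw [hd] at h1
      omega
    · -- then X > d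
      have hXd : (d : ℝ) < X := by
        by_contra hcon
        push Not at hcon
        have e1 : α * (d * X - N) ≥ 1 - α := by
          have : c * ν2 * (1 - α) ≥ 1 * (1 - α) := mul_le_mul_of_nonneg_right hs hα1'.le
          have e2 : c * ν2 * (1 - α) = α * (X * ν2) := by
            calc c * ν2 * (1 - α) = (c * (1 - α)) * ν2 := by ring
              _ = α * (X * ν2) := by rw [hcα]; ring
          rw [e2, hXν] at this
          linarith
        have e3 : ((N : ℝ) - 1) * (α * (d * X - N)) = (X - 1) * (d * X - N) := by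
          rw [hX']; ring
        have e4 : ((N : ℝ) - 1) * (1 - α) = N - X := by rw [hX']; ring
        have e5 : (N : ℝ) - X ≤ (X - 1) * (d * X - N) := by
          rw [← e3, ← e4]
          exact mul_le_mul_of_nonneg_left e1 (by linarith)
        have e6 : 0 ≤ d * X - N := by rw [← hXν]; positivity
        have hd0 : (0 : ℝ) ≤ d := Nat.cast_nonneg d
        have e7 : d * X - N ≤ k := by nlinarith
        have e8 : (X - 1) * (d * X - N) ≤ (d - 1) * k := by
          apply mul_le_mul (by linarith) e7 e6 (by linarith)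
        nlinarith
      exact case_B2 x d hd hx α hα0 hα1 hxy X hX i₀ hXd k (by rw [← hN]; exact hNk) hkd G hGH hT1

end AF

end Pool.Agent.Lib.MP_d0f9e0_co.Gap
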