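import Pool.Agent.Lib.MP_d0f9e0_co.Gap.Lorentz1

set_option autoImplicit false

open Matrix
open scoped ComplexOrder

namespace Pool.Agent.Lib.MP_d0f9e0_co.Gap

section Lor2

variable {H : Type*} [NormedAddCommGroup H] [InnerProductSpace ℂ H]
variable {ι : Type*} [Fintype ι]
variable [FiniteDimensional ℂ H]

theorem lorentz_case2 (T : ι → H →ₗ[ℂ] H) (hT : ∀ a, (T a).IsSymmetric) (μ2 : ℝ)
    (hμ : 0 < μ2) (hI : Sgn T μ2) (u : H) (hu : ‖u‖ = 1) (e : ι → ℝ)
    (he : e = fun a => (inner ℂ u (T a u)).re) (hg : ∑ a, e a ^ 2 = μ2)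
    (hAu : opA T e u = (μ2 : ℂ) • u) (hne : opA T e ≠ (μ2 : ℂ) • LinearMap.id) :
    Module.finrank ℂ H ≤ Fintype.card ι := by
  classical
  obtain ⟨D, hD⟩ : ∃ D : H →ₗ[ℂ] H, D = opA T e - (μ2 : ℂ) • LinearMap.id := ⟨_, rfl⟩
  let L : ι → H →ₗ[ℂ] H := fun a => T a - (e a : ℂ) • LinearMap.id
  have hLapp : ∀ a x y, (inner ℂ x (T a y)) = (inner ℂ x (L a y)) + (e a : ℂ) * (inner ℂ x y) := by
    intro a x y
    simp only [L, LinearMap.sub_apply, LinearMap.smul_apply, LinearMap.id_coe, id_eq]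
    rw [inner_sub_right, inner_smul_right]
    ring
  have hLs : ∀ a, (L a).IsSymmetric := by
    intro a x y
    have h1 : (inner ℂ (L a x) y) = (inner ℂ (T a x) y) - (e a : ℂ) * (inner ℂ x y) := by
      simp only [L, LinearMap.sub_apply, LinearMap.smul_apply, LinearMap.id_coe, id_eq]
      rw [inner_sub_left, inner_smul_left, Complex.conj_ofReal]
    rw [h1, hT a, hLapp]
    ring
  have hDapp : ∀ x y, (inner ℂ x (D y)) = (inner ℂ x (opA T e y)) - (μ2 : ℂ) * (inner ℂ x y) := by
    intro x y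
    rw [hD]
    simp only [LinearMap.sub_apply, LinearMap.smul_apply, LinearMap.id_coe, id_eq]
    rw [inner_sub_right, inner_smul_right]
  have hDs : ∀ x y, (inner ℂ (D x) y) = (inner ℂ x (D y)) := by
    intro x y
    rw [hDapp, ← opA_symm T hT e x y, hD]
    simp only [LinearMap.sub_apply, LinearMap.smul_apply, LinearMap.id_coe, id_eq]
    rw [inner_sub_left, inner_smul_left, Complex.conj_ofReal]
  have hg' : ∑ a, (e a : ℂ) ^ 2 = (μ2 : ℂ) := by
    rw [← hg]; push_cast; rfl
  have hsumL : ∀ x y, ∑ a, (e a : ℂ) * (inner ℂ x (L a y)) = (inner ℂ x (D y)) := by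
    intro x y
    rw [hDapp, inner_opA, ← hg', Finset.sum_mul, ← Finset.sum_sub_distrib]
    refine Finset.sum_congr rfl fun a _ => ?_
    rw [hLapp]
    ring
  have hexp : ∀ p q r s, ∑ a, (inner ℂ p (T a q)) * (inner ℂ r (T a s)) = ∑ a, (inner ℂ p (L a q)) * (inner ℂ r (L a s)) +
      (inner ℂ r s) * (inner ℂ p (D q)) + (inner ℂ p q) * (inner ℂ r (D s)) + (μ2 : ℂ) * ((inner ℂ p q) * (inner ℂ r s)) := by
    intro p q r s
    rw [← hsumL, ← hsumL, ← hg', Finset.mul_sum, Finset.mul_sum, Finset.sum_mul,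
      ← Finset.sum_add_distrib, ← Finset.sum_add_distrib, ← Finset.sum_add_distrib]
    refine Finset.sum_congr rfl fun a _ => ?_
    rw [hLapp, hLapp]
    ring
  have J : ∀ p q r s, ∑ a, (inner ℂ p (L a q)) * (inner ℂ r (L a s)) + (inner ℂ r s) * (inner ℂ p (D q)) + (inner ℂ p q) * (inner ℂ r (D s)) =
      ∑ a, (inner ℂ p (L a s)) * (inner ℂ r (L a q)) + (inner ℂ r q) * (inner ℂ p (D s)) + (inner ℂ p s) * (inner ℂ r (D q)) := by
    intro p q r s
    have h1 := hI p q r s
    rw [hexp p q r s, hexp p s r q] at h1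
    linear_combination h1
  have hDu : D u = 0 := by
    rw [hD]
    simp only [LinearMap.sub_apply, LinearMap.smul_apply, LinearMap.id_coe, id_eq]
    rw [hAu, sub_self]
  have huu : (inner ℂ u u) = 1 := by rw [inner_self_eq_norm_sq_to_K, hu]; simp
  have huL : ∀ a, (inner ℂ u (L a u)) = 0 := by
    intro a
    have h1 := hLapp a u u
    rw [huu, sym_re (T a) (hT a) u, he] at h1
    linear_combination - h1
  have h2 : ∀ w z, (inner ℂ w (D z)) = ∑ a, (inner ℂ w (L a u)) * (inner ℂ u (L a z)) := by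
    intro w z
    have h1 := J w u u z
    rw [hDu, inner_zero_right, inner_zero_right, ← hDs u z, hDu, inner_zero_left, huu] at h1
    have h3 : ∑ a, (inner ℂ w (L a z)) * (inner ℂ u (L a u)) = 0 :=
      Finset.sum_eq_zero fun a _ => by rw [huL a, mul_zero]
    rw [h3] at h1
    linear_combination - h1
  have hpos : ∀ z, (inner ℂ z (D z)) = 0 → (∀ a, (inner ℂ u (L a z)) = 0) ∧ D z = 0 := by
    intro z hz
    rw [h2] at hz
    have h3 : ∀ a, (inner ℂ z (L a u)) * (inner ℂ u (L a z)) = ((‖(inner ℂ u (L a z))‖ ^ 2 : ℝ) : ℂ) := by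
      intro a
      have h4 : (inner ℂ z (L a u)) = (starRingEnd ℂ) (inner ℂ u (L a z)) := by
        rw [inner_conj_symm, hLs a]
      rw [h4, mul_comm, Complex.mul_conj, Complex.normSq_eq_norm_sq]
    simp only [h3] at hz
    have h5 : ∑ a, ‖(inner ℂ u (L a z))‖ ^ 2 = 0 := by
      rw [← Complex.ofReal_sum] at hz
      exact_mod_cast hz
    rw [Finset.sum_eq_zero_iff_of_nonneg (fun a _ => sq_nonneg _)] at h5
    have h6 : ∀ a, (inner ℂ u (L a z)) = 0 := by
      intro a
      have := h5 a (Finset.mem_univ a)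
      simpa using this
    refine ⟨h6, ?_⟩
    have h7 : ∀ w, (inner ℂ w (D z)) = 0 := by
      intro w
      rw [h2]
      exact Finset.sum_eq_zero fun a _ => by rw [h6 a, mul_zero]
    exact inner_self_eq_zero.mp (h7 (D z))
  -- subspaces
  obtain ⟨KK, hKK⟩ : ∃ KK : Submodule ℂ H, KK = LinearMap.ker D := ⟨_, rfl⟩
  have hK : ∀ x, x ∈ KK ↔ D x = 0 := by intro x; rw [hKK]; exact LinearMap.mem_ker
  obtain ⟨NN, hNN⟩ : ∃ NN : Submodule ℂ H, NN = KK ⊓ ⨅ a, (KKᗮ).comap (L a) := ⟨_, rfl⟩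
  have hN : ∀ x, x ∈ NN ↔ x ∈ KK ∧ ∀ a, L a x ∈ KKᗮ := by
    intro x
    rw [hNN, Submodule.mem_inf, Submodule.mem_iInf]
    rfl
  have hNK : NN ≤ KK := fun x hx => ((hN x).mp hx).1
  have hNL : ∀ w ∈ NN, ∀ a, ∀ x ∈ KK, (inner ℂ x (L a w)) = 0 := by
    intro w hw a x hx
    exact Submodule.inner_right_of_mem_orthogonal hx (((hN w).mp hw).2 a)
  have huN : u ∈ NN := by
    rw [hN]
    refine ⟨(hK u).mpr hDu, fun a => ?_⟩
    rw [Submodule.mem_orthogonal]
    intro x hx
    have h3 : (inner ℂ x (D x)) = 0 := by rw [(hK x).mp hx, inner_zero_right]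
    have h4 := (hpos x h3).1 a
    rw [← hLs a] at h4
    rw [← inner_conj_symm, h4, map_zero]
  obtain ⟨PP, hPP⟩ : ∃ PP : Submodule ℂ H, PP = NNᗮ ⊓ KK := ⟨_, rfl⟩
  have hP : ∀ x, x ∈ PP ↔ x ∈ NNᗮ ∧ x ∈ KK := by intro x; rw [hPP, Submodule.mem_inf]
  have hdim1 : Module.finrank ℂ NN + Module.finrank ℂ PP = Module.finrank ℂ KK := by
    rw [hPP]; exact Submodule.finrank_add_inf_finrank_orthogonal hNK
  have hdim2 : Module.finrank ℂ KK + Module.finrank ℂ KKᗮ = Module.finrank ℂ H :=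
    KK.finrank_add_finrank_orthogonal
  -- (II.3)
  have h3 : ∀ w ∈ NN, ∀ w' ∈ NN, ∀ z z', ∑ a, (inner ℂ z (L a w)) * (inner ℂ w' (L a z')) =
      (inner ℂ w' w) * (inner ℂ z (D z')) := by
    intro w hw w' hw' z z'
    have h4 := J z w w' z'
    have hDw : D w = 0 := (hK w).mp (hNK hw)
    have hDw' : D w' = 0 := (hK w').mp (hNK hw')
    rw [hDw, inner_zero_right, inner_zero_right, ← hDs w' z', hDw', inner_zero_left] at h4
    have h5 : ∑ a, (inner ℂ z (L a z')) * (inner ℂ w' (L a w)) = 0 :=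
      Finset.sum_eq_zero fun a _ => by rw [hNL w hw a w' (hNK hw'), mul_zero]
    rw [h5] at h4
    linear_combination h4
  -- relations
  let Rl : Submodule ℂ (EuclideanSpace ℂ ι) :=
    { carrier := {c | ∀ x ∈ PP, ∀ y ∈ PP, ∑ a, c a * (inner ℂ y (L a x)) = 0}
      add_mem' := by
        intro c c' hc hc' x hx y hy
        simp only [PiLp.add_apply, add_mul, Finset.sum_add_distrib]
        rw [hc x hx y hy, hc' x hx y hy, add_zero]
      zero_mem' := by
        intro x hx y hy
        simp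
      smul_mem' := by
        intro t c hc x hx y hy
        simp only [PiLp.smul_apply, smul_eq_mul, mul_assoc, ← Finset.mul_sum]
        rw [hc x hx y hy, mul_zero] }
  have hRl : ∀ c, c ∈ Rl ↔ ∀ x ∈ PP, ∀ y ∈ PP, ∑ a, c a * (inner ℂ y (L a x)) = 0 := fun c => Iff.rfl
  let b := stdOrthonormalBasis ℂ NN
  let Θ : ((Fin (Module.finrank ℂ NN) → KKᗮ) × ℂ) →ₗ[ℂ] EuclideanSpace ℂ ι :=
    { toFun := fun p => WithLp.toLp 2 fun a =>
        ∑ j, (inner ℂ (b j : H) (L a (p.1 j : H))) + p.2 * (e a : ℂ)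
      map_add' := by
        intro p p'
        ext a
        simp only [Prod.fst_add, Prod.snd_add, Pi.add_apply, Submodule.coe_add, map_add,
          inner_add_right, Finset.sum_add_distrib, PiLp.add_apply]
        ring
      map_smul' := by
        intro c p
        ext a
        simp only [Prod.smul_fst, Prod.smul_snd, Pi.smul_apply, Submodule.coe_smul, map_smul,
          inner_smul_right, ← Finset.mul_sum, PiLp.smul_apply, smul_eq_mul, RingHom.id_apply]
        ring }
  have hΘ : ∀ p a, Θ p a = ∑ j, (inner ℂ (b j : H) (L a (p.1 j : H))) + p.2 * (e a : ℂ) := fun p a => rfl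
  have hΘR : ∀ p, Θ p ∈ Rl := by
    intro p
    rw [hRl]
    intro x hx y hy
    simp only [hΘ, add_mul, Finset.sum_add_distrib, Finset.sum_mul]
    have hxK : D x = 0 := (hK x).mp ((hP x).mp hx).2
    have hyK : D y = 0 := (hK y).mp ((hP y).mp hy).2
    have e1 : ∑ a, ∑ j, (inner ℂ (b j : H) (L a (p.1 j : H))) * (inner ℂ y (L a x)) = 0 := by
      rw [Finset.sum_comm]
      refine Finset.sum_eq_zero fun j _ => ?_
      have hbj : (b j : H) ∈ NN := (b j).2
      have h4 := J (b j : H) (p.1 j : H) y x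
      have hDb : D (b j : H) = 0 := (hK _).mp (hNK hbj)
      rw [hxK, ← hDs (b j : H) (p.1 j : H), hDb, ← hDs y (p.1 j : H), hyK] at h4
      simp only [inner_zero_left, inner_zero_right, mul_zero, add_zero] at h4
      rw [h4]
      refine Finset.sum_eq_zero fun a _ => ?_
      have h5 : (inner ℂ (b j : H) (L a x)) = 0 := by
        rw [← hLs a, ← inner_conj_symm, hNL _ hbj a x ((hP x).mp hx).2, map_zero]
      rw [h5, zero_mul]
    have e2 : ∑ a, p.2 * (e a : ℂ) * (inner ℂ y (L a x)) = 0 := by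
      simp only [mul_assoc, ← Finset.mul_sum]
      rw [hsumL, hxK, inner_zero_right, mul_zero]
    rw [e1, e2, add_zero]
  have hΘinj : Function.Injective (Θ.codRestrict Rl hΘR) := by
    rw [← LinearMap.ker_eq_bot, LinearMap.ker_eq_bot']
    intro p hp
    have hp' : ∀ a, ∑ j, (inner ℂ (b j : H) (L a (p.1 j : H))) + p.2 * (e a : ℂ) = 0 := by
      intro a
      have h4 := congrArg (fun t : Rl => (t : EuclideanSpace ℂ ι) a) hp
      simpa [hΘ] using h4
    have hc : p.2 = 0 := by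
      have h4 : ∑ a, (e a : ℂ) * (∑ j, (inner ℂ (b j : H) (L a (p.1 j : H))) + p.2 * (e a : ℂ)) = 0 :=
        Finset.sum_eq_zero fun a _ => by rw [hp' a, mul_zero]
      have h5 : ∑ a, (e a : ℂ) * (∑ j, (inner ℂ (b j : H) (L a (p.1 j : H))) + p.2 * (e a : ℂ)) =
          ∑ j, (inner ℂ (b j : H) (D (p.1 j : H))) + p.2 * μ2 := by
        simp only [mul_add, Finset.sum_add_distrib, Finset.mul_sum]
        congr 1
        · rw [Finset.sum_comm]
          refine Finset.sum_congr rfl fun j _ => ?_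
          rw [hsumL]
        · rw [← hg', Finset.mul_sum]
          refine Finset.sum_congr rfl fun a _ => ?_
          ring
      have h6 : ∑ j, (inner ℂ (b j : H) (D (p.1 j : H))) = 0 := by
        refine Finset.sum_eq_zero fun j _ => ?_
        have hDb : D (b j : H) = 0 := (hK _).mp (hNK (b j).2)
        rw [← hDs, hDb, inner_zero_left]
      rw [h5, h6, zero_add] at h4
      rcases mul_eq_zero.mp h4 with h7 | h7
      · exact h7
      · exfalso
        exact hμ.ne' (by exact_mod_cast h7)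
    have hz : ∀ a, ∑ j, (inner ℂ (b j : H) (L a (p.1 j : H))) = 0 := by
      intro a
      have := hp' a
      rwa [hc, zero_mul, add_zero] at this
    have hz2 : ∀ i, (p.1 i : H) = 0 := by
      intro i
      have h4 : ∑ a, (inner ℂ (p.1 i : H) (L a (b i : H))) * ∑ j, (inner ℂ (b j : H) (L a (p.1 j : H))) = 0 :=
        Finset.sum_eq_zero fun a _ => by rw [hz a, mul_zero]
      simp only [Finset.mul_sum] at h4
      rw [Finset.sum_comm] at h4
      have h5 : ∀ j, ∑ a, (inner ℂ (p.1 i : H) (L a (b i : H))) * (inner ℂ (b j : H) (L a (p.1 j : H))) =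
          if j = i then (inner ℂ (p.1 i : H) (D (p.1 i : H))) else 0 := by
        intro j
        rw [h3 _ (b i).2 _ (b j).2]
        have h6 := orthonormal_iff_ite.mp b.orthonormal j i
        rw [Submodule.coe_inner] at h6
        rw [h6]
        split_ifs with h7
        · rw [h7, one_mul]
        · rw [zero_mul]
      simp only [h5, Finset.sum_ite_eq', Finset.mem_univ, if_true] at h4
      have h6 : (p.1 i : H) ∈ KK := (hK _).mpr (hpos _ h4).2
      have h7 := Submodule.inner_right_of_mem_orthogonal h6 (p.1 i).2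
      exact inner_self_eq_zero.mp h7
    apply Prod.ext
    · funext i
      exact Subtype.ext (hz2 i)
    · exact hc
  have hRdim : Module.finrank ℂ NN * Module.finrank ℂ KKᗮ + 1 ≤ Module.finrank ℂ Rl := by
    have h4 := LinearMap.finrank_le_finrank_of_injective hΘinj
    rw [Module.finrank_prod, Module.finrank_pi_fintype] at h4
    simpa using h4
  have hmain := abstract_rank L hLs PP ?_ ?_ Rl ?_
  · -- count
    have hs1 : 1 ≤ Module.finrank ℂ NN := by
      rw [Nat.one_le_iff_ne_zero]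
      intro h0
      have h4 : NN = ⊥ := Submodule.finrank_eq_zero.mp h0
      rw [h4] at huN
      have h5 : u = 0 := (Submodule.mem_bot ℂ).mp huN
      rw [h5, norm_zero] at hu
      exact zero_ne_one hu
    have hρ1 : 1 ≤ Module.finrank ℂ KKᗮ := by
      rw [Nat.one_le_iff_ne_zero]
      intro h0
      have h4 : KKᗮ = ⊥ := Submodule.finrank_eq_zero.mp h0
      have h5 : KK = ⊤ := Submodule.orthogonal_eq_bot_iff.mp h4
      apply hne
      ext x
      have h6 : x ∈ KK := by rw [h5]; trivial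
      have h7 := (hK x).mp h6
      rw [hD] at h7
      simp only [LinearMap.sub_apply, LinearMap.smul_apply, LinearMap.id_coe, id_eq] at h7
      simpa using sub_eq_zero.mp h7
    obtain ⟨s, hs⟩ : ∃ s, Module.finrank ℂ NN = s + 1 := ⟨Module.finrank ℂ NN - 1, by omega⟩
    obtain ⟨ρ, hρ⟩ : ∃ ρ, Module.finrank ℂ KKᗮ = ρ + 1 := ⟨Module.finrank ℂ KKᗮ - 1, by omega⟩
    rw [hs, hρ] at hRdim
    rw [hs] at hdim1
    rw [hρ] at hdim2
    nlinarith
  · -- symmetry
    intro p hp q hq r hr s hs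
    have hqK : D q = 0 := (hK q).mp ((hP q).mp hq).2
    have hsK : D s = 0 := (hK s).mp ((hP s).mp hs).2
    have h4 := J p q r s
    rw [hqK, hsK] at h4
    simpa using h4
  · -- kernel
    intro x hx hzero
    have hxK := ((hP x).mp hx).2
    have hxN : x ∈ NN := by
      rw [hN]
      refine ⟨hxK, fun a => ?_⟩
      rw [Submodule.mem_orthogonal]
      intro y hy
      obtain ⟨y1, hy1, y2, hy2, rfl⟩ := NN.exists_add_mem_mem_orthogonal y
      have hy2P : y2 ∈ PP := by
        rw [hP]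
        refine ⟨hy2, ?_⟩
        have : y2 = (y1 + y2) - y1 := by abel
        rw [this]
        exact Submodule.sub_mem _ hy (hNK hy1)
      rw [inner_add_left, hzero a y2 hy2P, add_zero, ← hLs a, ← inner_conj_symm,
        hNL y1 hy1 a x hxK, map_zero]
    have h4 := Submodule.inner_right_of_mem_orthogonal hxN ((hP x).mp hx).1
    exact inner_self_eq_zero.mp h4
  · intro c hc x hx y hy
    exact hc x hx y hy

/-- A symmetric Lorentzian family without the identity in its span lives in small dimension. -/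
theorem lorentz (T : ι → H →ₗ[ℂ] H) (hT : ∀ a, (T a).IsSymmetric) (μ2 : ℝ)
    (hμ : 0 < μ2) (hI : Sgn T μ2)
    (hind : ∀ c : ι → ℝ, opA T c ≠ LinearMap.id) :
    Module.finrank ℂ H ≤ Fintype.card ι + 1 := by
  classical
  by_contra hcon
  push Not at hcon
  have hnt : Nontrivial H := Module.nontrivial_of_finrank_pos (R := ℂ) (by omega)
  obtain ⟨u, hu, hmin⟩ := exists_min T
  have hgrad := gradient T hT u hu hmin
  obtain ⟨e, he⟩ : ∃ e : ι → ℝ, e = fun a => (inner ℂ u (T a u)).re := ⟨_, rfl⟩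
  obtain ⟨g, hg⟩ : ∃ g : ℝ, g = ∑ a, (inner ℂ u (T a u)).re ^ 2 := ⟨_, rfl⟩
  have hg2 : ∑ a, e a ^ 2 = g := by rw [hg, he]
  have hAu : opA T e u = (g : ℂ) • u := by
    rw [opA_apply, hg, he]
    exact hgrad
  rw [← hg] at hmin
  -- a vector orthogonal to everything
  obtain ⟨V, hV⟩ : ∃ V : Submodule ℂ H,
      V = Submodule.span ℂ (Set.range (fun o : Option ι => o.elim u (fun a => T a u))) := ⟨_, rfl⟩
  have hVdim : Module.finrank ℂ V ≤ Fintype.card ι + 1 := by
    rw [hV, ← Fintype.card_option]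
    exact finrank_range_le_card _
  have hVo : 0 < Module.finrank ℂ Vᗮ := by
    have := V.finrank_add_finrank_orthogonal
    omega
  obtain ⟨v', hv'⟩ := Module.finrank_pos_iff_exists_ne_zero.mp hVo
  obtain ⟨v, hv⟩ : ∃ v : H, v = (v' : H) := ⟨_, rfl⟩
  have hv0 : v ≠ 0 := by
    rw [hv]
    intro h
    exact hv' (Subtype.ext h)
  have hvV : v ∈ Vᗮ := by rw [hv]; exact v'.2
  have huv : (inner ℂ u v) = 0 := by
    refine Submodule.inner_right_of_mem_orthogonal ?_ hvV
    rw [hV]
    exact Submodule.subset_span ⟨none, rfl⟩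
  have hTv : ∀ a, (inner ℂ (T a u) v) = 0 := by
    intro a
    refine Submodule.inner_right_of_mem_orthogonal ?_ hvV
    rw [hV]
    exact Submodule.subset_span ⟨some a, rfl⟩
  have hAv : (inner ℂ v (opA T e v)) = (μ2 : ℂ) * (inner ℂ v v) := by
    rw [he, ident4 T hT μ2 hI u hu v v, huv]
    have h1 : ∑ a, (inner ℂ (T a u) v) * (inner ℂ v (T a u)) = 0 :=
      Finset.sum_eq_zero fun a _ => by rw [hTv a, zero_mul]
    rw [h1]
    ring
  have hvv : (inner ℂ v v) = ((‖v‖ ^ 2 : ℝ) : ℂ) := by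
    rw [inner_self_eq_norm_sq_to_K]; norm_cast
  have hvpos : 0 < ‖v‖ ^ 2 := by
    have := norm_pos_iff.mpr hv0
    positivity
  obtain ⟨s, hs⟩ : ∃ s : ι → ℝ, s = fun a => (inner ℂ v (T a v)).re := ⟨_, rfl⟩
  have hes : ∑ a, e a * s a = μ2 * ‖v‖ ^ 2 := by
    have h1 : (∑ a, (e a : ℂ) * (inner ℂ v (T a v))) = (μ2 : ℂ) * ((‖v‖ ^ 2 : ℝ) : ℂ) := by
      rw [← inner_opA, hAv, hvv]
    have h2 := congrArg Complex.re h1
    rw [← Complex.ofReal_mul, Complex.ofReal_re, Complex.re_sum] at h2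
    rw [← h2]
    refine Finset.sum_congr rfl fun a _ => ?_
    rw [Complex.re_ofReal_mul, hs]
  have hg0 : 0 < g := by
    rcases (Finset.sum_nonneg fun a (_ : a ∈ Finset.univ) => sq_nonneg (e a)).eq_or_lt with h1 | h1
    · exfalso
      have h2 : ∀ a, e a = 0 := by
        intro a
        have h3 := (Finset.sum_eq_zero_iff_of_nonneg (fun a _ => sq_nonneg (e a))).mp h1.symm a
          (Finset.mem_univ a)
        simpa using h3
      have h3 : ∑ a, e a * s a = 0 := Finset.sum_eq_zero fun a _ => by rw [h2 a, zero_mul]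
      rw [h3] at hes
      have : 0 < μ2 * ‖v‖ ^ 2 := mul_pos hμ hvpos
      linarith
    · rwa [hg2] at h1
  have hgμ : g ≤ μ2 := by
    have hpoly : ∀ t : ℝ, 0 ≤ (-0) * t + (2 * (μ2 - g) * ‖v‖ ^ 2) * t ^ 2 + 0 * t ^ 3 +
        (∑ a, s a ^ 2 - g * (‖v‖ ^ 2) ^ 2) * t ^ 4 := by
      intro t
      have h1 := hmin (u + (t : ℂ) • v)
      rw [norm_expand u v hu t] at h1
      have h2 : (inner ℂ v u) = 0 := by rw [← inner_conj_symm, huv, map_zero]
      rw [h2, Complex.zero_re] at h1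
      have h3 : ∑ a, (inner ℂ (u + (t : ℂ) • v) (T a (u + (t : ℂ) • v))).re ^ 2 =
          g + 2 * t ^ 2 * ∑ a, e a * s a + t ^ 4 * ∑ a, s a ^ 2 := by
        rw [← hg2]
        simp only [Finset.mul_sum, ← Finset.sum_add_distrib]
        refine Finset.sum_congr rfl fun a _ => ?_
        have h4 : (inner ℂ v (T a u)) = 0 := by rw [← inner_conj_symm, hTv a, map_zero]
        rw [quad_expand (T a) (hT a) u v t, h4, Complex.zero_re, he, hs]
        ring
      rw [h3, hes] at h1
      nlinarith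
    by_contra hlt
    push Not at hlt
    -- take t small
    obtain ⟨c, hc⟩ : ∃ c : ℝ, c = 2 * (g - μ2) * ‖v‖ ^ 2 := ⟨_, rfl⟩
    obtain ⟨M, hM⟩ : ∃ M : ℝ, M = ∑ a, s a ^ 2 - g * (‖v‖ ^ 2) ^ 2 := ⟨_, rfl⟩
    have hc0 : 0 < c := by
      rw [hc]
      have : 0 < g - μ2 := by linarith
      positivity
    have hpoly2 : ∀ τ : ℝ, 0 ≤ τ → c * τ ≤ M * τ ^ 2 := by
      intro τ hτ
      have h1 := hpoly (Real.sqrt τ)
      have h2 : Real.sqrt τ ^ 2 = τ := Real.sq_sqrt hτ
      have h3 : Real.sqrt τ ^ 4 = τ ^ 2 := by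
        calc Real.sqrt τ ^ 4 = (Real.sqrt τ ^ 2) ^ 2 := by ring
          _ = τ ^ 2 := by rw [h2]
      rw [h2, h3, ← hM] at h1
      have h4 : 2 * (μ2 - g) * ‖v‖ ^ 2 = -c := by rw [hc]; ring
      rw [h4] at h1
      linarith
    rcases le_or_gt M 0 with hM0 | hM0
    · have := hpoly2 1 zero_le_one
      nlinarith
    · have h1 := hpoly2 (c / (2 * M)) (by positivity)
      have h2 : M * (c / (2 * M)) ^ 2 = c * (c / (2 * M)) / 2 := by
        field_simp
        try ring
      rw [h2] at h1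
      have h3 : 0 < c * (c / (2 * M)) := by positivity
      linarith
  rcases hgμ.lt_or_eq with hlt | heq
  · have := lorentz_case1 T hT μ2 g hI u hu e he hg2 hg0 hlt hAu
    omega
  · rw [heq] at hg2 hAu
    have := lorentz_case2 T hT μ2 hμ hI u hu e he hg2 hAu (by
      intro h
      apply hind (fun a => e a / μ2)
      have h1 : opA T (fun a => e a / μ2) = ((μ2⁻¹ : ℝ) : ℂ) • opA T e := by
        unfold opA
        rw [Finset.smul_sum]
        refine Finset.sum_congr rfl fun a _ => ?_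
        rw [smul_smul]
        congr 1
        push_cast
        ring
      rw [h1, h, smul_smul, ← Complex.ofReal_mul, inv_mul_cancel₀ hμ.ne', Complex.ofReal_one,
        one_smul])
    omega

end Lor2

end Pool.Agent.Lib.MP_d0f9e0_co.Gap
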