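import Pool.Agent.Lib.MP_d0f9e0_co.Gap.ModelData
import Pool.Agent.Lib.MP_d0f9e0_co.Gap.Lorentz2

set_option autoImplicit false

open Matrix
open scoped ComplexOrder

namespace Pool.Agent.Lib.MP_d0f9e0_co.Gap

section CA

variable {n : Type*} [Fintype n] [DecidableEq n]

omit [Fintype n] in
/-- The symmetric form attached to the complement of the projections. -/
theorem sym_form {κ : Type*} [Fintype κ] (x : κ → n → ℂ) (k : ℕ) (G : Fin k → Matrix n n ℂ)
    (ν : Fin k → ℝ) (α X : ℝ) (hα1 : α < 1) (hX0 : 0 < X)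
    (hS : ∑ i, vecMulVec (x i) (star (x i)) = (X : ℂ) • (1 - ∑ a, (ν a : ℂ) • G a))
    (hT1 : ∀ p q r s, ∑ i, vecMulVec (x i) (star (x i)) p q * vecMulVec (x i) (star (x i)) r s
        - ((α / X : ℝ) : ℂ) * ((∑ i, vecMulVec (x i) (star (x i))) p q *
            (∑ i, vecMulVec (x i) (star (x i))) r s)
        + ((1 - α : ℝ) : ℂ) * ∑ a, G a p q * G a r s =
        ((1 - α : ℝ) : ℂ) * ((if p = s then 1 else 0) * (if q = r then 1 else 0)))
    (w : Matrix n n ℂ) (hw : w = 1 - ∑ a, (ν a : ℂ) • G a) (p q r s : n) :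
    (1 : Matrix n n ℂ) p q * (1 : Matrix n n ℂ) r s + ∑ a, G a p q * G a r s -
      ((α * X / (1 - α) : ℝ) : ℂ) * (w p q * w r s) =
    (1 : Matrix n n ℂ) p s * (1 : Matrix n n ℂ) r q + ∑ a, G a p s * G a r q -
      ((α * X / (1 - α) : ℝ) : ℂ) * (w p s * w r q) := by
  have h1 := hT1 p q r s
  have h2 := hT1 p s r q
  have hP : ∑ i, vecMulVec (x i) (star (x i)) p q * vecMulVec (x i) (star (x i)) r s =
      ∑ i, vecMulVec (x i) (star (x i)) p s * vecMulVec (x i) (star (x i)) r q := by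
    refine Finset.sum_congr rfl fun i _ => ?_
    simp only [Matrix.vecMulVec_apply]
    ring
  rw [hS, ← hw] at h1 h2
  simp only [Matrix.smul_apply, smul_eq_mul] at h1 h2
  rw [hP] at h1
  have e1 : (1 : Matrix n n ℂ) p q * (1 : Matrix n n ℂ) r s =
      (if p = q then 1 else 0) * (if s = r then 1 else 0) := by
    rw [Matrix.one_apply, Matrix.one_apply]
    congr 1
    simp only [eq_comm]
  have e2 : (1 : Matrix n n ℂ) p s * (1 : Matrix n n ℂ) r q =
      (if p = s then 1 else 0) * (if q = r then 1 else 0) := by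
    rw [Matrix.one_apply, Matrix.one_apply]
    congr 1
    simp only [eq_comm]
  rw [← e2] at h1
  rw [← e1] at h2
  have hα : ((1 - α : ℝ) : ℂ) ≠ 0 := by
    have : (1 - α : ℝ) ≠ 0 := by linarith
    exact_mod_cast this
  have h3 : ((α * X / (1 - α) : ℝ) : ℂ) * ((1 - α : ℝ) : ℂ) = ((α / X : ℝ) : ℂ) * ((X : ℂ) * X) := by
    have h4 : α * X / (1 - α) * (1 - α) = α / X * (X * X) := by
      have : (1 - α : ℝ) ≠ 0 := by linarith
      field_simp
    exact_mod_cast h4
  apply mul_left_cancel₀ hα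
  linear_combination h1 - h2 - (w p q * w r s - w p s * w r q) * h3

theorem case_A (k : ℕ) (G : Fin k → Matrix n n ℂ) (hG : ∀ a, (G a).IsHermitian)
    (ν : Fin k → ℝ) (c ν2 c' : ℝ) (hν : ∑ a, ν a ^ 2 = ν2)
    (w : Matrix n n ℂ) (hw : w = 1 - ∑ a, (ν a : ℂ) • G a)
    (hF : ∀ p q r s, (1 : Matrix n n ℂ) p q * (1 : Matrix n n ℂ) r s + ∑ a, G a p q * G a r s -
      (c : ℂ) * (w p q * w r s) =
    (1 : Matrix n n ℂ) p s * (1 : Matrix n n ℂ) r q + ∑ a, G a p s * G a r q -
      (c : ℂ) * (w p s * w r q))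
    (hc1 : c' ^ 2 * (1 + ν2) - 2 * c' = -c) (hc2 : 1 - c' * (1 + ν2) ≠ 0) :
    Fintype.card n ≤ k + 1 := by
  classical
  have hwH : w.IsHermitian := by
    rw [hw, Matrix.IsHermitian, Matrix.conjTranspose_sub, Matrix.conjTranspose_one,
      Matrix.conjTranspose_sum]
    congr 1
    refine Finset.sum_congr rfl fun a _ => ?_
    rw [Matrix.conjTranspose_smul, (hG a).eq, Complex.star_def, Complex.conj_ofReal]
  let K : Option (Fin k) → Matrix n n ℂ := fun o =>
    o.elim (1 - (c' : ℂ) • w) (fun a => G a + ((c' * ν a : ℝ) : ℂ) • w)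
  have hK0 : K none = 1 - (c' : ℂ) • w := rfl
  have hK1 : ∀ a, K (some a) = G a + ((c' * ν a : ℝ) : ℂ) • w := fun a => rfl
  have hKH : ∀ o, (K o).IsHermitian := by
    intro o
    cases o with
    | none =>
      rw [hK0, Matrix.IsHermitian, Matrix.conjTranspose_sub, Matrix.conjTranspose_one,
        Matrix.conjTranspose_smul, hwH.eq, Complex.star_def, Complex.conj_ofReal]
    | some a =>
      rw [hK1, Matrix.IsHermitian, Matrix.conjTranspose_add, (hG a).eq,
        Matrix.conjTranspose_smul, hwH.eq, Complex.star_def, Complex.conj_ofReal]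
  have hwe : ∀ p q, ∑ a, (ν a : ℂ) * G a p q = (1 : Matrix n n ℂ) p q - w p q := by
    intro p q
    rw [hw, Matrix.sub_apply, Matrix.sum_apply]
    simp only [Matrix.smul_apply, smul_eq_mul]
    ring
  have hν' : ∑ a, (ν a : ℂ) ^ 2 = (ν2 : ℂ) := by
    rw [← hν]; push_cast; rfl
  have hc1' : (c' : ℂ) ^ 2 * (1 + ν2) - 2 * c' = -c := by exact_mod_cast hc1
  have key : ∀ p q r s, ∑ o, K o p q * K o r s =
      (1 : Matrix n n ℂ) p q * (1 : Matrix n n ℂ) r s + ∑ a, G a p q * G a r s -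
      (c : ℂ) * (w p q * w r s) := by
    intro p q r s
    rw [Fintype.sum_option, hK0]
    simp only [hK1, Matrix.add_apply, Matrix.sub_apply, Matrix.smul_apply, smul_eq_mul]
    have h1 : ∑ a, (G a p q + ((c' * ν a : ℝ) : ℂ) * w p q) * (G a r s + ((c' * ν a : ℝ) : ℂ) * w r s)
        = ∑ a, G a p q * G a r s + (c' : ℂ) * w r s * ∑ a, (ν a : ℂ) * G a p q
          + (c' : ℂ) * w p q * ∑ a, (ν a : ℂ) * G a r s
          + (c' : ℂ) ^ 2 * (w p q * w r s) * ∑ a, (ν a : ℂ) ^ 2 := by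
      simp only [Finset.mul_sum, ← Finset.sum_add_distrib]
      refine Finset.sum_congr rfl fun a _ => ?_
      push_cast
      ring
    rw [h1, hwe, hwe, hν']
    linear_combination (w p q * w r s) * hc1'
  have hS : Sym K := by
    intro p q r s
    rw [key p q r s, key p s r q]
    exact hF p q r s
  have h := card_add_finrank_rel K hKH hS ?_ ⊥ ?_
  · rw [Fintype.card_option, Fintype.card_fin] at h
    omega
  · intro y hy
    have h0 := hy none
    have h1 : (K none - ∑ a, (ν a : ℂ) • K (some a)) *ᵥ y = 0 := by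
      rw [Matrix.sub_mulVec, h0, Matrix.sum_mulVec]
      simp only [Matrix.smul_mulVec, hy, smul_zero, Finset.sum_const_zero, sub_zero]
    have h2 : K none - ∑ a, (ν a : ℂ) • K (some a) = ((1 - c' * (1 + ν2) : ℝ) : ℂ) • w := by
      ext p q
      simp only [Matrix.sub_apply, Matrix.sum_apply, Matrix.smul_apply, smul_eq_mul, hK0, hK1,
        Matrix.add_apply, mul_add, Finset.sum_add_distrib]
      rw [hwe]
      have h3 : ∑ a, (ν a : ℂ) * (((c' * ν a : ℝ) : ℂ) * w p q) = (c' : ℂ) * w p q * (ν2 : ℂ) := by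
        rw [← hν', Finset.mul_sum]
        refine Finset.sum_congr rfl fun a _ => ?_
        push_cast
        ring
      rw [h3]
      push_cast
      ring
    rw [h2, Matrix.smul_mulVec] at h1
    have h3 : w *ᵥ y = 0 := by
      rcases smul_eq_zero.mp h1 with h4 | h4
      · exfalso; exact hc2 (by exact_mod_cast h4)
      · exact h4
    rw [hK0, Matrix.sub_mulVec, Matrix.one_mulVec, Matrix.smul_mulVec, h3, smul_zero,
      sub_zero] at h0
    exact h0
  · intro c hc
    rw [Submodule.mem_bot] at hc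
    rw [hc]
    simp

theorem inner_toEuc (M : Matrix n n ℂ) (u v : EuclideanSpace ℂ n) :
    inner ℂ u (Matrix.toEuclideanLin M v) = ∑ q, ∑ p, star (u p) * M p q * v q := by
  rw [EuclideanSpace.inner_eq_star_dotProduct, dotProduct_comm, dotProduct]
  rw [Finset.sum_comm]
  refine Finset.sum_congr rfl fun p _ => ?_
  have h1 : (Matrix.toEuclideanLin M v).ofLp p = ∑ q, M p q * v q := rfl
  rw [h1, Finset.mul_sum]
  refine Finset.sum_congr rfl fun q _ => ?_
  rw [mul_assoc]
  rfl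

theorem sgn_of_entries {ι : Type*} [Fintype ι] (K : ι → Matrix n n ℂ) (μ2 : ℝ) (hμ : 0 ≤ μ2)
    (h : ∀ p q r s, ∑ a, K a p q * K a r s -
        (μ2 : ℂ) * ((1 : Matrix n n ℂ) p q * (1 : Matrix n n ℂ) r s) =
      ∑ a, K a p s * K a r q -
        (μ2 : ℂ) * ((1 : Matrix n n ℂ) p s * (1 : Matrix n n ℂ) r q)) :
    Sgn (fun a => Matrix.toEuclideanLin (K a)) μ2 := by
  intro u v w z
  let K' : Option ι → Matrix n n ℂ := fun o =>
    o.elim ((Complex.I * (Real.sqrt μ2 : ℂ)) • (1 : Matrix n n ℂ)) K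
  have hI2 : (Complex.I * (Real.sqrt μ2 : ℂ)) * (Complex.I * (Real.sqrt μ2 : ℂ)) = -(μ2 : ℂ) := by
    have h1 : (Real.sqrt μ2 : ℂ) * (Real.sqrt μ2 : ℂ) = (μ2 : ℂ) := by
      rw [← Complex.ofReal_mul, Real.mul_self_sqrt hμ]
    linear_combination ((Real.sqrt μ2 : ℂ) * (Real.sqrt μ2 : ℂ)) * Complex.I_sq - h1
  have hS : Sym K' := by
    intro p q r s
    rw [Fintype.sum_option, Fintype.sum_option]
    change (Complex.I * (Real.sqrt μ2 : ℂ)) * (1 : Matrix n n ℂ) p q *
        ((Complex.I * (Real.sqrt μ2 : ℂ)) * (1 : Matrix n n ℂ) r s) + ∑ a, K a p q * K a r s =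
      (Complex.I * (Real.sqrt μ2 : ℂ)) * (1 : Matrix n n ℂ) p s *
        ((Complex.I * (Real.sqrt μ2 : ℂ)) * (1 : Matrix n n ℂ) r q) + ∑ a, K a p s * K a r q
    linear_combination h p q r s + ((1 : Matrix n n ℂ) p q * (1 : Matrix n n ℂ) r s -
      (1 : Matrix n n ℂ) p s * (1 : Matrix n n ℂ) r q) * hI2
  let A : Matrix (Fin 2) n ℂ := Matrix.of fun i p => star ((![u, w] i) p)
  let B : Matrix n (Fin 2) ℂ := Matrix.of fun q j => (![v, z] j) q
  have hAB : ∀ (M : Matrix n n ℂ) (i j : Fin 2), (A * M * B) i j =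
      inner ℂ (![u, w] i) (Matrix.toEuclideanLin M (![v, z] j)) := by
    intro M i j
    rw [inner_toEuc, Matrix.mul_apply]
    refine Finset.sum_congr rfl fun q _ => ?_
    rw [Matrix.mul_apply, Finset.sum_mul]
    rfl
  have h1 := sym_congr K' hS A B 0 0 1 1
  simp only [hAB] at h1
  rw [Fintype.sum_option, Fintype.sum_option] at h1
  have h2 : ∀ x y : EuclideanSpace ℂ n, inner ℂ x (Matrix.toEuclideanLin (K' none) y) =
      (Complex.I * (Real.sqrt μ2 : ℂ)) * inner ℂ x y := by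
    intro x y
    have h3 : Matrix.toEuclideanLin (K' none) y = (Complex.I * (Real.sqrt μ2 : ℂ)) • y := by
      have h4 : K' none = (Complex.I * (Real.sqrt μ2 : ℂ)) • (1 : Matrix n n ℂ) := rfl
      rw [h4]
      ext i
      simp
    rw [h3, inner_smul_right]
  simp only [h2, Matrix.cons_val_zero, Matrix.cons_val_one] at h1
  have h5 : ∀ a, K' (some a) = K a := fun a => rfl
  simp only [h5] at h1
  linear_combination h1 - (inner ℂ u v * inner ℂ w z - inner ℂ u z * inner ℂ w v) * hI2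

theorem case_B1 (k : ℕ) (G : Fin k → Matrix n n ℂ) (hG : ∀ a, (G a).IsHermitian)
    (hGG : ∀ a b, trace (G a * G b) = if a = b then 1 else 0)
    (ν : Fin k → ℝ) (hGν : ∀ a, trace (G a) = (ν a : ℂ)) (y : n → ℂ)
    (hy : star y ⬝ᵥ y = 1) (hGy : ∀ a, trace (G a * vecMulVec y (star y)) = 0)
    (c ν2 s' r' μ2 : ℝ) (hν : ∑ a, ν a ^ 2 = ν2)
    (w : Matrix n n ℂ) (hw : w = 1 - ∑ a, (ν a : ℂ) • G a)
    (hF : ∀ p q r s, (1 : Matrix n n ℂ) p q * (1 : Matrix n n ℂ) r s + ∑ a, G a p q * G a r s -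
      (c : ℂ) * (w p q * w r s) =
    (1 : Matrix n n ℂ) p s * (1 : Matrix n n ℂ) r q + ∑ a, G a p s * G a r q -
      (c : ℂ) * (w p s * w r q))
    (h1 : 2 * s' - s' ^ 2 * ν2 = c) (h2 : r' * (1 - s' * ν2) = c) (h3 : r' ^ 2 * ν2 - μ2 = 1 - c)
    (hμ : 0 < μ2) (h4 : 1 - s' * ν2 ≠ 0) :
    Fintype.card n ≤ k + 1 := by
  classical
  set m : Matrix n n ℂ := ∑ a, (ν a : ℂ) • G a with hm
  have hmH : m.IsHermitian := by
    rw [hm, Matrix.IsHermitian, Matrix.conjTranspose_sum]
    refine Finset.sum_congr rfl fun a _ => ?_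
    rw [Matrix.conjTranspose_smul, (hG a).eq, Complex.star_def, Complex.conj_ofReal]
  let K : Fin k → Matrix n n ℂ := fun a =>
    G a - ((s' * ν a : ℝ) : ℂ) • m + ((r' * ν a : ℝ) : ℂ) • 1
  have hK : ∀ a, K a = G a - ((s' * ν a : ℝ) : ℂ) • m + ((r' * ν a : ℝ) : ℂ) • 1 := fun a => rfl
  have hKH : ∀ a, (K a).IsHermitian := by
    intro a
    rw [hK, Matrix.IsHermitian, Matrix.conjTranspose_add, Matrix.conjTranspose_sub, (hG a).eq,
      Matrix.conjTranspose_smul, Matrix.conjTranspose_smul, hmH.eq, Matrix.conjTranspose_one,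
      Complex.star_def, Complex.conj_ofReal, Complex.conj_ofReal]
  have hν' : ∑ a, (ν a : ℂ) ^ 2 = (ν2 : ℂ) := by
    rw [← hν]; push_cast; rfl
  have hme : ∀ p q, ∑ a, (ν a : ℂ) * G a p q = m p q := by
    intro p q
    rw [hm, Matrix.sum_apply]
    simp only [Matrix.smul_apply, smul_eq_mul]
  have h1' : 2 * (s' : ℂ) - (s' : ℂ) ^ 2 * ν2 = c := by exact_mod_cast h1
  have h2' : (r' : ℂ) * (1 - s' * ν2) = c := by exact_mod_cast h2
  have h3' : (r' : ℂ) ^ 2 * ν2 - μ2 = 1 - c := by exact_mod_cast h3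
  have key : ∀ p q r s, ∑ a, K a p q * K a r s -
      (μ2 : ℂ) * ((1 : Matrix n n ℂ) p q * (1 : Matrix n n ℂ) r s) =
      (1 : Matrix n n ℂ) p q * (1 : Matrix n n ℂ) r s + ∑ a, G a p q * G a r s -
      (c : ℂ) * (w p q * w r s) := by
    intro p q r s
    simp only [hK, Matrix.add_apply, Matrix.sub_apply, Matrix.smul_apply, smul_eq_mul]
    have e1 : ∑ a, (G a p q - ((s' * ν a : ℝ) : ℂ) * m p q +
        ((r' * ν a : ℝ) : ℂ) * (1 : Matrix n n ℂ) p q) *
        (G a r s - ((s' * ν a : ℝ) : ℂ) * m r s + ((r' * ν a : ℝ) : ℂ) * (1 : Matrix n n ℂ) r s) =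
        ∑ a, G a p q * G a r s - (s' : ℂ) * m r s * ∑ a, (ν a : ℂ) * G a p q
          + (r' : ℂ) * (1 : Matrix n n ℂ) r s * ∑ a, (ν a : ℂ) * G a p q
          - (s' : ℂ) * m p q * ∑ a, (ν a : ℂ) * G a r s
          + (r' : ℂ) * (1 : Matrix n n ℂ) p q * ∑ a, (ν a : ℂ) * G a r s
          + ((r' : ℂ) * (1 : Matrix n n ℂ) p q - (s' : ℂ) * m p q) *
            ((r' : ℂ) * (1 : Matrix n n ℂ) r s - (s' : ℂ) * m r s) * ∑ a, (ν a : ℂ) ^ 2 := by
      simp only [Finset.mul_sum, ← Finset.sum_add_distrib, ← Finset.sum_sub_distrib]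
      refine Finset.sum_congr rfl fun a _ => ?_
      push_cast
      ring
    rw [e1, hme, hme, hν', hw]
    simp only [Matrix.sub_apply]
    linear_combination (-(m p q * m r s)) * h1' + (m p q * (1 : Matrix n n ℂ) r s +
      m r s * (1 : Matrix n n ℂ) p q) * h2' + ((1 : Matrix n n ℂ) p q * (1 : Matrix n n ℂ) r s) * h3'
  have hSgn := sgn_of_entries K μ2 hμ.le (fun p q r s => by
    rw [key p q r s, key p s r q]
    exact hF p q r s)
  have hT : ∀ a, (Matrix.toEuclideanLin (K a)).IsSymmetric := fun a =>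
    Matrix.isSymmetric_toEuclideanLin_iff.mpr (hKH a)
  have hind : ∀ t : Fin k → ℝ, ∑ a, (t a : ℂ) • K a ≠ 1 := by
    intro t ht
    obtain ⟨b, hb⟩ : ∃ b : ℝ, b = ∑ a, t a * ν a := ⟨_, rfl⟩
    have hb' : ∑ a, (t a : ℂ) * ν a = (b : ℂ) := by rw [hb]; push_cast; rfl
    have hexp : ∑ a, (t a : ℂ) • K a = ∑ a, (t a : ℂ) • G a - ((s' * b : ℝ) : ℂ) • m +
        ((r' * b : ℝ) : ℂ) • 1 := by
      have e1 : ((s' * b : ℝ) : ℂ) • m = ∑ a, ((t a : ℂ) * ((s' * ν a : ℝ) : ℂ)) • m := by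
        rw [← Finset.sum_smul]
        congr 1
        push_cast
        rw [← hb', Finset.mul_sum]
        refine Finset.sum_congr rfl fun a _ => ?_
        ring
      have e2 : ((r' * b : ℝ) : ℂ) • (1 : Matrix n n ℂ) =
          ∑ a, ((t a : ℂ) * ((r' * ν a : ℝ) : ℂ)) • (1 : Matrix n n ℂ) := by
        rw [← Finset.sum_smul]
        congr 1
        push_cast
        rw [← hb', Finset.mul_sum]
        refine Finset.sum_congr rfl fun a _ => ?_
        ring
      rw [e1, e2, ← Finset.sum_sub_distrib, ← Finset.sum_add_distrib]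
      refine Finset.sum_congr rfl fun a _ => ?_
      rw [hK, smul_add, smul_sub, smul_smul, smul_smul]
    rw [hexp] at ht
    -- pairing with the projection
    have hyy : trace (vecMulVec y (star y)) = 1 := by
      rw [Matrix.trace_vecMulVec, dotProduct_comm, hy]
    have hmy : trace (m * vecMulVec y (star y)) = 0 := by
      rw [hm, Matrix.sum_mul, Matrix.trace_sum]
      refine Finset.sum_eq_zero fun a _ => ?_
      rw [Matrix.smul_mul, Matrix.trace_smul, hGy, smul_zero]
    have e3 : r' * b = 1 := by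
      have e4 := congrArg (fun M => trace (M * vecMulVec y (star y))) ht
      simp only [Matrix.add_mul, Matrix.sub_mul, Matrix.trace_add, Matrix.trace_sub,
        Matrix.smul_mul, Matrix.trace_smul, Matrix.one_mul, hyy, hmy, Matrix.sum_mul,
        Matrix.trace_sum, hGy, mul_zero, Finset.sum_const_zero, sub_zero, zero_add, smul_eq_mul,
        mul_one] at e4
      exact_mod_cast e4
    -- pairing with G b
    have hGm : ∀ a, trace (G a * m) = (ν a : ℂ) := by
      intro a
      rw [hm, Matrix.mul_sum, Matrix.trace_sum]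
      simp only [Matrix.mul_smul, Matrix.trace_smul, hGG, smul_eq_mul, mul_ite, mul_one, mul_zero,
        Finset.sum_ite_eq, Finset.mem_univ, if_true]
    have e5 : ∀ a, t a = s' * b * ν a := by
      intro a
      have e6 := congrArg (fun M => trace (G a * M)) ht
      simp only [Matrix.mul_add, Matrix.mul_sub, Matrix.trace_add, Matrix.trace_sub,
        Matrix.mul_smul, Matrix.trace_smul, hGν, hGm, Matrix.mul_sum,
        Matrix.trace_sum, hGG, smul_eq_mul, mul_ite, mul_one, mul_zero,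
        Finset.sum_ite_eq, Finset.mem_univ, if_true, e3, Complex.ofReal_one, one_mul] at e6
      have e7 : (t a : ℂ) = ((s' * b * ν a : ℝ) : ℂ) := by
        push_cast
        push_cast at e6
        linear_combination e6
      exact_mod_cast e7
    have e8 : b = s' * b * ν2 := by
      conv_lhs => rw [hb]
      rw [← hν, Finset.mul_sum]
      refine Finset.sum_congr rfl fun a _ => ?_
      rw [e5 a]; ring
    have e9 : b * (1 - s' * ν2) = 0 := by linear_combination e8
    rcases mul_eq_zero.mp e9 with h | h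
    · rw [h, mul_zero] at e3
      exact zero_ne_one e3
    · exact h4 h
  have h := lorentz (fun a => Matrix.toEuclideanLin (K a)) hT μ2 hμ hSgn (by
    intro t ht
    apply hind t
    apply Matrix.toEuclideanLin.injective
    have e1 : opA (fun a => Matrix.toEuclideanLin (K a)) t =
        Matrix.toEuclideanLin (∑ a, (t a : ℂ) • K a) := by
      unfold opA
      rw [map_sum]
      refine Finset.sum_congr rfl fun a _ => ?_
      rw [map_smul]
    rw [← e1, ht]
    ext v i
    simp)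
  rw [finrank_euclideanSpace, Fintype.card_fin] at h
  exact h

end CA

end Pool.Agent.Lib.MP_d0f9e0_co.Gap
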