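import Pool.Agent.Lib.MP_d0f9e0_co.Gap.SymCore

set_option autoImplicit false

open Matrix
open scoped ComplexOrder

namespace Pool.Agent.Lib.MP_d0f9e0_co.Gap

/-- Every family of more than `d² - 1 - √(d+1)` unit vectors in `ℂ^d` at the maximal-ETF angle
extends to a maximal ETF, and the added lines are determined by the family. -/
theorem completion : ∀ d N : ℕ, 1 ≤ d → (d : ℝ) ^ 2 - 1 - Real.sqrt ((d : ℝ) + 1) < N →
    ∀ v : Fin N → EuclideanSpace ℂ (Fin d), (∀ i, ‖v i‖ = 1) →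
    (∀ i j, i ≠ j → ‖inner ℂ (v i) (v j)‖ = 1 / Real.sqrt ((d : ℝ) + 1)) →
    ∃ (w : Fin (d ^ 2) → EuclideanSpace ℂ (Fin d)) (f : Fin N ↪ Fin (d ^ 2)),
      (∀ i, ‖w i‖ = 1) ∧
      (∀ i j, i ≠ j → ‖inner ℂ (w i) (w j)‖ = 1 / Real.sqrt ((d : ℝ) + 1)) ∧
      (∀ i, w (f i) = v i) ∧
      (∀ u : EuclideanSpace ℂ (Fin d), ‖u‖ = 1 →
        (∀ i, ‖inner ℂ (v i) u‖ = 1 / Real.sqrt ((d : ℝ) + 1)) →
        ∃ j, j ∉ Set.range f ∧ ∃ c : ℂ, u = c • w j) := by
  intro d N hd hN v hv1 hv2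
  have hs2 : (1 / Real.sqrt ((d : ℝ) + 1)) ^ 2 = 1 / (d + 1) := by
    rw [div_pow, one_pow, Real.sq_sqrt (by positivity)]
  have hin : ∀ a b : EuclideanSpace ℂ (Fin d), star a.ofLp ⬝ᵥ b.ofLp = inner ℂ a b := by
    intro a b
    rw [EuclideanSpace.inner_eq_star_dotProduct, dotProduct_comm]
  have hunit : ∀ a : EuclideanSpace ℂ (Fin d), ‖a‖ = 1 → star a.ofLp ⬝ᵥ a.ofLp = 1 := by
    intro a ha
    rw [hin, inner_self_eq_norm_sq_to_K, ha]; simp
  have hle : N ≤ d ^ 2 := by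
    have := card_le_sq (n := Fin d) (fun i => (v i).ofLp) d (Fintype.card_fin d) hd
      (fun i => hunit _ (hv1 i)) (fun i j hij => by rw [hin, hv2 i j hij, hs2])
    rwa [Fintype.card_fin] at this
  obtain ⟨k, hk⟩ : ∃ k, N + k = d ^ 2 := ⟨d ^ 2 - N, by omega⟩
  have hkR : (d : ℝ) ^ 2 - N = k := by
    have : ((N + k : ℕ) : ℝ) = ((d ^ 2 : ℕ) : ℝ) := by rw [hk]
    push_cast at this
    linarith
  have hklt : (k : ℝ) - 1 < Real.sqrt ((d : ℝ) + 1) := by linarith
  have hdR : (1 : ℝ) ≤ d := by exact_mod_cast hd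
  have hk2 : ((k : ℝ) - 1) ^ 2 < d + 1 := by
    have hs : Real.sqrt ((d : ℝ) + 1) ^ 2 = d + 1 := Real.sq_sqrt (by positivity)
    have hs1 : 1 < Real.sqrt ((d : ℝ) + 1) := by
      rw [Real.lt_sqrt (by norm_num)]; linarith
    have hk0 : (0 : ℝ) ≤ k := Nat.cast_nonneg _
    rw [← hs]
    apply sq_lt_sq'
    · linarith
    · exact hklt
  obtain ⟨w, hw1, hw2, hw3⟩ := extend_all d k N hk hk2 v hv1 hv2
  refine ⟨w, ⟨Fin.castLE hle, Fin.castLE_injective hle⟩, hw1, hw2, fun i => hw3 i, ?_⟩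
  intro u hu1 hu2
  classical
  let J : Finset (Fin (d ^ 2)) := Finset.univ.filter (fun j => j ∉ Set.range (Fin.castLE hle))
  have hJcard : J.card = k := by
    have h1 : J = Finset.univ \ (Finset.univ.image (Fin.castLE hle)) := by
      ext j
      simp only [J, Finset.mem_filter, Finset.mem_sdiff, Finset.mem_univ, true_and,
        Finset.mem_image, Set.mem_range]
    rw [h1, Finset.card_sdiff_of_subset (Finset.subset_univ _),
      Finset.card_image_of_injective _ (Fin.castLE_injective hle), Finset.card_univ,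
      Finset.card_univ, Fintype.card_fin, Fintype.card_fin]
    omega
  obtain ⟨j, hj, c, hc⟩ := unique_line (n := Fin d) (fun i => (w i).ofLp) d (Fintype.card_fin d) hd
    (fun i => hunit _ (hw1 i)) (fun i j hij => by rw [hin, hw2 i j hij, hs2])
    (Fintype.card_fin _) J (by rw [hJcard]; exact hklt) u.ofLp (hunit _ hu1)
    (by
      intro j hj
      have h1 : j ∈ Set.range (Fin.castLE hle) := by
        by_contra hcon
        exact hj (by simp only [J, Finset.mem_filter, Finset.mem_univ, true_and]; exact hcon)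
      obtain ⟨i, rfl⟩ := h1
      rw [hin, hw3 i, hu2 i, hs2])
  refine ⟨j, ?_, c, ?_⟩
  · have := (Finset.mem_filter.mp hj).2
    exact this
  · ext i
    have := congrFun hc i
    simpa using this

end Pool.Agent.Lib.MP_d0f9e0_co.Gap
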