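import Mathlib

set_option autoImplicit false

open Module
open scoped InnerProductSpace

namespace Pool.Agent.Lib.MP_d0f9e0_co.Gap.Lin

section Joint

variable {E : Type*} [NormedAddCommGroup E] [InnerProductSpace ℝ E] [FiniteDimensional ℝ E]

/-- an orthonormal basis of joint eigenvectors -/
theorem joint_basis {ι : Type*} (T : ι → E →ₗ[ℝ] E) (hT : ∀ i, (T i).IsSymmetric)
    (hC : ∀ i j, T i * T j = T j * T i) :
    ∃ (b : OrthonormalBasis (Fin (finrank ℝ E)) ℝ E) (χ : ι → Fin (finrank ℝ E) → ℝ),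
      ∀ i j, T i (b j) = χ i j • b j := by
  classical
  set W : (ι → ℝ) → Submodule ℝ E := fun γ => ⨅ j, End.eigenspace (T j) (γ j) with hW
  have hcomm : Pairwise (Function.onFun Commute T) := fun a b _ => hC a b
  have htop : ⨆ γ, W γ = ⊤ := LinearMap.IsSymmetric.iSup_iInf_eq_top_of_commute hT hcomm
  have horth : OrthogonalFamily ℝ (fun γ => W γ) fun γ => (W γ).subtypeₗᵢ :=
    LinearMap.IsSymmetric.orthogonalFamily_iInf_eigenspaces hT
  have hfin : Set.Finite {γ | W γ ≠ ⊥} :=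
    WellFoundedGT.finite_ne_bot_of_iSupIndep horth.independent
  let S := {γ : ι → ℝ // W γ ≠ ⊥}
  let _ : Fintype S := hfin.fintype
  have horth' : OrthogonalFamily ℝ (fun γ : S => W γ.1) fun γ : S => (W γ.1).subtypeₗᵢ :=
    horth.comp Subtype.val_injective
  have htop' : ⨆ γ : S, W γ.1 = ⊤ := by
    rw [eq_top_iff, ← htop]
    refine iSup_le fun γ => ?_
    by_cases h : W γ = ⊥
    · rw [h]; exact bot_le
    · exact le_iSup (fun γ : S => W γ.1) ⟨γ, h⟩
  have hint : DirectSum.IsInternal (fun γ : S => W γ.1) := by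
    rw [horth'.isInternal_iff, htop', Submodule.top_orthogonal_eq_bot]
  refine ⟨hint.subordinateOrthonormalBasis rfl horth',
    fun i j => (hint.subordinateOrthonormalBasisIndex rfl j horth').1 i, fun i j => ?_⟩
  have h := hint.subordinateOrthonormalBasis_subordinate rfl j horth'
  simp only [hW, Submodule.mem_iInf] at h
  exact End.mem_eigenspace_iff.mp (h i)

end Joint

section MaxRank

variable {V : Type*} [AddCommGroup V] [Module ℝ V] [FiniteDimensional ℝ V]
variable {F : Type*} [NormedAddCommGroup F] [NormedSpace ℝ F]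

/-- If the rank of `A + t B` never exceeds that of `A` then `B` maps the kernel of `A` to the
range of `A`. -/
theorem max_rank (A B : V →ₗ[ℝ] F)
    (h : ∀ t : ℝ, finrank ℝ (LinearMap.range (A + t • B)) ≤ finrank ℝ (LinearMap.range A))
    (s : V) (hs : A s = 0) : B s ∈ LinearMap.range A := by
  classical
  by_contra hcon
  set b := Module.finBasis ℝ (LinearMap.range A) with hb
  have hex : ∀ i, ∃ x : V, A x = (b i : F) := fun i => (b i).2
  choose x hx using hex
  let v : ℝ → Option (Fin (finrank ℝ (LinearMap.range A))) → F :=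
    fun t o => o.elim (B s) (fun i => A (x i) + t • B (x i))
  have hli : LinearIndependent ℝ (v 0) := by
    have h1 : LinearIndependent ℝ (fun i => (b i : F)) := by
      have := b.linearIndependent.map' (LinearMap.range A).subtype (Submodule.ker_subtype _)
      exact this
    rw [linearIndependent_option]
    refine ⟨?_, ?_⟩
    · have h2 : (v 0 ∘ (fun i => some i) : Fin _ → F) = fun i => (b i : F) := by
        funext i
        simp [v, hx]
      rw [h2]; exact h1
    · intro h3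
      apply hcon
      change B s ∈ _ at h3
      refine (Submodule.span_le (p := LinearMap.range A)).mpr ?_ h3
      rintro _ ⟨i, rfl⟩
      simp only [v, Function.comp, Option.elim_some, zero_smul, add_zero]
      exact ⟨x i, rfl⟩
  have hopen : IsOpen {f : Option (Fin (finrank ℝ (LinearMap.range A))) → F |
      LinearIndependent ℝ f} := isOpen_setOfPred_linearIndependent
  have hcont : Continuous v := by
    refine continuous_pi fun o => ?_
    cases o with
    | none => exact continuous_const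
    | some i => exact continuous_const.add (continuous_id.smul continuous_const)
  have hpre : IsOpen {t : ℝ | LinearIndependent ℝ (v t)} := hopen.preimage hcont
  obtain ⟨ε, hε, hball⟩ := Metric.isOpen_iff.mp hpre 0 hli
  have ht : LinearIndependent ℝ (v (ε / 2)) := by
    apply hball
    rw [Metric.mem_ball, Real.dist_eq, sub_zero, abs_of_pos (by positivity)]
    linarith
  have hmem : ∀ o, v (ε / 2) o ∈ LinearMap.range (A + (ε / 2) • B) := by
    intro o
    cases o with
    | none =>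
      refine ⟨(ε / 2)⁻¹ • s, ?_⟩
      have h6 : (ε / 2) * (ε / 2)⁻¹ = 1 := mul_inv_cancel₀ (by positivity)
      simp only [v, Option.elim_none, LinearMap.add_apply, LinearMap.smul_apply, map_smul, hs,
        zero_add, smul_smul]
      rw [mul_comm, h6, one_smul]
    | some i =>
      refine ⟨x i, ?_⟩
      simp [v]
  let w : Option (Fin (finrank ℝ (LinearMap.range A))) → LinearMap.range (A + (ε / 2) • B) :=
    fun o => ⟨v (ε / 2) o, hmem o⟩
  have hw : LinearIndependent ℝ w := by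
    apply LinearIndependent.of_comp (LinearMap.range (A + (ε / 2) • B)).subtype
    exact ht
  have h4 := hw.fintype_card_le_finrank
  rw [Fintype.card_option, Fintype.card_fin] at h4
  have h5 := h (ε / 2)
  omega

end MaxRank



section Iso

/-- An isotropic subspace of a nondegenerate diagonal form has at most half the dimension. -/
theorem iso_dim {U : Type*} [AddCommGroup U] [Module ℝ U] [FiniteDimensional ℝ U] {k : ℕ}
    (χ : U →ₗ[ℝ] (Fin k → ℝ)) (hχ : Function.Injective χ) (g : Fin k → ℝ) (hg : ∀ j, g j ≠ 0)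
    (h : ∀ v w, ∑ j, g j * (χ v j * χ w j) = 0) : 2 * finrank ℝ U ≤ k := by
  let A : U →ₗ[ℝ] EuclideanSpace ℝ (Fin k) := (WithLp.linearEquiv 2 ℝ (Fin k → ℝ)).symm.toLinearMap ∘ₗ χ
  let D : (Fin k → ℝ) →ₗ[ℝ] (Fin k → ℝ) :=
    { toFun := fun y j => g j * y j
      map_add' := fun y z => by funext j; simp [mul_add]
      map_smul' := fun c y => by funext j; simp; ring }
  let B : U →ₗ[ℝ] EuclideanSpace ℝ (Fin k) :=
    (WithLp.linearEquiv 2 ℝ (Fin k → ℝ)).symm.toLinearMap ∘ₗ D ∘ₗ χ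
  have hAapp : ∀ v j, A v j = χ v j := fun v j => rfl
  have hBapp : ∀ v j, B v j = g j * χ v j := fun v j => rfl
  have hA : Function.Injective A := by
    intro v w hvw
    apply hχ
    funext j
    rw [← hAapp, ← hAapp, hvw]
  have hB : Function.Injective B := by
    intro v w hvw
    apply hχ
    funext j
    have h1 : B v j = B w j := by rw [hvw]
    rw [hBapp, hBapp] at h1
    exact mul_left_cancel₀ (hg j) h1
  have h1 : LinearMap.range B ≤ (LinearMap.range A)ᗮ := by
    rintro _ ⟨w, rfl⟩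
    rw [Submodule.mem_orthogonal]
    rintro _ ⟨v, rfl⟩
    rw [PiLp.inner_apply]
    rw [← h v w]
    refine Finset.sum_congr rfl fun j _ => ?_
    rw [hAapp, hBapp]
    simp
    ring
  have h2 := Submodule.finrank_mono h1
  have h3 := (LinearMap.range A).finrank_add_finrank_orthogonal
  rw [finrank_euclideanSpace, Fintype.card_fin] at h3
  rw [LinearMap.finrank_range_of_inj hA] at h3
  rw [LinearMap.finrank_range_of_inj hB] at h2
  omega

end Iso

section Sys

variable {V : Type*} [AddCommGroup V] [Module ℝ V]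
variable {F : Type*} [NormedAddCommGroup F] [InnerProductSpace ℝ F]

/-- The real form of a symmetric family: `R x y` is the vector of the real parts of the values of
the Hermitian forms and `J` is multiplication by `i`. -/
structure Sys (R : V →ₗ[ℝ] V →ₗ[ℝ] F) (J : V →ₗ[ℝ] V) : Prop where
  hJ : ∀ x, J (J x) = -x
  sym : ∀ x y, R x y = R y x
  RJ : ∀ x y, R (J x) (J y) = R x y
  S : ∀ a b c d, ⟪R a b, R c d⟫_ℝ - ⟪R a (J b), R c (J d)⟫_ℝ =
    ⟪R a d, R c b⟫_ℝ - ⟪R a (J d), R c (J b)⟫_ℝ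
  nd : ∀ x, (∀ y, R x y = 0) → x = 0

variable {R : V →ₗ[ℝ] V →ₗ[ℝ] F} {J : V →ₗ[ℝ] V}

theorem Sys.RJ' (hs : Sys R J) (x y : V) : R (J x) y = -R x (J y) := by
  have h := hs.RJ x (J y)
  rw [hs.hJ, map_neg] at h
  rw [← h, neg_neg]

theorem Sys.star (hs : Sys R J) {v w : V} (h : R w (J v) = 0) (x y : V) :
    ⟪R w x, R v y⟫_ℝ + ⟪R w (J x), R v (J y)⟫_ℝ = ⟪R w v, R x y⟫_ℝ := by
  have h1 := hs.S w x y v
  rw [h, inner_zero_left, sub_zero, hs.sym y v, hs.sym y (J v), hs.RJ', inner_neg_right,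
    sub_neg_eq_add, hs.sym y x] at h1
  exact h1

theorem Sys.lin (hs : Sys R J) {v w : V} (h : R w (J v) = 0) (x y : V) :
    ⟪R w x, R v y⟫_ℝ = ⟪R v x, R w y⟫_ℝ := by
  have h1 := hs.S w x v y
  have h2 := hs.star h x y
  have h3 := hs.star h y x
  rw [hs.sym y x] at h3
  rw [real_inner_comm (R w y) (R v x)]
  linarith

end Sys

section Main

variable {V : Type*} [AddCommGroup V] [Module ℝ V] [FiniteDimensional ℝ V]
variable {F : Type*} [NormedAddCommGroup F] [InnerProductSpace ℝ F] [FiniteDimensional ℝ F]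
variable {R : V →ₗ[ℝ] V →ₗ[ℝ] F} {J : V →ₗ[ℝ] V}

omit [FiniteDimensional ℝ V] in
theorem exists_max (R : V →ₗ[ℝ] V →ₗ[ℝ] F) :
    ∃ e, ∀ e', finrank ℝ (LinearMap.range (R e')) ≤ finrank ℝ (LinearMap.range (R e)) := by
  classical
  let P : ℕ → Prop := fun k => ∃ e, finrank ℝ (LinearMap.range (R e)) = k
  have hb : ∀ e, finrank ℝ (LinearMap.range (R e)) ≤ finrank ℝ F := fun e =>
    Submodule.finrank_le _
  have h0 : P (Nat.findGreatest P (finrank ℝ F)) :=
    Nat.findGreatest_spec (P := P) (hb 0) ⟨0, rfl⟩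
  obtain ⟨e, he⟩ := h0
  refine ⟨e, fun e' => ?_⟩
  rw [he]
  exact Nat.le_findGreatest (hb e') ⟨e', rfl⟩

/-- The structure at a vector of maximal rank. -/
theorem diag (hs : Sys R J) :
    ∃ (e : V) (k : ℕ) (ξ : Fin k → F) (σ : Fin k → V), k = finrank ℝ (LinearMap.range (R e)) ∧
      (∀ j, R e (σ j) = ξ j) ∧ (∀ i j, ⟪ξ i, ξ j⟫_ℝ = if i = j then 1 else 0) ∧
      (∀ v w, R e (J v) = 0 → R e (J w) = 0 → R v (J w) = 0) ∧
      (∀ v, R e (J v) = 0 → ∀ x, R v x = ∑ j, (⟪ξ j, R v (σ j)⟫_ℝ * ⟪ξ j, R e x⟫_ℝ) • ξ j) := by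
  classical
  obtain ⟨e, he⟩ := exists_max R
  have hmr : ∀ s, R e s = 0 → ∀ x, R x s ∈ LinearMap.range (R e) := by
    intro s hs x
    refine max_rank (R e) (R x) (fun t => ?_) s hs
    have h1 := he (e + t • x)
    rwa [map_add, map_smul] at h1
  have hR0 : ∀ v, R e (J v) = 0 → R v (J e) = 0 := by
    intro v hv
    rw [hs.sym, hs.RJ', hv, neg_zero]
  have hUE : ∀ v, R e (J v) = 0 → ∀ x, R v x ∈ LinearMap.range (R e) := by
    intro v hv x
    have h1 := hmr (J v) hv (J x)
    rwa [hs.RJ, hs.sym] at h1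
  have hUU : ∀ v w, R e (J v) = 0 → R e (J w) = 0 → R v (J w) = 0 := by
    intro v w hv hw
    have hmem := hmr (J w) hw v
    have hanti : R w (J v) = -R v (J w) := by
      rw [hs.sym v (J w), hs.RJ' w v, neg_neg]
    have horth : ∀ y, ⟪R v (J w), R e y⟫_ℝ = 0 := by
      intro y
      have h1 := hs.S v (J w) e y
      have h2 := hs.S w (J v) e y
      rw [hs.hJ, hw, map_neg, map_neg, inner_neg_left, inner_neg_right, inner_zero_right] at h1
      rw [hs.hJ, hv, map_neg, map_neg, inner_neg_left, inner_neg_right, inner_zero_right, hanti,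
        inner_neg_left, hs.sym w v] at h2
      have h3 := hs.S v (J y) w e
      rw [hR0 v hv, hR0 w hw, inner_zero_right, inner_zero_left, hs.sym w e, hs.sym v e] at h3
      have h4 := real_inner_comm (R w (J y)) (R e v)
      linarith
    obtain ⟨y, hy⟩ := hmem
    have h5 := horth y
    rw [hy, inner_self_eq_zero] at h5
    exact h5
  have hN : ∀ v, R e (J v) = 0 → ∀ x, R e x = 0 → R v x = 0 := by
    intro v hv x hx
    have h1 : R e (J (-J x)) = 0 := by
      rw [map_neg, hs.hJ, neg_neg, hx]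
    have h2 := hUU v (-J x) hv h1
    rwa [map_neg, hs.hJ, neg_neg] at h2
  set E := LinearMap.range (R e) with hE
  obtain ⟨g, hg⟩ := (R e).rangeRestrict.exists_rightInverse_of_surjective
    (LinearMap.range_rangeRestrict (R e))
  have hgE : ∀ z : E, R e (g z) = (z : F) := by
    intro z
    have h1 := congrArg (fun f : E →ₗ[ℝ] E => ((f z : E) : F)) hg
    simpa using h1
  let T : {v : V // R e (J v) = 0} → E →ₗ[ℝ] E := fun v =>
    ((R v.1).comp g).codRestrict E (fun z => hUE v.1 v.2 (g z))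
  have hTapp : ∀ v z, ((T v z : E) : F) = R v.1 (g z) := fun v z => rfl
  have hTR : ∀ (v : {v : V // R e (J v) = 0}) (x : V),
      ((T v ⟨R e x, ⟨x, rfl⟩⟩ : E) : F) = R v.1 x := by
    intro v x
    rw [hTapp]
    have h1 : R e (g ⟨R e x, ⟨x, rfl⟩⟩ - x) = 0 := by
      rw [map_sub, hgE, sub_self]
    have h2 := hN v.1 v.2 _ h1
    rw [map_sub, sub_eq_zero] at h2
    exact h2
  have hTsym : ∀ v, (T v).IsSymmetric := by
    rintro v ⟨_, x, rfl⟩ ⟨_, y, rfl⟩
    rw [Submodule.coe_inner, Submodule.coe_inner, hTR, hTR]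
    change ⟪R v.1 x, R e y⟫_ℝ = ⟪R e x, R v.1 y⟫_ℝ
    exact hs.lin (hR0 v.1 v.2) x y
  have hTcomm : ∀ v w, T v * T w = T w * T v := by
    intro v w
    have h1 : ∀ z z' : E, ⟪(T v * T w) z, z'⟫_ℝ = ⟪(T w * T v) z, z'⟫_ℝ := by
      rintro ⟨_, x, rfl⟩ ⟨_, y, rfl⟩
      have e1 : ⟪(T v * T w) ⟨R e x, ⟨x, rfl⟩⟩, ⟨R e y, ⟨y, rfl⟩⟩⟫_ℝ = ⟪R w.1 x, R v.1 y⟫_ℝ := by
        have h2 := hTsym v (T w ⟨R e x, ⟨x, rfl⟩⟩) ⟨R e y, ⟨y, rfl⟩⟩
        rw [Module.End.mul_apply]
        refine h2.trans ?_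
        rw [Submodule.coe_inner, hTR, hTR]
      have e2 : ⟪(T w * T v) ⟨R e x, ⟨x, rfl⟩⟩, ⟨R e y, ⟨y, rfl⟩⟩⟫_ℝ = ⟪R v.1 x, R w.1 y⟫_ℝ := by
        have h2 := hTsym w (T v ⟨R e x, ⟨x, rfl⟩⟩) ⟨R e y, ⟨y, rfl⟩⟩
        rw [Module.End.mul_apply]
        refine h2.trans ?_
        rw [Submodule.coe_inner, hTR, hTR]
      exact (e1.trans (hs.lin (hUU w.1 v.1 w.2 v.2) x y)).trans e2.symm
    refine LinearMap.ext fun z => ?_
    exact ext_inner_right ℝ (h1 z)
  obtain ⟨b, χ, hb⟩ := joint_basis T hTsym hTcomm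
  refine ⟨e, finrank ℝ E, fun j => (b j : F), fun j => g (b j), rfl, fun j => hgE _, ?_, hUU, ?_⟩
  · intro i j
    rw [← Submodule.coe_inner]
    exact orthonormal_iff_ite.mp b.orthonormal i j
  · intro v hv x
    have h1 : (T ⟨v, hv⟩ ⟨R e x, ⟨x, rfl⟩⟩ : E) = ∑ j, (χ ⟨v, hv⟩ j * ⟪(b j : F), R e x⟫_ℝ) • b j := by
      conv_lhs => rw [← b.sum_repr' ⟨R e x, ⟨x, rfl⟩⟩]
      rw [map_sum]
      refine Finset.sum_congr rfl fun j _ => ?_
      rw [map_smul, hb, smul_smul, mul_comm]
      rfl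
    have h2 : ∀ j, χ ⟨v, hv⟩ j = ⟪(b j : F), R v (g (b j))⟫_ℝ := by
      intro j
      have h3 : ⟪b j, T ⟨v, hv⟩ (b j)⟫_ℝ = χ ⟨v, hv⟩ j := by
        rw [hb, inner_smul_right, real_inner_self_eq_norm_sq, b.norm_eq_one]
        ring
      rw [← h3, Submodule.coe_inner]
      rfl
    have h4 := congrArg (fun z : E => (z : F)) h1
    simp only [hTR] at h4
    rw [h4]
    push_cast
    refine Finset.sum_congr rfl fun j _ => ?_
    rw [h2 j]

/-- The linear rank theorem, real form. -/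
theorem linear_core (hs : Sys R J) (hdim : 3 * finrank ℝ F < 2 * finrank ℝ V) :
    ∃ (ξ ζ : F) (e : V), (∃ x, ⟪ζ, R e x⟫_ℝ ≠ 0) ∧
      ∀ x, ⟪ξ, R x x⟫_ℝ = ⟪ζ, R e x⟫_ℝ ^ 2 + ⟪ζ, R e (J x)⟫_ℝ ^ 2 := by
  classical
  obtain ⟨e, k, ξ, σ, hk, hσ, hξ, hUU, hexp⟩ := diag hs
  let γ : V → Fin k → ℝ := fun x j =>
    ⟪ξ j, R e e⟫_ℝ * ⟪ξ j, R x x⟫_ℝ - (⟪ξ j, R e x⟫_ℝ ^ 2 + ⟪ξ j, R e (J x)⟫_ℝ ^ 2)
  by_cases hcase : ∃ j, ∀ x, γ x j = 0
  · obtain ⟨j, hj⟩ := hcase
    refine ⟨⟪ξ j, R e e⟫_ℝ • ξ j, ξ j, e, ⟨σ j, ?_⟩, fun x => ?_⟩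
    · rw [hσ, hξ, if_pos rfl]
      exact one_ne_zero
    · have h1 := hj x
      simp only [γ] at h1
      rw [real_inner_smul_left]
      linarith
  · exfalso
    push Not at hcase
    -- the space U
    let U : Submodule ℝ V := LinearMap.ker ((R e).comp J)
    have hmemU : ∀ v : U, R e (J v.1) = 0 := fun v => by
      have h1 := v.2
      rw [LinearMap.mem_ker] at h1
      exact h1
    let χ : U →ₗ[ℝ] (Fin k → ℝ) :=
      { toFun := fun v j => ⟪ξ j, R v.1 (σ j)⟫_ℝ
        map_add' := fun v w => by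
          funext j
          simp [inner_add_right]
        map_smul' := fun c v => by
          funext j
          simp [inner_smul_right] }
    have hχapp : ∀ v j, χ v j = ⟪ξ j, R v.1 (σ j)⟫_ℝ := fun v j => rfl
    have hexp' : ∀ (v : U) (x : V), R v.1 x = ∑ j, (χ v j * ⟪ξ j, R e x⟫_ℝ) • ξ j := fun v x =>
      hexp v.1 (hmemU v) x
    have hχinj : Function.Injective χ := by
      rw [injective_iff_map_eq_zero]
      intro v hv
      have h1 : v.1 = 0 := by
        apply hs.nd
        intro y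
        rw [hexp' v y, hv]
        simp
      exact Subtype.ext h1
    have hin : ∀ (f g : Fin k → ℝ), ⟪∑ j, f j • ξ j, ∑ j, g j • ξ j⟫_ℝ = ∑ j, f j * g j := by
      intro f g
      rw [sum_inner]
      refine Finset.sum_congr rfl fun i _ => ?_
      rw [inner_sum]
      rw [Finset.sum_eq_single i]
      · rw [inner_smul_left, inner_smul_right, hξ, if_pos rfl]
        simp
      · intro j _ hj
        rw [inner_smul_left, inner_smul_right, hξ, if_neg (Ne.symm hj)]
        simp
      · intro h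
        exact absurd (Finset.mem_univ i) h
    have hce : ∀ (v : U) (j : Fin k), ⟪ξ j, R e v.1⟫_ℝ = χ v j * ⟪ξ j, R e e⟫_ℝ := by
      intro v j
      rw [hs.sym e v.1, hexp' v e, inner_sum, Finset.sum_eq_single j]
      · rw [inner_smul_right, hξ, if_pos rfl, mul_one]
      · intro i _ hi
        rw [inner_smul_right, hξ, if_neg (Ne.symm hi), mul_zero]
      · intro h
        exact absurd (Finset.mem_univ j) h
    have hkey : ∀ (x : V) (v w : U), ∑ j, γ x j * (χ v j * χ w j) = 0 := by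
      intro x v w
      have h1 := hs.star (hUU w.1 v.1 (hmemU w) (hmemU v)) x x
      rw [hexp' w x, hexp' v x, hexp' w (J x), hexp' v (J x), hexp' w v.1, hin, hin, sum_inner] at h1
      have h2 : ∀ j, ⟪(χ w j * ⟪ξ j, R e v.1⟫_ℝ) • ξ j, R x x⟫_ℝ =
          χ w j * (χ v j * ⟪ξ j, R e e⟫_ℝ) * ⟪ξ j, R x x⟫_ℝ := by
        intro j
        rw [real_inner_smul_left, hce]
      simp only [h2] at h1
      rw [← sub_eq_zero, ← Finset.sum_add_distrib, ← Finset.sum_sub_distrib] at h1
      rw [← neg_eq_zero, ← Finset.sum_neg_distrib, ← h1]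
      refine Finset.sum_congr rfl fun j _ => ?_
      simp only [γ]
      ring
    let p : Submodule ℝ (Fin k → ℝ) := Submodule.span ℝ (Set.range γ)
    have hp : ∀ g ∈ p, ∀ v w : U, ∑ j, g j * (χ v j * χ w j) = 0 := by
      intro g hg v w
      induction hg using Submodule.span_induction with
      | mem y hy =>
        obtain ⟨x, rfl⟩ := hy
        exact hkey x v w
      | zero => simp
      | add y z _ _ hy hz =>
        simp only [Pi.add_apply, add_mul, Finset.sum_add_distrib, hy, hz, add_zero]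
      | smul c y _ hy =>
        simp only [Pi.smul_apply, smul_eq_mul, mul_assoc, ← Finset.mul_sum, hy, mul_zero]
    obtain ⟨g, hgp, hg⟩ := Module.Dual.exists_forall_mem_ne_zero_of_forall_exists p
      (fun j : Fin k => (LinearMap.proj j : (Fin k → ℝ) →ₗ[ℝ] ℝ)) (by
        intro j
        obtain ⟨x, hx⟩ := hcase j
        exact ⟨γ x, Submodule.subset_span ⟨x, rfl⟩, hx⟩)
    have hdimU := iso_dim χ hχinj g (fun j => hg j) (hp g hgp)
    have h5 := LinearMap.finrank_range_add_finrank_ker ((R e).comp J)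
    have hJs : Function.Surjective J := fun x => ⟨-J x, by rw [map_neg, hs.hJ, neg_neg]⟩
    have h6 : LinearMap.range ((R e).comp J) = LinearMap.range (R e) :=
      LinearMap.range_comp_of_range_eq_top _ (LinearMap.range_eq_top.mpr hJs)
    rw [h6, ← hk] at h5
    have h7 : k ≤ finrank ℝ F := by rw [hk]; exact Submodule.finrank_le _
    change k + finrank ℝ U = _ at h5
    omega

end Main

end Pool.Agent.Lib.MP_d0f9e0_co.Gap.Lin
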