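import Pool.Agent.Lib.MP_d0f9e0_co.Gap.RankCritC

/-!
# The rank criterion
-/

set_option autoImplicit false

open Matrix
open scoped ComplexOrder

namespace Pool.Agent.Lib.MP_d0f9e0_co.Gap

private theorem hin {d : ℕ} (a b : EuclideanSpace ℂ (Fin d)) :
    star a.ofLp ⬝ᵥ b.ofLp = inner ℂ a b := by
  rw [EuclideanSpace.inner_eq_star_dotProduct, dotProduct_comm]

private theorem hunit {d : ℕ} (a : EuclideanSpace ℂ (Fin d)) (ha : ‖a‖ = 1) :
    star a.ofLp ⬝ᵥ a.ofLp = 1 := by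
  rw [hin, inner_self_eq_norm_sq_to_K, ha]; simp

private theorem hs2 (d : ℕ) : (1 / Real.sqrt ((d : ℝ) + 1)) ^ 2 = 1 / ((d : ℝ) + 1) := by
  rw [div_pow, one_pow, Real.sq_sqrt (by positivity)]

/-- `w` is a maximal ETF of `ℂ^d`, `v` is the part of `w` indexed by the range of `f`, and the
members of `w` outside of `v` are linearly independent. -/
def IndepCompl (d N : ℕ) (v : Fin N → EuclideanSpace ℂ (Fin d))
    (w : Fin (d ^ 2) → EuclideanSpace ℂ (Fin d)) (f : Fin N ↪ Fin (d ^ 2)) : Prop :=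
  (∀ i, ‖w i‖ = 1) ∧
  (∀ i j, i ≠ j → ‖inner ℂ (w i) (w j)‖ = 1 / Real.sqrt ((d : ℝ) + 1)) ∧
  (∀ i, w (f i) = v i) ∧
  LinearIndependent ℂ (fun j : {j // j ∉ Set.range f} => w j)

theorem ofLp_indep {d : ℕ} {J : Type*} (w : J → EuclideanSpace ℂ (Fin d)) :
    LinearIndependent ℂ w ↔ LinearIndependent ℂ (fun j => (w j).ofLp) := by
  have h := LinearMap.linearIndependent_iff
    (WithLp.linearEquiv 2 ℂ (Fin d → ℂ)).toLinearMap (v := w)
    (LinearEquiv.ker (WithLp.linearEquiv 2 ℂ (Fin d → ℂ)))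
  rw [← h]
  rfl

theorem rank_of_indepCompl (d N : ℕ) (hd : 1 ≤ d) (v : Fin N → EuclideanSpace ℂ (Fin d))
    (w : Fin (d ^ 2) → EuclideanSpace ℂ (Fin d)) (f : Fin N ↪ Fin (d ^ 2))
    (hw1 : ∀ i, ‖w i‖ = 1)
    (hw2 : ∀ i j, i ≠ j → ‖inner ℂ (w i) (w j)‖ = 1 / Real.sqrt ((d : ℝ) + 1))
    (hw3 : ∀ i, w (f i) = v i) :
    d ^ 2 ≤ N + (defect d N v).rank ↔
      LinearIndependent ℂ (fun j : {j // j ∉ Set.range f} => w j) := by
  classical
  obtain ⟨J, hJ⟩ : ∃ J : Finset (Fin (d ^ 2)), ∀ j, j ∈ J ↔ j ∉ Set.range f :=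
    ⟨Finset.univ.filter (fun j => j ∉ Set.range f), fun j => by
      rw [Finset.mem_filter]; simp⟩
  have h1 := defect_eq_sum d N hd v w f hw1 hw2 hw3 J hJ
  have h2 := card_compl d N f J hJ
  have h3 : LinearIndependent ℂ (fun j : {j // j ∉ Set.range f} => w j) ↔
      LinearIndependent ℂ (fun j : J => (w j).ofLp) := by
    rw [← ofLp_indep (fun j : J => w j)]
    let e : {j // j ∉ Set.range f} ≃ J := Equiv.subtypeEquivRight (fun j => (hJ j).symm)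
    exact (linearIndependent_equiv' e (by funext j; rfl))
  rw [h3, ← card_le_rank_iff (fun j : J => (w j).ofLp), ← h1, Fintype.card_coe]
  omega

theorem unique_of_indepCompl (d N : ℕ) (hd : 1 ≤ d) (v : Fin N → EuclideanSpace ℂ (Fin d))
    (w : Fin (d ^ 2) → EuclideanSpace ℂ (Fin d)) (f : Fin N ↪ Fin (d ^ 2))
    (hw1 : ∀ i, ‖w i‖ = 1)
    (hw2 : ∀ i j, i ≠ j → ‖inner ℂ (w i) (w j)‖ = 1 / Real.sqrt ((d : ℝ) + 1))
    (hw3 : ∀ i, w (f i) = v i)
    (hw4 : LinearIndependent ℂ (fun j : {j // j ∉ Set.range f} => w j))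
    (u : EuclideanSpace ℂ (Fin d)) (hu1 : ‖u‖ = 1)
    (hu2 : ∀ i, ‖inner ℂ (v i) u‖ = 1 / Real.sqrt ((d : ℝ) + 1)) :
    ∃ j, j ∉ Set.range f ∧ ∃ z : ℂ, u = z • w j := by
  classical
  obtain ⟨J, hJ⟩ : ∃ J : Finset (Fin (d ^ 2)), ∀ j, j ∈ J ↔ j ∉ Set.range f :=
    ⟨Finset.univ.filter (fun j => j ∉ Set.range f), fun j => by
      rw [Finset.mem_filter]; simp⟩
  have h3 : LinearIndependent ℂ (fun j : J => (w j).ofLp) := by
    rw [← ofLp_indep (fun j : J => w j)]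
    let e : J ≃ {j // j ∉ Set.range f} := Equiv.subtypeEquivRight (fun j => (hJ j))
    exact (linearIndependent_equiv' e (by funext j; rfl)).mpr hw4
  obtain ⟨j, hj, z, hz⟩ := unique_line_indep (n := Fin d) (fun i => (w i).ofLp) d
    (Fintype.card_fin d) hd (fun i => hunit _ (hw1 i))
    (fun i j hij => by rw [hin, hw2 i j hij, hs2])
    (Fintype.card_fin _) J h3 u.ofLp (hunit _ hu1)
    (by
      intro j hj
      have h1 : j ∈ Set.range f := by
        by_contra hcon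
        exact hj ((hJ j).mpr hcon)
      obtain ⟨i, rfl⟩ := h1
      rw [hin, hw3 i, hu2 i, hs2])
  refine ⟨j, (hJ j).mp hj, z, ?_⟩
  ext i
  have := congrFun hz i
  simpa using this

theorem rank_criterion (d N : ℕ) (hd : 1 ≤ d) (v : Fin N → EuclideanSpace ℂ (Fin d))
    (hv1 : ∀ i, ‖v i‖ = 1)
    (hv2 : ∀ i j, i ≠ j → ‖inner ℂ (v i) (v j)‖ = 1 / Real.sqrt ((d : ℝ) + 1)) :
    N + (defect d N v).rank = d ^ 2 ↔ ∃ w f, IndepCompl d N v w f := by
  constructor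
  · intro h
    have hN : N ≤ d ^ 2 := by omega
    obtain ⟨w, hw1, hw2, hw3⟩ := extend_all_rank d (d ^ 2 - N) N (by omega) v h.ge hv1 hv2
    refine ⟨w, ⟨Fin.castLE hN, Fin.castLE_injective hN⟩, hw1, hw2, fun i => hw3 i, ?_⟩
    exact (rank_of_indepCompl d N hd v w ⟨Fin.castLE hN, Fin.castLE_injective hN⟩ hw1 hw2
      (fun i => hw3 i)).mp h.ge
  · rintro ⟨w, f, hw1, hw2, hw3, hw4⟩
    exact le_antisymm (defect_rank_le d N hd v hv1 hv2)
      ((rank_of_indepCompl d N hd v w f hw1 hw2 hw3).mpr hw4)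

/-- The missing lines are independent when few are missing. -/
theorem rank_eq_of_few (d N : ℕ) (hd : 1 ≤ d)
    (hN : (d : ℝ) ^ 2 - 1 - Real.sqrt ((d : ℝ) + 1) < N)
    (v : Fin N → EuclideanSpace ℂ (Fin d)) (hv1 : ∀ i, ‖v i‖ = 1)
    (hv2 : ∀ i j, i ≠ j → ‖inner ℂ (v i) (v j)‖ = 1 / Real.sqrt ((d : ℝ) + 1)) :
    N + (defect d N v).rank = d ^ 2 := by
  classical
  obtain ⟨w, f, hw1, hw2, hw3, -⟩ := completion d N hd hN v hv1 hv2
  refine le_antisymm (defect_rank_le d N hd v hv1 hv2) ?_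
  obtain ⟨J, hJ⟩ : ∃ J : Finset (Fin (d ^ 2)), ∀ j, j ∈ J ↔ j ∉ Set.range f :=
    ⟨Finset.univ.filter (fun j => j ∉ Set.range f), fun j => by
      rw [Finset.mem_filter]; simp⟩
  have h2 := card_compl d N f J hJ
  have h3 : (J.card : ℝ) - 1 < Real.sqrt ((d : ℝ) + 1) := by
    have h4 : ((N + J.card : ℕ) : ℝ) = ((d ^ 2 : ℕ) : ℝ) := by rw [h2]
    push_cast at h4
    linarith
  have h5 := indep_of_few (n := Fin d) (fun i => (w i).ofLp) d (fun i => hunit _ (hw1 i))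
    (fun i j hij => by rw [hin, hw2 i j hij, hs2]) J h3
  have h6 := (card_le_rank_iff (fun j : J => (w j).ofLp)).mpr h5
  rw [← defect_eq_sum d N hd v w f hw1 hw2 hw3 J hJ, Fintype.card_coe] at h6
  omega

end Pool.Agent.Lib.MP_d0f9e0_co.Gap
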