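import Pool.Agent.Lib.MP_d0f9e0_co.Gap.LinearMat
import Pool.Agent.Lib.MP_d0f9e0_co.Gap.RankCritD

/-!
# The linear gap: completion when at most `1 + d / 3` lines are missing, and uniqueness when fewer
than `d` lines are missing
-/

set_option autoImplicit false

open Matrix Module
open scoped ComplexOrder

namespace Pool.Agent.Lib.MP_d0f9e0_co.Gap.Lin

open Pool.Agent.Lib.MP_d0f9e0_co.Gap

section Trace

variable {n : Type*} [Fintype n] [DecidableEq n]

/-- Cauchy-Schwarz for the eigenvalues. -/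
theorem trace_sq_le_rank (R : Matrix n n ℂ) (hR : R.IsHermitian) :
    (trace R).re ^ 2 ≤ (R.rank : ℝ) * (trace (R * R)).re := by
  classical
  obtain ⟨U, hU⟩ : ∃ U : Matrix n n ℂ, U = (hR.eigenvectorUnitary : Matrix n n ℂ) := ⟨_, rfl⟩
  set ev := hR.eigenvalues with hev
  have hUU' : U * Uᴴ = 1 := by
    rw [hU, ← Matrix.star_eq_conjTranspose]
    exact Unitary.coe_mul_star_self _
  have hRU : Uᴴ * R * U = diagonal (fun i => (ev i : ℂ)) := by
    have := hR.conjStarAlgAut_star_eigenvectorUnitary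
    rw [Unitary.conjStarAlgAut_star_apply] at this
    rw [hU, ← Matrix.star_eq_conjTranspose]
    exact this
  have h1 : (trace R).re = ∑ i, ev i := by
    rw [hR.trace_eq_sum_eigenvalues, Complex.re_sum]
    rfl
  have h2 : (trace (R * R)).re = ∑ i, ev i ^ 2 := by
    have e1 : trace (R * R) = trace ((Uᴴ * R * U) * (Uᴴ * R * U)) := by
      have e2 : (Uᴴ * R * U) * (Uᴴ * R * U) = Uᴴ * (R * R) * U := by
        calc (Uᴴ * R * U) * (Uᴴ * R * U) = Uᴴ * R * (U * Uᴴ) * R * U := by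
              simp only [Matrix.mul_assoc]
          _ = Uᴴ * (R * R) * U := by rw [hUU', Matrix.mul_one]; simp only [Matrix.mul_assoc]
      rw [e2, Matrix.trace_mul_comm (Uᴴ * (R * R)) U, ← Matrix.mul_assoc, hUU', Matrix.one_mul]
    rw [e1, hRU, Matrix.diagonal_mul_diagonal, Matrix.trace_diagonal, Complex.re_sum]
    refine Finset.sum_congr rfl fun i _ => ?_
    rw [← Complex.ofReal_mul, Complex.ofReal_re, sq]
  have h3 : R.rank = (Finset.univ.filter (fun i => ev i ≠ 0)).card := by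
    rw [hR.rank_eq_card_non_zero_eigs, Fintype.card_subtype]
  have h4 : ∑ i, ev i = ∑ i ∈ Finset.univ.filter (fun i => ev i ≠ 0), ev i :=
    (Finset.sum_filter_ne_zero _).symm
  have h5 : ∑ i, ev i ^ 2 = ∑ i ∈ Finset.univ.filter (fun i => ev i ≠ 0), ev i ^ 2 := by
    symm
    apply Finset.sum_subset (Finset.subset_univ _)
    intro i _ hi
    have : ev i = 0 := by
      by_contra hcon
      exact hi (Finset.mem_filter.mpr ⟨Finset.mem_univ _, hcon⟩)
    rw [this]
    ring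
  rw [h1, h2, h3, h4, h5]
  exact sq_sum_le_card_mul_sum_sq

end Trace

section Extend

variable {n : Type*} [Fintype n] [DecidableEq n]

/-- The rank of `d - S` is large (Welch). -/
theorem rank_large {κ : Type*} [Fintype κ] (x : κ → n → ℂ) (d : ℕ)
    (hd : Fintype.card n = d)
    (hx : ∀ i, star (x i) ⬝ᵥ x i = 1)
    (hxy : ∀ i j, i ≠ j → ‖star (x i) ⬝ᵥ x j‖ ^ 2 = 1 / ((d : ℝ) + 1))
    (hN : Fintype.card κ < d ^ 2) :
    ((d : ℝ) ^ 2 - Fintype.card κ) * (d + 1) ≤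
      ((d : ℂ) • (1 : Matrix n n ℂ) - ∑ i, vecMulVec (x i) (star (x i))).rank *
        (d + ((d : ℝ) ^ 2 - Fintype.card κ)) := by
  obtain ⟨w, K, c, R, hw, hR, hKH, hKS, hRc, hR2, hPK, htr, htr2⟩ := fam_data x d hd hx hxy hN
  have hRH : R.IsHermitian := by
    rw [← hR2]
    unfold Matrix.IsHermitian
    rw [Matrix.conjTranspose_sum]
    refine Finset.sum_congr rfl fun a _ => ?_
    rw [Matrix.conjTranspose_mul, (hKH a).eq]
  rw [← hR]
  have h1 := trace_sq_le_rank R hRH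
  rw [htr, htr2] at h1
  set m : ℝ := (d : ℝ) ^ 2 - Fintype.card κ with hm
  have hm0 : 0 < m := by
    have : (Fintype.card κ : ℝ) < ((d ^ 2 : ℕ) : ℝ) := by exact_mod_cast hN
    push_cast at this
    rw [hm]; linarith
  have hd0 : (0 : ℝ) ≤ d := Nat.cast_nonneg _
  have h3 : m ^ 2 * (d + 1) ≤ R.rank * (m * (d + m)) := by
    have h4 : (R.rank : ℝ) * (m * (d + m) / (d + 1)) = R.rank * (m * (d + m)) / (d + 1) := by
      ring
    rw [h4, le_div_iff₀ (by positivity)] at h1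
    exact h1
  have h5 : m * (m * (d + 1)) ≤ m * (R.rank * (d + m)) := by
    calc m * (m * (d + 1)) = m ^ 2 * (d + 1) := by ring
      _ ≤ R.rank * (m * (d + m)) := h3
      _ = m * (R.rank * (d + m)) := by ring
  exact le_of_mul_le_mul_left h5 hm0

/-- One more vector, when the rank of `d - S` exceeds three quarters of the number of missing
vectors. -/
theorem extend_one_of_rank {κ : Type*} [Fintype κ] (x : κ → n → ℂ) (d : ℕ)
    (hd : Fintype.card n = d)
    (hx : ∀ i, star (x i) ⬝ᵥ x i = 1)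
    (hxy : ∀ i j, i ≠ j → ‖star (x i) ⬝ᵥ x j‖ ^ 2 = 1 / ((d : ℝ) + 1))
    (hN : Fintype.card κ < d ^ 2)
    (hk : 3 * d ^ 2 < 3 * Fintype.card κ +
      4 * ((d : ℂ) • (1 : Matrix n n ℂ) - ∑ i, vecMulVec (x i) (star (x i))).rank) :
    ∃ q : n → ℂ, q ≠ 0 ∧ ∀ i, ‖star (x i) ⬝ᵥ q‖ ^ 2 = (star q ⬝ᵥ q).re / ((d : ℝ) + 1) := by
  obtain ⟨w, K, c, R, hw, hR, hKH, hKS, hRc, hR2, hPK, htr, htr2⟩ := fam_data x d hd hx hxy hN
  rw [← hR] at hk
  have hrank : 3 * Fintype.card (Option (Fin w)) < 4 * R.rank := by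
    rw [Fintype.card_option, Fintype.card_fin]
    omega
  obtain ⟨t, q, hq0, htq⟩ := linear_rank_one K hKH hKS R hR2 hrank
  refine ⟨q, hq0, fun i => ?_⟩
  have hPq : trace (vecMulVec (x i) (star (x i)) * vecMulVec q (star q)) =
      ((‖star (x i) ⬝ᵥ q‖ ^ 2 : ℝ) : ℂ) := trace_proj_mul _ _
  have h1 : trace (vecMulVec (x i) (star (x i)) * vecMulVec q (star q)) =
      trace (vecMulVec q (star q)) / (d + 1) := by
    rw [← htq, Matrix.mul_sum, Matrix.trace_sum, Matrix.trace_sum, Finset.sum_div]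
    refine Finset.sum_congr rfl fun a _ => ?_
    rw [Matrix.mul_smul, Matrix.trace_smul, Matrix.trace_smul, hPK, smul_eq_mul, smul_eq_mul]
    ring
  rw [hPq, Matrix.trace_vecMulVec, dotProduct_comm q (star q)] at h1
  have h2 := congrArg Complex.re h1
  rw [Complex.ofReal_re] at h2
  rw [h2]
  have h3 : (star q ⬝ᵥ q / ((d : ℂ) + 1)) = (star q ⬝ᵥ q) / (((d : ℝ) + 1 : ℝ) : ℂ) := by
    push_cast; rfl
  rw [h3, Complex.div_ofReal_re]

end Extend

private theorem hin {d : ℕ} (a b : EuclideanSpace ℂ (Fin d)) :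
    star a.ofLp ⬝ᵥ b.ofLp = inner ℂ a b := by
  rw [EuclideanSpace.inner_eq_star_dotProduct, dotProduct_comm]

private theorem hunit {d : ℕ} (a : EuclideanSpace ℂ (Fin d)) (ha : ‖a‖ = 1) :
    star a.ofLp ⬝ᵥ a.ofLp = 1 := by
  rw [hin, inner_self_eq_norm_sq_to_K, ha]; simp

private theorem hs2 (d : ℕ) : (1 / Real.sqrt ((d : ℝ) + 1)) ^ 2 = 1 / ((d : ℝ) + 1) := by
  rw [div_pow, one_pow, Real.sq_sqrt (by positivity)]

/-- One more vector can be added. -/
theorem add_vector_of_rank (d N : ℕ) (v : Fin N → EuclideanSpace ℂ (Fin d))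
    (hv1 : ∀ i, ‖v i‖ = 1)
    (hv2 : ∀ i j, i ≠ j → ‖inner ℂ (v i) (v j)‖ = 1 / Real.sqrt ((d : ℝ) + 1))
    (hN : N < d ^ 2) (hk : 3 * d ^ 2 < 3 * N + 4 * (defect d N v).rank) :
    ∃ u : EuclideanSpace ℂ (Fin d), ‖u‖ = 1 ∧
      ∀ i, ‖inner ℂ (v i) u‖ = 1 / Real.sqrt ((d : ℝ) + 1) := by
  obtain ⟨q, hq0, hq⟩ := extend_one_of_rank (n := Fin d) (fun i => (v i).ofLp) d
    (Fintype.card_fin d)
    (fun i => hunit _ (hv1 i)) (fun i j hij => by rw [hin, hv2 i j hij, hs2])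
    (by rwa [Fintype.card_fin]) (by rwa [Fintype.card_fin])
  set Q : EuclideanSpace ℂ (Fin d) := WithLp.toLp 2 q with hQ
  have hQ0 : Q ≠ 0 := by
    intro h
    apply hq0
    have := congrArg (fun z : EuclideanSpace ℂ (Fin d) => z.ofLp) h
    simpa [hQ] using this
  have hQn : 0 < ‖Q‖ := norm_pos_iff.mpr hQ0
  refine ⟨((‖Q‖⁻¹ : ℝ) : ℂ) • Q, ?_, ?_⟩
  · rw [norm_smul, Complex.norm_real, norm_inv, norm_norm, inv_mul_cancel₀ hQn.ne']
  · intro i
    rw [inner_smul_right, norm_mul, Complex.norm_real, norm_inv, norm_norm]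
    have h1 := hq i
    have h2 : (star q ⬝ᵥ q).re = ‖Q‖ ^ 2 := by
      have : star q ⬝ᵥ q = inner ℂ Q Q := hin Q Q
      rw [this, inner_self_eq_norm_sq_to_K]
      norm_cast
    have h3 : star (v i).ofLp ⬝ᵥ q = inner ℂ (v i) Q := hin (v i) Q
    rw [h2, h3] at h1
    have h4 : (‖Q‖⁻¹ * ‖inner ℂ (v i) Q‖) ^ 2 = (1 / Real.sqrt ((d : ℝ) + 1)) ^ 2 := by
      rw [mul_pow, h1, hs2]
      field_simp
    exact (pow_left_inj₀ (by positivity) (by positivity) two_ne_zero).mp h4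

/-- The rank of `d - S` when at most `1 + d / 3` vectors are missing. -/
theorem rank_of_few (d N : ℕ) (v : Fin N → EuclideanSpace ℂ (Fin d))
    (hv1 : ∀ i, ‖v i‖ = 1)
    (hv2 : ∀ i j, i ≠ j → ‖inner ℂ (v i) (v j)‖ = 1 / Real.sqrt ((d : ℝ) + 1))
    (hN : N < d ^ 2) (hk : 3 * d ^ 2 ≤ 3 * N + d + 3) :
    3 * d ^ 2 < 3 * N + 4 * (defect d N v).rank := by
  have h1 := rank_large (n := Fin d) (fun i => (v i).ofLp) d (Fintype.card_fin d)
    (fun i => hunit _ (hv1 i)) (fun i j hij => by rw [hin, hv2 i j hij, hs2])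
    (by rwa [Fintype.card_fin])
  rw [Fintype.card_fin] at h1
  change ((d : ℝ) ^ 2 - N) * (d + 1) ≤ (defect d N v).rank * (d + ((d : ℝ) ^ 2 - N)) at h1
  set r := (defect d N v).rank with hr
  set m : ℝ := (d : ℝ) ^ 2 - N with hm
  have hm0 : 0 < m := by
    have : (N : ℝ) < ((d ^ 2 : ℕ) : ℝ) := by exact_mod_cast hN
    push_cast at this
    rw [hm]; linarith
  have hm3 : 3 * m ≤ d + 3 := by
    have : ((3 * d ^ 2 : ℕ) : ℝ) ≤ ((3 * N + d + 3 : ℕ) : ℝ) := by exact_mod_cast hk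
    push_cast at this
    rw [hm]; linarith
  have hd0 : (0 : ℝ) ≤ d := Nat.cast_nonneg _
  have h6 : 3 * m < 4 * (r : ℝ) := by
    by_contra hcon
    push Not at hcon
    have h7 : 4 * (m * (d + 1)) ≤ 3 * m * (d + m) := by
      calc 4 * (m * (d + 1)) ≤ 4 * (r * (d + m)) := by linarith
        _ = (4 * (r : ℝ)) * (d + m) := by ring
        _ ≤ 3 * m * (d + m) := mul_le_mul_of_nonneg_right hcon (by linarith)
    nlinarith
  have h8 : ((3 * d ^ 2 : ℕ) : ℝ) < ((3 * N + 4 * r : ℕ) : ℝ) := by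
    push_cast
    rw [hm] at h6
    linarith
  exact_mod_cast h8

theorem defect_snoc_rank (d N : ℕ) (v : Fin N → EuclideanSpace ℂ (Fin d))
    (u : EuclideanSpace ℂ (Fin d)) :
    (defect d N v).rank ≤ (defect d (N + 1) (Fin.snoc v u)).rank + 1 := by
  have h1 : defect d N v =
      defect d (N + 1) (Fin.snoc v u) + vecMulVec u.ofLp (star u.ofLp) := by
    unfold defect
    rw [Fin.sum_univ_castSucc]
    simp only [Fin.snoc_castSucc, Fin.snoc_last]
    abel
  have h2 := rank_add_le' (defect d (N + 1) (Fin.snoc v u)) (vecMulVec u.ofLp (star u.ofLp))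
  have h3 := Matrix.rank_vecMulVec_le u.ofLp (star u.ofLp)
  rw [← h1] at h2
  omega

theorem snoc_norm {d N : ℕ} {v : Fin N → EuclideanSpace ℂ (Fin d)}
    {u : EuclideanSpace ℂ (Fin d)} (hv1 : ∀ i, ‖v i‖ = 1) (hu1 : ‖u‖ = 1) :
    ∀ i, ‖(Fin.snoc v u : Fin (N + 1) → EuclideanSpace ℂ (Fin d)) i‖ = 1 := by
  intro i
  refine Fin.lastCases ?_ (fun j => ?_) i
  · simpa using hu1
  · simpa using hv1 j

theorem snoc_inner {d N : ℕ} {v : Fin N → EuclideanSpace ℂ (Fin d)}
    {u : EuclideanSpace ℂ (Fin d)} {c : ℝ}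
    (hv2 : ∀ i j, i ≠ j → ‖inner ℂ (v i) (v j)‖ = c) (hu2 : ∀ i, ‖inner ℂ (v i) u‖ = c) :
    ∀ i j, i ≠ j → ‖inner ℂ ((Fin.snoc v u : Fin (N + 1) → EuclideanSpace ℂ (Fin d)) i)
      ((Fin.snoc v u : Fin (N + 1) → EuclideanSpace ℂ (Fin d)) j)‖ = c := by
  intro i j
  refine Fin.lastCases ?_ (fun i' => ?_) i
  · refine Fin.lastCases ?_ (fun j' => ?_) j
    · intro h; exact absurd rfl h
    · intro _
      simp only [Fin.snoc_last, Fin.snoc_castSucc]
      rw [norm_inner_symm]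
      exact hu2 j'
  · refine Fin.lastCases ?_ (fun j' => ?_) j
    · intro _
      simp only [Fin.snoc_last, Fin.snoc_castSucc]
      exact hu2 i'
    · intro h
      simp only [Fin.snoc_castSucc]
      exact hv2 i' j' (fun h' => h (by rw [h']))

theorem extend_all_linear (d : ℕ) : ∀ k N : ℕ, (hNk : N + k = d ^ 2) →
    ∀ v : Fin N → EuclideanSpace ℂ (Fin d), 3 * k ≤ d + 3 → (∀ i, ‖v i‖ = 1) →
    (∀ i j, i ≠ j → ‖inner ℂ (v i) (v j)‖ = 1 / Real.sqrt ((d : ℝ) + 1)) →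
    ∃ w : Fin (d ^ 2) → EuclideanSpace ℂ (Fin d), (∀ i, ‖w i‖ = 1) ∧
      (∀ i j, i ≠ j → ‖inner ℂ (w i) (w j)‖ = 1 / Real.sqrt ((d : ℝ) + 1)) ∧
      ∀ i : Fin N, w (Fin.castLE (by omega) i) = v i := by
  intro k
  induction k with
  | zero =>
    intro N hNk v _ hv1 hv2
    have hN : N = d ^ 2 := by omega
    subst hN
    exact ⟨v, hv1, hv2, fun i => rfl⟩
  | succ k ih =>
    intro N hNk v hk hv1 hv2
    obtain ⟨u, hu1, hu2⟩ := add_vector_of_rank d N v hv1 hv2 (by omega)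
      (rank_of_few d N v hv1 hv2 (by omega) (by omega))
    obtain ⟨w, hw1, hw2, hw3⟩ := ih (N + 1) (by omega) (Fin.snoc v u) (by omega)
      (snoc_norm hv1 hu1) (snoc_inner hv2 hu2)
    refine ⟨w, hw1, hw2, fun i => ?_⟩
    have h1 := hw3 i.castSucc
    rw [Fin.snoc_castSucc] at h1
    exact h1

/-- Every family can be enlarged to one with at least `4 (N + r) - 3 d²` members. -/
theorem enlarge (d : ℕ) : ∀ k N : ℕ, N + k = d ^ 2 →
    ∀ v : Fin N → EuclideanSpace ℂ (Fin d), (∀ i, ‖v i‖ = 1) →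
    (∀ i j, i ≠ j → ‖inner ℂ (v i) (v j)‖ = 1 / Real.sqrt ((d : ℝ) + 1)) →
    ∃ (M : ℕ) (w : Fin M → EuclideanSpace ℂ (Fin d)) (f : Fin N ↪ Fin M), (∀ i, ‖w i‖ = 1) ∧
      (∀ i j, i ≠ j → ‖inner ℂ (w i) (w j)‖ = 1 / Real.sqrt ((d : ℝ) + 1)) ∧
      (∀ i : Fin N, w (f i) = v i) ∧ 4 * (N + (defect d N v).rank) ≤ M + 3 * d ^ 2 := by
  intro k
  induction k with
  | zero =>
    intro N hNk v hv1 hv2
    refine ⟨N, v, Function.Embedding.refl _, hv1, hv2, fun i => rfl, ?_⟩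
    have hd : N + (defect d N v).rank ≤ d ^ 2 := by
      rcases Nat.eq_zero_or_pos d with h0 | h0
      · have h1 : (defect d N v).rank ≤ d := by
          have := Matrix.rank_le_card_width (defect d N v)
          rwa [Fintype.card_fin] at this
        subst h0
        omega
      · exact defect_rank_le d N h0 v hv1 hv2
    omega
  | succ k ih =>
    intro N hNk v hv1 hv2
    by_cases hcase : 4 * (N + (defect d N v).rank) ≤ N + 3 * d ^ 2
    · exact ⟨N, v, Function.Embedding.refl _, hv1, hv2, fun i => rfl, hcase⟩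
    · obtain ⟨u, hu1, hu2⟩ := add_vector_of_rank d N v hv1 hv2 (by omega) (by omega)
      obtain ⟨M, w, f, hw1, hw2, hw3, hw4⟩ := ih (N + 1) (by omega) (Fin.snoc v u)
        (snoc_norm hv1 hu1) (snoc_inner hv2 hu2)
      have h1 := defect_snoc_rank d N v u
      refine ⟨M, w, Fin.castSuccEmb.trans f, hw1, hw2, fun i => ?_, by omega⟩
      have h2 := hw3 i.castSucc
      rw [Fin.snoc_castSucc] at h2
      exact h2

section Unique

variable {n : Type*} [Fintype n] [DecidableEq n]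

/-- A rank one projection which is a combination, with nonzero coefficients, of `k` rank one
projections of rank `r` forces `2 r ≤ k + 1`. -/
theorem rank_of_comb {J : Type*} [Fintype J] [DecidableEq J] (x : J → n → ℂ) (c : J → ℂ)
    (hc : ∀ j, c j ≠ 0) (u : n → ℂ) (hu : star u ⬝ᵥ u = 1)
    (hexp : vecMulVec u (star u) = ∑ j, c j • vecMulVec (x j) (star (x j))) :
    2 * (∑ j, vecMulVec (x j) (star (x j))).rank ≤ Fintype.card J + 1 := by
  set Q : Matrix n J ℂ := Matrix.of fun i j => x j i with hQ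
  have hQQ : ∑ j, vecMulVec (x j) (star (x j)) = Q * Qᴴ := by
    ext a b
    rw [Matrix.sum_apply, Matrix.mul_apply]
    refine Finset.sum_congr rfl fun j _ => ?_
    rw [Matrix.vecMulVec_apply, Matrix.conjTranspose_apply, Pi.star_apply, hQ, Matrix.of_apply,
      Matrix.of_apply]
  have hQD : vecMulVec u (star u) = Q * (diagonal c * Qᴴ) := by
    rw [hexp]
    ext a b
    rw [Matrix.sum_apply, Matrix.mul_apply]
    refine Finset.sum_congr rfl fun j _ => ?_
    rw [Matrix.smul_apply, Matrix.vecMulVec_apply, Matrix.diagonal_mul,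
      Matrix.conjTranspose_apply, Pi.star_apply, hQ, Matrix.of_apply, Matrix.of_apply, smul_eq_mul]
    ring
  set P : Matrix n n ℂ := 1 - vecMulVec u (star u) with hP
  have huu : vecMulVec u (star u) * vecMulVec u (star u) = vecMulVec u (star u) := by
    rw [Matrix.vecMulVec_mul_vecMulVec, hu, one_smul]
  have h0 : Q * (diagonal c * (Qᴴ * P)) = 0 := by
    have : Q * (diagonal c * (Qᴴ * P)) = Q * (diagonal c * Qᴴ) * P := by
      simp only [Matrix.mul_assoc]
    rw [this, ← hQD, hP, Matrix.mul_sub, Matrix.mul_one, huu, sub_self]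
  have h1 := rank_add_rank_le_card_of_mul_eq_zero h0
  have hdet : (diagonal c).det ≠ 0 := by
    rw [Matrix.det_diagonal]
    exact Finset.prod_ne_zero_iff.mpr fun j _ => hc j
  rw [rank_mul_eq_right_of_det_ne_zero _ _ hdet] at h1
  have h2 : Qᴴ.rank ≤ (Qᴴ * P).rank + 1 := by
    have h3 : Qᴴ = Qᴴ * P + vecMulVec (Qᴴ *ᵥ u) (star u) := by
      rw [← Matrix.mul_vecMulVec, hP, Matrix.mul_sub, Matrix.mul_one, sub_add_cancel]
    have h4 : LinearMap.range (Qᴴ).mulVecLin ≤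
        LinearMap.range (Qᴴ * P).mulVecLin ⊔
          LinearMap.range (vecMulVec (Qᴴ *ᵥ u) (star u)).mulVecLin := by
      rintro _ ⟨y, rfl⟩
      have h7 : (Qᴴ).mulVecLin y =
          (Qᴴ * P).mulVecLin y + (vecMulVec (Qᴴ *ᵥ u) (star u)).mulVecLin y := by
        simp only [Matrix.mulVecLin_apply]
        rw [← Matrix.add_mulVec, ← h3]
      rw [h7]
      exact Submodule.add_mem_sup ⟨y, rfl⟩ ⟨y, rfl⟩
    have h5 := (Submodule.finrank_mono h4).trans
      (Submodule.finrank_add_le_finrank_add_finrank _ _)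
    have h6 := Matrix.rank_vecMulVec_le (Qᴴ *ᵥ u) (star u)
    change (Qᴴ).rank ≤ (Qᴴ * P).rank + (vecMulVec (Qᴴ *ᵥ u) (star u)).rank at h5
    omega
  rw [hQQ, Matrix.rank_self_mul_conjTranspose]
  rw [Matrix.rank_conjTranspose] at h2
  omega

/-- Uniqueness of the completing lines when fewer than `d` are missing. -/
theorem unique_line_lt {κ : Type*} [Fintype κ] [DecidableEq κ] (x : κ → n → ℂ) (d : ℕ)
    (hd : Fintype.card n = d) (hdpos : 0 < d)
    (hx : ∀ i, star (x i) ⬝ᵥ x i = 1)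
    (hxy : ∀ i j, i ≠ j → ‖star (x i) ⬝ᵥ x j‖ ^ 2 = 1 / ((d : ℝ) + 1))
    (hN : Fintype.card κ = d ^ 2) (J : Finset κ) (hJ : J.card < d)
    (u : n → ℂ) (hu : star u ⬝ᵥ u = 1)
    (huJ : ∀ j, j ∉ J → ‖star (x j) ⬝ᵥ u‖ ^ 2 = 1 / ((d : ℝ) + 1)) :
    ∃ j ∈ J, ∃ c : ℂ, u = c • x j := by
  classical
  have hdR : (0 : ℝ) < d := by exact_mod_cast hdpos
  have hexp := expand x d hd hdpos hx hxy hN u hu
  set c : κ → ℝ := fun j => (((d + 1) * ‖star (x j) ⬝ᵥ u‖ ^ 2 - 1) / d : ℝ) with hc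
  have hc0 : ∀ j, j ∉ J → c j = 0 := by
    intro j hj
    simp only [hc]
    rw [huJ j hj]
    field_simp
    ring
  set J' : Finset κ := J.filter (fun j => c j ≠ 0) with hJ'
  have hexp' : vecMulVec u (star u) = ∑ j ∈ J', (c j : ℂ) • vecMulVec (x j) (star (x j)) := by
    rw [hexp]
    symm
    apply Finset.sum_subset (Finset.subset_univ _)
    intro j _ hj
    have : c j = 0 := by
      by_contra hcon
      by_cases hjJ : j ∈ J
      · exact hj (Finset.mem_filter.mpr ⟨hjJ, hcon⟩)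
      · exact hcon (hc0 j hjJ)
    rw [this]; simp
  have hexp2 : vecMulVec u (star u) =
      ∑ j : J', (c j : ℂ) • vecMulVec (x j) (star (x j)) := by
    rw [hexp']
    exact (Finset.sum_coe_sort J' (fun j => (c j : ℂ) • vecMulVec (x j) (star (x j)))).symm
  have hrank := rank_of_comb (fun j : J' => x j) (fun j : J' => (c j : ℂ))
    (fun j => by exact_mod_cast (Finset.mem_filter.mp j.2).2) u hu hexp2
  rw [Fintype.card_coe] at hrank
  set G : Matrix n n ℂ := ∑ j : J', vecMulVec (x j) (star (x j)) with hG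
  have hGH : G.IsHermitian := by
    rw [hG]
    unfold Matrix.IsHermitian
    rw [Matrix.conjTranspose_sum]
    exact Finset.sum_congr rfl fun a _ => (proj_isHermitian _).eq
  have htr : (trace G).re = J'.card := by
    rw [hG, Matrix.trace_sum, Complex.re_sum]
    have : ∀ j : J', (trace (vecMulVec (x j) (star (x j)))).re = 1 := by
      intro j
      rw [Matrix.trace_vecMulVec, dotProduct_comm, hx]
      rfl
    simp only [this, Finset.sum_const, Finset.card_univ, Fintype.card_coe, nsmul_eq_mul, mul_one]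
  have htr2 : (trace (G * G)).re = J'.card * ((d + J'.card) / (d + 1)) := by
    rw [hG, Finset.sum_mul_sum, Matrix.trace_sum, Complex.re_sum]
    have h1 : ∀ i : J', (trace (∑ j : J', vecMulVec (x i) (star (x i)) *
        vecMulVec (x j) (star (x j)))).re = (d + J'.card) / (d + 1) := by
      intro i
      rw [Matrix.trace_sum, Complex.re_sum]
      have h2 : ∀ j : J', (trace (vecMulVec (x i) (star (x i)) *
          vecMulVec (x j) (star (x j)))).re = (if i = j then (d : ℝ) / (d + 1) else 0) +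
            1 / (d + 1) := by
        intro j
        rw [trace_proj_mul, Complex.ofReal_re]
        by_cases h : i = j
        · rw [h, hx, if_pos rfl]
          field_simp
          simp
        · rw [hxy _ _ (fun h' => h (Subtype.ext h')), if_neg h, zero_add]
      simp only [h2, Finset.sum_add_distrib, Finset.sum_ite_eq, Finset.mem_univ, if_true,
        Finset.sum_const, Finset.card_univ, Fintype.card_coe, nsmul_eq_mul]
      ring
    simp only [h1, Finset.sum_const, Finset.card_univ, Fintype.card_coe, nsmul_eq_mul]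
  have hW := trace_sq_le_rank G hGH
  rw [htr, htr2] at hW
  have hJ'J : J'.card ≤ J.card := Finset.card_filter_le _ _
  have hJ'd : (J'.card : ℝ) < d := by exact_mod_cast lt_of_le_of_lt hJ'J hJ
  have hk1 : J'.card ≤ 1 := by
    by_contra hcon
    push Not at hcon
    have hk : (1 : ℝ) < J'.card := by exact_mod_cast hcon
    set k : ℝ := (J'.card : ℝ) with hkdef
    have hr : 2 * (G.rank : ℝ) ≤ k + 1 := by
      rw [hkdef]; exact_mod_cast hrank
    have h1 : k * (d + 1) ≤ G.rank * (d + k) := by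
      have h2 : (G.rank : ℝ) * (k * ((d + k) / (d + 1))) = G.rank * (k * (d + k)) / (d + 1) := by
        ring
      rw [h2, le_div_iff₀ (by positivity)] at hW
      have h5 : k * (k * (d + 1)) ≤ k * (G.rank * (d + k)) := by
        calc k * (k * (d + 1)) = k ^ 2 * (d + 1) := by ring
          _ ≤ G.rank * (k * (d + k)) := hW
          _ = k * (G.rank * (d + k)) := by ring
      exact le_of_mul_le_mul_left h5 (by linarith)
    have h3 : 2 * (k * (d + 1)) ≤ (k + 1) * (d + k) := by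
      calc 2 * (k * (d + 1)) ≤ 2 * (G.rank * (d + k)) := by linarith
        _ = (2 * (G.rank : ℝ)) * (d + k) := by ring
        _ ≤ (k + 1) * (d + k) := mul_le_mul_of_nonneg_right hr (by linarith)
    nlinarith
  have hu0 : u ≠ 0 := by
    rintro rfl
    simp at hu
  have hne : J'.Nonempty := by
    rw [Finset.nonempty_iff_ne_empty]
    intro h
    rw [h, Finset.sum_empty] at hexp'
    have h2 := congrArg (fun M => M *ᵥ u) hexp'
    simp only [Matrix.vecMulVec_mulVec, Matrix.zero_mulVec, hu] at h2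
    apply hu0
    simpa using h2
  obtain ⟨j, hj⟩ : ∃ j, J' = {j} := by
    rw [← Finset.card_eq_one]
    have := hne.card_pos
    omega
  have hjJ' : j ∈ J' := by rw [hj]; exact Finset.mem_singleton_self _
  have hjJ : j ∈ J := (Finset.mem_filter.mp hjJ').1
  rw [hj, Finset.sum_singleton] at hexp'
  refine ⟨j, hjJ, (c j : ℂ) * (star (x j) ⬝ᵥ u), ?_⟩
  have h2 := congrArg (fun M => M *ᵥ u) hexp'
  simp only [Matrix.vecMulVec_mulVec, Matrix.smul_mulVec, hu] at h2
  rw [mul_smul]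
  simpa using h2

end Unique

theorem unique_missing (d N : ℕ) (hd : 1 ≤ d) (v : Fin N → EuclideanSpace ℂ (Fin d))
    (w : Fin (d ^ 2) → EuclideanSpace ℂ (Fin d)) (f : Fin N ↪ Fin (d ^ 2))
    (hw1 : ∀ i, ‖w i‖ = 1)
    (hw2 : ∀ i j, i ≠ j → ‖inner ℂ (w i) (w j)‖ = 1 / Real.sqrt ((d : ℝ) + 1))
    (hw3 : ∀ i, w (f i) = v i) (hN : d ^ 2 < N + d)
    (u : EuclideanSpace ℂ (Fin d)) (hu1 : ‖u‖ = 1)
    (hu2 : ∀ i, ‖inner ℂ (v i) u‖ = 1 / Real.sqrt ((d : ℝ) + 1)) :
    ∃ j, j ∉ Set.range f ∧ ∃ z : ℂ, u = z • w j := by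
  classical
  obtain ⟨J, hJ⟩ : ∃ J : Finset (Fin (d ^ 2)), ∀ j, j ∈ J ↔ j ∉ Set.range f :=
    ⟨Finset.univ.filter (fun j => j ∉ Set.range f), fun j => by
      rw [Finset.mem_filter]; simp⟩
  have hcard := card_compl d N f J hJ
  obtain ⟨j, hj, z, hz⟩ := unique_line_lt (n := Fin d) (fun i => (w i).ofLp) d
    (Fintype.card_fin d) hd (fun i => hunit _ (hw1 i))
    (fun i j hij => by rw [hin, hw2 i j hij, hs2])
    (Fintype.card_fin _) J (by omega) u.ofLp (hunit _ hu1)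
    (by
      intro j hj
      have h1 : j ∈ Set.range f := by
        by_contra hcon
        exact hj ((hJ j).mpr hcon)
      obtain ⟨i, rfl⟩ := h1
      rw [hin, hw3 i, hu2 i, hs2])
  refine ⟨j, (hJ j).mp hj, z, ?_⟩
  ext i
  have := congrFun hz i
  simpa using this

/-- THE LINEAR GAP: a family at the angle of the maximal ETFs with at least `d² - 1 - d / 3`
members lies in a maximal ETF. -/
theorem linear_completion (d N : ℕ) (hd : 1 ≤ d) (hN : 3 * d ^ 2 ≤ 3 * N + d + 3)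
    (v : Fin N → EuclideanSpace ℂ (Fin d)) (hv1 : ∀ i, ‖v i‖ = 1)
    (hv2 : ∀ i j, i ≠ j → ‖inner ℂ (v i) (v j)‖ = 1 / Real.sqrt ((d : ℝ) + 1)) :
    ∃ (w : Fin (d ^ 2) → EuclideanSpace ℂ (Fin d)) (f : Fin N ↪ Fin (d ^ 2)),
      (∀ i, ‖w i‖ = 1) ∧
      (∀ i j, i ≠ j → ‖inner ℂ (w i) (w j)‖ = 1 / Real.sqrt ((d : ℝ) + 1)) ∧
      (∀ i, w (f i) = v i) := by
  have h := defect_rank_le d N hd v hv1 hv2
  have hle : N ≤ d ^ 2 := by omega
  obtain ⟨w, hw1, hw2, hw3⟩ := extend_all_linear d (d ^ 2 - N) N (by omega) v (by omega) hv1 hv2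
  exact ⟨w, ⟨Fin.castLE hle, Fin.castLE_injective hle⟩, hw1, hw2, fun i => hw3 i⟩

/-- THE RANK CRITERION WITH A DEFECT: a family at the angle of the maximal ETFs with
`d² - N - r ≤ (d + 3) / 12` lies in a maximal ETF. -/
theorem completion_of_defect (d N : ℕ) (hd : 1 ≤ d) (v : Fin N → EuclideanSpace ℂ (Fin d))
    (hv1 : ∀ i, ‖v i‖ = 1)
    (hv2 : ∀ i j, i ≠ j → ‖inner ℂ (v i) (v j)‖ = 1 / Real.sqrt ((d : ℝ) + 1))
    (hN : 12 * d ^ 2 ≤ 12 * (N + (defect d N v).rank) + d + 3) :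
    ∃ (w : Fin (d ^ 2) → EuclideanSpace ℂ (Fin d)) (f : Fin N ↪ Fin (d ^ 2)),
      (∀ i, ‖w i‖ = 1) ∧
      (∀ i j, i ≠ j → ‖inner ℂ (w i) (w j)‖ = 1 / Real.sqrt ((d : ℝ) + 1)) ∧
      (∀ i, w (f i) = v i) := by
  have h := defect_rank_le d N hd v hv1 hv2
  obtain ⟨M, w, f, hw1, hw2, hw3, hw4⟩ := enlarge d (d ^ 2 - N) N (by omega) v hv1 hv2
  obtain ⟨w', f', hw1', hw2', hw3'⟩ := linear_completion d M hd (by omega) w hw1 hw2
  exact ⟨w', f.trans f', hw1', hw2', fun i => (hw3' (f i)).trans (hw3 i)⟩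

end Pool.Agent.Lib.MP_d0f9e0_co.Gap.Lin
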