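import Pool.Agent.Lib.MP_d0f9e0_co.Gap.SymRank
import Pool.Agent.Lib.MP_d0f9e0_co.Gap.Linear

/-!
# The linear rank theorem for symmetric Hermitian families

If the common kernel of a symmetric Hermitian family of `m` matrices has codimension `r` and
`3 m < 4 r` then some real combination of the family has rank one.
-/

set_option autoImplicit false

open Matrix Module
open scoped ComplexOrder InnerProductSpace

namespace Pool.Agent.Lib.MP_d0f9e0_co.Gap.Lin

open Pool.Agent.Lib.MP_d0f9e0_co.Gap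

section Mat

variable {n ι : Type*} [Fintype n] [Fintype ι]

/-- the symmetry as an identity between vectors -/
theorem sym_vec (K : ι → Matrix n n ℂ) (hS : Sym K) (a b c d : n → ℂ) :
    ∑ k, (a ⬝ᵥ (K k *ᵥ b)) * (c ⬝ᵥ (K k *ᵥ d)) = ∑ k, (a ⬝ᵥ (K k *ᵥ d)) * (c ⬝ᵥ (K k *ᵥ b)) := by
  have key : ∀ b d : n → ℂ, ∑ k, (a ⬝ᵥ (K k *ᵥ b)) * (c ⬝ᵥ (K k *ᵥ d)) =
      ∑ p, ∑ q, ∑ r, ∑ s, a p * b q * (c r * d s) * ∑ k, K k p q * K k r s := by
    intro b d
    have e : ∀ k, (a ⬝ᵥ (K k *ᵥ b)) * (c ⬝ᵥ (K k *ᵥ d)) =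
        ∑ p, ∑ q, ∑ r, ∑ s, a p * b q * (c r * d s) * (K k p q * K k r s) := by
      intro k
      have e1 : ∀ u v : n → ℂ, u ⬝ᵥ (K k *ᵥ v) = ∑ p, ∑ q, u p * K k p q * v q := by
        intro u v
        simp only [dotProduct, mulVec, Finset.mul_sum]
        refine Finset.sum_congr rfl fun p _ => Finset.sum_congr rfl fun q _ => ?_
        ring
      rw [e1, e1, Finset.sum_mul]
      refine Finset.sum_congr rfl fun p _ => ?_
      rw [Finset.sum_mul]
      refine Finset.sum_congr rfl fun q _ => ?_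
      rw [Finset.mul_sum]
      refine Finset.sum_congr rfl fun r _ => ?_
      rw [Finset.mul_sum]
      refine Finset.sum_congr rfl fun s _ => ?_
      ring
    simp only [e]
    rw [Finset.sum_comm]
    refine Finset.sum_congr rfl fun p _ => ?_
    rw [Finset.sum_comm]
    refine Finset.sum_congr rfl fun q _ => ?_
    rw [Finset.sum_comm]
    refine Finset.sum_congr rfl fun r _ => ?_
    rw [Finset.sum_comm]
    refine Finset.sum_congr rfl fun s _ => ?_
    rw [Finset.mul_sum]
  rw [key b d, key d b]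
  refine Finset.sum_congr rfl fun p _ => ?_
  calc ∑ q, ∑ r, ∑ s, a p * b q * (c r * d s) * ∑ k, K k p q * K k r s
      = ∑ r, ∑ q, ∑ s, a p * b q * (c r * d s) * ∑ k, K k p q * K k r s := Finset.sum_comm
    _ = ∑ r, ∑ s, ∑ q, a p * b q * (c r * d s) * ∑ k, K k p q * K k r s :=
        Finset.sum_congr rfl fun r _ => Finset.sum_comm
    _ = ∑ s, ∑ r, ∑ q, a p * b q * (c r * d s) * ∑ k, K k p q * K k r s := Finset.sum_comm
    _ = ∑ s, ∑ r, ∑ q, a p * d s * (c r * b q) * ∑ k, K k p s * K k r q := by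
        refine Finset.sum_congr rfl fun s _ => Finset.sum_congr rfl fun r _ =>
          Finset.sum_congr rfl fun q _ => ?_
        rw [hS p q r s]
        ring

theorem herm_conj (A : Matrix n n ℂ) (hA : A.IsHermitian) (x y : n → ℂ) :
    star (star x ⬝ᵥ (A *ᵥ y)) = star y ⬝ᵥ (A *ᵥ x) := by
  rw [Matrix.star_dotProduct, star_star, Matrix.star_mulVec, hA.eq, ← Matrix.dotProduct_mulVec,
    dotProduct_comm]

/-- Rank one combinations, family without common kernel. -/
theorem matrix_core [DecidableEq n] (K : ι → Matrix n n ℂ) (hH : ∀ a, (K a).IsHermitian)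
    (hS : Sym K) (hker : ∀ y : n → ℂ, (∀ a, K a *ᵥ y = 0) → y = 0)
    (hdim : 3 * Fintype.card ι < 4 * Fintype.card n) :
    ∃ (t : ι → ℝ) (q : n → ℂ), q ≠ 0 ∧ ∑ a, (t a : ℂ) • K a = vecMulVec q (star q) := by
  classical
  let R : (n → ℂ) →ₗ[ℝ] (n → ℂ) →ₗ[ℝ] EuclideanSpace ℝ ι :=
    LinearMap.mk₂ ℝ (fun x y => WithLp.toLp 2 fun a => (star x ⬝ᵥ (K a *ᵥ y)).re)
      (by
        intro x x' y
        ext a
        simp [add_dotProduct])
      (by
        intro c x y
        ext a
        simp [smul_dotProduct])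
      (by
        intro x y y'
        ext a
        simp [mulVec_add, dotProduct_add])
      (by
        intro c x y
        ext a
        simp [mulVec_smul, dotProduct_smul])
  have hR : ∀ x y a, R x y a = (star x ⬝ᵥ (K a *ᵥ y)).re := fun x y a => rfl
  let J : (n → ℂ) →ₗ[ℝ] (n → ℂ) :=
    { toFun := fun x => Complex.I • x
      map_add' := fun x y => smul_add _ _ _
      map_smul' := fun c x => by
        simp only [RingHom.id_apply]
        rw [smul_comm] }
  have hJ : ∀ x, J x = Complex.I • x := fun x => rfl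
  have hRJ2 : ∀ x y a, R x (J y) a = -(star x ⬝ᵥ (K a *ᵥ y)).im := by
    intro x y a
    rw [hR, hJ, mulVec_smul, dotProduct_smul, smul_eq_mul, Complex.I_mul_re]
  have hs : Sys R J := by
    refine ⟨?_, ?_, ?_, ?_, ?_⟩
    · intro x
      rw [hJ, hJ, smul_smul, Complex.I_mul_I, neg_one_smul]
    · intro x y
      ext a
      rw [hR, hR, ← herm_conj (K a) (hH a) x y]
      rfl
    · intro x y
      ext a
      rw [hR, hR, hJ, hJ, star_smul, smul_dotProduct, mulVec_smul, dotProduct_smul, smul_smul]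
      have h1 : star Complex.I * Complex.I = 1 := by
        rw [Complex.star_def, Complex.conj_I, neg_mul, Complex.I_mul_I, neg_neg]
      rw [h1, one_smul]
    · intro a b c d
      have h1 := congrArg Complex.re (sym_vec K hS (star a) b (star c) d)
      rw [Complex.re_sum, Complex.re_sum] at h1
      simp only [Complex.mul_re, Finset.sum_sub_distrib] at h1
      have h2 : ∀ a b c d : n → ℂ, ⟪R a b, R c d⟫_ℝ =
          ∑ k, (star a ⬝ᵥ (K k *ᵥ b)).re * (star c ⬝ᵥ (K k *ᵥ d)).re := by
        intro a b c d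
        rw [PiLp.inner_apply]
        refine Finset.sum_congr rfl fun k _ => ?_
        rw [hR, hR]
        simp [mul_comm]
      have h3 : ∀ a b c d : n → ℂ, ⟪R a (J b), R c (J d)⟫_ℝ =
          ∑ k, (star a ⬝ᵥ (K k *ᵥ b)).im * (star c ⬝ᵥ (K k *ᵥ d)).im := by
        intro a b c d
        rw [PiLp.inner_apply]
        refine Finset.sum_congr rfl fun k _ => ?_
        rw [hRJ2, hRJ2]
        simp [mul_comm]
      rw [h3 a b c d, h3 a d c b, h2, h2]
      exact h1
    · intro x hx
      apply hker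
      intro a
      have h1 : ∀ y, star y ⬝ᵥ (K a *ᵥ x) = 0 := by
        intro y
        have h2 : (star x ⬝ᵥ (K a *ᵥ y)).re = 0 := by
          rw [← hR, hx y]; rfl
        have h3 : (star x ⬝ᵥ (K a *ᵥ y)).im = 0 := by
          have h4 := hRJ2 x y a
          rw [hx (J y)] at h4
          have h5 : (0 : EuclideanSpace ℝ ι) a = 0 := rfl
          rw [h5] at h4
          linarith
        rw [← herm_conj (K a) (hH a) x y]
        have h6 : star x ⬝ᵥ (K a *ᵥ y) = 0 := Complex.ext h2 h3
        rw [h6, star_zero]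
      have h7 := h1 (K a *ᵥ x)
      exact dotProduct_star_self_eq_zero.mp h7
  have hfV : finrank ℝ (n → ℂ) = 2 * Fintype.card n := by
    rw [Module.finrank_pi_fintype]
    simp only [Complex.finrank_real_complex, Finset.sum_const, Finset.card_univ, smul_eq_mul]
    ring
  have hfF : finrank ℝ (EuclideanSpace ℝ ι) = Fintype.card ι := finrank_euclideanSpace
  obtain ⟨ξ, ζ, e, ⟨x0, hx0⟩, hq⟩ := linear_core hs (by rw [hfV, hfF]; omega)
  set p : n → ℂ := (∑ a, (ζ a : ℂ) • K a) *ᵥ e with hp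
  have hpx : ∀ x, star p ⬝ᵥ x = ∑ a, (ζ a : ℂ) * (star e ⬝ᵥ (K a *ᵥ x)) := by
    intro x
    rw [hp, Matrix.star_mulVec]
    have hB : (∑ a, (ζ a : ℂ) • K a)ᴴ = ∑ a, (ζ a : ℂ) • K a := by
      rw [Matrix.conjTranspose_sum]
      refine Finset.sum_congr rfl fun a _ => ?_
      rw [Matrix.conjTranspose_smul, (hH a).eq, Complex.star_def, Complex.conj_ofReal]
    rw [hB, ← Matrix.dotProduct_mulVec, Matrix.sum_mulVec, dotProduct_sum]
    refine Finset.sum_congr rfl fun a _ => ?_
    rw [Matrix.smul_mulVec, dotProduct_smul, smul_eq_mul]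
  have hre : ∀ x, ⟪ζ, R e x⟫_ℝ = (star p ⬝ᵥ x).re := by
    intro x
    rw [hpx, Complex.re_sum, PiLp.inner_apply]
    refine Finset.sum_congr rfl fun a _ => ?_
    rw [hR, Complex.re_ofReal_mul]
    simp [mul_comm]
  have him : ∀ x, ⟪ζ, R e (J x)⟫_ℝ = -(star p ⬝ᵥ x).im := by
    intro x
    rw [hre, hJ, dotProduct_smul, smul_eq_mul, Complex.I_mul_re]
  refine ⟨fun a => ξ a, p, ?_, ?_⟩
  · intro h0
    apply hx0
    rw [hre, h0, star_zero, zero_dotProduct, Complex.zero_re]
  · rw [← sub_eq_zero]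
    apply matrix_eq_zero_of_quad
    intro v
    rw [Matrix.sub_mulVec, dotProduct_sub, sub_eq_zero]
    have h1 : star v ⬝ᵥ (vecMulVec p (star p) *ᵥ v) = ((‖star p ⬝ᵥ v‖ ^ 2 : ℝ) : ℂ) := by
      rw [Matrix.vecMulVec_mulVec, op_smul_eq_smul, dotProduct_smul, smul_eq_mul]
      have h4 : star v ⬝ᵥ p = star (star p ⬝ᵥ v) := by
        rw [Matrix.star_dotProduct, dotProduct_comm]
      rw [h4, Complex.star_def, Complex.mul_conj, Complex.normSq_eq_norm_sq]
    have h2 : star v ⬝ᵥ ((∑ a, (ξ a : ℂ) • K a) *ᵥ v) = ((⟪ξ, R v v⟫_ℝ : ℝ) : ℂ) := by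
      rw [Matrix.sum_mulVec, dotProduct_sum, PiLp.inner_apply, Complex.ofReal_sum]
      refine Finset.sum_congr rfl fun a _ => ?_
      rw [Matrix.smul_mulVec, dotProduct_smul, smul_eq_mul, hR]
      have h3 : star v ⬝ᵥ (K a *ᵥ v) = (((star v ⬝ᵥ (K a *ᵥ v)).re : ℝ) : ℂ) :=
        (Complex.conj_eq_iff_re.mp (herm_conj (K a) (hH a) v v)).symm
      rw [h3]
      simp [mul_comm]
    rw [h1, h2, hq, hre, him]
    congr 1
    rw [← Complex.normSq_eq_norm_sq, Complex.normSq_apply]
    ring

/-- THE LINEAR RANK THEOREM: a symmetric Hermitian family of `m` matrices whose sum of squares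
has rank `r` with `3 m < 4 r` has a real combination of rank one. -/
theorem linear_rank_one [DecidableEq n] (K : ι → Matrix n n ℂ)
    (hH : ∀ a, (K a).IsHermitian) (hS : Sym K) (R : Matrix n n ℂ)
    (hR2 : ∑ a, K a * K a = R) (hdim : 3 * Fintype.card ι < 4 * R.rank) :
    ∃ (t : ι → ℝ) (q : n → ℂ), q ≠ 0 ∧ ∑ a, (t a : ℂ) • K a = vecMulVec q (star q) := by
  classical
  have hRH : R.IsHermitian := by
    rw [← hR2]
    unfold Matrix.IsHermitian
    rw [Matrix.conjTranspose_sum]
    refine Finset.sum_congr rfl fun a _ => ?_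
    rw [Matrix.conjTranspose_mul, (hH a).eq]
  obtain ⟨U, hU⟩ : ∃ U : Matrix n n ℂ, U = (hRH.eigenvectorUnitary : Matrix n n ℂ) := ⟨_, rfl⟩
  set ev := hRH.eigenvalues with hev
  have hUU' : U * Uᴴ = 1 := by
    rw [hU, ← Matrix.star_eq_conjTranspose]
    exact Unitary.coe_mul_star_self _
  have hUU : Uᴴ * U = 1 := by
    rw [hU, ← Matrix.star_eq_conjTranspose]
    exact Unitary.coe_star_mul_self _
  have hRU : Uᴴ * R * U = diagonal (fun i => (ev i : ℂ)) := by
    have := hRH.conjStarAlgAut_star_eigenvectorUnitary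
    rw [Unitary.conjStarAlgAut_star_apply] at this
    rw [hU, ← Matrix.star_eq_conjTranspose]
    exact this
  set K' : ι → Matrix n n ℂ := fun a => Uᴴ * K a * U with hK'
  have hK'S : Sym K' := sym_congr K hS _ _
  have hK'H : ∀ a, (K' a).IsHermitian := by
    intro a
    simp only [hK']
    rw [Matrix.IsHermitian, Matrix.conjTranspose_mul, Matrix.conjTranspose_mul,
      (hH a).eq, Matrix.conjTranspose_conjTranspose, Matrix.mul_assoc]
  have hK'R : ∑ a, K' a * K' a = diagonal (fun i => (ev i : ℂ)) := by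
    rw [← hRU, ← hR2, Matrix.mul_sum, Matrix.sum_mul]
    refine Finset.sum_congr rfl fun a _ => ?_
    simp only [hK']
    calc Uᴴ * K a * U * (Uᴴ * K a * U) = Uᴴ * K a * (U * Uᴴ) * K a * U := by
          simp only [Matrix.mul_assoc]
      _ = Uᴴ * (K a * K a) * U := by
          rw [hUU', Matrix.mul_one]; simp only [Matrix.mul_assoc]
  have hdiag : ∀ i, ∑ a, ∑ j, ‖K' a i j‖ ^ 2 = ev i := by
    intro i
    have h1 := congrFun (congrFun hK'R i) i
    rw [Matrix.diagonal_apply_eq, Matrix.sum_apply] at h1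
    have h2 : ∀ a, (K' a * K' a) i i = ((∑ j, ‖K' a i j‖ ^ 2 : ℝ) : ℂ) := by
      intro a
      rw [Matrix.mul_apply]
      push_cast
      refine Finset.sum_congr rfl fun j _ => ?_
      have h3 : K' a j i = star (K' a i j) := by
        have := congrFun (congrFun (hK'H a).eq j) i
        rw [Matrix.conjTranspose_apply] at this
        exact this.symm
      rw [h3, Complex.star_def, Complex.mul_conj, Complex.normSq_eq_norm_sq]
      push_cast; rfl
    simp only [h2] at h1
    exact_mod_cast h1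
  have hzero : ∀ i, ev i = 0 → ∀ a j, K' a i j = 0 := by
    intro i hi a j
    have h1 := hdiag i
    rw [hi, Finset.sum_eq_zero_iff_of_nonneg
      (fun a _ => Finset.sum_nonneg fun j _ => sq_nonneg _)] at h1
    have h2 := h1 a (Finset.mem_univ a)
    rw [Finset.sum_eq_zero_iff_of_nonneg (fun j _ => sq_nonneg _)] at h2
    have h3 := h2 j (Finset.mem_univ j)
    simpa using h3
  have hzero' : ∀ i, ev i = 0 → ∀ a j, K' a j i = 0 := by
    intro i hi a j
    have h3 : K' a j i = star (K' a i j) := by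
      have := congrFun (congrFun (hK'H a).eq j) i
      rw [Matrix.conjTranspose_apply] at this
      exact this.symm
    rw [h3, hzero i hi, star_zero]
  have hrank : R.rank = Fintype.card {i : n // ev i ≠ 0} := hRH.rank_eq_card_non_zero_eigs
  -- restricted family
  set K'' : ι → Matrix {i : n // ev i ≠ 0} {i : n // ev i ≠ 0} ℂ :=
    fun a => (K' a).submatrix Subtype.val Subtype.val with hK''
  have hK''H : ∀ a, (K'' a).IsHermitian := fun a => (hK'H a).submatrix _
  have hK''S : Sym K'' := fun p q r s => hK'S p.1 q.1 r.1 s.1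
  have hK''R : ∑ a, K'' a * K'' a =
      diagonal (fun i : {i : n // ev i ≠ 0} => (ev i : ℂ)) := by
    ext i j
    have h1 := congrFun (congrFun hK'R i.1) j.1
    rw [Matrix.sum_apply] at h1 ⊢
    have h2 : ∀ a, (K'' a * K'' a) i j = (K' a * K' a) i.1 j.1 := by
      intro a
      rw [Matrix.mul_apply, Matrix.mul_apply]
      have h3 : ∑ l : n, K' a i.1 l * K' a l j.1 =
          ∑ l ∈ Finset.univ.filter (fun l => ev l ≠ 0), K' a i.1 l * K' a l j.1 := by
        symm
        apply Finset.sum_subset (Finset.subset_univ _)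
        intro l _ hl
        have : ev l = 0 := by
          by_contra hcon
          exact hl (Finset.mem_filter.mpr ⟨Finset.mem_univ _, hcon⟩)
        rw [hzero l this, mul_zero]
      rw [h3]
      symm
      apply Finset.sum_subtype
      intro l
      simp
    simp only [h2]
    rw [h1]
    by_cases hij : i = j
    · rw [hij, Matrix.diagonal_apply_eq, Matrix.diagonal_apply_eq]
    · rw [Matrix.diagonal_apply_ne _ hij, Matrix.diagonal_apply_ne]
      exact fun h => hij (Subtype.ext h)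
  have hker : ∀ y : {i : n // ev i ≠ 0} → ℂ, (∀ a, K'' a *ᵥ y = 0) → y = 0 := by
    intro y hy
    have h1 : (∑ a, K'' a * K'' a) *ᵥ y = 0 := by
      rw [Matrix.sum_mulVec]
      refine Finset.sum_eq_zero fun a _ => ?_
      rw [← Matrix.mulVec_mulVec, hy a, Matrix.mulVec_zero]
    rw [hK''R] at h1
    funext i
    have h2 := congrFun h1 i
    rw [Matrix.mulVec_diagonal, Pi.zero_apply] at h2
    rcases mul_eq_zero.mp h2 with h3 | h3
    · exact absurd (by exact_mod_cast h3) i.2
    · exact h3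
  obtain ⟨t, q, hq0, hq⟩ := matrix_core K'' hK''H hK''S hker (by rw [← hrank]; exact hdim)
  set q' : n → ℂ := fun i => if h : ev i ≠ 0 then q ⟨i, h⟩ else 0 with hq'
  have hq'1 : ∀ i (h : ev i ≠ 0), q' i = q ⟨i, h⟩ := fun i h => dif_pos h
  have hq'2 : ∀ i, ev i = 0 → q' i = 0 := fun i h => dif_neg (not_not.mpr h)
  have hsum : ∑ a, (t a : ℂ) • K' a = vecMulVec q' (star q') := by
    ext i j
    rw [Matrix.sum_apply, Matrix.vecMulVec_apply, Pi.star_apply]
    by_cases hi : ev i = 0
    · rw [hq'2 i hi, zero_mul]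
      refine Finset.sum_eq_zero fun a _ => ?_
      rw [Matrix.smul_apply, hzero i hi, smul_zero]
    · by_cases hj : ev j = 0
      · rw [hq'2 j hj, star_zero, mul_zero]
        refine Finset.sum_eq_zero fun a _ => ?_
        rw [Matrix.smul_apply, hzero' j hj, smul_zero]
      · have h1 := congrFun (congrFun hq ⟨i, hi⟩) ⟨j, hj⟩
        rw [Matrix.sum_apply, Matrix.vecMulVec_apply, Pi.star_apply] at h1
        rw [hq'1 i hi, hq'1 j hj, ← h1]
        rfl
  refine ⟨t, U *ᵥ q', ?_, ?_⟩
  · intro h0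
    apply hq0
    have h1 : q' = 0 := by
      have h2 : Uᴴ *ᵥ (U *ᵥ q') = q' := by
        rw [Matrix.mulVec_mulVec, hUU, Matrix.one_mulVec]
      rw [← h2, h0, Matrix.mulVec_zero]
    funext i
    rw [Pi.zero_apply, ← hq'1 i.1 i.2, h1, Pi.zero_apply]
  · have h1 : ∀ a, K a = U * K' a * Uᴴ := by
      intro a
      simp only [hK']
      calc K a = (U * Uᴴ) * K a * (U * Uᴴ) := by rw [hUU', Matrix.one_mul, Matrix.mul_one]
        _ = U * (Uᴴ * K a * U) * Uᴴ := by simp only [Matrix.mul_assoc]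
    calc ∑ a, (t a : ℂ) • K a = U * (∑ a, (t a : ℂ) • K' a) * Uᴴ := by
          rw [Matrix.mul_sum, Matrix.sum_mul]
          refine Finset.sum_congr rfl fun a _ => ?_
          rw [Matrix.mul_smul, Matrix.smul_mul, ← h1 a]
      _ = U * vecMulVec q' (star q') * Uᴴ := by rw [hsum]
      _ = vecMulVec (U *ᵥ q') (star (U *ᵥ q')) := by
          rw [Matrix.mul_vecMulVec, Matrix.vecMulVec_mul, Matrix.star_mulVec]

end Mat

end Pool.Agent.Lib.MP_d0f9e0_co.Gap.Lin
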