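import Pool.Agent.Lib.MP_d0f9e0_co.Gap.LinearGap

/-!
# The rank form of the linear gap: a family at the angle of the maximal ETFs whose defect has rank
`r` can be extended by `4 r - 3 (d² - N)` further lines
-/

set_option autoImplicit false

open Matrix Module
open scoped ComplexOrder

namespace Pool.Agent.Lib.MP_d0f9e0_co.Gap.Lin

open Pool.Agent.Lib.MP_d0f9e0_co.Gap

section Extend

variable {n : Type*} [Fintype n] [DecidableEq n]

/-- One more vector, when `3 (d² - N) < 4 r`. -/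
theorem extend_one_lrank {κ : Type*} [Fintype κ] (x : κ → n → ℂ) (d : ℕ)
    (hd : Fintype.card n = d)
    (hx : ∀ i, star (x i) ⬝ᵥ x i = 1)
    (hxy : ∀ i j, i ≠ j → ‖star (x i) ⬝ᵥ x j‖ ^ 2 = 1 / ((d : ℝ) + 1))
    (hN : Fintype.card κ < d ^ 2)
    (hk : 3 * d ^ 2 < 3 * Fintype.card κ +
      4 * ((d : ℂ) • (1 : Matrix n n ℂ) - ∑ i, vecMulVec (x i) (star (x i))).rank) :
    ∃ q : n → ℂ, q ≠ 0 ∧ ∀ i, ‖star (x i) ⬝ᵥ q‖ ^ 2 = (star q ⬝ᵥ q).re / ((d : ℝ) + 1) := by
  obtain ⟨w, K, c, R, hw, hR, hKH, hKS, hRc, hR2, hPK, htr, htr2⟩ := fam_data x d hd hx hxy hN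
  rw [← hR] at hk
  have hrank : 3 * Fintype.card (Option (Fin w)) < 4 * R.rank := by
    rw [Fintype.card_option, Fintype.card_fin]
    omega
  obtain ⟨t, q, hq0, htq⟩ := linear_rank_one K hKH hKS R hR2 hrank
  refine ⟨q, hq0, fun i => ?_⟩
  have hPq : trace (vecMulVec (x i) (star (x i)) * vecMulVec q (star q)) =
      ((‖star (x i) ⬝ᵥ q‖ ^ 2 : ℝ) : ℂ) := trace_proj_mul _ _
  have h1 : trace (vecMulVec (x i) (star (x i)) * vecMulVec q (star q)) =
      trace (vecMulVec q (star q)) / (d + 1) := by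
    rw [← htq, Matrix.mul_sum, Matrix.trace_sum, Matrix.trace_sum, Finset.sum_div]
    refine Finset.sum_congr rfl fun a _ => ?_
    rw [Matrix.mul_smul, Matrix.trace_smul, Matrix.trace_smul, hPK, smul_eq_mul, smul_eq_mul]
    ring
  rw [hPq, Matrix.trace_vecMulVec, dotProduct_comm q (star q)] at h1
  have h2 := congrArg Complex.re h1
  rw [Complex.ofReal_re] at h2
  rw [h2]
  have h3 : (star q ⬝ᵥ q / ((d : ℂ) + 1)) = (star q ⬝ᵥ q) / (((d : ℝ) + 1 : ℝ) : ℂ) := by
    push_cast; rfl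
  rw [h3, Complex.div_ofReal_re]

end Extend

private theorem hin {d : ℕ} (a b : EuclideanSpace ℂ (Fin d)) :
    star a.ofLp ⬝ᵥ b.ofLp = inner ℂ a b := by
  rw [EuclideanSpace.inner_eq_star_dotProduct, dotProduct_comm]

private theorem hunit {d : ℕ} (a : EuclideanSpace ℂ (Fin d)) (ha : ‖a‖ = 1) :
    star a.ofLp ⬝ᵥ a.ofLp = 1 := by
  rw [hin, inner_self_eq_norm_sq_to_K, ha]; simp

private theorem hs2 (d : ℕ) : (1 / Real.sqrt ((d : ℝ) + 1)) ^ 2 = 1 / ((d : ℝ) + 1) := by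
  rw [div_pow, one_pow, Real.sq_sqrt (by positivity)]

theorem add_vector_lrank (d N : ℕ) (v : Fin N → EuclideanSpace ℂ (Fin d))
    (hv1 : ∀ i, ‖v i‖ = 1)
    (hv2 : ∀ i j, i ≠ j → ‖inner ℂ (v i) (v j)‖ = 1 / Real.sqrt ((d : ℝ) + 1))
    (hN : N < d ^ 2) (hk : 3 * d ^ 2 < 3 * N + 4 * (defect d N v).rank) :
    ∃ u : EuclideanSpace ℂ (Fin d), ‖u‖ = 1 ∧
      ∀ i, ‖inner ℂ (v i) u‖ = 1 / Real.sqrt ((d : ℝ) + 1) := by
  obtain ⟨q, hq0, hq⟩ := extend_one_lrank (n := Fin d) (fun i => (v i).ofLp) d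
    (Fintype.card_fin d)
    (fun i => hunit _ (hv1 i)) (fun i j hij => by rw [hin, hv2 i j hij, hs2])
    (by rwa [Fintype.card_fin]) (by rwa [Fintype.card_fin])
  set Q : EuclideanSpace ℂ (Fin d) := WithLp.toLp 2 q with hQ
  have hQ0 : Q ≠ 0 := by
    intro h
    apply hq0
    have := congrArg (fun z : EuclideanSpace ℂ (Fin d) => z.ofLp) h
    simpa [hQ] using this
  have hQn : 0 < ‖Q‖ := norm_pos_iff.mpr hQ0
  refine ⟨((‖Q‖⁻¹ : ℝ) : ℂ) • Q, ?_, ?_⟩
  · rw [norm_smul, Complex.norm_real, norm_inv, norm_norm, inv_mul_cancel₀ hQn.ne']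
  · intro i
    rw [inner_smul_right, norm_mul, Complex.norm_real, norm_inv, norm_norm]
    have h1 := hq i
    have h2 : (star q ⬝ᵥ q).re = ‖Q‖ ^ 2 := by
      have : star q ⬝ᵥ q = inner ℂ Q Q := hin Q Q
      rw [this, inner_self_eq_norm_sq_to_K]
      norm_cast
    have h3 : star (v i).ofLp ⬝ᵥ q = inner ℂ (v i) Q := hin (v i) Q
    rw [h2, h3] at h1
    have h4 : (‖Q‖⁻¹ * ‖inner ℂ (v i) Q‖) ^ 2 = (1 / Real.sqrt ((d : ℝ) + 1)) ^ 2 := by
      rw [mul_pow, h1, hs2]
      field_simp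
    exact (pow_left_inj₀ (by positivity) (by positivity) two_ne_zero).mp h4

/-- `k` further vectors can be added when `k + 3 (d² - N) ≤ 4 r`. -/
theorem extend_lrank (d : ℕ) (hd : 1 ≤ d) : ∀ k N M : ℕ, (hM : N + k = M) →
    ∀ v : Fin N → EuclideanSpace ℂ (Fin d), k + 3 * d ^ 2 ≤ 3 * N + 4 * (defect d N v).rank →
    (∀ i, ‖v i‖ = 1) →
    (∀ i j, i ≠ j → ‖inner ℂ (v i) (v j)‖ = 1 / Real.sqrt ((d : ℝ) + 1)) →
    ∃ w : Fin M → EuclideanSpace ℂ (Fin d), (∀ i, ‖w i‖ = 1) ∧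
      (∀ i j, i ≠ j → ‖inner ℂ (w i) (w j)‖ = 1 / Real.sqrt ((d : ℝ) + 1)) ∧
      ∀ i : Fin N, w (Fin.castLE (by omega) i) = v i := by
  intro k
  induction k with
  | zero =>
    intro N M hM v _ hv1 hv2
    have hN : N = M := by omega
    subst hN
    exact ⟨v, hv1, hv2, fun i => rfl⟩
  | succ k ih =>
    intro N M hM v hk hv1 hv2
    have hle := defect_rank_le d N hd v hv1 hv2
    obtain ⟨u, hu1, hu2⟩ := add_vector_lrank d N v hv1 hv2 (by omega) (by omega)
    have hk' : k + 3 * d ^ 2 ≤ 3 * (N + 1) + 4 * (defect d (N + 1) (Fin.snoc v u)).rank := by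
      have h1 : defect d N v =
          defect d (N + 1) (Fin.snoc v u) + vecMulVec u.ofLp (star u.ofLp) := by
        unfold defect
        rw [Fin.sum_univ_castSucc]
        simp only [Fin.snoc_castSucc, Fin.snoc_last]
        abel
      have h2 := rank_add_le' (defect d (N + 1) (Fin.snoc v u)) (vecMulVec u.ofLp (star u.ofLp))
      have h3 := Matrix.rank_vecMulVec_le u.ofLp (star u.ofLp)
      rw [← h1] at h2
      omega
    obtain ⟨w, hw1, hw2, hw3⟩ := ih (N + 1) M (by omega) (Fin.snoc v u) hk'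
      (by
        intro i
        refine Fin.lastCases ?_ (fun j => ?_) i
        · simpa using hu1
        · simpa using hv1 j)
      (by
        intro i j
        refine Fin.lastCases ?_ (fun i' => ?_) i
        · refine Fin.lastCases ?_ (fun j' => ?_) j
          · intro h; exact absurd rfl h
          · intro _
            simp only [Fin.snoc_last, Fin.snoc_castSucc]
            rw [norm_inner_symm]
            exact hu2 j'
        · refine Fin.lastCases ?_ (fun j' => ?_) j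
          · intro _
            simp only [Fin.snoc_last, Fin.snoc_castSucc]
            exact hu2 i'
          · intro h
            simp only [Fin.snoc_castSucc]
            exact hv2 i' j' (fun h' => h (by rw [h'])))
    refine ⟨w, hw1, hw2, fun i => ?_⟩
    have h1 := hw3 i.castSucc
    rw [Fin.snoc_castSucc] at h1
    exact h1

end Pool.Agent.Lib.MP_d0f9e0_co.Gap.Lin
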