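import Pool.Agent.Lib.MP_d0f9e0_co.Gap.Minimiser

set_option autoImplicit false

open Matrix
open scoped ComplexOrder

namespace Pool.Agent.Lib.MP_d0f9e0_co.Gap

section Lor

variable {H : Type*} [NormedAddCommGroup H] [InnerProductSpace ℂ H]
variable {ι : Type*} [Fintype ι]

/-- exchange symmetry of `∑ T a ⊗ T a - μ2 • 1 ⊗ 1` -/
def Sgn (T : ι → H →ₗ[ℂ] H) (μ2 : ℝ) : Prop := ∀ u v w z : H,
  ∑ a, (inner ℂ u (T a v)) * (inner ℂ w (T a z)) - (μ2 : ℂ) * ((inner ℂ u v) * (inner ℂ w z)) =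
    ∑ a, (inner ℂ u (T a z)) * (inner ℂ w (T a v)) - (μ2 : ℂ) * ((inner ℂ u z) * (inner ℂ w v))

/-- the operator `∑ e a • T a` -/
noncomputable def opA (T : ι → H →ₗ[ℂ] H) (e : ι → ℝ) : H →ₗ[ℂ] H := ∑ a, ((e a : ℝ) : ℂ) • T a

theorem opA_apply (T : ι → H →ₗ[ℂ] H) (e : ι → ℝ) (x : H) :
    opA T e x = ∑ a, ((e a : ℝ) : ℂ) • T a x := by
  simp [opA, LinearMap.sum_apply]

theorem inner_opA (T : ι → H →ₗ[ℂ] H) (e : ι → ℝ) (x y : H) :
    (inner ℂ x (opA T e y)) = ∑ a, ((e a : ℝ) : ℂ) * (inner ℂ x (T a y)) := by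
  rw [opA_apply, inner_sum]
  refine Finset.sum_congr rfl fun a _ => ?_
  rw [inner_smul_right]

theorem opA_symm (T : ι → H →ₗ[ℂ] H) (hT : ∀ a, (T a).IsSymmetric) (e : ι → ℝ) :
    (opA T e).IsSymmetric := by
  intro x y
  rw [inner_opA, opA_apply, sum_inner]
  refine Finset.sum_congr rfl fun a _ => ?_
  rw [inner_smul_left, Complex.conj_ofReal, hT]

/-- Identity I4. -/
theorem ident4 (T : ι → H →ₗ[ℂ] H) (hT : ∀ a, (T a).IsSymmetric) (μ2 : ℝ) (hI : Sgn T μ2)
    (u : H) (hu : ‖u‖ = 1) (w z : H) :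
    (inner ℂ w (opA T (fun a => (inner ℂ u (T a u)).re) z)) = (μ2 : ℂ) * (inner ℂ w z) +
      ∑ a, (inner ℂ (T a u) z) * (inner ℂ w (T a u)) - (μ2 : ℂ) * ((inner ℂ u z) * (inner ℂ w u)) := by
  have h1 := hI u u w z
  have h2 : (inner ℂ u u) = 1 := by rw [inner_self_eq_norm_sq_to_K, hu]; simp
  rw [h2, one_mul] at h1
  rw [inner_opA]
  have h3 : ∑ a, (inner ℂ u (T a u)) * (inner ℂ w (T a z)) =
      ∑ a, (((inner ℂ u (T a u)).re : ℝ) : ℂ) * (inner ℂ w (T a z)) := by
    refine Finset.sum_congr rfl fun a _ => ?_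
    rw [← sym_re (T a) (hT a) u]
  have h4 : ∑ a, (inner ℂ u (T a z)) * (inner ℂ w (T a u)) = ∑ a, (inner ℂ (T a u) z) * (inner ℂ w (T a u)) := by
    refine Finset.sum_congr rfl fun a _ => ?_
    rw [hT]
  rw [h3, h4] at h1
  linear_combination h1

variable [FiniteDimensional ℂ H]

theorem lorentz_case1 (T : ι → H →ₗ[ℂ] H) (hT : ∀ a, (T a).IsSymmetric) (μ2 g : ℝ)
    (hI : Sgn T μ2) (u : H) (hu : ‖u‖ = 1) (e : ι → ℝ)
    (he : e = fun a => (inner ℂ u (T a u)).re) (hg : ∑ a, e a ^ 2 = g) (hg0 : 0 < g) (hgμ : g < μ2)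
    (hAu : opA T e u = (g : ℂ) • u) :
    Module.finrank ℂ H ≤ Fintype.card ι + 1 := by
  classical
  obtain ⟨V, hV⟩ : ∃ V : Submodule ℂ H, V = Submodule.span ℂ (Set.range fun a => T a u) := ⟨_, rfl⟩
  have hTV : ∀ a, T a u ∈ V := fun a => by rw [hV]; exact Submodule.subset_span ⟨a, rfl⟩
  have huV : u ∈ V := by
    have h1 : (g : ℂ) • u ∈ V := by
      rw [← hAu, opA_apply]
      exact Submodule.sum_mem _ fun a _ => Submodule.smul_mem _ _ (hTV a)
    have h2 : (g : ℂ) ≠ 0 := by exact_mod_cast hg0.ne'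
    have h3 : u = (g : ℂ)⁻¹ • ((g : ℂ) • u) := by rw [smul_smul, inv_mul_cancel₀ h2, one_smul]
    rw [h3]
    exact Submodule.smul_mem _ _ h1
  obtain ⟨W, hW⟩ : ∃ W : Submodule ℂ H, W = Vᗮ := ⟨_, rfl⟩
  have hWT : ∀ z ∈ W, ∀ a, (inner ℂ (T a u) z) = 0 := fun z hz a => by
    rw [hW] at hz
    exact Submodule.inner_right_of_mem_orthogonal (hTV a) hz
  have hWu : ∀ z ∈ W, (inner ℂ u z) = 0 := fun z hz => by
    rw [hW] at hz
    exact Submodule.inner_right_of_mem_orthogonal huV hz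
  have hWA : ∀ z ∈ W, ∀ w : H, (inner ℂ w (opA T e z)) = (μ2 : ℂ) * (inner ℂ w z) := by
    intro z hz w
    rw [he, ident4 T hT μ2 hI u hu w z, hWu z hz]
    have h1 : ∑ a, (inner ℂ (T a u) z) * (inner ℂ w (T a u)) = 0 :=
      Finset.sum_eq_zero fun a _ => by rw [hWT z hz a, zero_mul]
    rw [h1]
    ring
  -- the shift
  obtain ⟨δ, hδ⟩ : ∃ δ : ℝ, δ = Real.sqrt (μ2 ^ 2 - g * μ2) := ⟨_, rfl⟩
  have hμ0 : 0 < μ2 := hg0.trans hgμ
  have hδ0 : 0 < δ := by
    rw [hδ]; apply Real.sqrt_pos.mpr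
    have : 0 < μ2 * (μ2 - g) := mul_pos hμ0 (by linarith)
    nlinarith
  have hδ2 : δ ^ 2 = μ2 ^ 2 - g * μ2 := by
    rw [hδ, Real.sq_sqrt]
    have : 0 < μ2 * (μ2 - g) := mul_pos hμ0 (by linarith)
    nlinarith
  obtain ⟨s, hs⟩ : ∃ s : ℝ, s = (μ2 - δ) / g := ⟨_, rfl⟩
  have hsg : s * g = μ2 - δ := by rw [hs]; field_simp
  have hs2 : s ^ 2 * g - 2 * s * μ2 = -μ2 := by
    have h1 : (s ^ 2 * g - 2 * s * μ2 + μ2) * g = 0 := by
      calc (s ^ 2 * g - 2 * s * μ2 + μ2) * g = (s * g) ^ 2 - 2 * (s * g) * μ2 + g * μ2 := by ring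
        _ = 0 := by rw [hsg]; nlinarith
    rcases mul_eq_zero.mp h1 with h2 | h2
    · linarith
    · exact absurd h2 hg0.ne'
  let L : ι → H →ₗ[ℂ] H := fun a => T a - ((s * e a : ℝ) : ℂ) • LinearMap.id
  have hLapp : ∀ a x y, (inner ℂ x (L a y)) = (inner ℂ x (T a y)) - ((s : ℂ) * (e a : ℂ)) * (inner ℂ x y) := by
    intro a x y
    simp only [L, LinearMap.sub_apply, LinearMap.smul_apply, LinearMap.id_coe, id_eq]
    rw [inner_sub_right, inner_smul_right]
    push_cast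
    ring
  have hLs : ∀ a, (L a).IsSymmetric := by
    intro a x y
    have h1 : (inner ℂ (L a x) y) = (inner ℂ (T a x) y) - ((s * e a : ℝ) : ℂ) * (inner ℂ x y) := by
      simp only [L, LinearMap.sub_apply, LinearMap.smul_apply, LinearMap.id_coe, id_eq]
      rw [inner_sub_left, inner_smul_left, Complex.conj_ofReal]
    rw [h1, hLapp, hT a]
    push_cast
    ring
  -- the relation space
  let Ψ : H →ₗ[ℂ] EuclideanSpace ℂ ι :=
    { toFun := fun z => WithLp.toLp 2 fun a => (inner ℂ u (T a z))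
      map_add' := fun x y => by ext a; simp
      map_smul' := fun c x => by ext a; simp }
  have hΨ : ∀ z a, Ψ z a = (inner ℂ u (T a z)) := fun z a => rfl
  obtain ⟨U, hU⟩ : ∃ U : Submodule ℂ H, U = (Submodule.span ℂ {u})ᗮ := ⟨_, rfl⟩
  have hUu : ∀ z ∈ U, (inner ℂ u z) = 0 := fun z hz => by
    rw [hU] at hz
    exact Submodule.inner_right_of_mem_orthogonal (Submodule.mem_span_singleton_self u) hz
  have hu0 : u ≠ 0 := by
    intro h; rw [h, norm_zero] at hu; exact zero_ne_one hu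
  have hUdim : Module.finrank ℂ U + 1 = Module.finrank ℂ H := by
    have h1 := (Submodule.span ℂ {u}).finrank_add_finrank_orthogonal
    rw [finrank_span_singleton hu0, ← hU] at h1
    omega
  have h := abstract_rank L hLs W ?_ ?_ (U.map Ψ) ?_
  · -- dimension count
    have h1 : Module.finrank ℂ (U.map Ψ) + Module.finrank ℂ W ≥ Module.finrank ℂ U := by
      have h2 := LinearMap.finrank_range_add_finrank_ker (Ψ.domRestrict U)
      have h3 : Module.finrank ℂ (LinearMap.range (Ψ.domRestrict U)) =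
          Module.finrank ℂ (U.map Ψ) := by
        rw [LinearMap.range_domRestrict]
      have h4 : Module.finrank ℂ (LinearMap.ker (Ψ.domRestrict U)) ≤ Module.finrank ℂ W := by
        let f : LinearMap.ker (Ψ.domRestrict U) →ₗ[ℂ] H :=
          U.subtype.comp (LinearMap.ker (Ψ.domRestrict U)).subtype
        have hf : Function.Injective f := by
          intro x y hxy
          exact Subtype.ext (Subtype.ext hxy)
        have hfW : ∀ x, f x ∈ W := by
          intro x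
          have hx : Ψ (x.1 : H) = 0 := x.2
          rw [hW, hV, Submodule.mem_orthogonal]
          intro y hy
          induction hy using Submodule.span_induction with
          | mem y hy =>
            obtain ⟨a, rfl⟩ := hy
            have h5 : Ψ (x.1 : H) a = 0 := by rw [hx]; rfl
            rw [hΨ, ← hT] at h5
            exact h5
          | zero => rw [inner_zero_left]
          | add y z _ _ hy hz => rw [inner_add_left, hy, hz, add_zero]
          | smul c y _ hy => rw [inner_smul_left, hy, mul_zero]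
        have hinj : Function.Injective (f.codRestrict W hfW) := by
          intro x y hxy
          apply hf
          exact congrArg (fun t : W => (t : H)) hxy
        exact LinearMap.finrank_le_finrank_of_injective hinj
      omega
    omega
  · -- symmetry
    intro x hx v hv w hw z hz
    have key : ∀ v ∈ W, ∀ z ∈ W, ∑ a, (inner ℂ x (L a v)) * (inner ℂ w (L a z)) =
        ∑ a, (inner ℂ x (T a v)) * (inner ℂ w (T a z)) - (μ2 : ℂ) * ((inner ℂ x v) * (inner ℂ w z)) := by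
      intro v hv z hz
      have h1 : ∑ a, (inner ℂ x (L a v)) * (inner ℂ w (L a z)) = ∑ a, (inner ℂ x (T a v)) * (inner ℂ w (T a z))
          - (s : ℂ) * (inner ℂ x v) * ∑ a, ((e a : ℝ) : ℂ) * (inner ℂ w (T a z))
          - (s : ℂ) * (inner ℂ w z) * ∑ a, ((e a : ℝ) : ℂ) * (inner ℂ x (T a v))
          + (s : ℂ) ^ 2 * ((inner ℂ x v) * (inner ℂ w z)) * ∑ a, ((e a : ℝ) : ℂ) ^ 2 := by
        simp only [Finset.mul_sum, ← Finset.sum_sub_distrib, ← Finset.sum_add_distrib]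
        refine Finset.sum_congr rfl fun a _ => ?_
        rw [hLapp, hLapp]
        ring
      rw [h1, ← inner_opA, ← inner_opA, hWA z hz w, hWA v hv x]
      have h2 : ∑ a, ((e a : ℝ) : ℂ) ^ 2 = (g : ℂ) := by
        rw [← hg]; push_cast; rfl
      rw [h2]
      have h3 : (s : ℂ) ^ 2 * g - 2 * s * μ2 = -μ2 := by exact_mod_cast hs2
      linear_combination ((inner ℂ x v) * (inner ℂ w z)) * h3
    rw [key v hv z hz, key z hz v hv]
    exact hI x v w z
  · -- no kernel
    intro x hx hzero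
    have h1 : ∑ a, ((e a : ℝ) : ℂ) * (inner ℂ x (L a x)) = 0 :=
      Finset.sum_eq_zero fun a _ => by rw [hzero a x hx, mul_zero]
    have h2 : ∑ a, ((e a : ℝ) : ℂ) * (inner ℂ x (L a x)) =
        ∑ a, ((e a : ℝ) : ℂ) * (inner ℂ x (T a x)) - (s : ℂ) * (inner ℂ x x) * ∑ a, ((e a : ℝ) : ℂ) ^ 2 := by
      simp only [Finset.mul_sum, ← Finset.sum_sub_distrib]
      refine Finset.sum_congr rfl fun a _ => ?_
      rw [hLapp]
      ring
    have h3 : ∑ a, ((e a : ℝ) : ℂ) ^ 2 = (g : ℂ) := by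
      rw [← hg]; push_cast; rfl
    rw [h2, ← inner_opA, hWA x hx x, h3] at h1
    have h4 : ((δ : ℝ) : ℂ) * (inner ℂ x x) = 0 := by
      have h5 : (s : ℂ) * g = μ2 - δ := by exact_mod_cast hsg
      linear_combination h1 + (inner ℂ x x) * h5
    rcases mul_eq_zero.mp h4 with h5 | h5
    · exfalso
      exact hδ0.ne' (by exact_mod_cast h5)
    · exact inner_self_eq_zero.mp h5
  · -- relations
    intro c hc x hx y hy
    obtain ⟨z, hz, rfl⟩ := hc
    have hz' : z ∈ U := hz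
    simp only [hΨ]
    have h1 : ∑ a, (inner ℂ u (T a z)) * (inner ℂ y (L a x)) = ∑ a, (inner ℂ u (T a z)) * (inner ℂ y (T a x))
        - (s : ℂ) * (inner ℂ y x) * ∑ a, ((e a : ℝ) : ℂ) * (inner ℂ u (T a z)) := by
      simp only [Finset.mul_sum, ← Finset.sum_sub_distrib]
      refine Finset.sum_congr rfl fun a _ => ?_
      rw [hLapp]
      ring
    have h2 : ∑ a, ((e a : ℝ) : ℂ) * (inner ℂ u (T a z)) = 0 := by
      rw [← inner_opA, ← opA_symm T hT e, hAu, inner_smul_left, hUu z hz', mul_zero]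
    have h3 := hI u z y x
    have h4 : ∑ a, (inner ℂ u (T a x)) * (inner ℂ y (T a z)) = 0 :=
      Finset.sum_eq_zero fun a _ => by rw [← hT, hWT x hx a, zero_mul]
    rw [h4, hUu z hz', hWu x hx] at h3
    rw [h1, h2]
    linear_combination h3

end Lor

end Pool.Agent.Lib.MP_d0f9e0_co.Gap
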