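import Pool.Agent.Lib.MP_d0f9e0_co.Gap.Abstract

set_option autoImplicit false

open Matrix
open scoped ComplexOrder

namespace Pool.Agent.Lib.MP_d0f9e0_co.Gap

section Min

variable {H : Type*} [NormedAddCommGroup H] [InnerProductSpace ℂ H] [FiniteDimensional ℂ H]
variable {ι : Type*} [Fintype ι]

omit [FiniteDimensional ℂ H] in
theorem sym_re (T : H →ₗ[ℂ] H) (hT : T.IsSymmetric) (x : H) :
    (inner ℂ x (T x)) = (((inner ℂ x (T x)).re : ℝ) : ℂ) := by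
  have : (starRingEnd ℂ) (inner ℂ x (T x)) = (inner ℂ x (T x)) := by
    rw [inner_conj_symm, hT]
  exact (Complex.conj_eq_iff_re.mp this).symm

theorem exists_min [Nontrivial H] (T : ι → H →ₗ[ℂ] H) :
    ∃ u : H, ‖u‖ = 1 ∧ ∀ w : H, (∑ a, (inner ℂ u (T a u)).re ^ 2) * ‖w‖ ^ 4 ≤ ∑ a, (inner ℂ w (T a w)).re ^ 2 := by
  have : ProperSpace H := FiniteDimensional.proper ℂ H
  let E : H → ℝ := fun w => ∑ a, (inner ℂ w (T a w)).re ^ 2
  have hE : ∀ w, E w = ∑ a, (inner ℂ w (T a w)).re ^ 2 := fun w => rfl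
  have hcont : Continuous E := by
    refine continuous_finsetSum _ fun a _ => ?_
    refine Continuous.pow ?_ 2
    exact Complex.continuous_re.comp
      (continuous_id.inner (LinearMap.continuous_of_finiteDimensional (T a)))
  have hscale : ∀ (r : ℝ) (w : H), E ((r : ℂ) • w) = r ^ 4 * E w := by
    intro r w
    rw [hE, hE, Finset.mul_sum]
    refine Finset.sum_congr rfl fun a _ => ?_
    rw [map_smul, inner_smul_left, inner_smul_right, Complex.conj_ofReal, Complex.re_ofReal_mul,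
      Complex.re_ofReal_mul]
    ring
  obtain ⟨x, hx⟩ := exists_ne (0 : H)
  have hne : (Metric.sphere (0 : H) 1).Nonempty := by
    refine ⟨((‖x‖⁻¹ : ℝ) : ℂ) • x, ?_⟩
    rw [mem_sphere_zero_iff_norm, norm_smul, Complex.norm_real, norm_inv, norm_norm,
      inv_mul_cancel₀ (norm_ne_zero_iff.mpr hx)]
  obtain ⟨u, hu, hmin⟩ := (isCompact_sphere (0 : H) 1).exists_isMinOn hne hcont.continuousOn
  refine ⟨u, mem_sphere_zero_iff_norm.mp hu, fun w => ?_⟩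
  rcases eq_or_ne w 0 with rfl | hw
  · simp
  · have hw0 : 0 < ‖w‖ := norm_pos_iff.mpr hw
    have h1 : ((‖w‖⁻¹ : ℝ) : ℂ) • w ∈ Metric.sphere (0 : H) 1 := by
      rw [mem_sphere_zero_iff_norm, norm_smul, Complex.norm_real, norm_inv, norm_norm,
        inv_mul_cancel₀ hw0.ne']
    have h2 : E u ≤ E (((‖w‖⁻¹ : ℝ) : ℂ) • w) := hmin h1
    rw [hscale] at h2
    change E u * ‖w‖ ^ 4 ≤ E w
    calc E u * ‖w‖ ^ 4 ≤ (‖w‖⁻¹ ^ 4 * E w) * ‖w‖ ^ 4 := by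
          apply mul_le_mul_of_nonneg_right h2 (by positivity)
      _ = E w := by field_simp

omit [FiniteDimensional ℂ H] in
theorem quad_expand (T : H →ₗ[ℂ] H) (hT : T.IsSymmetric) (u v : H) (t : ℝ) :
    (inner ℂ (u + (t : ℂ) • v) (T (u + (t : ℂ) • v))).re =
      (inner ℂ u (T u)).re + 2 * t * (inner ℂ v (T u)).re + t ^ 2 * (inner ℂ v (T v)).re := by
  have h1 : (inner ℂ u (T v)).re = (inner ℂ v (T u)).re := by
    rw [← hT, ← inner_conj_symm, Complex.conj_re]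
  rw [map_add, map_smul, inner_add_left, inner_add_right, inner_add_right, inner_smul_left,
    inner_smul_right, inner_smul_right, inner_smul_left, Complex.conj_ofReal]
  simp only [Complex.add_re, Complex.re_ofReal_mul]
  rw [h1]
  ring

omit [FiniteDimensional ℂ H] in
theorem norm_expand (u v : H) (hu : ‖u‖ = 1) (t : ℝ) :
    ‖u + (t : ℂ) • v‖ ^ 4 = (1 + 2 * t * (inner ℂ v u).re + t ^ 2 * ‖v‖ ^ 2) ^ 2 := by
  have h1 : ‖u + (t : ℂ) • v‖ ^ 2 = 1 + 2 * t * (inner ℂ v u).re + t ^ 2 * ‖v‖ ^ 2 := by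
    have h2 := quad_expand (LinearMap.id : H →ₗ[ℂ] H) (fun _ _ => rfl) u v t
    simp only [LinearMap.id_coe, id_eq] at h2
    have h3 : ∀ x : H, (inner ℂ x x).re = ‖x‖ ^ 2 := by
      intro x
      rw [inner_self_eq_norm_sq_to_K]
      norm_cast
    rw [h3, h3, h3, hu] at h2
    rw [h2]
    ring
  rw [← h1]
  ring

omit [FiniteDimensional ℂ H] in
theorem gradient (T : ι → H →ₗ[ℂ] H) (hT : ∀ a, (T a).IsSymmetric) (u : H) (hu : ‖u‖ = 1)
    (hmin : ∀ w : H, (∑ a, (inner ℂ u (T a u)).re ^ 2) * ‖w‖ ^ 4 ≤ ∑ a, (inner ℂ w (T a w)).re ^ 2) :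
    ∑ a, (((inner ℂ u (T a u)).re : ℝ) : ℂ) • T a u = ((∑ a, (inner ℂ u (T a u)).re ^ 2 : ℝ) : ℂ) • u := by
  obtain ⟨g, hg⟩ : ∃ g : ℝ, g = ∑ a, (inner ℂ u (T a u)).re ^ 2 := ⟨_, rfl⟩
  obtain ⟨e, he⟩ : ∃ e : ι → ℝ, e = fun a => (inner ℂ u (T a u)).re := ⟨_, rfl⟩
  have he' : ∀ a, (inner ℂ u (T a u)).re = e a := fun a => by rw [he]
  rw [← hg] at hmin ⊢
  simp only [he'] at hg ⊢
  obtain ⟨v, hv⟩ : ∃ v : H, v = ∑ a, ((e a : ℝ) : ℂ) • T a u - (g : ℂ) • u := ⟨_, rfl⟩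
  obtain ⟨r, hr⟩ : ∃ r : ι → ℝ, r = fun a => (inner ℂ v (T a u)).re := ⟨_, rfl⟩
  obtain ⟨s, hs⟩ : ∃ s : ι → ℝ, s = fun a => (inner ℂ v (T a v)).re := ⟨_, rfl⟩
  obtain ⟨ρ, hρ⟩ : ∃ ρ : ℝ, ρ = (inner ℂ v u).re := ⟨_, rfl⟩
  obtain ⟨q, hq⟩ : ∃ q : ℝ, q = ‖v‖ ^ 2 := ⟨_, rfl⟩
  have hq' : q = ∑ a, e a * r a - g * ρ := by
    have h1 : q = (inner ℂ v v).re := by
      rw [hq, inner_self_eq_norm_sq_to_K]; norm_cast
    rw [h1]
    conv_lhs => rw [show (inner ℂ v v) = (inner ℂ v (∑ a, ((e a : ℝ) : ℂ) • T a u - (g : ℂ) • u)) by rw [← hv]]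
    rw [inner_sub_right, inner_sum, inner_smul_right, Complex.sub_re, Complex.re_sum,
      Complex.re_ofReal_mul, ← hρ]
    congr 1
    refine Finset.sum_congr rfl fun a _ => ?_
    rw [inner_smul_right, Complex.re_ofReal_mul, hr]
  have hpoly : ∀ t : ℝ, 0 ≤ (4 * q) * t + (4 * ∑ a, r a ^ 2 + 2 * ∑ a, e a * s a - 4 * g * ρ ^ 2
      - 2 * g * q) * t ^ 2 + (4 * ∑ a, r a * s a - 4 * g * ρ * q) * t ^ 3
      + (∑ a, s a ^ 2 - g * q ^ 2) * t ^ 4 := by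
    intro t
    have h1 := hmin (u + (t : ℂ) • v)
    rw [norm_expand u v hu t, ← hρ, ← hq] at h1
    have h2 : ∑ a, (inner ℂ (u + (t : ℂ) • v) (T a (u + (t : ℂ) • v))).re ^ 2 =
        g + 4 * t * ∑ a, e a * r a + 4 * t ^ 2 * ∑ a, r a ^ 2 + 2 * t ^ 2 * ∑ a, e a * s a
        + 4 * t ^ 3 * ∑ a, r a * s a + t ^ 4 * ∑ a, s a ^ 2 := by
      rw [hg]
      simp only [Finset.mul_sum, ← Finset.sum_add_distrib]
      refine Finset.sum_congr rfl fun a _ => ?_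
      rw [quad_expand (T a) (hT a) u v t, he', hr, hs]
      ring
    rw [h2] at h1
    have h3 : ∑ a, e a * r a = q + g * ρ := by rw [hq']; ring
    rw [h3] at h1
    linarith
  have h4 := poly_aux _ _ _ _ hpoly
  have h5 : ‖v‖ ^ 2 ≤ 0 := by rw [← hq]; linarith
  have h6 : v = 0 := by
    rw [← norm_eq_zero]
    have := norm_nonneg v
    nlinarith
  rw [hv] at h6
  exact sub_eq_zero.mp h6

end Min

end Pool.Agent.Lib.MP_d0f9e0_co.Gap
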