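import Pool.Agent.Lib.MP_d0f9e0_co.Gap.SymCore

set_option autoImplicit false

open Matrix
open scoped ComplexOrder

namespace Pool.Agent.Lib.MP_d0f9e0_co.Gap

section MD

variable {n : Type*} [Fintype n] [DecidableEq n]

omit [Fintype n] [DecidableEq n] in
theorem hmat_sum {J : Type*} (s : Finset J) (c : J → ℝ) (v : J → EuclideanSpace ℝ (n × n)) :
    hmat (∑ j ∈ s, c j • v j) = ∑ j ∈ s, (c j : ℂ) • hmat (v j) := by
  classical
  induction s using Finset.induction_on with
  | empty =>
    simp only [Finset.sum_empty]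
    ext i j
    simp [hmat]
  | insert a s ha ih =>
    rw [Finset.sum_insert ha, Finset.sum_insert ha, hmat_add, hmat_smul, ih]

omit [Fintype n] in
theorem complexify {I : Type*} [Fintype I] (ε : I → ℝ) (m : I → EuclideanSpace ℝ (n × n)) (D : ℝ)
    (h : ∀ a c : n × n, ∑ i, ε i * (m i a * m i c) = D * (if a = c then 1 else 0))
    (p q r s : n) :
    ∑ i, (ε i : ℂ) * (hmat (m i) p q * hmat (m i) r s) =
      (D : ℂ) * ((if p = s then 1 else 0) * (if q = r then 1 else 0)) := by
  simp only [hmat_apply]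
  have h2 : ∀ t u v w z : ℂ, t * (((1 + Complex.I) / 2 * u + (1 - Complex.I) / 2 * v) *
      ((1 + Complex.I) / 2 * w + (1 - Complex.I) / 2 * z)) =
      (Complex.I / 2) * (t * (u * w)) - (Complex.I / 2) * (t * (v * z)) + (1 / 2) * (t * (u * z))
        + (1 / 2) * (t * (v * w)) := by
    intro t u v w z
    have hI : Complex.I ^ 2 = -1 := Complex.I_sq
    linear_combination (t * (1/4 * u * w + 1/4 * v * z - 1/4 * u * z - 1/4 * v * w)) * hI
  simp only [h2, Finset.sum_add_distrib, Finset.sum_sub_distrib, ← Finset.mul_sum]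
  have hc : ∀ a c : n × n, ∑ i, (ε i : ℂ) * ((m i a : ℂ) * (m i c : ℂ)) =
      (D : ℂ) * (if a = c then 1 else 0) := by
    intro a c
    have := congrArg (fun t : ℝ => (t : ℂ)) (h a c)
    simp only at this
    push_cast at this
    have e : ∀ (P : Prop) [Decidable P], (((if P then (1 : ℝ) else 0) : ℝ) : ℂ) =
        if P then 1 else 0 := by
      intro P _; split_ifs <;> simp
    simp only [e] at this
    exact this
  have c1 := hc (p, q) (r, s)
  have c2 := hc (q, p) (s, r)
  have c3 := hc (p, q) (s, r)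
  have c4 := hc (q, p) (r, s)
  simp only [Prod.mk.injEq] at c1 c2 c3 c4
  have e1 : (if (q = s ∧ p = r) then (1 : ℂ) else 0) = (if (p = r ∧ q = s) then (1 : ℂ) else 0) := by
    simp only [and_comm]
  have e2 : (if (q = r ∧ p = s) then (1 : ℂ) else 0) = (if p = s then 1 else 0) * (if q = r then 1 else 0) := by
    by_cases h1 : p = s <;> by_cases h2 : q = r <;> simp [h1, h2]
  have e3 : (if (p = s ∧ q = r) then (1 : ℂ) else 0) = (if p = s then 1 else 0) * (if q = r then 1 else 0) := by
    by_cases h1 : p = s <;> by_cases h2 : q = r <;> simp [h1, h2]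
  rw [e1] at c2
  rw [e3] at c3
  rw [e2] at c4
  linear_combination (Complex.I / 2) * c1 - (Complex.I / 2) * c2 + (1 / 2) * c3 + (1 / 2) * c4

omit [DecidableEq n] in
/-- Independence of the projections for an arbitrary common angle. -/
theorem indep_proj' {κ : Type*} [Fintype κ] (x : κ → n → ℂ) (α : ℝ) (hα0 : 0 ≤ α) (hα1 : α < 1)
    (hx : ∀ i, star (x i) ⬝ᵥ x i = 1)
    (hxy : ∀ i j, i ≠ j → ‖star (x i) ⬝ᵥ x j‖ ^ 2 = α) :
    LinearIndependent ℝ (fun i => gvec (vecMulVec (x i) (star (x i)))) := by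
  classical
  set p : κ → EuclideanSpace ℝ (n × n) := fun i => gvec (vecMulVec (x i) (star (x i))) with hp
  have hpp : ∀ i, (inner ℝ (p i) (p i) : ℝ) = 1 := by
    intro i
    have h1 := inner_gvec (vecMulVec (x i) (star (x i))) (vecMulVec (x i) (star (x i)))
      (proj_isHermitian _) (proj_isHermitian _)
    rw [trace_proj_mul, hx] at h1
    simp only [hp]
    have h2 := Complex.ofReal_injective h1
    rw [h2]; simp
  have hpq : ∀ i j, i ≠ j → (inner ℝ (p i) (p j) : ℝ) = α := by
    intro i j hij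
    have h1 := inner_gvec (vecMulVec (x i) (star (x i))) (vecMulVec (x j) (star (x j)))
      (proj_isHermitian _) (proj_isHermitian _)
    rw [trace_proj_mul, hxy i j hij] at h1
    exact Complex.ofReal_injective h1
  rw [Fintype.linearIndependent_iff]
  intro g hg
  have h1 : (inner ℝ (∑ i, g i • p i) (∑ j, g j • p j) : ℝ) =
      (1 - α) * ∑ i, g i ^ 2 + α * (∑ i, g i) ^ 2 := by
    rw [sum_inner]
    simp only [inner_sum, inner_smul_left, inner_smul_right, conj_trivial]
    have h2' : ∀ i j, g j * (g i * (inner ℝ (p i) (p j) : ℝ)) =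
        (if i = j then (1 - α) * (g i * g j) else 0) + α * (g i * g j) := by
      intro i j
      by_cases h : i = j
      · rw [if_pos h, h, hpp]; ring
      · rw [if_neg h, hpq i j h]; ring
    simp only [h2', Finset.sum_add_distrib, Finset.sum_ite_eq, Finset.mem_univ, if_true]
    rw [Finset.mul_sum, sq (∑ i, g i), Finset.sum_mul_sum, Finset.mul_sum]
    congr 1
    · refine Finset.sum_congr rfl fun i _ => ?_
      ring
    · refine Finset.sum_congr rfl fun i _ => ?_
      rw [Finset.mul_sum]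
  rw [hg, inner_zero_left] at h1
  have h3 : 0 ≤ α * (∑ i, g i) ^ 2 := mul_nonneg hα0 (sq_nonneg _)
  have h4 : 0 ≤ ∑ i, g i ^ 2 := Finset.sum_nonneg fun i _ => sq_nonneg _
  have h5 : ∑ i, g i ^ 2 = 0 := by
    have : 0 < 1 - α := by linarith
    nlinarith
  intro i
  have h6 := (Finset.sum_eq_zero_iff_of_nonneg (fun i _ => sq_nonneg (g i))).mp h5 i
    (Finset.mem_univ i)
  simpa using h6

/-- The structure of the orthogonal complement of the span of the projections. -/
theorem model_data {κ : Type*} [Fintype κ] (x : κ → n → ℂ) (d : ℕ) (hd : Fintype.card n = d)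
    (hx : ∀ i, star (x i) ⬝ᵥ x i = 1) (α : ℝ) (hα0 : 0 ≤ α) (hα1 : α < 1)
    (hxy : ∀ i j, i ≠ j → ‖star (x i) ⬝ᵥ x j‖ ^ 2 = α) (X : ℝ)
    (hX : X = 1 + ((Fintype.card κ : ℝ) - 1) * α) (hX0 : 0 < X) :
    ∃ (k : ℕ) (G : Fin k → Matrix n n ℂ) (ν : Fin k → ℝ),
      Fintype.card κ + k = d ^ 2 ∧ (∀ a, (G a).IsHermitian) ∧
      (∀ a b, trace (G a * G b) = if a = b then 1 else 0) ∧
      (∀ a, trace (G a) = (ν a : ℂ)) ∧
      (∀ a i, trace (G a * vecMulVec (x i) (star (x i))) = 0) ∧
      (∑ i, vecMulVec (x i) (star (x i)) = (X : ℂ) • (1 - ∑ a, (ν a : ℂ) • G a)) ∧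
      (∑ a, ν a ^ 2 = d - Fintype.card κ / X) ∧
      (∀ p q r s, ∑ i, vecMulVec (x i) (star (x i)) p q * vecMulVec (x i) (star (x i)) r s
        - ((α / X : ℝ) : ℂ) * ((∑ i, vecMulVec (x i) (star (x i))) p q *
            (∑ i, vecMulVec (x i) (star (x i))) r s)
        + ((1 - α : ℝ) : ℂ) * ∑ a, G a p q * G a r s =
        ((1 - α : ℝ) : ℂ) * ((if p = s then 1 else 0) * (if q = r then 1 else 0))) := by
  classical
  set N := Fintype.card κ with hN
  set P : κ → Matrix n n ℂ := fun i => vecMulVec (x i) (star (x i)) with hP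
  set p : κ → EuclideanSpace ℝ (n × n) := fun i => gvec (P i) with hp
  set τ : EuclideanSpace ℝ (n × n) := gvec 1 with hτ
  set σ : EuclideanSpace ℝ (n × n) := ∑ i, p i with hσ
  have hpp : ∀ i, (inner ℝ (p i) (p i) : ℝ) = 1 := by
    intro i
    have h1 := inner_gvec (P i) (P i) (proj_isHermitian _) (proj_isHermitian _)
    rw [trace_proj_mul, hx] at h1
    simp only [hp]
    have h2 := Complex.ofReal_injective h1
    rw [h2]; simp
  have hpq : ∀ i j, i ≠ j → (inner ℝ (p i) (p j) : ℝ) = α := by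
    intro i j hij
    have h1 := inner_gvec (P i) (P j) (proj_isHermitian _) (proj_isHermitian _)
    rw [trace_proj_mul, hxy i j hij] at h1
    exact Complex.ofReal_injective h1
  have hpτ : ∀ i, (inner ℝ (p i) τ : ℝ) = 1 := by
    intro i
    have h1 := inner_gvec (P i) 1 (proj_isHermitian _) Matrix.isHermitian_one
    rw [Matrix.mul_one, Matrix.trace_vecMulVec, dotProduct_comm, hx] at h1
    exact_mod_cast h1
  have hττ : (inner ℝ τ τ : ℝ) = d := by
    have h1 := inner_gvec (1 : Matrix n n ℂ) 1 Matrix.isHermitian_one Matrix.isHermitian_one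
    rw [Matrix.mul_one, Matrix.trace_one, hd] at h1
    exact_mod_cast h1
  have hσp : ∀ j, (inner ℝ σ (p j) : ℝ) = X := by
    intro j
    have h1 : ∀ i, (inner ℝ (p i) (p j) : ℝ) = (if i = j then 1 - α else 0) + α := by
      intro i
      by_cases h : i = j
      · rw [if_pos h, h, hpp]; ring
      · rw [if_neg h, hpq i j h, zero_add]
    rw [hσ, sum_inner]
    simp only [h1, Finset.sum_add_distrib, Finset.sum_ite_eq', Finset.mem_univ, if_true,
      Finset.sum_const, Finset.card_univ, ← hN, nsmul_eq_mul]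
    rw [hX]; ring
  have hστ : (inner ℝ σ τ : ℝ) = N := by
    rw [hσ, sum_inner]
    simp only [hpτ, Finset.sum_const, Finset.card_univ, ← hN, nsmul_eq_mul, mul_one]
  have hind := indep_proj' x α hα0 hα1 hx hxy
  set S : Submodule ℝ (EuclideanSpace ℝ (n × n)) := Submodule.span ℝ (Set.range p) with hS
  have hfS : Module.finrank ℝ S = N := by
    rw [hS, finrank_span_eq_card hind]
  set k := Module.finrank ℝ Sᗮ with hk
  have hfW : N + k = d ^ 2 := by
    have h1 := S.finrank_add_finrank_orthogonal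
    rw [hfS, ← hk] at h1
    rw [h1, finrank_euclideanSpace, Fintype.card_prod, hd, sq]
  let b : OrthonormalBasis (Fin k) ℝ Sᗮ := stdOrthonormalBasis ℝ Sᗮ
  let E : Fin k → EuclideanSpace ℝ (n × n) := fun a => (b a : EuclideanSpace ℝ (n × n))
  have hEp : ∀ a i, (inner ℝ (E a) (p i) : ℝ) = 0 := by
    intro a i
    have h1 : p i ∈ S := Submodule.subset_span ⟨i, rfl⟩
    exact Submodule.inner_left_of_mem_orthogonal h1 (b a).2
  have hEσ : ∀ a, (inner ℝ (E a) σ : ℝ) = 0 := by
    intro a
    rw [hσ, inner_sum]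
    exact Finset.sum_eq_zero fun i _ => hEp a i
  have hEE : ∀ a c, (inner ℝ (E a) (E c) : ℝ) = if a = c then 1 else 0 := by
    intro a c
    exact orthonormal_iff_ite.mp b.orthonormal a c
  -- operator identity
  let T : EuclideanSpace ℝ (n × n) →ₗ[ℝ] EuclideanSpace ℝ (n × n) :=
    ∑ i, (innerₛₗ ℝ (p i)).smulRight (p i) - (α / X) • (innerₛₗ ℝ σ).smulRight σ
      + (1 - α) • ∑ a, (innerₛₗ ℝ (E a)).smulRight (E a)
      - (1 - α) • LinearMap.id
  have hTapp : ∀ v, T v = ∑ i, (inner ℝ (p i) v : ℝ) • p i - (α / X) • ((inner ℝ σ v : ℝ) • σ)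
      + (1 - α) • ∑ a, (inner ℝ (E a) v : ℝ) • E a - (1 - α) • v := by
    intro v
    simp [T]
  have hTp : ∀ j, T (p j) = 0 := by
    intro j
    rw [hTapp]
    have h1 : ∑ i, (inner ℝ (p i) (p j) : ℝ) • p i = (1 - α) • p j + α • σ := by
      have h2 : ∀ i, (inner ℝ (p i) (p j) : ℝ) • p i =
          (if i = j then (1 - α) • p i else 0) + α • p i := by
        intro i
        by_cases h : i = j
        · rw [if_pos h, h, hpp, ← add_smul]
          congr 1
          ring
        · rw [if_neg h, hpq i j h, zero_add]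
      simp only [h2, Finset.sum_add_distrib, Finset.sum_ite_eq', Finset.mem_univ, if_true,
        ← Finset.smul_sum, hσ]
    rw [h1, hσp]
    simp only [hEp, zero_smul, Finset.sum_const_zero, smul_zero, add_zero, smul_smul]
    have e1 : α / X * X = α := by field_simp
    rw [e1]
    abel
  have hTS : ∀ v ∈ S, T v = 0 := by
    intro v hv
    rw [hS] at hv
    induction hv using Submodule.span_induction with
    | mem y hy =>
      obtain ⟨o, rfl⟩ := hy
      exact hTp o
    | zero => exact map_zero T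
    | add y z _ _ hy hz => rw [map_add, hy, hz, add_zero]
    | smul c y _ hy => rw [map_smul, hy, smul_zero]
  have hTW : ∀ v ∈ Sᗮ, T v = 0 := by
    intro v hv
    rw [hTapp]
    have hp0 : ∀ i, (inner ℝ (p i) v : ℝ) = 0 := fun i =>
      Submodule.inner_right_of_mem_orthogonal (K := S) (Submodule.subset_span ⟨i, rfl⟩) hv
    have hσ0 : (inner ℝ σ v : ℝ) = 0 := by
      rw [hσ, sum_inner]
      exact Finset.sum_eq_zero fun i _ => hp0 i
    have hE : ∑ a, (inner ℝ (E a) v : ℝ) • E a = v := by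
      have h1 := b.sum_repr' ⟨v, hv⟩
      have h2 := congrArg (fun z : Sᗮ => (z : EuclideanSpace ℝ (n × n))) h1
      simpa using h2
    rw [hE]
    simp [hp0, hσ0]
  have hT : ∀ v, T v = 0 := by
    intro v
    obtain ⟨y, hy, z, hz, rfl⟩ := S.exists_add_mem_mem_orthogonal v
    rw [map_add, hTS y hy, hTW z hz, add_zero]
  set ν : Fin k → ℝ := fun a => inner ℝ (E a) τ with hν
  -- decomposition of τ
  have hτdec : σ = X • (τ - ∑ a, ν a • E a) := by
    have h1 := hT τ
    rw [hTapp, hστ] at h1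
    simp only [hpτ, one_smul] at h1
    rw [← hσ] at h1
    have h2 : σ - (α / X) • ((N : ℝ) • σ) = ((1 - α) / X) • σ := by
      rw [smul_smul, show σ - (α / X * (N : ℝ)) • σ = (1 - α / X * N) • σ by
        rw [sub_smul, one_smul]]
      congr 1
      field_simp
      rw [hX]; ring
    rw [h2] at h1
    have h3 : (1 - α) • ((1 / X) • σ + ∑ a, ν a • E a - τ) = 0 := by
      rw [smul_sub, smul_add, smul_smul, mul_one_div]
      exact h1
    have h4 : (1 / X) • σ + ∑ a, ν a • E a - τ = 0 := by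
      rcases smul_eq_zero.mp h3 with h5 | h5
      · exfalso; linarith
      · exact h5
    have h5 : τ - ∑ a, ν a • E a = (1 / X) • σ := by
      have h6 : τ - ∑ a, ν a • E a - (1 / X) • σ =
        -((1 / X) • σ + ∑ a, ν a • E a - τ) := by abel
      rw [h4, neg_zero] at h6
      exact sub_eq_zero.mp h6
    rw [h5, smul_smul, mul_one_div_cancel hX0.ne', one_smul]
  have hν2 : ∑ a, ν a ^ 2 = d - N / X := by
    have h1 : (inner ℝ σ τ : ℝ) = X * (d - ∑ a, ν a ^ 2) := by
      rw [hτdec, inner_smul_left, inner_sub_left, sum_inner, hττ]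
      simp only [inner_smul_left, conj_trivial]
      congr 2
      refine Finset.sum_congr rfl fun a _ => ?_
      change ν a * ν a = _
      ring
    rw [hστ] at h1
    rw [h1]
    field_simp
    ring
  have h1mat : hmat τ = 1 := hmat_gvec 1 Matrix.isHermitian_one
  have hPmat : ∀ i, hmat (p i) = P i := fun i => hmat_gvec _ (proj_isHermitian _)
  have hSmat : hmat σ = ∑ i, P i := by
    have h1 : σ = ∑ i, (1 : ℝ) • p i := by simp only [one_smul, hσ]
    rw [h1, hmat_sum]
    refine Finset.sum_congr rfl fun i _ => ?_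
    rw [hPmat, Complex.ofReal_one, one_smul]
  refine ⟨k, fun a => hmat (E a), ν, hfW, fun a => hmat_isHermitian _, ?_, ?_, ?_, ?_, hν2, ?_⟩
  · intro a c
    rw [trace_hmat_mul, hEE]
    split_ifs <;> simp
  · intro a
    have : hmat (E a) = hmat (E a) * hmat τ := by rw [h1mat, Matrix.mul_one]
    change trace (hmat (E a)) = _
    rw [this, trace_hmat_mul]
  · intro a i
    change trace (hmat (E a) * P i) = 0
    rw [← hPmat, trace_hmat_mul, hEp, Complex.ofReal_zero]
  · rw [← hSmat]
    conv_lhs => rw [hτdec]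
    rw [hmat_smul]
    congr 1
    have h1 : τ - ∑ a, ν a • E a = τ + (-1 : ℝ) • ∑ a, ν a • E a := by
      rw [neg_one_smul, sub_eq_add_neg]
    rw [h1, hmat_add, hmat_smul, hmat_sum, h1mat]
    simp [sub_eq_add_neg]
  · intro i j r s
    let m : κ ⊕ Option (Fin k) → EuclideanSpace ℝ (n × n) :=
      Sum.elim p (fun o => o.elim σ E)
    let ε : κ ⊕ Option (Fin k) → ℝ :=
      Sum.elim (fun _ => 1) (fun o => o.elim (-(α / X)) (fun _ => 1 - α))
    have hreal : ∀ a c : n × n, ∑ i, ε i * (m i a * m i c) = (1 - α) * (if a = c then 1 else 0) := by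
      intro a c
      have h1 := congrArg (fun v : EuclideanSpace ℝ (n × n) => v a) (hT (EuclideanSpace.single c 1))
      rw [hTapp] at h1
      simp only [PiLp.sub_apply, PiLp.add_apply, PiLp.smul_apply, PiLp.zero_apply, WithLp.ofLp_sum,
        Finset.sum_apply, EuclideanSpace.inner_single_right, smul_eq_mul,
        PiLp.single_apply, conj_trivial, one_mul, WithLp.ofLp_smul, Pi.smul_apply] at h1
      rw [Fintype.sum_sum_type, Fintype.sum_option]
      change ∑ i, 1 * (p i a * p i c) + (-(α / X) * (σ a * σ c) +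
        ∑ i, (1 - α) * (E i a * E i c)) = _
      have h4 : ∑ i, (1 - α) * (E i a * E i c) = (1 - α) * ∑ i, E i c * E i a := by
        rw [Finset.mul_sum]
        refine Finset.sum_congr rfl fun i _ => ?_
        ring
      have h5 : ∑ j, 1 * (p j a * p j c) = ∑ j, p j c * p j a :=
        Finset.sum_congr rfl fun j _ => by ring
      rw [h4, h5]
      linarith
    have h1 := complexify ε m (1 - α) hreal i j r s
    rw [Fintype.sum_sum_type, Fintype.sum_option] at h1
    change ∑ l, ((1 : ℝ) : ℂ) * (hmat (p l) i j * hmat (p l) r s) +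
      (((-(α / X) : ℝ) : ℂ) * (hmat σ i j * hmat σ r s) +
      ∑ a, ((1 - α : ℝ) : ℂ) * (hmat (E a) i j * hmat (E a) r s)) = _ at h1
    rw [hSmat] at h1
    simp only [hPmat, Complex.ofReal_one, one_mul] at h1
    have h6 : ∑ a, ((1 - α : ℝ) : ℂ) * (hmat (E a) i j * hmat (E a) r s) =
        ((1 - α : ℝ) : ℂ) * ∑ a, hmat (E a) i j * hmat (E a) r s := by
      rw [Finset.mul_sum]
    rw [h6] at h1
    change ∑ l, P l i j * P l r s - ((α / X : ℝ) : ℂ) * ((∑ l, P l) i j * (∑ l, P l) r s)
      + ((1 - α : ℝ) : ℂ) * ∑ a, hmat (E a) i j * hmat (E a) r s = _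
    rw [← h1]
    push_cast
    ring

end MD

end Pool.Agent.Lib.MP_d0f9e0_co.Gap
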