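import Pool.Agent.Lib.MP_d0f9e0_co.Approx.Singer

/-!
# Equiangular lines from Singer difference sets of prime power order

For a prime power `q` and `d = q + 1` there are `d ^ 2 - d + 1` unit vectors in `ℂ ^ d` whose
inner products for distinct indices have modulus `√(d - 1) / d`.
-/

set_option autoImplicit false

open Finset Polynomial

namespace Pool.Agent.Lib.MP_d0f9e0_co.Gap

open Pool.Agent.Lib.MP_d0f9e0_co.Approx

/-- Singer difference sets over an arbitrary finite field `F` with a cubic extension `K`. -/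
theorem singer_of_ext {F K : Type} [Field F] [Field K] [Algebra F K] [Finite F] [Finite K]
    (hfin : Module.finrank F K = 3) :
    ∃ (A : Type) (_ : AddCommGroup A) (_ : Fintype A) (D : Finset A),
      Fintype.card A = Nat.card F ^ 2 + Nat.card F + 1 ∧ D.card = Nat.card F + 1 ∧
        IsSidon D := by
  classical
  have : Fintype F := Fintype.ofFinite F
  have : Fintype K := Fintype.ofFinite K
  have hfinite : Module.Finite F K := .of_finite
  obtain ⟨q, hq⟩ : ∃ q, q = Nat.card F := ⟨_, rfl⟩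
  rw [← hq]
  have hq2 : 2 ≤ q := by
    rw [hq]
    exact Finite.one_lt_card
  have hqK : Nat.card K = q ^ 3 := by
    rw [Module.natCard_eq_pow_finrank (K := F), hfin, hq]
  obtain ⟨θ, hθ⟩ := Field.exists_primitive_element F K
  have hdeg : (minpoly F θ).natDegree = 3 := by
    rw [(Field.primitive_element_iff_minpoly_natDegree_eq F θ).1 hθ, hfin]
  have hzero : ∀ p : F[X], p.natDegree ≤ 2 → aeval θ p = 0 → p = 0 := by
    intro p hp h
    by_contra hne
    have h1 := natDegree_le_natDegree (minpoly.degree_le_of_ne_zero F θ hne h)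
    omega
  have hne : ∀ o : Option F, aeval θ (mP o) ≠ 0 := by
    intro o h
    have h1 := hzero (mP o) ((mP_natDegree_le o).trans (by norm_num)) h
    exact (mP_monic o).ne_zero h1
  let u : Option F → Kˣ := fun o => Units.mk0 (aeval θ (mP o)) (hne o)
  let i : Fˣ →* Kˣ := Units.map (algebraMap F K : F →* K)
  let S : Subgroup Kˣ := i.range
  -- equality of classes
  have key : ∀ o1 o2 o3 o4 : Option F,
      (QuotientGroup.mk (u o1 * u o4) : Kˣ ⧸ S) = QuotientGroup.mk (u o3 * u o2) →
      mP o1 * mP o4 = mP o3 * mP o2 := by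
    intro o1 o2 o3 o4 h
    rw [QuotientGroup.eq] at h
    obtain ⟨t, ht⟩ := h
    have h1 : u o1 * u o4 * i t = u o3 * u o2 := by
      rw [ht]; group
    have h2 : aeval θ (mP o1) * aeval θ (mP o4) * algebraMap F K t =
        aeval θ (mP o3) * aeval θ (mP o2) := by
      have := congrArg Units.val h1
      simpa [u, i] using this
    have h3 : aeval θ (mP o1 * mP o4 * C (t : F) - mP o3 * mP o2) = 0 := by
      rw [map_sub, map_mul, map_mul, map_mul, aeval_C]
      rw [h2, sub_self]
    have hdeg2 : ∀ o o' : Option F, (mP o * mP o').natDegree ≤ 2 := by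
      intro o o'
      have h4 := natDegree_mul_le (p := mP o) (q := mP o')
      have h5 := mP_natDegree_le o
      have h6 := mP_natDegree_le o'
      omega
    have h4 : mP o1 * mP o4 * C (t : F) - mP o3 * mP o2 = 0 := by
      apply hzero _ _ h3
      refine (natDegree_sub_le _ _).trans (max_le ?_ (hdeg2 _ _))
      exact (natDegree_mul_C_le _ _).trans (hdeg2 _ _)
    have h5 : mP o1 * mP o4 * C (t : F) = mP o3 * mP o2 := sub_eq_zero.1 h4
    have h6 : (t : F) = 1 := by
      have h7 := congrArg leadingCoeff h5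
      rw [leadingCoeff_mul, leadingCoeff_mul, leadingCoeff_mul, leadingCoeff_C,
        (mP_monic o1).leadingCoeff, (mP_monic o2).leadingCoeff, (mP_monic o3).leadingCoeff,
        (mP_monic o4).leadingCoeff] at h7
      simpa using h7
    rw [h6, C_1, mul_one] at h5
    exact h5
  let f : Option F → Additive (Kˣ ⧸ S) := fun o => Additive.ofMul (QuotientGroup.mk (u o))
  have hf : Function.Injective f := by
    intro o o' h
    have h1 : (QuotientGroup.mk (u o * u none) : Kˣ ⧸ S) = QuotientGroup.mk (u o' * u none) := by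
      have h2 : (QuotientGroup.mk (u o) : Kˣ ⧸ S) = QuotientGroup.mk (u o') := h
      rw [QuotientGroup.mk_mul, QuotientGroup.mk_mul, h2]
    have h3 := key o none o' none h1
    exact mP_injective (mul_right_cancel₀ (mP_monic none).ne_zero h3)
  have : Fintype (Additive (Kˣ ⧸ S)) := Fintype.ofFinite _
  refine ⟨Additive (Kˣ ⧸ S), inferInstance, inferInstance, univ.image f, ?_, ?_, ?_⟩
  · have h1 := Subgroup.card_eq_card_quotient_mul_card_subgroup S
    have h2 : Nat.card S = q - 1 := by
      have hi : Function.Injective i := Units.map_injective (algebraMap F K).injective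
      rw [← Nat.card_congr (MonoidHom.ofInjective hi).toEquiv, Nat.card_units, hq]
    have h3 : Nat.card Kˣ = q ^ 3 - 1 := by
      rw [Nat.card_units, hqK]
    rw [h2, h3] at h1
    have h4 : q ^ 3 - 1 = (q ^ 2 + q + 1) * (q - 1) := by
      obtain ⟨k, rfl⟩ : ∃ k, q = k + 1 := ⟨q - 1, by omega⟩
      simp only [Nat.add_sub_cancel]
      have : (k + 1) ^ 3 = ((k + 1) ^ 2 + (k + 1) + 1) * k + 1 := by ring
      rw [this, Nat.add_sub_cancel]
    rw [h4] at h1
    have h5 := Nat.eq_of_mul_eq_mul_right (by omega) h1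
    rw [← Nat.card_eq_fintype_card]
    exact h5.symm
  · rw [Finset.card_image_of_injective _ hf, Finset.card_univ, Fintype.card_option,
      ← Nat.card_eq_fintype_card, hq]
  · intro a ha b hb c hc e he h hab
    rw [Finset.mem_image] at ha hb hc he
    obtain ⟨o1, -, rfl⟩ := ha
    obtain ⟨o2, -, rfl⟩ := hb
    obtain ⟨o3, -, rfl⟩ := hc
    obtain ⟨o4, -, rfl⟩ := he
    have h1 : f o1 + f o4 = f o3 + f o2 := by
      rw [sub_eq_sub_iff_add_eq_add] at h
      exact h
    have h2 := key o1 o2 o3 o4 h1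
    obtain ⟨h3, h4⟩ := mP_mul h2 (fun h => hab (congrArg f h))
    rw [h3, h4]
    exact ⟨rfl, rfl⟩

/-- Singer difference sets of prime power order -/
theorem exists_singer_pp {q : ℕ} (hq : IsPrimePow q) :
    ∃ (A : Type) (_ : AddCommGroup A) (_ : Fintype A) (D : Finset A),
      Fintype.card A = q ^ 2 + q + 1 ∧ D.card = q + 1 ∧ IsSidon D := by
  obtain ⟨p, k, hp, hk, rfl⟩ := (isPrimePow_nat_iff q).1 hq
  have : Fact p.Prime := ⟨hp⟩
  have h := singer_of_ext (F := GaloisField p k)
    (K := FiniteField.Extension (GaloisField p k) p 3)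
    (FiniteField.finrank_extension (GaloisField p k) p 3)
  rwa [GaloisField.card p k hk.ne'] at h

/-- `d ^ 2 - d + 1` equiangular lines in `ℂ ^ d`, `d - 1` a prime power -/
theorem exists_other {d : ℕ} (hd : IsPrimePow (d - 1)) :
    ∃ x : Fin (d ^ 2 - d + 1) → EuclideanSpace ℂ (Fin d),
      (∀ i, ‖x i‖ = 1) ∧ ∀ i j, i ≠ j →
        ‖inner ℂ (x i) (x j)‖ = Real.sqrt ((d : ℝ) - 1) / d := by
  classical
  have hd3 : 3 ≤ d := by
    have := hd.two_le
    omega
  obtain ⟨A, _, _, D, hA, hD, hS⟩ := exists_singer_pp hd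
  have hDd : D.card = d := by omega
  have hcardA : Fintype.card A = d ^ 2 - d + 1 := by
    rw [hA]
    obtain ⟨e, rfl⟩ : ∃ e, d = e + 1 := ⟨d - 1, by omega⟩
    have h1 : (e + 1) ^ 2 = e ^ 2 + e + (e + 1) := by ring
    rw [h1, Nat.add_sub_cancel, Nat.add_sub_cancel]
  have hcardA' : Fintype.card A = D.card * (D.card - 1) + 1 := by
    rw [hcardA, hDd]
    obtain ⟨e, rfl⟩ : ∃ e, d = e + 1 := ⟨d - 1, by omega⟩
    have h1 : (e + 1) ^ 2 = (e + 1) * e + (e + 1) := by ring
    rw [h1, Nat.add_sub_cancel, Nat.add_sub_cancel]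
  have e1 : Fin (d ^ 2 - d + 1) ≃ AddChar A ℂ :=
    Fintype.equivOfCardEq (by rw [Fintype.card_fin, AddChar.card_eq, hcardA])
  have e2 : Fin d ≃ {a // a ∈ D} :=
    Fintype.equivOfCardEq (by rw [Fintype.card_fin, Fintype.card_coe, hDd])
  have hd0 : (0 : ℝ) < d := by exact_mod_cast (by omega : 0 < d)
  have hs2 : Real.sqrt d * Real.sqrt d = d := Real.mul_self_sqrt hd0.le
  have hs0 : (0 : ℝ) < Real.sqrt d := Real.sqrt_pos.2 hd0
  let x : Fin (d ^ 2 - d + 1) → EuclideanSpace ℂ (Fin d) := fun i =>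
    WithLp.toLp 2 fun k => ((Real.sqrt d)⁻¹ : ℂ) * e1 i (e2 k)
  have hin : ∀ i j, inner ℂ (x i) (x j) = (d : ℂ)⁻¹ * ∑ a ∈ D, (e1 j - e1 i) a := by
    intro i j
    rw [EuclideanSpace.inner_eq_star_dotProduct]
    show ∑ k, (((Real.sqrt d)⁻¹ : ℂ) * e1 j (e2 k)) *
      star (((Real.sqrt d)⁻¹ : ℂ) * e1 i (e2 k)) = _
    rw [← Finset.sum_coe_sort D, ← Equiv.sum_comp e2, Finset.mul_sum]
    refine Finset.sum_congr rfl fun k _ => ?_
    have h1 : star (((Real.sqrt d)⁻¹ : ℂ)) = ((Real.sqrt d)⁻¹ : ℂ) := by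
      rw [star_inv₀, Complex.star_def, Complex.conj_ofReal]
    have h2 : ((Real.sqrt d)⁻¹ : ℂ) * ((Real.sqrt d)⁻¹ : ℂ) = (d : ℂ)⁻¹ := by
      rw [← mul_inv]
      congr 1
      exact_mod_cast hs2
    rw [star_mul', h1, AddChar.sub_apply', ← h2, Complex.star_def,
      ← AddChar.map_neg_eq_conj, AddChar.map_neg_eq_inv]
    ring
  refine ⟨x, fun i => ?_, fun i j hij => ?_⟩
  · have h1 : ‖x i‖ ^ 2 = 1 := by
      have h2 := hin i i
      rw [inner_self_eq_norm_sq_to_K, sub_self] at h2
      simp only [AddChar.zero_apply, Finset.sum_const, hDd, nsmul_eq_mul, mul_one] at h2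
      rw [inv_mul_cancel₀ (by exact_mod_cast hd0.ne')] at h2
      have h4 : ((‖x i‖ ^ 2 : ℝ) : ℂ) = ((1 : ℝ) : ℂ) := by
        rw [Complex.ofReal_pow, Complex.ofReal_one]
        exact h2
      exact Complex.ofReal_injective h4
    have h3 : (0 : ℝ) ≤ ‖x i‖ := norm_nonneg _
    nlinarith [sq_nonneg (‖x i‖ - 1)]
  · rw [hin i j, norm_mul, norm_inv, Complex.norm_natCast]
    have h1 := norm_sum_sq hcardA' hS (e1 j - e1 i) (by
      intro h
      apply hij
      rw [sub_eq_zero] at h
      exact (e1.injective h).symm)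
    rw [hDd] at h1
    rw [← h1, Real.sqrt_sq (norm_nonneg _)]
    field_simp

end Pool.Agent.Lib.MP_d0f9e0_co.Gap
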