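import Pool.Agent.Lib.MP_d0f9e0_co.Gap.Completion

/-!
# The rank criterion for the completion of a system of equiangular lines
-/

set_option autoImplicit false

open Matrix
open scoped ComplexOrder

namespace Pool.Agent.Lib.MP_d0f9e0_co.Gap

section Core

variable {n ι : Type*} [Fintype n] [Fintype ι]

theorem core_rank [DecidableEq n] (K : ι → Matrix n n ℂ)
    (hH : ∀ a, (K a).IsHermitian) (hS : Sym K) (c : ι → ℝ) (R : Matrix n n ℂ)
    (hRc : ∑ a, (c a : ℂ) • K a = R) (hR2 : ∑ a, K a * K a = R)
    (hι : 1 ≤ Fintype.card ι)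
    (hcard : Fintype.card ι ≤ R.rank) :
    ∃ (t : ι → ℝ) (q : n → ℂ), q ≠ 0 ∧ ∑ a, (t a : ℂ) • K a = vecMulVec q (star q) := by
  classical
  have hRH : R.IsHermitian := by
    rw [← hR2]
    unfold Matrix.IsHermitian
    rw [Matrix.conjTranspose_sum]
    refine Finset.sum_congr rfl fun a _ => ?_
    rw [Matrix.conjTranspose_mul, (hH a).eq]
  obtain ⟨U, hU⟩ : ∃ U : Matrix n n ℂ, U = (hRH.eigenvectorUnitary : Matrix n n ℂ) := ⟨_, rfl⟩
  set ev := hRH.eigenvalues with hev
  have hUU : Uᴴ * U = 1 := by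
    rw [hU, ← Matrix.star_eq_conjTranspose]
    exact Unitary.coe_star_mul_self _
  have hUU' : U * Uᴴ = 1 := by
    rw [hU, ← Matrix.star_eq_conjTranspose]
    exact Unitary.coe_mul_star_self _
  have hRU : Uᴴ * R * U = diagonal (fun i => (ev i : ℂ)) := by
    have := hRH.conjStarAlgAut_star_eigenvectorUnitary
    rw [Unitary.conjStarAlgAut_star_apply] at this
    rw [hU, ← Matrix.star_eq_conjTranspose]
    exact this
  set K' : ι → Matrix n n ℂ := fun a => Uᴴ * K a * U with hK'
  have hK'S : Sym K' := sym_congr K hS _ _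
  have hK'H : ∀ a, (K' a).IsHermitian := by
    intro a
    simp only [hK']
    rw [Matrix.IsHermitian, Matrix.conjTranspose_mul, Matrix.conjTranspose_mul,
      (hH a).eq, Matrix.conjTranspose_conjTranspose, Matrix.mul_assoc]
  have hK'R : ∑ a, K' a * K' a = diagonal (fun i => (ev i : ℂ)) := by
    rw [← hRU, ← hR2, Matrix.mul_sum, Matrix.sum_mul]
    refine Finset.sum_congr rfl fun a _ => ?_
    simp only [hK']
    calc Uᴴ * K a * U * (Uᴴ * K a * U) = Uᴴ * K a * (U * Uᴴ) * K a * U := by
          simp only [Matrix.mul_assoc]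
      _ = Uᴴ * (K a * K a) * U := by
          rw [hUU', Matrix.mul_one]; simp only [Matrix.mul_assoc]
  have hK'c : ∑ a, (c a : ℂ) • K' a = diagonal (fun i => (ev i : ℂ)) := by
    rw [← hRU, ← hRc, Matrix.mul_sum, Matrix.sum_mul]
    refine Finset.sum_congr rfl fun a _ => ?_
    rw [Matrix.mul_smul, Matrix.smul_mul]
  -- diagonal entries
  have hdiag : ∀ i, ∑ a, ∑ j, ‖K' a i j‖ ^ 2 = ev i := by
    intro i
    have h1 := congrFun (congrFun hK'R i) i
    rw [Matrix.diagonal_apply_eq, Matrix.sum_apply] at h1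
    have h2 : ∀ a, (K' a * K' a) i i = ((∑ j, ‖K' a i j‖ ^ 2 : ℝ) : ℂ) := by
      intro a
      rw [Matrix.mul_apply]
      push_cast
      refine Finset.sum_congr rfl fun j _ => ?_
      have h3 : K' a j i = star (K' a i j) := by
        have := congrFun (congrFun (hK'H a).eq j) i
        rw [Matrix.conjTranspose_apply] at this
        exact this.symm
      rw [h3, Complex.star_def, Complex.mul_conj, Complex.normSq_eq_norm_sq]
      push_cast; rfl
    simp only [h2] at h1
    exact_mod_cast h1
  have hev0 : ∀ i, 0 ≤ ev i := by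
    intro i
    rw [← hdiag i]
    exact Finset.sum_nonneg fun a _ => Finset.sum_nonneg fun j _ => sq_nonneg _
  have hzero : ∀ i, ev i = 0 → ∀ a j, K' a i j = 0 := by
    intro i hi a j
    have h1 := hdiag i
    rw [hi, Finset.sum_eq_zero_iff_of_nonneg
      (fun a _ => Finset.sum_nonneg fun j _ => sq_nonneg _)] at h1
    have h2 := h1 a (Finset.mem_univ a)
    rw [Finset.sum_eq_zero_iff_of_nonneg (fun j _ => sq_nonneg _)] at h2
    have h3 := h2 j (Finset.mem_univ j)
    simpa using h3
  have hzero' : ∀ i, ev i = 0 → ∀ a j, K' a j i = 0 := by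
    intro i hi a j
    have h3 : K' a j i = star (K' a i j) := by
      have := congrFun (congrFun (hK'H a).eq j) i
      rw [Matrix.conjTranspose_apply] at this
      exact this.symm
    rw [h3, hzero i hi, star_zero]
  have hcard' : Fintype.card ι ≤ Fintype.card {i : n // ev i ≠ 0} := by
    have h1 := hRH.rank_eq_card_non_zero_eigs
    rw [← hev] at h1
    rw [← h1]
    exact hcard
  have hne : Nonempty {i : n // ev i ≠ 0} := by
    rw [← Fintype.card_pos_iff]
    omega
  -- restricted family
  set K'' : ι → Matrix {i : n // ev i ≠ 0} {i : n // ev i ≠ 0} ℂ :=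
    fun a => (K' a).submatrix Subtype.val Subtype.val with hK''
  have hK''H : ∀ a, (K'' a).IsHermitian := fun a => (hK'H a).submatrix _
  have hK''S : Sym K'' := fun p q r s => hK'S p.1 q.1 r.1 s.1
  have hK''c : ∑ a, (c a : ℂ) • K'' a =
      diagonal (fun i : {i : n // ev i ≠ 0} => (ev i : ℂ)) := by
    ext i j
    have h1 := congrFun (congrFun hK'c i.1) j.1
    rw [Matrix.sum_apply] at h1 ⊢
    have h2 : ∑ a, ((c a : ℂ) • K'' a) i j = ∑ a, ((c a : ℂ) • K' a) i.1 j.1 := rfl
    rw [h2, h1]
    by_cases hij : i = j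
    · rw [hij, Matrix.diagonal_apply_eq, Matrix.diagonal_apply_eq]
    · rw [Matrix.diagonal_apply_ne _ hij, Matrix.diagonal_apply_ne]
      exact fun h => hij (Subtype.ext h)
  have hpos : ∀ i : {i : n // ev i ≠ 0}, 0 < ev i := fun i =>
    lt_of_le_of_ne (hev0 i.1) (Ne.symm i.2)
  obtain ⟨t, q, hq, htq⟩ := core K'' hK''H hK''S c
    (diagonal (fun i : {i : n // ev i ≠ 0} => (((Real.sqrt (ev i))⁻¹ : ℝ) : ℂ))) (by
      rw [Matrix.det_diagonal, Finset.prod_ne_zero_iff]
      intro i _
      have := Real.sqrt_pos.mpr (hpos i)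
      exact_mod_cast (inv_pos.mpr this).ne') (by
      rw [hK''c, Matrix.diagonal_conjTranspose, Matrix.diagonal_mul_diagonal,
        Matrix.diagonal_mul_diagonal, ← Matrix.diagonal_one]
      congr 1
      funext i
      rw [Pi.star_apply, Complex.star_def, Complex.conj_ofReal, ← Complex.ofReal_mul,
        ← Complex.ofReal_mul]
      have h1 := Real.sqrt_pos.mpr (hpos i)
      have h2 := Real.mul_self_sqrt (hpos i).le
      have h3 : (Real.sqrt (ev i))⁻¹ * ev i * (Real.sqrt (ev i))⁻¹ = 1 := by
        rw [mul_comm, ← mul_assoc, ← mul_inv, h2, inv_mul_cancel₀ (hpos i).ne']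
      rw [h3, Complex.ofReal_one]) hcard'
  set q' : n → ℂ := fun i => if h : ev i ≠ 0 then q ⟨i, h⟩ else 0 with hq'
  have hq'0 : q' ≠ 0 := by
    obtain ⟨i, hi⟩ := Function.ne_iff.mp hq
    intro h
    apply hi
    have h1 := congrFun h i.1
    simp only [hq', dif_pos i.2] at h1
    simpa using h1
  have hsum' : ∑ a, (t a : ℂ) • K' a = vecMulVec q' (star q') := by
    ext i j
    rw [Matrix.sum_apply, Matrix.vecMulVec_apply, Pi.star_apply]
    by_cases hi : ev i ≠ 0
    · by_cases hj : ev j ≠ 0
      · have h1 := congrFun (congrFun htq ⟨i, hi⟩) ⟨j, hj⟩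
        rw [Matrix.sum_apply, Matrix.vecMulVec_apply, Pi.star_apply] at h1
        simp only [hq', dif_pos hi, dif_pos hj]
        exact h1
      · push Not at hj
        have h2 : ∀ a, ((t a : ℂ) • K' a) i j = 0 := by
          intro a
          rw [Matrix.smul_apply, hzero' j hj, smul_zero]
        simp only [h2, Finset.sum_const_zero]
        have : q' j = 0 := by simp [hq', hj]
        rw [this, star_zero, mul_zero]
    · push Not at hi
      have h2 : ∀ a, ((t a : ℂ) • K' a) i j = 0 := by
        intro a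
        rw [Matrix.smul_apply, hzero i hi, smul_zero]
      simp only [h2, Finset.sum_const_zero]
      have : q' i = 0 := by simp [hq', hi]
      rw [this, zero_mul]
  refine ⟨t, U *ᵥ q', ?_, ?_⟩
  · intro h
    apply hq'0
    have h1 := congrArg (fun v => Uᴴ *ᵥ v) h
    simp only [Matrix.mulVec_mulVec, Matrix.mulVec_zero] at h1
    rw [hUU, Matrix.one_mulVec] at h1
    exact h1
  · rw [Matrix.star_mulVec, ← Matrix.vecMulVec_mul, ← Matrix.mul_vecMulVec, ← hsum',
      Matrix.mul_sum, Matrix.sum_mul]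
    refine Finset.sum_congr rfl fun a _ => ?_
    rw [Matrix.mul_smul, Matrix.smul_mul]
    congr 1
    simp only [hK']
    calc K a = (U * Uᴴ) * K a * (U * Uᴴ) := by rw [hUU', Matrix.one_mul, Matrix.mul_one]
      _ = _ := by simp only [Matrix.mul_assoc]

end Core

section Model

variable {n : Type*} [Fintype n] [DecidableEq n]

omit [Fintype n] [DecidableEq n] in
private theorem hmat_sum' {J : Type*} (s : Finset J) (c : J → ℝ) (v : J → EuclideanSpace ℝ (n × n)) :
    hmat (∑ j ∈ s, c j • v j) = ∑ j ∈ s, (c j : ℂ) • hmat (v j) := by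
  classical
  induction s using Finset.induction_on with
  | empty =>
    simp only [Finset.sum_empty]
    ext i j
    simp [hmat]
  | insert a s ha ih =>
    rw [Finset.sum_insert ha, Finset.sum_insert ha, hmat_add, hmat_smul, ih]

/-- The family of Hermitian matrices attached to `N` vectors, and the traces of `R = d - S`. -/
theorem fam_data {κ : Type*} [Fintype κ] (x : κ → n → ℂ) (d : ℕ) (hd : Fintype.card n = d)
    (hx : ∀ i, star (x i) ⬝ᵥ x i = 1)
    (hxy : ∀ i j, i ≠ j → ‖star (x i) ⬝ᵥ x j‖ ^ 2 = 1 / ((d : ℝ) + 1))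
    (hN : Fintype.card κ < d ^ 2) :
    ∃ (w : ℕ) (K : Option (Fin w) → Matrix n n ℂ) (c : Option (Fin w) → ℝ) (R : Matrix n n ℂ),
      Fintype.card κ + 1 + w = d ^ 2 ∧
      R = (d : ℂ) • (1 : Matrix n n ℂ) - ∑ i, vecMulVec (x i) (star (x i)) ∧
      (∀ a, (K a).IsHermitian) ∧ Sym K ∧ ∑ a, (c a : ℂ) • K a = R ∧ ∑ a, K a * K a = R ∧
      (∀ i a, trace (vecMulVec (x i) (star (x i)) * K a) = trace (K a) / (d + 1)) ∧
      (trace R).re = (d : ℝ) ^ 2 - Fintype.card κ ∧
      (trace (R * R)).re = ((d : ℝ) ^ 2 - Fintype.card κ) *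
        (d + ((d : ℝ) ^ 2 - Fintype.card κ)) / (d + 1) := by
  classical
  set N := Fintype.card κ with hNdef
  have hNR : (N : ℝ) < (d : ℝ) ^ 2 := by exact_mod_cast hN
  have hdpos : 0 < d := by
    rcases Nat.eq_zero_or_pos d with h | h
    · rw [h] at hN; simp at hN
    · exact h
  have hdR : (0 : ℝ) < d := by exact_mod_cast hdpos
  set k : ℝ := (d : ℝ) ^ 2 - N with hkdef
  have hk0 : 0 < k := by rw [hkdef]; linarith
  set D : ℝ := d / (d + 1) with hD
  have hD0 : 0 < D := by positivity
  have hDd : D * (d + 1) = d := by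
    rw [hD]; field_simp
  set P : κ → Matrix n n ℂ := fun i => vecMulVec (x i) (star (x i)) with hP
  set p : κ → EuclideanSpace ℝ (n × n) := fun i => gvec (P i) with hp
  set τ : EuclideanSpace ℝ (n × n) := gvec 1 with hτ
  set ρ : EuclideanSpace ℝ (n × n) := (d : ℝ) • τ - ∑ i, p i with hρ
  -- Gram data
  have hpp : ∀ i, (inner ℝ (p i) (p i) : ℝ) = 1 := by
    intro i
    have h1 := inner_gvec (P i) (P i) (proj_isHermitian _) (proj_isHermitian _)
    rw [trace_proj_mul, hx] at h1
    simp only [hp]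
    have h2 := Complex.ofReal_injective h1
    rw [h2]; simp
  have hpq : ∀ i j, i ≠ j → (inner ℝ (p i) (p j) : ℝ) = 1 / (d + 1) := by
    intro i j hij
    have h1 := inner_gvec (P i) (P j) (proj_isHermitian _) (proj_isHermitian _)
    rw [trace_proj_mul, hxy i j hij] at h1
    exact Complex.ofReal_injective h1
  have hpτ : ∀ i, (inner ℝ (p i) τ : ℝ) = 1 := by
    intro i
    have h1 := inner_gvec (P i) 1 (proj_isHermitian _) Matrix.isHermitian_one
    rw [Matrix.mul_one, Matrix.trace_vecMulVec, dotProduct_comm, hx] at h1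
    exact_mod_cast h1
  have hττ : (inner ℝ τ τ : ℝ) = d := by
    have h1 := inner_gvec (1 : Matrix n n ℂ) 1 Matrix.isHermitian_one Matrix.isHermitian_one
    rw [Matrix.mul_one, Matrix.trace_one, hd] at h1
    exact_mod_cast h1
  have hsump : ∀ j, ∑ i, (inner ℝ (p i) (p j) : ℝ) = D + N / (d + 1) := by
    intro j
    have h1 : ∀ i, (inner ℝ (p i) (p j) : ℝ) = (if i = j then D else 0) + 1 / (d + 1) := by
      intro i
      by_cases h : i = j
      · rw [if_pos h, h, hpp, hD]; field_simp
      · rw [if_neg h, hpq i j h, zero_add]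
    simp only [h1, Finset.sum_add_distrib, Finset.sum_ite_eq', Finset.mem_univ, if_true,
      Finset.sum_const, Finset.card_univ, ← hNdef, nsmul_eq_mul]
    ring
  have hρp : ∀ j, (inner ℝ ρ (p j) : ℝ) = k / (d + 1) := by
    intro j
    rw [hρ, inner_sub_left, inner_smul_left, sum_inner, hsump, real_inner_comm, hpτ]
    simp only [conj_trivial]
    rw [hkdef, hD]
    field_simp
    ring
  have hρτ : (inner ℝ ρ τ : ℝ) = k := by
    rw [hρ, inner_sub_left, inner_smul_left, sum_inner, hττ]
    simp only [hpτ, conj_trivial, Finset.sum_const, Finset.card_univ, ← hNdef, nsmul_eq_mul]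
    rw [hkdef]; ring
  have hρρ : (inner ℝ ρ ρ : ℝ) = k * (d + k) / (d + 1) := by
    have h1 : (inner ℝ ρ ρ : ℝ) = d * inner ℝ ρ τ - ∑ i, inner ℝ ρ (p i) := by
      conv_lhs => rw [hρ, inner_sub_right, inner_smul_right, inner_sum]
    rw [h1, hρτ]
    simp only [hρp, Finset.sum_const, Finset.card_univ, ← hNdef, nsmul_eq_mul]
    have : (N : ℝ) = (d : ℝ) ^ 2 - k := by rw [hkdef]; ring
    rw [this]
    field_simp
    ring
  -- independence
  let u : Option κ → EuclideanSpace ℝ (n × n) := fun o => o.elim τ p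
  have hu : LinearIndependent ℝ u := by
    rw [Fintype.linearIndependent_iff]
    intro g hg
    rw [Fintype.sum_option] at hg
    change g none • τ + ∑ i, g (some i) • p i = 0 at hg
    have hj : ∀ j, g none + D * g (some j) + (∑ i, g (some i)) / (d + 1) = 0 := by
      intro j
      have h1 := congrArg (fun v => (inner ℝ v (p j) : ℝ)) hg
      simp only [inner_add_left, inner_smul_left, sum_inner, inner_zero_left, conj_trivial] at h1
      rw [real_inner_comm, hpτ] at h1
      have h2 : ∀ i, g (some i) * (inner ℝ (p i) (p j) : ℝ) =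
          (if i = j then D * g (some i) else 0) + g (some i) / (d + 1) := by
        intro i
        by_cases h : i = j
        · rw [if_pos h, h, hpp, hD]; field_simp
        · rw [if_neg h, hpq i j h, zero_add]; ring
      simp only [h2, Finset.sum_add_distrib, Finset.sum_ite_eq', Finset.mem_univ, if_true,
        ← Finset.sum_div] at h1
      linarith
    have hτ0 : g none * d + ∑ i, g (some i) = 0 := by
      have h1 := congrArg (fun v => (inner ℝ v τ : ℝ)) hg
      simp only [inner_add_left, inner_smul_left, sum_inner, inner_zero_left, conj_trivial,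
        hpτ, hττ, mul_one] at h1
      exact h1
    -- sum over j
    have hsum : (N : ℝ) * g none + D * ∑ i, g (some i) + N * ((∑ i, g (some i)) / (d + 1)) = 0 := by
      have h1 : ∑ j, (g none + D * g (some j) + (∑ i, g (some i)) / (d + 1)) = 0 := by
        simp only [hj, Finset.sum_const_zero]
      simpa only [Finset.sum_add_distrib, Finset.sum_const, Finset.card_univ, ← hNdef,
        nsmul_eq_mul, ← Finset.mul_sum] using h1
    have hg0 : g none = 0 := by
      have h1 : ∑ i, g (some i) = - (g none * d) := by linarith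
      rw [h1] at hsum
      have h2 : g none * (N - (d : ℝ) ^ 2) = 0 := by
        have h3 : (N : ℝ) * g none + D * (-(g none * d)) + N * (-(g none * d) / (d + 1)) =
            g none * (N - (d : ℝ) ^ 2) / (d + 1) := by
          rw [hD]; field_simp; ring
        rw [h3] at hsum
        rcases div_eq_zero_iff.mp hsum with h4 | h4
        · exact h4
        · exfalso; linarith
      rcases mul_eq_zero.mp h2 with h3 | h3
      · exact h3
      · exfalso; linarith
    intro o
    cases o with
    | none => exact hg0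
    | some j =>
      have h1 : ∑ i, g (some i) = 0 := by rw [hg0] at hτ0; linarith
      have h2 := hj j
      rw [hg0, h1, zero_div] at h2
      have h3 : D * g (some j) = 0 := by linarith
      rcases mul_eq_zero.mp h3 with h4 | h4
      · exfalso; linarith
      · exact h4
  -- the subspaces
  set S : Submodule ℝ (EuclideanSpace ℝ (n × n)) := Submodule.span ℝ (Set.range u) with hS
  have hfS : Module.finrank ℝ S = N + 1 := by
    rw [hS, finrank_span_eq_card hu, Fintype.card_option]
  set w := Module.finrank ℝ Sᗮ with hw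
  have hfW : N + 1 + w = d ^ 2 := by
    have h1 := S.finrank_add_finrank_orthogonal
    rw [hfS, ← hw] at h1
    rw [h1, finrank_euclideanSpace, Fintype.card_prod, hd, sq]
  let b : OrthonormalBasis (Fin w) ℝ Sᗮ := stdOrthonormalBasis ℝ Sᗮ
  let E : Fin w → EuclideanSpace ℝ (n × n) := fun a => (b a : EuclideanSpace ℝ (n × n))
  have hEp : ∀ a i, (inner ℝ (E a) (p i) : ℝ) = 0 := by
    intro a i
    have h1 : p i ∈ S := Submodule.subset_span ⟨some i, rfl⟩
    exact Submodule.inner_left_of_mem_orthogonal h1 (b a).2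
  have hEτ : ∀ a, (inner ℝ (E a) τ : ℝ) = 0 := by
    intro a
    have h1 : τ ∈ S := Submodule.subset_span ⟨none, rfl⟩
    exact Submodule.inner_left_of_mem_orthogonal h1 (b a).2
  have hEρ : ∀ a, (inner ℝ (E a) ρ : ℝ) = 0 := by
    intro a
    rw [hρ, inner_sub_right, inner_smul_right, inner_sum, hEτ]
    simp [hEp]
  -- operator identity
  let T : EuclideanSpace ℝ (n × n) →ₗ[ℝ] EuclideanSpace ℝ (n × n) :=
    ∑ i, (innerₛₗ ℝ (p i)).smulRight (p i) + (1 / k) • (innerₛₗ ℝ ρ).smulRight ρ
      + D • ∑ a, (innerₛₗ ℝ (E a)).smulRight (E a)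
      - D • (LinearMap.id + (innerₛₗ ℝ τ).smulRight τ)
  have hTapp : ∀ v, T v = ∑ i, (inner ℝ (p i) v : ℝ) • p i + (1 / k) • ((inner ℝ ρ v : ℝ) • ρ)
      + D • ∑ a, (inner ℝ (E a) v : ℝ) • E a - D • (v + (inner ℝ τ v : ℝ) • τ) := by
    intro v
    simp [T]
  have hTp : ∀ j, T (p j) = 0 := by
    intro j
    rw [hTapp]
    have h1 : ∑ i, (inner ℝ (p i) (p j) : ℝ) • p i = D • p j + (1 / ((d : ℝ) + 1)) • ∑ i, p i := by
      have h2 : ∀ i, (inner ℝ (p i) (p j) : ℝ) • p i =
          (if i = j then D • p i else 0) + (1 / ((d : ℝ) + 1)) • p i := by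
        intro i
        by_cases h : i = j
        · rw [if_pos h, h, hpp, ← add_smul, hD]
          congr 1
          field_simp
        · rw [if_neg h, hpq i j h, zero_add]
      simp only [h2, Finset.sum_add_distrib, Finset.sum_ite_eq', Finset.mem_univ, if_true,
        ← Finset.smul_sum]
    have h3 : ∑ i, p i = (d : ℝ) • τ - ρ := by rw [hρ]; abel
    rw [h1, h3, hρp, real_inner_comm, hpτ]
    simp only [hEp, zero_smul, Finset.sum_const_zero, smul_zero, add_zero, one_smul, smul_smul,
      smul_add, smul_sub]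
    have e1 : 1 / k * (k / ((d : ℝ) + 1)) = 1 / (d + 1) := by field_simp
    have e2 : 1 / ((d : ℝ) + 1) * d = D := by rw [hD]; ring
    rw [e1, e2]
    abel
  have hTτ : T τ = 0 := by
    rw [hTapp]
    simp only [hpτ, hρτ, hττ, hEτ, zero_smul, Finset.sum_const_zero, smul_zero, add_zero, one_smul,
      smul_smul]
    have h3 : ∑ i, p i = (d : ℝ) • τ - ρ := by rw [hρ]; abel
    have e1 : 1 / k * k = 1 := by field_simp
    rw [h3, e1, one_smul, smul_add, smul_smul]
    have e2 : (d : ℝ) = D + D * d := by rw [← hDd]; ring_nf; rw [hD]; field_simp; ring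
    have e3 : (d : ℝ) • τ = D • τ + (D * d) • τ := by rw [← add_smul, ← e2]
    rw [e3]
    abel
  have hTS : ∀ v ∈ S, T v = 0 := by
    intro v hv
    rw [hS] at hv
    induction hv using Submodule.span_induction with
    | mem y hy =>
      obtain ⟨o, rfl⟩ := hy
      cases o with
      | none => exact hTτ
      | some j => exact hTp j
    | zero => exact map_zero T
    | add y z _ _ hy hz => rw [map_add, hy, hz, add_zero]
    | smul c y _ hy => rw [map_smul, hy, smul_zero]
  have hTW : ∀ v ∈ Sᗮ, T v = 0 := by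
    intro v hv
    rw [hTapp]
    have hp0 : ∀ i, (inner ℝ (p i) v : ℝ) = 0 := fun i =>
      Submodule.inner_right_of_mem_orthogonal (K := S) (Submodule.subset_span ⟨some i, rfl⟩) hv
    have hτ0 : (inner ℝ τ v : ℝ) = 0 :=
      Submodule.inner_right_of_mem_orthogonal (K := S) (Submodule.subset_span ⟨none, rfl⟩) hv
    have hρ0 : (inner ℝ ρ v : ℝ) = 0 := by
      rw [hρ, inner_sub_left, inner_smul_left, sum_inner, hτ0]
      simp [hp0]
    have hE : ∑ a, (inner ℝ (E a) v : ℝ) • E a = v := by
      have h1 := b.sum_repr' ⟨v, hv⟩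
      have h2 := congrArg (fun z : Sᗮ => (z : EuclideanSpace ℝ (n × n))) h1
      simpa using h2
    rw [hE]
    simp [hp0, hτ0, hρ0]
  have hT : ∀ v, T v = 0 := by
    intro v
    obtain ⟨y, hy, z, hz, rfl⟩ := S.exists_add_mem_mem_orthogonal v
    rw [map_add, hTS y hy, hTW z hz, add_zero]
  -- the family
  set sk := Real.sqrt k with hsk
  have hsk2 : sk * sk = k := Real.mul_self_sqrt hk0.le
  have hsk0 : sk ≠ 0 := (Real.sqrt_pos.mpr hk0).ne'
  set sD := Real.sqrt D with hsD
  have hsD2 : sD * sD = D := Real.mul_self_sqrt hD0.le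
  let m : Option (Fin w) → EuclideanSpace ℝ (n × n) :=
    fun o => o.elim (sk⁻¹ • ρ) (fun a => sD • E a)
  have hreal : ∀ a c : n × n, ∑ i, m i a * m i c +
      ∑ j, gvec (vecMulVec (x j) (star (x j))) a * gvec (vecMulVec (x j) (star (x j))) c =
      D * ((if a = c then 1 else 0) + (if a.1 = a.2 then 1 else 0) *
        (if c.1 = c.2 then 1 else 0)) := by
    intro a c
    have h1 := congrArg (fun v : EuclideanSpace ℝ (n × n) => v a) (hT (EuclideanSpace.single c 1))
    rw [hTapp] at h1
    simp only [PiLp.sub_apply, PiLp.add_apply, PiLp.smul_apply, PiLp.zero_apply, WithLp.ofLp_sum,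
      Finset.sum_apply, EuclideanSpace.inner_single_right, smul_eq_mul,
      PiLp.single_apply, conj_trivial, one_mul, WithLp.ofLp_smul, Pi.smul_apply] at h1
    have h2 : ∀ e : n × n, τ e = if e.1 = e.2 then 1 else 0 := by
      intro e
      change ((1 : Matrix n n ℂ) e.1 e.2).re + ((1 : Matrix n n ℂ) e.1 e.2).im = _
      rw [Matrix.one_apply]
      split_ifs <;> simp
    rw [h2, h2] at h1
    rw [Fintype.sum_option]
    change (sk⁻¹ * ρ a) * (sk⁻¹ * ρ c) + ∑ i, (sD * E i a) * (sD * E i c) +
      ∑ j, p j a * p j c = _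
    have h3 : (sk⁻¹ * ρ a) * (sk⁻¹ * ρ c) = 1 / k * (ρ c * ρ a) := by
      rw [← hsk2]; field_simp
    have h4 : ∑ i, (sD * E i a) * (sD * E i c) = D * ∑ i, E i c * E i a := by
      rw [Finset.mul_sum]
      refine Finset.sum_congr rfl fun i _ => ?_
      rw [← hsD2]; ring
    have h5 : ∑ j, p j a * p j c = ∑ j, p j c * p j a :=
      Finset.sum_congr rfl fun j _ => mul_comm _ _
    rw [h3, h4, h5]
    linarith
  have hKS := tensor_of_real m x D hreal
  set K : Option (Fin w) → Matrix n n ℂ := fun i => hmat (m i) with hK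
  have hKH : ∀ a, (K a).IsHermitian := fun a => hmat_isHermitian _
  have h1mat : hmat τ = 1 := hmat_gvec 1 Matrix.isHermitian_one
  have htrK : ∀ a, trace (K a) = ((inner ℝ τ (m a) : ℝ) : ℂ) := by
    intro a
    rw [← trace_hmat_mul, h1mat, Matrix.one_mul]
  have hτnone : (inner ℝ τ (m none) : ℝ) = sk := by
    change (inner ℝ τ (sk⁻¹ • ρ) : ℝ) = sk
    rw [inner_smul_right, real_inner_comm, hρτ, ← hsk2]
    field_simp
  have hτsome : ∀ a, (inner ℝ τ (m (some a)) : ℝ) = 0 := by
    intro a
    change (inner ℝ τ (sD • E a) : ℝ) = 0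
    rw [inner_smul_right, real_inner_comm, hEτ, mul_zero]
  have hKnone : K none = ((sk⁻¹ : ℝ) : ℂ) • hmat ρ := hmat_smul _ _
  have hR2 : ∑ a, K a * K a = hmat ρ := by
    have h1 := sym_sum K hKS 1
    simp only [Matrix.mul_one] at h1
    rw [h1, Fintype.sum_option, htrK, hτnone]
    have h2 : ∀ a, trace (K (some a)) • K (some a) = 0 := by
      intro a
      rw [htrK, hτsome]; simp
    simp only [h2, Finset.sum_const_zero, add_zero]
    rw [hKnone, smul_smul, ← Complex.ofReal_mul, mul_inv_cancel₀ hsk0, Complex.ofReal_one,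
      one_smul]
  have hRc : ∑ a, (((fun o : Option (Fin w) => o.elim sk (fun _ => 0)) a : ℝ) : ℂ) • K a =
      hmat ρ := by
    rw [Fintype.sum_option]
    simp only [Option.elim_none, Option.elim_some, Complex.ofReal_zero, zero_smul,
      Finset.sum_const_zero, add_zero]
    rw [hKnone, smul_smul, ← Complex.ofReal_mul, mul_inv_cancel₀ hsk0, Complex.ofReal_one,
      one_smul]
  have hPK : ∀ i a, trace (P i * K a) = trace (K a) / (d + 1) := by
    intro i a
    have h1 : P i = hmat (p i) := (hmat_gvec _ (proj_isHermitian _)).symm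
    rw [h1, trace_hmat_mul, htrK]
    cases a with
    | none =>
      rw [hτnone]
      have : (inner ℝ (p i) (m none) : ℝ) = sk / (d + 1) := by
        change (inner ℝ (p i) (sk⁻¹ • ρ) : ℝ) = _
        rw [inner_smul_right, real_inner_comm, hρp, ← hsk2]
        field_simp
      rw [this]
      push_cast
      ring
    | some a =>
      rw [hτsome]
      have : (inner ℝ (p i) (m (some a)) : ℝ) = 0 := by
        change (inner ℝ (p i) (sD • E a) : ℝ) = _
        rw [inner_smul_right, real_inner_comm, hEp, mul_zero]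
      rw [this]
      simp
  have htrR : (trace (hmat ρ)).re = k := by
    have : trace (hmat ρ) = ((inner ℝ τ ρ : ℝ) : ℂ) := by
      rw [← trace_hmat_mul, h1mat, Matrix.one_mul]
    rw [this, Complex.ofReal_re, real_inner_comm, hρτ]
  have htrR2 : (trace (hmat ρ * hmat ρ)).re = k * (d + k) / (d + 1) := by
    rw [trace_hmat_mul, Complex.ofReal_re, hρρ]
  have hRS : hmat ρ = (d : ℂ) • (1 : Matrix n n ℂ) - ∑ i, vecMulVec (x i) (star (x i)) := by
    have h1 : ρ = (d : ℝ) • τ + ∑ i, (-1 : ℝ) • p i := by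
      rw [hρ, ← Finset.smul_sum, neg_one_smul, sub_eq_add_neg]
    rw [h1, hmat_add, hmat_smul, hmat_sum', h1mat]
    have h2 : ∀ i, hmat (p i) = vecMulVec (x i) (star (x i)) := fun i =>
      hmat_gvec _ (proj_isHermitian _)
    simp only [h2]
    rw [← Finset.smul_sum]
    push_cast
    rw [neg_one_smul, ← sub_eq_add_neg]
  exact ⟨w, K, fun o => o.elim sk (fun _ => 0), hmat ρ, by omega, hRS, hKH, hKS, hRc, hR2, hPK,
    htrR, htrR2⟩

end Model

end Pool.Agent.Lib.MP_d0f9e0_co.Gap
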