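import Pool.Agent.Lib.MP_d0f9e0_co.Gap.SymCore

set_option autoImplicit false

open Matrix
open scoped ComplexOrder

namespace Pool.Agent.Lib.MP_d0f9e0_co.Gap

section Factor

open scoped MatrixOrder

theorem exists_factor {n : Type*} [Fintype n] [DecidableEq n] (R : Matrix n n ℂ)
    (hR : R.PosSemidef) : ∃ D : Matrix n n ℂ, R = Dᴴ * D := by
  obtain ⟨D, hD⟩ := CStarAlgebra.nonneg_iff_eq_star_mul_self.mp hR.nonneg
  exact ⟨D, hD⟩

end Factor

section Rank

variable {n ι : Type*} [Fintype n] [Fintype ι]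

/-- Gram bounds for a normalised symmetric Hermitian family. -/
theorem gram_bounds [DecidableEq n] (L : ι → Matrix n n ℂ) (hH : ∀ a, (L a).IsHermitian)
    (hS : Sym L) (hN : ∑ a, L a * L a = 1) :
    ∃ g : ι → ι → ℝ, (∀ a b, trace (L a * L b) = (g a b : ℂ)) ∧
      ∑ a, g a a = Fintype.card n ∧ ∑ a, ∑ b, (g a b) ^ 2 ≤ Fintype.card n := by
  have hreal : ∀ a b, (trace (L a * L b)) = ((trace (L a * L b)).re : ℂ) := by
    intro a b
    have : (starRingEnd ℂ) (trace (L a * L b)) = trace (L a * L b) := by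
      rw [starRingEnd_apply, ← Matrix.trace_conjTranspose, Matrix.conjTranspose_mul, (hH a).eq,
        (hH b).eq, Matrix.trace_mul_comm]
    exact (Complex.conj_eq_iff_re.mp this).symm
  set g : ι → ι → ℝ := fun a b => (trace (L a * L b)).re with hg
  have hg' : ∀ a b, trace (L a * L b) = (g a b : ℂ) := hreal
  have hdiag : ∑ a, g a a = Fintype.card n := by
    have : (∑ a, (g a a : ℂ)) = (Fintype.card n : ℂ) := by
      simp only [← hg']
      rw [← Matrix.trace_sum, hN, Matrix.trace_one]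
    exact_mod_cast this
  have h1 : ∑ a, ∑ b, trace (L a * L a * (L b * L b)) = (Fintype.card n : ℂ) := by
    simp only [← Matrix.trace_sum, ← Matrix.mul_sum, hN, Matrix.mul_one, Matrix.trace_one]
  have h2 : ∑ a, ∑ b, trace (L a * L b * L a * L b) = ∑ a, ∑ b, ((g a b) ^ 2 : ℂ) := by
    rw [Finset.sum_comm]
    have : ∀ b, ∑ a, trace (L a * L b * L a * L b) = ∑ a, ((g a b) ^ 2 : ℂ) := by
      intro b
      rw [← Matrix.trace_sum, ← Matrix.sum_mul, sym_sum L hS, Matrix.sum_mul, Matrix.trace_sum]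
      refine Finset.sum_congr rfl fun a _ => ?_
      rw [Matrix.smul_mul, Matrix.trace_smul, hg', smul_eq_mul, sq]
    simp only [this]
    rw [Finset.sum_comm]
  set Z : ι → ι → Matrix n n ℂ := fun a b => L a * L b - L b * L a with hZ
  have hZsum : ∑ a, ∑ b, trace ((Z a b)ᴴ * Z a b) =
      2 * (Fintype.card n : ℂ) - 2 * ∑ a, ∑ b, ((g a b) ^ 2 : ℂ) := by
    have e : ∀ a b, trace ((Z a b)ᴴ * Z a b) =
        trace (L b * L b * (L a * L a)) + trace (L a * L a * (L b * L b))
        - trace (L b * L a * L b * L a) - trace (L a * L b * L a * L b) := by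
      intro a b
      simp only [hZ, Matrix.conjTranspose_sub, Matrix.conjTranspose_mul, (hH a).eq, (hH b).eq]
      have x1 : (L b * L a - L a * L b) * (L a * L b - L b * L a) =
          L b * (L a * L a * L b) - L b * L a * L b * L a - L a * L b * L a * L b
          + L a * (L b * L b * L a) := by noncomm_ring
      rw [x1, Matrix.trace_add, Matrix.trace_sub, Matrix.trace_sub,
        Matrix.trace_mul_comm (L b) (L a * L a * L b), Matrix.trace_mul_comm (L a) (L b * L b * L a),
        Matrix.mul_assoc (L a * L a), Matrix.mul_assoc (L b * L b)]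
      ring
    simp only [e, Finset.sum_sub_distrib, Finset.sum_add_distrib]
    rw [h1, h2]
    have e3 : ∑ a, ∑ b, trace (L b * L b * (L a * L a)) = (Fintype.card n : ℂ) := by
      rw [Finset.sum_comm]; exact h1
    have e4 : ∑ a, ∑ b, trace (L b * L a * L b * L a) = ∑ a, ∑ b, ((g a b) ^ 2 : ℂ) := by
      rw [Finset.sum_comm]; exact h2
    rw [e3, e4]
    ring
  have hnonneg : ∀ a b, 0 ≤ (trace ((Z a b)ᴴ * Z a b)).re := by
    intro a b
    have := (Matrix.posSemidef_conjTranspose_mul_self (Z a b)).trace_nonneg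
    exact (Complex.le_def.mp this).1
  have hre : ∑ a, ∑ b, (trace ((Z a b)ᴴ * Z a b)).re =
      2 * (Fintype.card n : ℝ) - 2 * ∑ a, ∑ b, (g a b) ^ 2 := by
    have := congrArg Complex.re hZsum
    simp only [Complex.re_sum] at this
    rw [this]
    have e5 : (2 * (Fintype.card n : ℂ) - 2 * ∑ a, ∑ b, ((g a b) ^ 2 : ℂ)) =
      ((2 * (Fintype.card n : ℝ) - 2 * ∑ a, ∑ b, (g a b) ^ 2 : ℝ) : ℂ) := by
      push_cast
      ring
    rw [e5, Complex.ofReal_re]
  refine ⟨g, hg', hdiag, ?_⟩
  have h3 : 0 ≤ ∑ a, ∑ b, (trace ((Z a b)ᴴ * Z a b)).re :=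
    Finset.sum_nonneg fun a _ => Finset.sum_nonneg fun b _ => hnonneg a b
  rw [hre] at h3
  linarith

theorem card_add_rel_normalized [DecidableEq n] [DecidableEq ι] [Nonempty n] {J : Type*}
    [Fintype J] [DecidableEq J] (L : ι → Matrix n n ℂ) (hH : ∀ a, (L a).IsHermitian)
    (hS : Sym L) (hN : ∑ a, L a * L a = 1) (C : Matrix ι J ℂ) (hC : Cᴴ * C = 1)
    (hrel : ∀ j, ∑ a, C a j • L a = 0) :
    Fintype.card n + Fintype.card J ≤ Fintype.card ι := by
  obtain ⟨g, hg, hgd, hgs⟩ := gram_bounds L hH hS hN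
  obtain ⟨m, hm⟩ : ∃ m : ℝ, m = (Fintype.card n : ℝ) := ⟨_, rfl⟩
  rw [← hm] at hgd hgs
  have hm0 : 0 < m := by
    rw [hm]; exact_mod_cast Fintype.card_pos
  set Q : Matrix ι ι ℂ := 1 - C * Cᴴ with hQ
  -- the norm of Q
  have hQQ : Qᴴ * Q = Q := by
    have h1 : C * Cᴴ * (C * Cᴴ) = C * Cᴴ := by
      calc C * Cᴴ * (C * Cᴴ) = C * (Cᴴ * C) * Cᴴ := by simp only [Matrix.mul_assoc]
        _ = _ := by rw [hC, Matrix.mul_one]
    rw [hQ, Matrix.conjTranspose_sub, Matrix.conjTranspose_one, Matrix.conjTranspose_mul,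
      Matrix.conjTranspose_conjTranspose, Matrix.mul_sub, Matrix.sub_mul, Matrix.sub_mul, h1]
    simp
  have hQtr : (trace (Qᴴ * Q)).re = (Fintype.card ι : ℝ) - Fintype.card J := by
    rw [hQQ, hQ, Matrix.trace_sub, Matrix.trace_mul_comm, hC, Matrix.trace_one, Matrix.trace_one]
    simp
  have hQn : ∑ a, ∑ b, ‖Q a b‖ ^ 2 = (Fintype.card ι : ℝ) - Fintype.card J := by
    rw [← hQtr, normSq_sum_eq, Finset.sum_comm]
  -- pairing with the Gram matrix
  have hpair : ∑ a, ∑ b, (g a b : ℂ) * Q a b = (m : ℂ) := by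
    have h1 : ∀ j b, ∑ a, (g a b : ℂ) * C a j = 0 := by
      intro j b
      have h2 : trace ((∑ a, C a j • L a) * L b) = 0 := by
        rw [hrel j, Matrix.zero_mul, Matrix.trace_zero]
      rw [Matrix.sum_mul, Matrix.trace_sum] at h2
      rw [← h2]
      refine Finset.sum_congr rfl fun a _ => ?_
      rw [Matrix.smul_mul, Matrix.trace_smul, hg, smul_eq_mul, mul_comm]
    have h2 : ∀ a b, (g a b : ℂ) * Q a b = (if a = b then (g a b : ℂ) else 0) -
        ∑ j, (g a b : ℂ) * C a j * star (C b j) := by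
      intro a b
      rw [hQ, Matrix.sub_apply, Matrix.one_apply, Matrix.mul_apply, mul_sub, Finset.mul_sum]
      congr 1
      · split_ifs <;> simp
      · refine Finset.sum_congr rfl fun j _ => ?_
        rw [Matrix.conjTranspose_apply]; ring
    simp only [h2, Finset.sum_sub_distrib]
    have h3 : ∑ a, ∑ b, (if a = b then (g a b : ℂ) else 0) = (m : ℂ) := by
      simp only [Finset.sum_ite_eq, Finset.mem_univ, if_true]
      rw [← Complex.ofReal_sum, hgd]
    have h4 : ∑ a, ∑ b, ∑ j, (g a b : ℂ) * C a j * star (C b j) = 0 := by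
      rw [Finset.sum_comm]
      refine Finset.sum_eq_zero fun b _ => ?_
      rw [Finset.sum_comm]
      refine Finset.sum_eq_zero fun j _ => ?_
      rw [← Finset.sum_mul, h1, zero_mul]
    rw [h3, h4, sub_zero]
  -- Cauchy-Schwarz
  have hCS : m ^ 2 ≤ m * ((Fintype.card ι : ℝ) - Fintype.card J) := by
    have h1 : m ≤ ∑ p : ι × ι, |g p.1 p.2| * ‖Q p.1 p.2‖ := by
      have h2 : m = ‖∑ p : ι × ι, (g p.1 p.2 : ℂ) * Q p.1 p.2‖ := by
        rw [Fintype.sum_prod_type, hpair, Complex.norm_real, Real.norm_eq_abs, abs_of_pos hm0]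
      rw [h2]
      refine (norm_sum_le _ _).trans (le_of_eq ?_)
      refine Finset.sum_congr rfl fun p _ => ?_
      rw [norm_mul, Complex.norm_real, Real.norm_eq_abs]
    have h3 := Finset.sum_mul_sq_le_sq_mul_sq (Finset.univ : Finset (ι × ι))
      (fun p => |g p.1 p.2|) (fun p => ‖Q p.1 p.2‖)
    have h4 : ∑ p : ι × ι, |g p.1 p.2| ^ 2 ≤ m := by
      rw [Fintype.sum_prod_type]
      simpa only [sq_abs] using hgs
    have h5 : ∑ p : ι × ι, ‖Q p.1 p.2‖ ^ 2 = (Fintype.card ι : ℝ) - Fintype.card J := by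
      rw [Fintype.sum_prod_type]; exact hQn
    rw [h5] at h3
    have h6 : 0 ≤ (Fintype.card ι : ℝ) - Fintype.card J := by
      rw [← hQn]; positivity
    calc m ^ 2 ≤ (∑ p : ι × ι, |g p.1 p.2| * ‖Q p.1 p.2‖) ^ 2 := by
          apply pow_le_pow_left₀ hm0.le h1
      _ ≤ _ := h3
      _ ≤ _ := mul_le_mul_of_nonneg_right h4 h6
  have h7 : m ≤ (Fintype.card ι : ℝ) - Fintype.card J := by
    rw [sq] at hCS
    exact le_of_mul_le_mul_left hCS hm0
  have h8 : ((Fintype.card n + Fintype.card J : ℕ) : ℝ) ≤ (Fintype.card ι : ℝ) := by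
    push_cast
    linarith
  exact_mod_cast h8

/-- Dimension bound: a symmetric Hermitian family without common kernel has at least
`dimension + number of independent linear relations` members. -/
theorem card_add_rel [DecidableEq n] [DecidableEq ι] {J : Type*}
    [Fintype J] [DecidableEq J] (K : ι → Matrix n n ℂ) (hH : ∀ a, (K a).IsHermitian)
    (hS : Sym K) (hker : ∀ x : n → ℂ, (∀ a, K a *ᵥ x = 0) → x = 0)
    (C : Matrix ι J ℂ) (hC : Cᴴ * C = 1) (hrel : ∀ j, ∑ a, C a j • K a = 0) :
    Fintype.card n + Fintype.card J ≤ Fintype.card ι := by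
  rcases isEmpty_or_nonempty n with hn | hn
  · rw [Fintype.card_eq_zero, zero_add]
    have h1 : (Cᴴ * C).rank ≤ Fintype.card ι := by
      refine (Matrix.rank_mul_le_left _ _).trans ?_
      exact Matrix.rank_le_card_width _
    rw [hC, Matrix.rank_one] at h1
    exact h1
  · set R : Matrix n n ℂ := ∑ a, K a * K a with hR
    have hRK : R = ∑ a, (trace (K a)) • K a := by
      have := sym_sum K hS 1
      simpa only [Matrix.mul_one, ← hR] using this
    have hRps : R.PosSemidef := by
      rw [hR]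
      apply Matrix.posSemidef_sum
      intro a _
      have h1 := Matrix.posSemidef_conjTranspose_mul_self (K a)
      rwa [(hH a).eq] at h1
    obtain ⟨D, hD⟩ := exists_factor R hRps
    have hRx : ∀ x : n → ℂ, R *ᵥ x = 0 → x = 0 := by
      intro x hx
      apply hker
      intro a
      have h1 : star x ⬝ᵥ (R *ᵥ x) = 0 := by rw [hx, dotProduct_zero]
      rw [hR, Matrix.sum_mulVec, dotProduct_sum] at h1
      have h2 : ∀ b, star x ⬝ᵥ ((K b * K b) *ᵥ x) = star (K b *ᵥ x) ⬝ᵥ (K b *ᵥ x) := by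
        intro b
        rw [← Matrix.mulVec_mulVec, Matrix.star_mulVec, (hH b).eq, Matrix.dotProduct_mulVec]
      simp only [h2] at h1
      rw [Finset.sum_eq_zero_iff_of_nonneg (fun b _ => dotProduct_star_self_nonneg _)] at h1
      exact dotProduct_star_self_eq_zero.mp (h1 a (Finset.mem_univ a))
    have hDdet : D.det ≠ 0 := by
      intro h0
      obtain ⟨x, hx0, hx⟩ := Matrix.exists_mulVec_eq_zero_iff.mpr h0
      apply hx0
      apply hRx
      rw [hD, ← Matrix.mulVec_mulVec, hx, Matrix.mulVec_zero]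
    have hDu : IsUnit D.det := isUnit_iff_ne_zero.mpr hDdet
    set A : Matrix n n ℂ := D⁻¹ with hA
    have hAR : Aᴴ * R * A = 1 := by
      have h1 : D * A = 1 := Matrix.mul_nonsing_inv _ hDu
      have h2 : Aᴴ * Dᴴ = 1 := by
        rw [← Matrix.conjTranspose_mul, h1, Matrix.conjTranspose_one]
      calc Aᴴ * R * A = (Aᴴ * Dᴴ) * (D * A) := by rw [hD]; simp only [Matrix.mul_assoc]
        _ = 1 := by rw [h1, h2, Matrix.one_mul]
    have htr : ∀ a, trace (K a) = ((trace (K a)).re : ℂ) := by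
      intro a
      have : (starRingEnd ℂ) (trace (K a)) = trace (K a) := by
        rw [starRingEnd_apply, ← Matrix.trace_conjTranspose, (hH a).eq]
      exact (Complex.conj_eq_iff_re.mp this).symm
    set t : ι → ℝ := fun a => (trace (K a)).re with ht
    obtain ⟨B, hB, hBs⟩ := scaling_one (fun a => Aᴴ * K a * A) (fun a => by
        rw [Matrix.IsHermitian, Matrix.conjTranspose_mul, Matrix.conjTranspose_mul,
          (hH a).eq, Matrix.conjTranspose_conjTranspose, Matrix.mul_assoc])
      (sym_congr K hS _ _) t (by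
        have h1 : ∑ a, (t a : ℂ) • (Aᴴ * K a * A) = Aᴴ * (∑ a, (trace (K a)) • K a) * A := by
          rw [Matrix.mul_sum, Matrix.sum_mul]
          refine Finset.sum_congr rfl fun a _ => ?_
          rw [Matrix.mul_smul, Matrix.smul_mul, ht, ← htr]
        rw [h1, ← hRK, hAR])
    set m := Fintype.card n with hm
    have hm0 : 0 < m := Fintype.card_pos
    have hmR : (0 : ℝ) < m := by exact_mod_cast hm0
    set σ := Real.sqrt m with hσ
    have hσ2 : σ * σ = m := Real.mul_self_sqrt hmR.le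
    obtain ⟨E, hE⟩ : ∃ E, E = A * B := ⟨_, rfl⟩
    set L : ι → Matrix n n ℂ := fun a => (σ : ℂ) • (Eᴴ * K a * E) with hL
    have hLH : ∀ a, (L a).IsHermitian := by
      intro a
      simp only [hL]
      rw [Matrix.IsHermitian, Matrix.conjTranspose_smul, Matrix.conjTranspose_mul,
        Matrix.conjTranspose_mul, (hH a).eq, Matrix.conjTranspose_conjTranspose, Matrix.mul_assoc,
        Complex.star_def, Complex.conj_ofReal]
    have hLS : Sym L := by
      have := sym_congr K hS ((σ : ℂ) • Eᴴ) E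
      simpa only [Matrix.smul_mul] using this
    have hLN : ∑ a, L a * L a = 1 := by
      have h1 : ∀ a, L a * L a = ((m : ℝ) : ℂ) •
          ((Bᴴ * (Aᴴ * K a * A) * B) * (Bᴴ * (Aᴴ * K a * A) * B)) := by
        intro a
        have : Eᴴ * K a * E = Bᴴ * (Aᴴ * K a * A) * B := by
          rw [hE, Matrix.conjTranspose_mul]
          simp only [Matrix.mul_assoc]
        simp only [hL]
        rw [this, Matrix.smul_mul, Matrix.mul_smul, smul_smul, ← Complex.ofReal_mul, hσ2]
      simp only [h1]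
      rw [← Finset.smul_sum, hBs, smul_smul, ← Complex.ofReal_mul, mul_one_div_cancel hmR.ne',
        Complex.ofReal_one, one_smul]
    refine card_add_rel_normalized L hLH hLS hLN C hC fun j => ?_
    have h1 : ∑ a, C a j • L a = (σ : ℂ) • (Eᴴ * (∑ a, C a j • K a) * E) := by
      rw [Matrix.mul_sum, Matrix.sum_mul, Finset.smul_sum]
      refine Finset.sum_congr rfl fun a _ => ?_
      simp only [hL]
      rw [Matrix.mul_smul, Matrix.smul_mul, smul_comm]
    rw [h1, hrel j, Matrix.mul_zero, Matrix.zero_mul, smul_zero]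

/-- Same with a subspace of relations. -/
theorem card_add_finrank_rel [DecidableEq n] [DecidableEq ι] (K : ι → Matrix n n ℂ)
    (hH : ∀ a, (K a).IsHermitian)
    (hS : Sym K) (hker : ∀ x : n → ℂ, (∀ a, K a *ᵥ x = 0) → x = 0)
    (W : Submodule ℂ (EuclideanSpace ℂ ι)) (hrel : ∀ c ∈ W, ∑ a, c a • K a = 0) :
    Fintype.card n + Module.finrank ℂ W ≤ Fintype.card ι := by
  classical
  let b := stdOrthonormalBasis ℂ W
  let C : Matrix ι (Fin (Module.finrank ℂ W)) ℂ :=
    Matrix.of fun a j => (b j : EuclideanSpace ℂ ι) a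
  have hC : Cᴴ * C = 1 := by
    ext i j
    have h1 := orthonormal_iff_ite.mp b.orthonormal i j
    rw [Matrix.mul_apply, Matrix.one_apply, ← h1, Submodule.coe_inner,
      EuclideanSpace.inner_eq_star_dotProduct, dotProduct_comm, dotProduct]
    rfl
  have := card_add_rel K hH hS hker C hC (fun j => hrel _ (b j).2)
  rwa [Fintype.card_fin] at this

end Rank

end Pool.Agent.Lib.MP_d0f9e0_co.Gap
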