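import Pool.Agent.Lib.MP_d0f9e0_co.Gap.RankCrit
import Pool.Agent.Lib.MP_d0f9e0_co.Gap.SymRank

/-!
# The rank criterion: the rank bound, one more vector, and the completion
-/

set_option autoImplicit false

open Matrix
open scoped ComplexOrder

namespace Pool.Agent.Lib.MP_d0f9e0_co.Gap

section RankLe

variable {n ι : Type*} [Fintype n] [Fintype ι]

/-- A symmetric Hermitian family has at least as many members as the rank of the sum of its
squares. -/
theorem rank_le_card [DecidableEq n] [DecidableEq ι] (K : ι → Matrix n n ℂ)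
    (hH : ∀ a, (K a).IsHermitian) (hS : Sym K) (R : Matrix n n ℂ)
    (hR2 : ∑ a, K a * K a = R) : R.rank ≤ Fintype.card ι := by
  classical
  have hRH : R.IsHermitian := by
    rw [← hR2]
    unfold Matrix.IsHermitian
    rw [Matrix.conjTranspose_sum]
    refine Finset.sum_congr rfl fun a _ => ?_
    rw [Matrix.conjTranspose_mul, (hH a).eq]
  obtain ⟨U, hU⟩ : ∃ U : Matrix n n ℂ, U = (hRH.eigenvectorUnitary : Matrix n n ℂ) := ⟨_, rfl⟩
  set ev := hRH.eigenvalues with hev
  have hUU' : U * Uᴴ = 1 := by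
    rw [hU, ← Matrix.star_eq_conjTranspose]
    exact Unitary.coe_mul_star_self _
  have hRU : Uᴴ * R * U = diagonal (fun i => (ev i : ℂ)) := by
    have := hRH.conjStarAlgAut_star_eigenvectorUnitary
    rw [Unitary.conjStarAlgAut_star_apply] at this
    rw [hU, ← Matrix.star_eq_conjTranspose]
    exact this
  set K' : ι → Matrix n n ℂ := fun a => Uᴴ * K a * U with hK'
  have hK'S : Sym K' := sym_congr K hS _ _
  have hK'H : ∀ a, (K' a).IsHermitian := by
    intro a
    simp only [hK']
    rw [Matrix.IsHermitian, Matrix.conjTranspose_mul, Matrix.conjTranspose_mul,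
      (hH a).eq, Matrix.conjTranspose_conjTranspose, Matrix.mul_assoc]
  have hK'R : ∑ a, K' a * K' a = diagonal (fun i => (ev i : ℂ)) := by
    rw [← hRU, ← hR2, Matrix.mul_sum, Matrix.sum_mul]
    refine Finset.sum_congr rfl fun a _ => ?_
    simp only [hK']
    calc Uᴴ * K a * U * (Uᴴ * K a * U) = Uᴴ * K a * (U * Uᴴ) * K a * U := by
          simp only [Matrix.mul_assoc]
      _ = Uᴴ * (K a * K a) * U := by
          rw [hUU', Matrix.mul_one]; simp only [Matrix.mul_assoc]
  have hdiag : ∀ i, ∑ a, ∑ j, ‖K' a i j‖ ^ 2 = ev i := by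
    intro i
    have h1 := congrFun (congrFun hK'R i) i
    rw [Matrix.diagonal_apply_eq, Matrix.sum_apply] at h1
    have h2 : ∀ a, (K' a * K' a) i i = ((∑ j, ‖K' a i j‖ ^ 2 : ℝ) : ℂ) := by
      intro a
      rw [Matrix.mul_apply]
      push_cast
      refine Finset.sum_congr rfl fun j _ => ?_
      have h3 : K' a j i = star (K' a i j) := by
        have := congrFun (congrFun (hK'H a).eq j) i
        rw [Matrix.conjTranspose_apply] at this
        exact this.symm
      rw [h3, Complex.star_def, Complex.mul_conj, Complex.normSq_eq_norm_sq]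
      push_cast; rfl
    simp only [h2] at h1
    exact_mod_cast h1
  have hzero : ∀ i, ev i = 0 → ∀ a j, K' a i j = 0 := by
    intro i hi a j
    have h1 := hdiag i
    rw [hi, Finset.sum_eq_zero_iff_of_nonneg
      (fun a _ => Finset.sum_nonneg fun j _ => sq_nonneg _)] at h1
    have h2 := h1 a (Finset.mem_univ a)
    rw [Finset.sum_eq_zero_iff_of_nonneg (fun j _ => sq_nonneg _)] at h2
    have h3 := h2 j (Finset.mem_univ j)
    simpa using h3
  rw [hRH.rank_eq_card_non_zero_eigs]
  change Fintype.card {i : n // ev i ≠ 0} ≤ Fintype.card ι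
  -- restricted family
  set K'' : ι → Matrix {i : n // ev i ≠ 0} {i : n // ev i ≠ 0} ℂ :=
    fun a => (K' a).submatrix Subtype.val Subtype.val with hK''
  have hK''H : ∀ a, (K'' a).IsHermitian := fun a => (hK'H a).submatrix _
  have hK''S : Sym K'' := fun p q r s => hK'S p.1 q.1 r.1 s.1
  have hK''R : ∑ a, K'' a * K'' a =
      diagonal (fun i : {i : n // ev i ≠ 0} => (ev i : ℂ)) := by
    ext i j
    have h1 := congrFun (congrFun hK'R i.1) j.1
    rw [Matrix.sum_apply] at h1 ⊢
    have h2 : ∀ a, (K'' a * K'' a) i j = (K' a * K' a) i.1 j.1 := by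
      intro a
      rw [Matrix.mul_apply, Matrix.mul_apply]
      have h3 : ∑ l : n, K' a i.1 l * K' a l j.1 =
          ∑ l ∈ Finset.univ.filter (fun l => ev l ≠ 0), K' a i.1 l * K' a l j.1 := by
        symm
        apply Finset.sum_subset (Finset.subset_univ _)
        intro l _ hl
        have : ev l = 0 := by
          by_contra hcon
          exact hl (Finset.mem_filter.mpr ⟨Finset.mem_univ _, hcon⟩)
        rw [hzero l this, mul_zero]
      rw [h3]
      symm
      apply Finset.sum_subtype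
      intro l
      simp
    simp only [h2]
    rw [h1]
    by_cases hij : i = j
    · rw [hij, Matrix.diagonal_apply_eq, Matrix.diagonal_apply_eq]
    · rw [Matrix.diagonal_apply_ne _ hij, Matrix.diagonal_apply_ne]
      exact fun h => hij (Subtype.ext h)
  have hker : ∀ y : {i : n // ev i ≠ 0} → ℂ, (∀ a, K'' a *ᵥ y = 0) → y = 0 := by
    intro y hy
    have h1 : (∑ a, K'' a * K'' a) *ᵥ y = 0 := by
      rw [Matrix.sum_mulVec]
      refine Finset.sum_eq_zero fun a _ => ?_
      rw [← Matrix.mulVec_mulVec, hy a, Matrix.mulVec_zero]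
    rw [hK''R] at h1
    funext i
    have h2 := congrFun h1 i
    rw [Matrix.mulVec_diagonal, Pi.zero_apply] at h2
    rcases mul_eq_zero.mp h2 with h3 | h3
    · exact absurd (by exact_mod_cast h3) i.2
    · exact h3
  have := card_add_finrank_rel K'' hK''H hK''S hker ⊥ (by
    intro c hc
    rw [Submodule.mem_bot] at hc
    subst hc
    simp)
  omega

end RankLe

section Model

variable {n : Type*} [Fintype n] [DecidableEq n]

/-- The rank bound for a family at the extremal angle. -/
theorem rank_le_of_lt {κ : Type*} [Fintype κ] (x : κ → n → ℂ) (d : ℕ) (hd : Fintype.card n = d)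
    (hx : ∀ i, star (x i) ⬝ᵥ x i = 1)
    (hxy : ∀ i j, i ≠ j → ‖star (x i) ⬝ᵥ x j‖ ^ 2 = 1 / ((d : ℝ) + 1))
    (hN : Fintype.card κ < d ^ 2) :
    Fintype.card κ + ((d : ℂ) • (1 : Matrix n n ℂ) - ∑ i, vecMulVec (x i) (star (x i))).rank
      ≤ d ^ 2 := by
  obtain ⟨w, K, c, R, hw, hR, hKH, hKS, hRc, hR2, -, -, -⟩ := fam_data x d hd hx hxy hN
  rw [← hR]
  have h1 := rank_le_card K hKH hKS R hR2
  rw [Fintype.card_option, Fintype.card_fin] at h1
  omega

/-- One more vector, from the rank. -/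
theorem extend_one_rank {κ : Type*} [Fintype κ] (x : κ → n → ℂ) (d : ℕ)
    (hd : Fintype.card n = d)
    (hx : ∀ i, star (x i) ⬝ᵥ x i = 1)
    (hxy : ∀ i j, i ≠ j → ‖star (x i) ⬝ᵥ x j‖ ^ 2 = 1 / ((d : ℝ) + 1))
    (hN : Fintype.card κ < d ^ 2)
    (hk : d ^ 2 ≤ Fintype.card κ +
      ((d : ℂ) • (1 : Matrix n n ℂ) - ∑ i, vecMulVec (x i) (star (x i))).rank) :
    ∃ q : n → ℂ, q ≠ 0 ∧ ∀ i, ‖star (x i) ⬝ᵥ q‖ ^ 2 = (star q ⬝ᵥ q).re / ((d : ℝ) + 1) := by
  obtain ⟨w, K, c, R, hw, hR, hKH, hKS, hRc, hR2, hPK, -, -⟩ := fam_data x d hd hx hxy hN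
  rw [← hR] at hk
  obtain ⟨t, q, hq0, htq⟩ := core_rank K hKH hKS c R hRc hR2
    (by rw [Fintype.card_option]; omega) (by
      rw [Fintype.card_option, Fintype.card_fin]; omega)
  refine ⟨q, hq0, fun i => ?_⟩
  have hPq : trace (vecMulVec (x i) (star (x i)) * vecMulVec q (star q)) =
      ((‖star (x i) ⬝ᵥ q‖ ^ 2 : ℝ) : ℂ) := trace_proj_mul _ _
  have h1 : trace (vecMulVec (x i) (star (x i)) * vecMulVec q (star q)) =
      trace (vecMulVec q (star q)) / (d + 1) := by
    rw [← htq, Matrix.mul_sum, Matrix.trace_sum, Matrix.trace_sum, Finset.sum_div]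
    refine Finset.sum_congr rfl fun a _ => ?_
    rw [Matrix.mul_smul, Matrix.trace_smul, Matrix.trace_smul, hPK, smul_eq_mul, smul_eq_mul]
    ring
  rw [hPq, Matrix.trace_vecMulVec, dotProduct_comm q (star q)] at h1
  have h2 := congrArg Complex.re h1
  rw [Complex.ofReal_re] at h2
  rw [h2]
  have h3 : (star q ⬝ᵥ q / ((d : ℂ) + 1)) = (star q ⬝ᵥ q) / (((d : ℝ) + 1 : ℝ) : ℂ) := by
    push_cast; rfl
  rw [h3, Complex.div_ofReal_re]

/-- The frame operator of a maximal family. -/
theorem tight_of_max {κ : Type*} [Fintype κ] (x : κ → n → ℂ) (d : ℕ) (hd : Fintype.card n = d)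
    (hdpos : 0 < d)
    (hx : ∀ i, star (x i) ⬝ᵥ x i = 1)
    (hxy : ∀ i j, i ≠ j → ‖star (x i) ⬝ᵥ x j‖ ^ 2 = 1 / ((d : ℝ) + 1))
    (hN : Fintype.card κ = d ^ 2) :
    ∑ i, vecMulVec (x i) (star (x i)) = (d : ℂ) • (1 : Matrix n n ℂ) := by
  classical
  have hdR : (0 : ℝ) < d := by exact_mod_cast hdpos
  set D : ℝ := d / (d + 1) with hD
  set P : κ → Matrix n n ℂ := fun i => vecMulVec (x i) (star (x i)) with hP
  set p : κ → EuclideanSpace ℝ (n × n) := fun i => gvec (P i) with hp
  set τ : EuclideanSpace ℝ (n × n) := gvec 1 with hτ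
  have hpp : ∀ i, (inner ℝ (p i) (p i) : ℝ) = 1 := by
    intro i
    have h1 := inner_gvec (P i) (P i) (proj_isHermitian _) (proj_isHermitian _)
    rw [trace_proj_mul, hx] at h1
    simp only [hp]
    have h2 := Complex.ofReal_injective h1
    rw [h2]; simp
  have hpq : ∀ i j, i ≠ j → (inner ℝ (p i) (p j) : ℝ) = 1 / (d + 1) := by
    intro i j hij
    have h1 := inner_gvec (P i) (P j) (proj_isHermitian _) (proj_isHermitian _)
    rw [trace_proj_mul, hxy i j hij] at h1
    exact Complex.ofReal_injective h1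
  have hpτ : ∀ i, (inner ℝ (p i) τ : ℝ) = 1 := by
    intro i
    have h1 := inner_gvec (P i) 1 (proj_isHermitian _) Matrix.isHermitian_one
    rw [Matrix.mul_one, Matrix.trace_vecMulVec, dotProduct_comm, hx] at h1
    exact_mod_cast h1
  have hττ : (inner ℝ τ τ : ℝ) = d := by
    have h1 := inner_gvec (1 : Matrix n n ℂ) 1 Matrix.isHermitian_one Matrix.isHermitian_one
    rw [Matrix.mul_one, Matrix.trace_one, hd] at h1
    exact_mod_cast h1
  have hNR : (Fintype.card κ : ℝ) = (d : ℝ) ^ 2 := by rw [hN]; push_cast; rfl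
  have hsump : ∀ j, ∑ i, (inner ℝ (p i) (p j) : ℝ) = d := by
    intro j
    have h1 : ∀ i, (inner ℝ (p i) (p j) : ℝ) = (if i = j then D else 0) + 1 / (d + 1) := by
      intro i
      by_cases h : i = j
      · rw [if_pos h, h, hpp, hD]; field_simp
      · rw [if_neg h, hpq i j h, zero_add]
    simp only [h1, Finset.sum_add_distrib, Finset.sum_ite_eq', Finset.mem_univ, if_true,
      Finset.sum_const, Finset.card_univ, hNR, nsmul_eq_mul]
    rw [hD]; field_simp; ring
  have hsumτ : ∑ i, p i = (d : ℝ) • τ := by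
    have h1 : (inner ℝ (∑ i, p i - (d : ℝ) • τ) (∑ i, p i - (d : ℝ) • τ) : ℝ) = 0 := by
      rw [inner_sub_left, inner_sub_right, inner_sub_right, inner_smul_left, inner_smul_right,
        inner_smul_right, inner_smul_left, sum_inner, inner_sum]
      have e1 : ∀ i, (inner ℝ (p i) (∑ j, p j) : ℝ) = d := by
        intro i
        rw [inner_sum]
        have : ∀ j, (inner ℝ (p i) (p j) : ℝ) = inner ℝ (p j) (p i) := fun j =>
          real_inner_comm _ _
        simp only [this, hsump]
      have e2 : ∀ i, (inner ℝ τ (p i) : ℝ) = 1 := fun i => by rw [real_inner_comm, hpτ]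
      simp only [e1, e2, sum_inner, hpτ, hττ, Finset.sum_const, Finset.card_univ, nsmul_eq_mul,
        conj_trivial, hNR]
      ring
    exact sub_eq_zero.mp (inner_self_eq_zero.mp h1)
  have h1mat : hmat τ = 1 := hmat_gvec 1 Matrix.isHermitian_one
  have h2 := congrArg hmat hsumτ
  rw [hmat_smul, h1mat] at h2
  have h3 : ∑ i, p i = ∑ i, (1 : ℝ) • p i := by simp
  have hlin : ∀ (s : Finset κ), hmat (∑ j ∈ s, (1 : ℝ) • p j) = ∑ j ∈ s, hmat (p j) := by
    intro s
    induction s using Finset.induction_on with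
    | empty =>
      simp only [Finset.sum_empty]
      ext i j
      simp [hmat]
    | insert a s ha ih =>
      rw [Finset.sum_insert ha, Finset.sum_insert ha, hmat_add, one_smul, ih]
  rw [h3, hlin] at h2
  have h4 : ((d : ℝ) : ℂ) = (d : ℂ) := by push_cast; rfl
  rw [h4] at h2
  rw [← h2]
  refine Finset.sum_congr rfl fun i _ => ?_
  exact (hmat_gvec _ (proj_isHermitian _)).symm

/-- The rank bound for every family at the extremal angle. -/
theorem rank_le {κ : Type*} [Fintype κ] (x : κ → n → ℂ) (d : ℕ) (hd : Fintype.card n = d)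
    (hdpos : 0 < d)
    (hx : ∀ i, star (x i) ⬝ᵥ x i = 1)
    (hxy : ∀ i j, i ≠ j → ‖star (x i) ⬝ᵥ x j‖ ^ 2 = 1 / ((d : ℝ) + 1)) :
    Fintype.card κ + ((d : ℂ) • (1 : Matrix n n ℂ) - ∑ i, vecMulVec (x i) (star (x i))).rank
      ≤ d ^ 2 := by
  have h := card_le_sq x d hd hdpos hx hxy
  rcases Nat.lt_or_ge (Fintype.card κ) (d ^ 2) with hlt | hge
  · exact rank_le_of_lt x d hd hx hxy hlt
  · have hN : Fintype.card κ = d ^ 2 := le_antisymm h hge
    rw [tight_of_max x d hd hdpos hx hxy hN, sub_self, Matrix.rank_zero, hN, add_zero]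

end Model

end Pool.Agent.Lib.MP_d0f9e0_co.Gap
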