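import Pool.Agent.Lib.MP_d0f9e0_co.Gap.RankCritB

/-!
# The rank criterion: completion and uniqueness
-/

set_option autoImplicit false

open Matrix
open scoped ComplexOrder

namespace Pool.Agent.Lib.MP_d0f9e0_co.Gap

section General

variable {n : Type*} [Fintype n]

theorem rank_add_le' (A B : Matrix n n ℂ) : (A + B).rank ≤ A.rank + B.rank := by
  have h : LinearMap.range (A + B).mulVecLin ≤
      LinearMap.range A.mulVecLin ⊔ LinearMap.range B.mulVecLin := by
    rintro _ ⟨x, rfl⟩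
    rw [Matrix.mulVecLin_apply, Matrix.add_mulVec]
    exact Submodule.add_mem_sup ⟨x, rfl⟩ ⟨x, rfl⟩
  exact (Submodule.finrank_mono h).trans (Submodule.finrank_add_le_finrank_add_finrank _ _)

/-- The rank of a sum of rank-one projections. -/
theorem rank_sum_proj {J : Type*} [Fintype J] (x : J → n → ℂ) :
    (∑ j, vecMulVec (x j) (star (x j))).rank =
      Module.finrank ℂ (Submodule.span ℂ (Set.range x)) := by
  set W : Matrix n J ℂ := Matrix.of fun i j => x j i with hW
  have h1 : ∑ j, vecMulVec (x j) (star (x j)) = W * Wᴴ := by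
    ext a b
    rw [Matrix.sum_apply, Matrix.mul_apply]
    refine Finset.sum_congr rfl fun j _ => ?_
    rw [Matrix.vecMulVec_apply, Matrix.conjTranspose_apply, Pi.star_apply, hW, Matrix.of_apply,
      Matrix.of_apply]
  rw [h1, Matrix.rank_self_mul_conjTranspose, Matrix.rank_eq_finrank_span_cols]
  rfl

theorem card_le_rank_iff {J : Type*} [Fintype J] (x : J → n → ℂ) :
    Fintype.card J ≤ (∑ j, vecMulVec (x j) (star (x j))).rank ↔ LinearIndependent ℂ x := by
  rw [rank_sum_proj, linearIndependent_iff_card_le_finrank_span]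
  rfl

theorem rank_sum_proj_le {J : Type*} [Fintype J] (x : J → n → ℂ) :
    (∑ j, vecMulVec (x j) (star (x j))).rank ≤ Fintype.card J := by
  rw [rank_sum_proj]
  exact finrank_range_le_card x

end General

section Unique

variable {n : Type*} [Fintype n] [DecidableEq n]

/-- Uniqueness of the completing lines when these are linearly independent. -/
theorem unique_line_indep {κ : Type*} [Fintype κ] [DecidableEq κ] (x : κ → n → ℂ) (d : ℕ)
    (hd : Fintype.card n = d) (hdpos : 0 < d)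
    (hx : ∀ i, star (x i) ⬝ᵥ x i = 1)
    (hxy : ∀ i j, i ≠ j → ‖star (x i) ⬝ᵥ x j‖ ^ 2 = 1 / ((d : ℝ) + 1))
    (hN : Fintype.card κ = d ^ 2) (J : Finset κ)
    (hJ : LinearIndependent ℂ (fun j : J => x j))
    (u : n → ℂ) (hu : star u ⬝ᵥ u = 1)
    (huJ : ∀ j, j ∉ J → ‖star (x j) ⬝ᵥ u‖ ^ 2 = 1 / ((d : ℝ) + 1)) :
    ∃ j ∈ J, ∃ c : ℂ, u = c • x j := by
  have hdR : (0 : ℝ) < d := by exact_mod_cast hdpos
  have hexp := expand x d hd hdpos hx hxy hN u hu
  set c : κ → ℝ := fun j => (((d + 1) * ‖star (x j) ⬝ᵥ u‖ ^ 2 - 1) / d : ℝ) with hc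
  have hc0 : ∀ j, j ∉ J → c j = 0 := by
    intro j hj
    simp only [hc]
    rw [huJ j hj]
    field_simp
    ring
  have hexp' : vecMulVec u (star u) = ∑ j ∈ J, (c j : ℂ) • vecMulVec (x j) (star (x j)) := by
    rw [hexp]
    symm
    apply Finset.sum_subset (Finset.subset_univ _)
    intro j _ hj
    rw [hc0 j hj]; simp
  have hu0 : u ≠ 0 := by
    rintro rfl
    simp at hu
  have hex : ∃ j ∈ J, c j ≠ 0 := by
    by_contra hcon
    push Not at hcon
    have h1 : vecMulVec u (star u) = 0 := by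
      rw [hexp']
      refine Finset.sum_eq_zero fun j hj => ?_
      rw [hcon j hj]; simp
    have h2 := congrArg (fun M => M *ᵥ u) h1
    simp only [Matrix.vecMulVec_mulVec, Matrix.zero_mulVec, hu] at h2
    apply hu0
    simpa using h2
  obtain ⟨j₁, hj₁, hcj₁⟩ := hex
  let A : Matrix J J ℂ := Matrix.of fun i j => star (x i) ⬝ᵥ x j
  have hAdet : A.det ≠ 0 := by
    intro h0
    obtain ⟨y, hy0, hy⟩ := Matrix.exists_mulVec_eq_zero_iff.mpr h0
    apply hy0
    have hAy : ∀ i : J, star (x i) ⬝ᵥ (∑ l : J, y l • x l) = 0 := by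
      intro i
      have h1 := congrFun hy i
      rw [Pi.zero_apply] at h1
      rw [← h1]
      simp only [Matrix.mulVec, dotProduct_sum, dotProduct_smul]
      rw [dotProduct]
      refine Finset.sum_congr rfl fun l _ => ?_
      rw [smul_eq_mul, mul_comm]
      rfl
    have hz0 : ∑ l : J, y l • x l = 0 := by
      rw [← dotProduct_star_self_eq_zero]
      have h2 : star (∑ l : J, y l • x l) = ∑ l : J, star (y l) • star (x l) := by
        rw [star_sum]
        refine Finset.sum_congr rfl fun l _ => ?_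
        rw [star_smul]
      rw [h2, sum_dotProduct]
      refine Finset.sum_eq_zero fun i _ => ?_
      rw [smul_dotProduct, hAy i, smul_zero]
    exact funext fun i => (Fintype.linearIndependent_iff.mp hJ) y hz0 i
  have hAu : IsUnit A.det := isUnit_iff_ne_zero.mpr hAdet
  let a : J → ℂ := A⁻¹ *ᵥ (Pi.single ⟨j₁, hj₁⟩ 1)
  let z : n → ℂ := ∑ l : J, a l • x l
  have hz : ∀ j : J, star (x j) ⬝ᵥ z = (Pi.single ⟨j₁, hj₁⟩ 1 : J → ℂ) j := by
    intro j
    have h1 : A *ᵥ a = Pi.single ⟨j₁, hj₁⟩ 1 := by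
      rw [Matrix.mulVec_mulVec, Matrix.mul_nonsing_inv _ hAu, Matrix.one_mulVec]
    rw [← h1]
    simp only [z, Matrix.mulVec, dotProduct_sum, dotProduct_smul]
    rw [dotProduct]
    refine Finset.sum_congr rfl fun l _ => ?_
    rw [smul_eq_mul, mul_comm]
    rfl
  have hmul := congrArg (fun M => M *ᵥ z) hexp'
  simp only [Matrix.vecMulVec_mulVec, Matrix.sum_mulVec, Matrix.smul_mulVec] at hmul
  have hR : ∑ j ∈ J, (c j : ℂ) • (MulOpposite.op (star (x j) ⬝ᵥ z) • x j) = (c j₁ : ℂ) • x j₁ := by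
    rw [Finset.sum_eq_single_of_mem j₁ hj₁]
    · have := hz ⟨j₁, hj₁⟩
      rw [Pi.single_eq_same] at this
      rw [this]; simp
    · intro j hj hne
      have := hz ⟨j, hj⟩
      rw [Pi.single_eq_of_ne (by intro h; exact hne (Subtype.ext_iff.mp h))] at this
      rw [this]; simp
  rw [hR] at hmul
  refine ⟨j₁, hj₁, ?_⟩
  have hcj : (c j₁ : ℂ) ≠ 0 := by exact_mod_cast hcj₁
  set e := star u ⬝ᵥ z with he
  have hmul' : e • u = (c j₁ : ℂ) • x j₁ := by
    rw [← hmul]; simp
  have hx0 : x j₁ ≠ 0 := by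
    intro h
    have := hx j₁
    rw [h] at this; simp at this
  have he0 : e ≠ 0 := by
    intro h
    rw [h, zero_smul] at hmul'
    exact (smul_ne_zero hcj hx0) hmul'.symm
  refine ⟨e⁻¹ * c j₁, ?_⟩
  rw [mul_smul, ← hmul', smul_smul, inv_mul_cancel₀ he0, one_smul]

omit [DecidableEq n] in
/-- Few members of a maximal family are linearly independent. -/
theorem indep_of_few {κ : Type*} [Fintype κ] [DecidableEq κ] (x : κ → n → ℂ) (d : ℕ)
    (hx : ∀ i, star (x i) ⬝ᵥ x i = 1)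
    (hxy : ∀ i j, i ≠ j → ‖star (x i) ⬝ᵥ x j‖ ^ 2 = 1 / ((d : ℝ) + 1))
    (J : Finset κ) (hJ : ((J.card : ℝ) - 1) < Real.sqrt (d + 1)) :
    LinearIndependent ℂ (fun j : J => x j) := by
  let A : Matrix J J ℂ := Matrix.of fun i j => star (x i) ⬝ᵥ x j
  have hs : 0 < Real.sqrt ((d : ℝ) + 1) := Real.sqrt_pos.mpr (by positivity)
  have hAdet : A.det ≠ 0 := by
    apply det_ne_zero_of_sum_row_lt_diag
    intro k
    have h1 : ‖A k k‖ = 1 := by
      change ‖star (x k) ⬝ᵥ x k‖ = 1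
      rw [hx]; simp
    rw [h1]
    have h2 : ∀ j ∈ Finset.univ.erase k, ‖A k j‖ = 1 / Real.sqrt (d + 1) := by
      intro j hj
      have hne : (k : κ) ≠ j := fun h => (Finset.ne_of_mem_erase hj) (Subtype.ext h.symm)
      have h3 := hxy k j hne
      change ‖star (x k) ⬝ᵥ x j‖ = _
      have h4 : (1 / Real.sqrt ((d : ℝ) + 1)) ^ 2 = 1 / (d + 1) := by
        rw [div_pow, one_pow, Real.sq_sqrt (by positivity)]
      rw [← h4] at h3
      exact (pow_left_inj₀ (norm_nonneg _) (by positivity) two_ne_zero).mp h3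
    rw [Finset.sum_congr rfl h2, Finset.sum_const, Finset.card_erase_of_mem (Finset.mem_univ _),
      Finset.card_univ, Fintype.card_coe, nsmul_eq_mul]
    have h5 : 1 ≤ J.card := Finset.card_pos.mpr ⟨_, k.2⟩
    rw [Nat.cast_sub h5, Nat.cast_one, mul_one_div, div_lt_one hs]
    exact hJ
  rw [Fintype.linearIndependent_iff]
  intro y hy
  have h1 : A *ᵥ y = 0 := by
    funext i
    have h2 : star (x i) ⬝ᵥ (∑ l : J, y l • x l) = 0 := by rw [hy, dotProduct_zero]
    rw [Pi.zero_apply, ← h2]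
    simp only [Matrix.mulVec, dotProduct_sum, dotProduct_smul]
    rw [dotProduct]
    refine Finset.sum_congr rfl fun l _ => ?_
    rw [smul_eq_mul, mul_comm]
    rfl
  have h2 : y = 0 := by
    by_contra hne
    exact hAdet (Matrix.exists_mulVec_eq_zero_iff.mp ⟨y, hne, h1⟩)
  intro i
  rw [h2]; rfl

end Unique

/-- The matrix `d - S`, `S` the frame operator of `v`. -/
noncomputable def defect (d N : ℕ) (v : Fin N → EuclideanSpace ℂ (Fin d)) :
    Matrix (Fin d) (Fin d) ℂ :=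
  (d : ℂ) • (1 : Matrix (Fin d) (Fin d) ℂ) - ∑ i, vecMulVec (v i).ofLp (star (v i).ofLp)

private theorem hin {d : ℕ} (a b : EuclideanSpace ℂ (Fin d)) :
    star a.ofLp ⬝ᵥ b.ofLp = inner ℂ a b := by
  rw [EuclideanSpace.inner_eq_star_dotProduct, dotProduct_comm]

private theorem hunit {d : ℕ} (a : EuclideanSpace ℂ (Fin d)) (ha : ‖a‖ = 1) :
    star a.ofLp ⬝ᵥ a.ofLp = 1 := by
  rw [hin, inner_self_eq_norm_sq_to_K, ha]; simp

private theorem hs2 (d : ℕ) : (1 / Real.sqrt ((d : ℝ) + 1)) ^ 2 = 1 / ((d : ℝ) + 1) := by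
  rw [div_pow, one_pow, Real.sq_sqrt (by positivity)]

theorem defect_rank_le (d N : ℕ) (hd : 1 ≤ d) (v : Fin N → EuclideanSpace ℂ (Fin d))
    (hv1 : ∀ i, ‖v i‖ = 1)
    (hv2 : ∀ i j, i ≠ j → ‖inner ℂ (v i) (v j)‖ = 1 / Real.sqrt ((d : ℝ) + 1)) :
    N + (defect d N v).rank ≤ d ^ 2 := by
  have := rank_le (n := Fin d) (fun i => (v i).ofLp) d (Fintype.card_fin d) hd
    (fun i => hunit _ (hv1 i)) (fun i j hij => by rw [hin, hv2 i j hij, hs2])
  rwa [Fintype.card_fin] at this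

/-- One more vector can be added. -/
theorem add_vector_rank (d N : ℕ) (v : Fin N → EuclideanSpace ℂ (Fin d))
    (hv1 : ∀ i, ‖v i‖ = 1)
    (hv2 : ∀ i j, i ≠ j → ‖inner ℂ (v i) (v j)‖ = 1 / Real.sqrt ((d : ℝ) + 1))
    (hN : N < d ^ 2) (hk : d ^ 2 ≤ N + (defect d N v).rank) :
    ∃ u : EuclideanSpace ℂ (Fin d), ‖u‖ = 1 ∧
      ∀ i, ‖inner ℂ (v i) u‖ = 1 / Real.sqrt ((d : ℝ) + 1) := by
  obtain ⟨q, hq0, hq⟩ := extend_one_rank (n := Fin d) (fun i => (v i).ofLp) d (Fintype.card_fin d)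
    (fun i => hunit _ (hv1 i)) (fun i j hij => by rw [hin, hv2 i j hij, hs2])
    (by rwa [Fintype.card_fin]) (by rwa [Fintype.card_fin])
  set Q : EuclideanSpace ℂ (Fin d) := WithLp.toLp 2 q with hQ
  have hQ0 : Q ≠ 0 := by
    intro h
    apply hq0
    have := congrArg (fun z : EuclideanSpace ℂ (Fin d) => z.ofLp) h
    simpa [hQ] using this
  have hQn : 0 < ‖Q‖ := norm_pos_iff.mpr hQ0
  refine ⟨((‖Q‖⁻¹ : ℝ) : ℂ) • Q, ?_, ?_⟩
  · rw [norm_smul, Complex.norm_real, norm_inv, norm_norm, inv_mul_cancel₀ hQn.ne']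
  · intro i
    rw [inner_smul_right, norm_mul, Complex.norm_real, norm_inv, norm_norm]
    have h1 := hq i
    have h2 : (star q ⬝ᵥ q).re = ‖Q‖ ^ 2 := by
      have : star q ⬝ᵥ q = inner ℂ Q Q := hin Q Q
      rw [this, inner_self_eq_norm_sq_to_K]
      norm_cast
    have h3 : star (v i).ofLp ⬝ᵥ q = inner ℂ (v i) Q := hin (v i) Q
    rw [h2, h3] at h1
    have h4 : (‖Q‖⁻¹ * ‖inner ℂ (v i) Q‖) ^ 2 = (1 / Real.sqrt ((d : ℝ) + 1)) ^ 2 := by
      rw [mul_pow, h1, hs2]
      field_simp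
    exact (pow_left_inj₀ (by positivity) (by positivity) two_ne_zero).mp h4

theorem extend_all_rank (d : ℕ) : ∀ k N : ℕ, (hNk : N + k = d ^ 2) →
    ∀ v : Fin N → EuclideanSpace ℂ (Fin d), d ^ 2 ≤ N + (defect d N v).rank → (∀ i, ‖v i‖ = 1) →
    (∀ i j, i ≠ j → ‖inner ℂ (v i) (v j)‖ = 1 / Real.sqrt ((d : ℝ) + 1)) →
    ∃ w : Fin (d ^ 2) → EuclideanSpace ℂ (Fin d), (∀ i, ‖w i‖ = 1) ∧
      (∀ i j, i ≠ j → ‖inner ℂ (w i) (w j)‖ = 1 / Real.sqrt ((d : ℝ) + 1)) ∧
      ∀ i : Fin N, w (Fin.castLE (by omega) i) = v i := by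
  intro k
  induction k with
  | zero =>
    intro N hNk v _ hv1 hv2
    have hN : N = d ^ 2 := by omega
    subst hN
    exact ⟨v, hv1, hv2, fun i => rfl⟩
  | succ k ih =>
    intro N hNk v hk hv1 hv2
    obtain ⟨u, hu1, hu2⟩ := add_vector_rank d N v hv1 hv2 (by omega) hk
    have hk' : d ^ 2 ≤ N + 1 + (defect d (N + 1) (Fin.snoc v u)).rank := by
      have h1 : defect d N v =
          defect d (N + 1) (Fin.snoc v u) + vecMulVec u.ofLp (star u.ofLp) := by
        unfold defect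
        rw [Fin.sum_univ_castSucc]
        simp only [Fin.snoc_castSucc, Fin.snoc_last]
        abel
      have h2 := rank_add_le' (defect d (N + 1) (Fin.snoc v u)) (vecMulVec u.ofLp (star u.ofLp))
      have h3 := Matrix.rank_vecMulVec_le u.ofLp (star u.ofLp)
      rw [← h1] at h2
      omega
    obtain ⟨w, hw1, hw2, hw3⟩ := ih (N + 1) (by omega) (Fin.snoc v u) hk'
      (by
        intro i
        refine Fin.lastCases ?_ (fun j => ?_) i
        · simpa using hu1
        · simpa using hv1 j)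
      (by
        intro i j
        refine Fin.lastCases ?_ (fun i' => ?_) i
        · refine Fin.lastCases ?_ (fun j' => ?_) j
          · intro h; exact absurd rfl h
          · intro _
            simp only [Fin.snoc_last, Fin.snoc_castSucc]
            rw [norm_inner_symm]
            exact hu2 j'
        · refine Fin.lastCases ?_ (fun j' => ?_) j
          · intro _
            simp only [Fin.snoc_last, Fin.snoc_castSucc]
            exact hu2 i'
          · intro h
            simp only [Fin.snoc_castSucc]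
            exact hv2 i' j' (fun h' => h (by rw [h'])))
    refine ⟨w, hw1, hw2, fun i => ?_⟩
    have h1 := hw3 i.castSucc
    rw [Fin.snoc_castSucc] at h1
    exact h1

/-- `d - S` for a subfamily of a maximal ETF. -/
theorem defect_eq_sum (d N : ℕ) (hd : 1 ≤ d) (v : Fin N → EuclideanSpace ℂ (Fin d))
    (w : Fin (d ^ 2) → EuclideanSpace ℂ (Fin d)) (f : Fin N ↪ Fin (d ^ 2))
    (hw1 : ∀ i, ‖w i‖ = 1)
    (hw2 : ∀ i j, i ≠ j → ‖inner ℂ (w i) (w j)‖ = 1 / Real.sqrt ((d : ℝ) + 1))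
    (hw3 : ∀ i, w (f i) = v i) (J : Finset (Fin (d ^ 2))) (hJ : ∀ j, j ∈ J ↔ j ∉ Set.range f) :
    defect d N v = ∑ j : J, vecMulVec (w j).ofLp (star (w j).ofLp) := by
  classical
  have h := tight_of_max (n := Fin d) (fun i => (w i).ofLp) d (Fintype.card_fin d) hd
    (fun i => hunit _ (hw1 i)) (fun i j hij => by rw [hin, hw2 i j hij, hs2])
    (Fintype.card_fin _)
  unfold defect
  rw [← h]
  have h1 : ∑ j : J, vecMulVec (w j).ofLp (star (w j).ofLp) =
      ∑ j ∈ J, vecMulVec (w j).ofLp (star (w j).ofLp) :=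
    (Finset.sum_coe_sort J (fun j => vecMulVec (w j).ofLp (star (w j).ofLp)))
  have h2 : ∑ i, vecMulVec (v i).ofLp (star (v i).ofLp) =
      ∑ j ∈ Finset.univ.map f, vecMulVec (w j).ofLp (star (w j).ofLp) := by
    rw [Finset.sum_map]
    refine Finset.sum_congr rfl fun i _ => ?_
    rw [hw3]
  have h3 : J = Finset.univ \ Finset.univ.map f := by
    ext j
    rw [hJ, Finset.mem_sdiff]
    simp
  rw [h1, h2, h3, sub_eq_iff_eq_add]
  exact (Finset.sum_sdiff (Finset.subset_univ _)).symm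

theorem card_compl (d N : ℕ) (f : Fin N ↪ Fin (d ^ 2)) (J : Finset (Fin (d ^ 2)))
    (hJ : ∀ j, j ∈ J ↔ j ∉ Set.range f) : N + J.card = d ^ 2 := by
  classical
  have h3 : J = Finset.univ \ Finset.univ.map f := by
    ext j
    rw [hJ, Finset.mem_sdiff]
    simp
  rw [h3, Finset.card_sdiff_of_subset (Finset.subset_univ _), Finset.card_map, Finset.card_univ,
    Finset.card_univ, Fintype.card_fin, Fintype.card_fin]
  have : N ≤ d ^ 2 := by
    have := Fintype.card_le_of_embedding f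
    rwa [Fintype.card_fin, Fintype.card_fin] at this
  omega

end Pool.Agent.Lib.MP_d0f9e0_co.Gap
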