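import Pool.Agent.Lib.MP_d0f9e0_co.Gap.AngleForced
import Pool.Agent.Lib.MP_d0f9e0_co.Gap.RankCritD

set_option autoImplicit false

open Matrix

namespace Pool.Agent.Lib.MP_d0f9e0_co.Gap

/-- Let `v` be `N` unit vectors in `ℂ^d` whose inner products for distinct indices all have the
same modulus `c < 1`, and let `r` be the rank of `d - ∑ v_i v_i^*`.
(a) If `N ≥ 2` and `c ≠ 1/√(d+1)` then `N ≤ d² - d + 1`.
(b) If `c = 1/√(d+1)` then `N + r ≤ d²`, with equality if and only if `v` is a maximal ETF of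
`ℂ^d` from which `d² - N` linearly independent members were removed; the removed lines are then
determined by `v`.
(c) If `c = 1/√(d+1)`, or if `d ≥ 5`, and if `N > d² - 1 - √(d+1)`, then `c = 1/√(d+1)` and
`N + r = d²`: the family extends to a maximal ETF of `ℂ^d`, and the added lines are determined by
the family. -/
theorem rank_result : ∀ (d N : ℕ) (c : ℝ) (v : Fin N → EuclideanSpace ℂ (Fin d)),
    1 ≤ d → c < 1 → (∀ i, ‖v i‖ = 1) → (∀ i j, i ≠ j → ‖inner ℂ (v i) (v j)‖ = c) →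
    (2 ≤ N → c ≠ 1 / Real.sqrt ((d : ℝ) + 1) → N + d ≤ d ^ 2 + 1) ∧
    (c = 1 / Real.sqrt ((d : ℝ) + 1) →
      N + ((d : ℂ) • (1 : Matrix (Fin d) (Fin d) ℂ) -
        ∑ i, Matrix.vecMulVec (v i).ofLp (star (v i).ofLp)).rank ≤ d ^ 2 ∧
      (N + ((d : ℂ) • (1 : Matrix (Fin d) (Fin d) ℂ) -
        ∑ i, Matrix.vecMulVec (v i).ofLp (star (v i).ofLp)).rank = d ^ 2 ↔
        ∃ (w : Fin (d ^ 2) → EuclideanSpace ℂ (Fin d)) (f : Fin N ↪ Fin (d ^ 2)),
          (∀ i, ‖w i‖ = 1) ∧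
          (∀ i j, i ≠ j → ‖inner ℂ (w i) (w j)‖ = 1 / Real.sqrt ((d : ℝ) + 1)) ∧
          (∀ i, w (f i) = v i) ∧
          LinearIndependent ℂ (fun j : {j // j ∉ Set.range f} => w j)) ∧
      (∀ (w : Fin (d ^ 2) → EuclideanSpace ℂ (Fin d)) (f : Fin N ↪ Fin (d ^ 2)),
        (∀ i, ‖w i‖ = 1) →
        (∀ i j, i ≠ j → ‖inner ℂ (w i) (w j)‖ = 1 / Real.sqrt ((d : ℝ) + 1)) →
        (∀ i, w (f i) = v i) →
        LinearIndependent ℂ (fun j : {j // j ∉ Set.range f} => w j) →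
        ∀ u : EuclideanSpace ℂ (Fin d), ‖u‖ = 1 →
          (∀ i, ‖inner ℂ (v i) u‖ = 1 / Real.sqrt ((d : ℝ) + 1)) →
          ∃ j, j ∉ Set.range f ∧ ∃ z : ℂ, u = z • w j)) ∧
    ((c = 1 / Real.sqrt ((d : ℝ) + 1) ∨ 5 ≤ d) →
      (d : ℝ) ^ 2 - 1 - Real.sqrt ((d : ℝ) + 1) < N →
      c = 1 / Real.sqrt ((d : ℝ) + 1) ∧
      N + ((d : ℂ) • (1 : Matrix (Fin d) (Fin d) ℂ) -
        ∑ i, Matrix.vecMulVec (v i).ofLp (star (v i).ofLp)).rank = d ^ 2 ∧
      ∃ (w : Fin (d ^ 2) → EuclideanSpace ℂ (Fin d)) (f : Fin N ↪ Fin (d ^ 2)),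
        (∀ i, ‖w i‖ = 1) ∧
        (∀ i j, i ≠ j → ‖inner ℂ (w i) (w j)‖ = 1 / Real.sqrt ((d : ℝ) + 1)) ∧
        (∀ i, w (f i) = v i) ∧
        (∀ u : EuclideanSpace ℂ (Fin d), ‖u‖ = 1 →
          (∀ i, ‖inner ℂ (v i) u‖ = 1 / Real.sqrt ((d : ℝ) + 1)) →
          ∃ j, j ∉ Set.range f ∧ ∃ z : ℂ, u = z • w j)) := by
  intro d N c v hd hc hv1 hv2
  have hin : ∀ a b : EuclideanSpace ℂ (Fin d), star a.ofLp ⬝ᵥ b.ofLp = inner ℂ a b := by
    intro a b
    rw [EuclideanSpace.inner_eq_star_dotProduct, dotProduct_comm]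
  have hunit : ∀ a : EuclideanSpace ℂ (Fin d), ‖a‖ = 1 → star a.ofLp ⬝ᵥ a.ofLp = 1 := by
    intro a ha
    rw [hin, inner_self_eq_norm_sq_to_K, ha]; simp
  have hforce : 2 ≤ N → d ^ 2 + 1 < N + d → c = 1 / Real.sqrt ((d : ℝ) + 1) := by
    intro hN hbig
    have hc0 : 0 ≤ c := by
      have h1 := hv2 ⟨0, by omega⟩ ⟨1, by omega⟩ (by
        intro h
        exact absurd (congrArg Fin.val h) (by norm_num))
      rw [← h1]
      exact norm_nonneg _
    have h1 := angle_forced (n := Fin d)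
      (fun i => (v i).ofLp) d (Fintype.card_fin d) (fun i => hunit _ (hv1 i)) (c ^ 2)
      (sq_nonneg c) (by nlinarith) (fun i j hij => by rw [hin, hv2 i j hij])
      (by rw [Fintype.card_fin]; exact hN) (by rw [Fintype.card_fin]; exact hbig)
    have hs : 0 < Real.sqrt ((d : ℝ) + 1) := Real.sqrt_pos.mpr (by positivity)
    have hs2 : Real.sqrt ((d : ℝ) + 1) ^ 2 = d + 1 := Real.sq_sqrt (by positivity)
    have h2 : (c * Real.sqrt ((d : ℝ) + 1)) ^ 2 = 1 ^ 2 := by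
      rw [mul_pow, hs2, h1, one_pow]
    have h3 : c * Real.sqrt ((d : ℝ) + 1) = 1 :=
      (pow_left_inj₀ (mul_nonneg hc0 hs.le) zero_le_one two_ne_zero).mp h2
    rw [eq_div_iff hs.ne']
    exact h3
  refine ⟨?_, ?_, ?_⟩
  · intro hN hne
    by_contra hcon
    push Not at hcon
    exact hne (hforce hN hcon)
  · intro hceq
    have hv2' : ∀ i j, i ≠ j → ‖inner ℂ (v i) (v j)‖ = 1 / Real.sqrt ((d : ℝ) + 1) :=
      fun i j hij => by rw [hv2 i j hij, hceq]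
    refine ⟨defect_rank_le d N hd v hv1 hv2', rank_criterion d N hd v hv1 hv2', ?_⟩
    intro w f hw1 hw2 hw3 hw4 u hu1 hu2
    exact unique_of_indepCompl d N hd v w f hw1 hw2 hw3 hw4 u hu1 hu2
  · intro hor hNbig
    have hceq : c = 1 / Real.sqrt ((d : ℝ) + 1) := by
      rcases hor with h | h5
      · exact h
      · have hdR : (5 : ℝ) ≤ d := by exact_mod_cast h5
        have hsq : Real.sqrt ((d : ℝ) + 1) ≤ d - 2 := by
          rw [Real.sqrt_le_left (by linarith)]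
          nlinarith
        have h1 : (d : ℝ) ^ 2 + 1 < N + d := by linarith
        have h2 : d ^ 2 + 1 < N + d := by exact_mod_cast h1
        have h3 : 2 ≤ N := by nlinarith
        exact hforce h3 h2
    have hv2' : ∀ i j, i ≠ j → ‖inner ℂ (v i) (v j)‖ = 1 / Real.sqrt ((d : ℝ) + 1) :=
      fun i j hij => by rw [hv2 i j hij, hceq]
    exact ⟨hceq, rank_eq_of_few d N hd hNbig v hv1 hv2', completion d N hd hNbig v hv1 hv2'⟩

end Pool.Agent.Lib.MP_d0f9e0_co.Gap
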