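import Mathlib

set_option autoImplicit false

open Matrix
open scoped ComplexOrder

namespace Pool.Agent.Lib.MP_d0f9e0_co.Gap

section Core

variable {n ι : Type*} [Fintype n] [Fintype ι]

/-- symmetry under exchange of the two column indices -/
def Sym (K : ι → Matrix n n ℂ) : Prop :=
  ∀ p q r s, ∑ a, K a p q * K a r s = ∑ a, K a p s * K a r q

theorem sym_sum (K : ι → Matrix n n ℂ) (hS : Sym K) (Y : Matrix n n ℂ) :
    ∑ a, K a * Y * K a = ∑ a, (trace (K a * Y)) • K a := by
  ext p s
  simp only [Matrix.sum_apply, Matrix.mul_apply, Matrix.smul_apply, Matrix.trace, Matrix.diag,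
    smul_eq_mul, Finset.sum_mul]
  calc ∑ a, ∑ r, ∑ q, K a p q * Y q r * K a r s
      = ∑ r, ∑ q, Y q r * ∑ a, K a p q * K a r s := by
        rw [Finset.sum_comm]
        refine Finset.sum_congr rfl fun r _ => ?_
        rw [Finset.sum_comm]
        refine Finset.sum_congr rfl fun q _ => ?_
        rw [Finset.mul_sum]
        refine Finset.sum_congr rfl fun a _ => ?_
        ring
    _ = ∑ r, ∑ q, Y q r * ∑ a, K a p s * K a r q := by
        simp only [hS p _ _ s]
    _ = ∑ a, ∑ r, ∑ q, K a r q * Y q r * K a p s := by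
        symm
        rw [Finset.sum_comm]
        refine Finset.sum_congr rfl fun r _ => ?_
        rw [Finset.sum_comm]
        refine Finset.sum_congr rfl fun q _ => ?_
        rw [Finset.mul_sum]
        refine Finset.sum_congr rfl fun a _ => ?_
        ring

theorem sym_congr {m : Type*} (K : ι → Matrix n n ℂ) (hS : Sym K)
    (A : Matrix m n ℂ) (B : Matrix n m ℂ) : Sym (fun a => A * K a * B) := by
  have key : ∀ p q r s, ∑ a, (A * K a * B) p q * (A * K a * B) r s =
      ∑ p', ∑ q', ∑ r', ∑ s', A p p' * B q' q * A r r' * B s' s * ∑ a, K a p' q' * K a r' s' := by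
    intro p q r s
    have e : ∀ a, (A * K a * B) p q * (A * K a * B) r s =
        ∑ p', ∑ q', ∑ r', ∑ s', A p p' * B q' q * A r r' * B s' s * (K a p' q' * K a r' s') := by
      intro a
      have e1 : (A * K a * B) p q = ∑ p', ∑ q', A p p' * K a p' q' * B q' q := by
        simp only [Matrix.mul_apply, Finset.sum_mul]
        rw [Finset.sum_comm]
      have e2 : (A * K a * B) r s = ∑ p', ∑ q', A r p' * K a p' q' * B q' s := by
        simp only [Matrix.mul_apply, Finset.sum_mul]
        rw [Finset.sum_comm]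
      rw [e1, e2, Finset.sum_mul]
      refine Finset.sum_congr rfl fun p' _ => ?_
      rw [Finset.sum_mul]
      refine Finset.sum_congr rfl fun q' _ => ?_
      rw [Finset.mul_sum]
      refine Finset.sum_congr rfl fun r' _ => ?_
      rw [Finset.mul_sum]
      refine Finset.sum_congr rfl fun s' _ => ?_
      ring
    simp only [e]
    rw [Finset.sum_comm]
    refine Finset.sum_congr rfl fun p' _ => ?_
    rw [Finset.sum_comm]
    refine Finset.sum_congr rfl fun q' _ => ?_
    rw [Finset.sum_comm]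
    refine Finset.sum_congr rfl fun r' _ => ?_
    rw [Finset.sum_comm]
    refine Finset.sum_congr rfl fun s' _ => ?_
    rw [Finset.mul_sum]
  intro p q r s
  simp only
  rw [key, key]
  refine Finset.sum_congr rfl fun p' _ => ?_
  -- swap q' and s'
  calc ∑ q', ∑ r', ∑ s', A p p' * B q' q * A r r' * B s' s * ∑ a, K a p' q' * K a r' s'
      = ∑ r', ∑ q', ∑ s', A p p' * B q' q * A r r' * B s' s * ∑ a, K a p' q' * K a r' s' :=
        Finset.sum_comm
    _ = ∑ r', ∑ s', ∑ q', A p p' * B q' q * A r r' * B s' s * ∑ a, K a p' q' * K a r' s' := by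
        refine Finset.sum_congr rfl fun r' _ => Finset.sum_comm
    _ = ∑ s', ∑ r', ∑ q', A p p' * B q' q * A r r' * B s' s * ∑ a, K a p' q' * K a r' s' :=
        Finset.sum_comm
    _ = ∑ s', ∑ r', ∑ q', A p p' * B s' s * A r r' * B q' q * ∑ a, K a p' s' * K a r' q' := by
        refine Finset.sum_congr rfl fun s' _ => ?_
        refine Finset.sum_congr rfl fun r' _ => ?_
        refine Finset.sum_congr rfl fun q' _ => ?_
        rw [hS p' q' r' s']
        ring

/-- Key step: a normalised symmetric Hermitian family with at most `card n` members commutes. -/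
theorem commute_of_sym [DecidableEq n] (L : ι → Matrix n n ℂ) (hH : ∀ a, (L a).IsHermitian) (hS : Sym L)
    (hN : ∑ a, L a * L a = 1) (hcard : Fintype.card ι ≤ Fintype.card n) (a b : ι) :
    L a * L b = L b * L a := by
  -- the real Gram matrix
  have hreal : ∀ a b, (trace (L a * L b)) = ((trace (L a * L b)).re : ℂ) := by
    intro a b
    have : (starRingEnd ℂ) (trace (L a * L b)) = trace (L a * L b) := by
      rw [starRingEnd_apply, ← Matrix.trace_conjTranspose, Matrix.conjTranspose_mul, (hH a).eq,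
        (hH b).eq, Matrix.trace_mul_comm]
    exact (Complex.conj_eq_iff_re.mp this).symm
  set g : ι → ι → ℝ := fun a b => (trace (L a * L b)).re with hg
  have hg' : ∀ a b, trace (L a * L b) = (g a b : ℂ) := hreal
  -- sum of diagonal
  have hdiag : ∑ a, g a a = Fintype.card n := by
    have : (∑ a, (g a a : ℂ)) = (Fintype.card n : ℂ) := by
      simp only [← hg']
      rw [← Matrix.trace_sum, hN, Matrix.trace_one]
    exact_mod_cast this
  -- second moment
  have h1 : ∑ a, ∑ b, trace (L a * L a * (L b * L b)) = (Fintype.card n : ℂ) := by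
    simp only [← Matrix.trace_sum, ← Matrix.mul_sum, hN, Matrix.mul_one, Matrix.trace_one]
  have h2 : ∑ a, ∑ b, trace (L a * L b * L a * L b) = ∑ a, ∑ b, ((g a b) ^ 2 : ℂ) := by
    rw [Finset.sum_comm]
    have : ∀ b, ∑ a, trace (L a * L b * L a * L b) = ∑ a, ((g a b) ^ 2 : ℂ) := by
      intro b
      rw [← Matrix.trace_sum, ← Matrix.sum_mul, sym_sum L hS, Matrix.sum_mul, Matrix.trace_sum]
      refine Finset.sum_congr rfl fun a _ => ?_
      rw [Matrix.smul_mul, Matrix.trace_smul, hg', smul_eq_mul, sq]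
    simp only [this]
    rw [Finset.sum_comm]
  -- the commutators
  set Z : ι → ι → Matrix n n ℂ := fun a b => L a * L b - L b * L a with hZ
  have hZsum : ∑ a, ∑ b, trace ((Z a b)ᴴ * Z a b) =
      2 * (Fintype.card n : ℂ) - 2 * ∑ a, ∑ b, ((g a b) ^ 2 : ℂ) := by
    have e : ∀ a b, trace ((Z a b)ᴴ * Z a b) =
        trace (L b * L b * (L a * L a)) + trace (L a * L a * (L b * L b))
        - trace (L b * L a * L b * L a) - trace (L a * L b * L a * L b) := by
      intro a b
      simp only [hZ, Matrix.conjTranspose_sub, Matrix.conjTranspose_mul, (hH a).eq, (hH b).eq]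
      have x1 : (L b * L a - L a * L b) * (L a * L b - L b * L a) =
          L b * (L a * L a * L b) - L b * L a * L b * L a - L a * L b * L a * L b
          + L a * (L b * L b * L a) := by noncomm_ring
      rw [x1, Matrix.trace_add, Matrix.trace_sub, Matrix.trace_sub,
        Matrix.trace_mul_comm (L b) (L a * L a * L b), Matrix.trace_mul_comm (L a) (L b * L b * L a),
        Matrix.mul_assoc (L a * L a), Matrix.mul_assoc (L b * L b)]
      ring
    simp only [e, Finset.sum_sub_distrib, Finset.sum_add_distrib]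
    rw [h1, h2]
    have e3 : ∑ a, ∑ b, trace (L b * L b * (L a * L a)) = (Fintype.card n : ℂ) := by
      rw [Finset.sum_comm]; exact h1
    have e4 : ∑ a, ∑ b, trace (L b * L a * L b * L a) = ∑ a, ∑ b, ((g a b) ^ 2 : ℂ) := by
      rw [Finset.sum_comm]; exact h2
    rw [e3, e4]
    ring
  have hnonneg : ∀ a b, 0 ≤ (trace ((Z a b)ᴴ * Z a b)).re := by
    intro a b
    have := (Matrix.posSemidef_conjTranspose_mul_self (Z a b)).trace_nonneg
    exact (Complex.le_def.mp this).1
  have hre : ∑ a, ∑ b, (trace ((Z a b)ᴴ * Z a b)).re =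
      2 * (Fintype.card n : ℝ) - 2 * ∑ a, ∑ b, (g a b) ^ 2 := by
    have := congrArg Complex.re hZsum
    simp only [Complex.re_sum] at this
    rw [this]
    have e5 : (2 * (Fintype.card n : ℂ) - 2 * ∑ a, ∑ b, ((g a b) ^ 2 : ℂ)) =
      ((2 * (Fintype.card n : ℝ) - 2 * ∑ a, ∑ b, (g a b) ^ 2 : ℝ) : ℂ) := by
      push_cast
      ring
    rw [e5, Complex.ofReal_re]
  -- Cauchy-Schwarz
  have hCS : (Fintype.card n : ℝ) ^ 2 ≤ Fintype.card ι * ∑ a, (g a a) ^ 2 := by
    have := sq_sum_le_card_mul_sum_sq (s := (Finset.univ : Finset ι)) (f := fun a => g a a)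
    rwa [hdiag, Finset.card_univ] at this
  have hle : ∑ a, (g a a) ^ 2 ≤ ∑ a, ∑ b, (g a b) ^ 2 := by
    refine Finset.sum_le_sum fun a _ => ?_
    exact Finset.single_le_sum (f := fun b => (g a b) ^ 2) (fun b _ => sq_nonneg _)
      (Finset.mem_univ a)
  have hcard' : (Fintype.card ι : ℝ) ≤ Fintype.card n := by exact_mod_cast hcard
  have hge : (Fintype.card n : ℝ) ≤ ∑ a, ∑ b, (g a b) ^ 2 := by
    rcases Nat.eq_zero_or_pos (Fintype.card n) with h0 | h0
    · rw [h0]
      push_cast
      exact Finset.sum_nonneg fun a _ => Finset.sum_nonneg fun b _ => sq_nonneg _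
    · have hn0 : (0 : ℝ) < Fintype.card n := by exact_mod_cast h0
      have : (Fintype.card n : ℝ) * Fintype.card n ≤ Fintype.card n * ∑ a, ∑ b, (g a b) ^ 2 := by
        calc (Fintype.card n : ℝ) * Fintype.card n = (Fintype.card n : ℝ) ^ 2 := by ring
          _ ≤ Fintype.card ι * ∑ a, (g a a) ^ 2 := hCS
          _ ≤ Fintype.card n * ∑ a, (g a a) ^ 2 := by
            apply mul_le_mul_of_nonneg_right hcard'
            exact Finset.sum_nonneg fun a _ => sq_nonneg _
          _ ≤ Fintype.card n * ∑ a, ∑ b, (g a b) ^ 2 := by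
            apply mul_le_mul_of_nonneg_left hle hn0.le
      exact le_of_mul_le_mul_left this hn0
  have hzero : ∑ a, ∑ b, (trace ((Z a b)ᴴ * Z a b)).re ≤ 0 := by
    rw [hre]; linarith
  have hab : (trace ((Z a b)ᴴ * Z a b)).re = 0 := by
    have e1 : ∑ a, ∑ b, (trace ((Z a b)ᴴ * Z a b)).re = 0 :=
      le_antisymm hzero (Finset.sum_nonneg fun a _ => Finset.sum_nonneg fun b _ => hnonneg a b)
    rw [Finset.sum_eq_zero_iff_of_nonneg
      (fun a _ => Finset.sum_nonneg fun b _ => hnonneg a b)] at e1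
    have e2 := e1 a (Finset.mem_univ a)
    rw [Finset.sum_eq_zero_iff_of_nonneg (fun b _ => hnonneg a b)] at e2
    exact e2 b (Finset.mem_univ b)
  have hab' : trace ((Z a b)ᴴ * Z a b) = 0 := by
    have h3 := (Matrix.posSemidef_conjTranspose_mul_self (Z a b)).trace_nonneg
    have h4 := (Complex.le_def.mp h3).2
    apply Complex.ext
    · simpa using hab
    · simpa using h4.symm
  rw [Matrix.trace_conjTranspose_mul_self_eq_zero_iff] at hab'
  exact sub_eq_zero.mp hab'

omit [Fintype ι] in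
theorem exists_joint_eigenvector [DecidableEq n] [Nonempty n] (L : ι → Matrix n n ℂ)
    (hH : ∀ a, (L a).IsHermitian) (hC : ∀ a b, L a * L b = L b * L a) :
    ∃ f : n → ℂ, f ≠ 0 ∧ ∃ μ : ι → ℝ, ∀ a, L a *ᵥ f = (μ a : ℂ) • f := by
  classical
  let T : ι → EuclideanSpace ℂ n →ₗ[ℂ] EuclideanSpace ℂ n := fun a => Matrix.toEuclideanLin (L a)
  have hT : ∀ a, (T a).IsSymmetric := fun a => Matrix.isSymmetric_toEuclideanLin_iff.mpr (hH a)
  have hcomm : Pairwise (Function.onFun Commute T) := by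
    intro a b _
    change T a * T b = T b * T a
    have h1 : T a * T b = Matrix.toEuclideanLin (L a * L b) := by
      ext v : 1
      simp [T, Matrix.toLpLin_apply]
    have h2 : T b * T a = Matrix.toEuclideanLin (L b * L a) := by
      ext v : 1
      simp [T, Matrix.toLpLin_apply]
    rw [h1, h2, hC]
  have htop := LinearMap.IsSymmetric.iSup_iInf_eq_top_of_commute hT hcomm
  have hne : ∃ χ : ι → ℂ, (⨅ i, Module.End.eigenspace (T i) (χ i)) ≠ ⊥ := by
    by_contra hcon
    push Not at hcon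
    simp only [hcon, iSup_bot] at htop
    exact bot_ne_top htop
  obtain ⟨χ, hχ⟩ := hne
  obtain ⟨v, hv, hv0⟩ := (Submodule.ne_bot_iff _).mp hχ
  rw [Submodule.mem_iInf] at hv
  refine ⟨v.ofLp, ?_, fun a => (χ a).re, ?_⟩
  · intro h
    apply hv0
    ext i
    simpa using congrFun h i
  · intro a
    have h1 := Module.End.mem_eigenspace_iff.mp (hv a)
    have hreal : ((χ a).re : ℂ) = χ a := by
      have := (hT a).conj_eigenvalue_eq_self (Module.End.hasEigenvalue_of_hasEigenvector
        ⟨hv a, hv0⟩)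
      exact Complex.conj_eq_iff_re.mp this
    rw [hreal]
    have h2 := congrArg (fun w : EuclideanSpace ℂ n => w.ofLp) h1
    simpa [T, Matrix.toLpLin_apply] using h2

theorem matrix_eq_zero_of_quad [DecidableEq n] (A : Matrix n n ℂ)
    (h : ∀ v : n → ℂ, star v ⬝ᵥ (A *ᵥ v) = 0) : A = 0 := by
  have h1 : Matrix.toEuclideanLin A = 0 := by
    rw [← inner_map_self_eq_zero]
    intro x
    have := h x.ofLp
    rw [EuclideanSpace.inner_eq_star_dotProduct]
    have h2 : star (star x.ofLp ⬝ᵥ (A *ᵥ x.ofLp)) = 0 := by rw [this, star_zero]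
    rw [Matrix.star_dotProduct, star_star, dotProduct_comm] at h2
    simpa [Matrix.toLpLin_apply] using h2
  have h3 : Matrix.toEuclideanLin A = Matrix.toEuclideanLin (0 : Matrix n n ℂ) := by
    rw [h1, map_zero]
  exact Matrix.toEuclideanLin.injective h3

theorem normSq_sum_eq (B : Matrix n n ℂ) : (trace (Bᴴ * B)).re = ∑ j, ∑ i, ‖B i j‖ ^ 2 := by
  simp only [Matrix.trace, Matrix.diag, Matrix.mul_apply, Matrix.conjTranspose_apply,
    Complex.re_sum]
  refine Finset.sum_congr rfl fun j _ => Finset.sum_congr rfl fun i _ => ?_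
  rw [Complex.star_def, ← Complex.normSq_eq_conj_mul_self, Complex.ofReal_re,
    Complex.normSq_eq_norm_sq]

theorem scaling_one [DecidableEq n] [Nonempty n] (K : ι → Matrix n n ℂ)
    (hH : ∀ a, (K a).IsHermitian) (hS : Sym K) (c : ι → ℝ) (hP : ∑ a, (c a : ℂ) • K a = 1) :
    ∃ B : Matrix n n ℂ, B.det ≠ 0 ∧
      ∑ a, (Bᴴ * K a * B) * (Bᴴ * K a * B) = ((1 / (Fintype.card n : ℝ) : ℝ) : ℂ) • 1 := by
  classical
  set m := Fintype.card n with hm
  have hm0 : 0 < m := Fintype.card_pos
  -- traces are real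
  have htr : ∀ B : Matrix n n ℂ, ∀ a, trace (Bᴴ * K a * B) = ((trace (Bᴴ * K a * B)).re : ℂ) := by
    intro B a
    have : (starRingEnd ℂ) (trace (Bᴴ * K a * B)) = trace (Bᴴ * K a * B) := by
      rw [starRingEnd_apply, ← Matrix.trace_conjTranspose, Matrix.conjTranspose_mul,
        Matrix.conjTranspose_mul, (hH a).eq, Matrix.conjTranspose_conjTranspose, Matrix.mul_assoc]
    exact (Complex.conj_eq_iff_re.mp this).symm
  let Q : Matrix n n ℂ → ℝ := fun B => ∑ a, ((Bᴴ * K a * B).trace.re) ^ 2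
  have hQ : ∀ B, Q B = ∑ a, ((Bᴴ * K a * B).trace.re) ^ 2 := fun B => rfl
  have hQcont : Continuous Q := by
    refine continuous_finsetSum _ fun a _ => ?_
    refine Continuous.pow ?_ 2
    refine Complex.continuous_re.comp ?_
    refine Continuous.matrix_trace ?_
    exact (((continuous_id.matrix_conjTranspose).matrix_mul continuous_const).matrix_mul
      continuous_id)
  set r := ∑ a, c a ^ 2 with hr
  have hr0 : 0 ≤ r := Finset.sum_nonneg fun a _ => sq_nonneg _
  -- coercivity
  have hco : ∀ B : Matrix n n ℂ, (∑ j, ∑ i, ‖B i j‖ ^ 2) ^ 2 ≤ r * Q B := by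
    intro B
    have h1 : (∑ j, ∑ i, ‖B i j‖ ^ 2) = ∑ a, c a * (Bᴴ * K a * B).trace.re := by
      rw [← normSq_sum_eq]
      have : Bᴴ * B = ∑ a, (c a : ℂ) • (Bᴴ * K a * B) := by
        calc Bᴴ * B = Bᴴ * (∑ a, (c a : ℂ) • K a) * B := by rw [hP, Matrix.mul_one]
          _ = _ := by
            rw [Matrix.mul_sum, Matrix.sum_mul]
            refine Finset.sum_congr rfl fun a _ => ?_
            rw [Matrix.mul_smul, Matrix.smul_mul]
      rw [this, Matrix.trace_sum, Complex.re_sum]
      refine Finset.sum_congr rfl fun a _ => ?_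
      rw [Matrix.trace_smul, smul_eq_mul, Complex.re_ofReal_mul]
    rw [h1]
    exact Finset.sum_mul_sq_le_sq_mul_sq _ _ _
  let S : Set (Matrix n n ℂ) := {B | Q B ≤ 1}
  have hSclosed : IsClosed S := isClosed_le hQcont continuous_const
  have hSsub : S ⊆ Set.pi Set.univ (fun _ : n => Set.pi Set.univ (fun _ : n =>
      Metric.closedBall (0 : ℂ) (1 + r))) := by
    intro B hB
    have hB' : Q B ≤ 1 := hB
    intro i _ j _
    rw [Metric.mem_closedBall, dist_zero_right]
    have h1 := hco B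
    have h2 : ‖B i j‖ ^ 2 ≤ ∑ j, ∑ i, ‖B i j‖ ^ 2 := by
      refine le_trans ?_ (Finset.single_le_sum (f := fun j => ∑ i, ‖B i j‖ ^ 2)
        (fun j _ => Finset.sum_nonneg fun i _ => sq_nonneg _) (Finset.mem_univ j))
      exact Finset.single_le_sum (f := fun i => ‖B i j‖ ^ 2) (fun i _ => sq_nonneg _)
        (Finset.mem_univ i)
    set x := ‖B i j‖ with hx
    set y := ∑ j, ∑ i, ‖B i j‖ ^ 2 with hy
    have hx0 : 0 ≤ x := norm_nonneg _
    have h3 : y ^ 2 ≤ r := h1.trans (by nlinarith)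
    by_contra hcon
    push Not at hcon
    have h4 : 1 + r < y := by nlinarith
    nlinarith
  have hScompact : IsCompact S :=
    (isCompact_univ_pi fun _ => isCompact_univ_pi fun _ => isCompact_closedBall _ _).of_isClosed_subset
      hSclosed hSsub
  -- homogeneity
  have hhom : ∀ (s : ℝ) (B : Matrix n n ℂ), Q ((s : ℂ) • B) = s ^ 4 * Q B := by
    intro s B
    rw [hQ, hQ, Finset.mul_sum]
    refine Finset.sum_congr rfl fun a _ => ?_
    have : ((s : ℂ) • B)ᴴ * K a * ((s : ℂ) • B) = ((s ^ 2 : ℝ) : ℂ) • (Bᴴ * K a * B) := by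
      rw [Matrix.conjTranspose_smul, Matrix.smul_mul, Matrix.smul_mul, Matrix.mul_smul, smul_smul,
        Complex.star_def, Complex.conj_ofReal]
      push_cast
      ring_nf
    rw [this, Matrix.trace_smul, smul_eq_mul, Complex.re_ofReal_mul]
    ring
  have hdethom : ∀ (s : ℝ) (B : Matrix n n ℂ), ‖((s : ℂ) • B).det‖ = |s| ^ m * ‖B.det‖ := by
    intro s B
    rw [Matrix.det_smul, norm_mul, norm_pow, Complex.norm_real, Real.norm_eq_abs]
  have hQnn : ∀ B, 0 ≤ Q B := fun B => Finset.sum_nonneg fun a _ => sq_nonneg _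
  -- the maximiser
  have hSne : S.Nonempty := by
    refine ⟨0, ?_⟩
    change Q 0 ≤ 1
    rw [hQ]
    simp
  obtain ⟨B₀, hB₀S, hB₀max⟩ := hScompact.exists_isMaxOn hSne
    (f := fun B : Matrix n n ℂ => ‖B.det‖) (continuous_id.matrix_det.norm.continuousOn)
  have hmax : ∀ B, Q B ≤ 1 → ‖B.det‖ ≤ ‖B₀.det‖ := fun B hB => hB₀max hB
  have hdet0 : 0 < ‖B₀.det‖ := by
    set ε := 1 / (1 + Q 1) with hε
    have hq := hQnn 1
    have hεpos : 0 < ε := by positivity
    have hε1 : ε ≤ 1 := by
      rw [hε, div_le_one (by positivity)]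
      linarith
    have h1 : Q ((ε : ℂ) • 1) ≤ 1 := by
      rw [hhom]
      have h2 : ε * Q 1 ≤ 1 := by
        rw [hε, one_div, inv_mul_le_iff₀ (by positivity)]
        linarith
      calc ε ^ 4 * Q 1 = ε ^ 3 * (ε * Q 1) := by ring
        _ ≤ 1 * 1 := by
          apply mul_le_mul (pow_le_one₀ hεpos.le hε1) h2 (by positivity) (by norm_num)
        _ = 1 := by norm_num
    refine lt_of_lt_of_le ?_ (hmax _ h1)
    rw [hdethom, Matrix.det_one, norm_one, mul_one]
    positivity
  have hineq : ∀ B : Matrix n n ℂ, ‖B.det‖ ^ 4 ≤ ‖B₀.det‖ ^ 4 * Q B ^ m := by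
    intro B
    rcases (hQnn B).eq_or_lt with h0 | h0
    · have h1 := hco B
      rw [← h0, mul_zero] at h1
      have h2 : ∑ j, ∑ i, ‖B i j‖ ^ 2 = 0 := by
        have := sq_nonneg (∑ j, ∑ i, ‖B i j‖ ^ 2)
        exact pow_eq_zero_iff (two_ne_zero) |>.mp (le_antisymm h1 this)
      have h3 : B = 0 := by
        ext i j
        rw [Finset.sum_eq_zero_iff_of_nonneg
          (fun j _ => Finset.sum_nonneg fun i _ => sq_nonneg _)] at h2
        have h4 := h2 j (Finset.mem_univ j)
        rw [Finset.sum_eq_zero_iff_of_nonneg (fun i _ => sq_nonneg _)] at h4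
        have h5 := h4 i (Finset.mem_univ i)
        simpa using h5
      rw [h3, Matrix.det_zero, norm_zero, zero_pow (by norm_num)]
      exact mul_nonneg (by positivity) (pow_nonneg (hQnn _) _)
    · set s := Real.sqrt (Real.sqrt (1 / Q B)) with hs
      have hs4 : s ^ 4 = 1 / Q B := by
        have : s ^ 4 = (s ^ 2) ^ 2 := by ring
        rw [this, hs, Real.sq_sqrt (Real.sqrt_nonneg _), Real.sq_sqrt (by positivity)]
      have hs0 : 0 ≤ s := Real.sqrt_nonneg _
      have h1 : Q ((s : ℂ) • B) ≤ 1 := by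
        rw [hhom, hs4, one_div, inv_mul_cancel₀ h0.ne']
      have h2 := hmax _ h1
      rw [hdethom, abs_of_nonneg hs0] at h2
      have h3 : (s ^ m * ‖B.det‖) ^ 4 ≤ ‖B₀.det‖ ^ 4 := by
        apply pow_le_pow_left₀ (by positivity) h2
      have h4 : (s ^ m * ‖B.det‖) ^ 4 = (1 / Q B) ^ m * ‖B.det‖ ^ 4 := by
        rw [mul_pow, ← pow_mul, mul_comm m 4, pow_mul, hs4]
      rw [h4] at h3
      have h5 : (1 / Q B) ^ m * Q B ^ m = 1 := by
        rw [← mul_pow, one_div, inv_mul_cancel₀ h0.ne', one_pow]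
      calc ‖B.det‖ ^ 4 = ((1 / Q B) ^ m * ‖B.det‖ ^ 4) * Q B ^ m := by
            linear_combination (- ‖B.det‖ ^ 4) * h5
        _ ≤ ‖B₀.det‖ ^ 4 * Q B ^ m := by
            apply mul_le_mul_of_nonneg_right h3 (by positivity)
  have hQ1 : Q B₀ = 1 := by
    have h1 := hineq B₀
    have h2 : Q B₀ ≤ 1 := hB₀S
    by_contra hne
    have h3 : Q B₀ < 1 := lt_of_le_of_ne h2 hne
    have h4 : Q B₀ ^ m < 1 := pow_lt_one₀ (hQnn _) h3 hm0.ne'
    have h5 : 0 < ‖B₀.det‖ ^ 4 := by positivity
    nlinarith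
  refine ⟨B₀, by simpa using hdet0.ne', ?_⟩
  set K' : ι → Matrix n n ℂ := fun a => B₀ᴴ * K a * B₀ with hK'
  have hS' : Sym K' := sym_congr K hS _ _
  set τ : ι → ℝ := fun a => (K' a).trace.re with hτ
  have hτsq : ∑ a, τ a ^ 2 = 1 := hQ1
  have hτ' : ∀ a, (K' a).trace = (τ a : ℂ) := fun a => htr B₀ a
  have hsum : ∑ a, K' a * K' a = ∑ a, (τ a : ℂ) • K' a := by
    have := sym_sum K' hS' 1
    simp only [Matrix.mul_one] at this
    rw [this]
    refine Finset.sum_congr rfl fun a _ => ?_
    rw [hτ']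
  rw [hsum]
  -- quadratic form on unit vectors
  have hunit : ∀ v : n → ℂ, star v ⬝ᵥ v = 1 →
      ∑ a, τ a * (star v ⬝ᵥ (K' a *ᵥ v)).re = 1 / m := by
    intro v hv
    set e : ι → ℝ := fun a => (star v ⬝ᵥ (K' a *ᵥ v)).re with he
    set V : Matrix n n ℂ := vecMulVec v (star v) with hV
    have hVH : Vᴴ = V := by
      rw [hV, Matrix.conjTranspose_vecMulVec, star_star]
    have hVV : V * V = V := by
      rw [hV, Matrix.vecMulVec_mul_vecMulVec, hv, one_smul]
    have hpoly : ∀ t : ℝ, (1 + t) ^ 4 ≤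
        (1 + (2 * ∑ a, τ a * e a) * (2 * t + t ^ 2) + (∑ a, e a ^ 2) * (2 * t + t ^ 2) ^ 2) ^ m := by
      intro t
      have h1 := hineq (B₀ * (1 + (t : ℂ) • V))
      have hd : (1 + (t : ℂ) • V).det = 1 + t := by
        have : (t : ℂ) • V = vecMulVec ((t : ℂ) • v) (star v) := by
          rw [hV, Matrix.smul_vecMulVec]
        rw [this, Matrix.vecMulVec_eq Unit, Matrix.det_one_add_replicateCol_mul_replicateRow,
          dotProduct_smul, hv, smul_eq_mul, mul_one]
      have hq : Q (B₀ * (1 + (t : ℂ) • V)) =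
          1 + (2 * ∑ a, τ a * e a) * (2 * t + t ^ 2) + (∑ a, e a ^ 2) * (2 * t + t ^ 2) ^ 2 := by
        rw [hQ]
        have h3 : ∀ a, ((B₀ * (1 + (t : ℂ) • V))ᴴ * K a * (B₀ * (1 + (t : ℂ) • V))).trace.re =
            τ a + (2 * t + t ^ 2) * e a := by
          intro a
          have h4 : (B₀ * (1 + (t : ℂ) • V))ᴴ * K a * (B₀ * (1 + (t : ℂ) • V)) =
              (1 + (t : ℂ) • V) * K' a * (1 + (t : ℂ) • V) := by
            rw [Matrix.conjTranspose_mul, Matrix.conjTranspose_add, Matrix.conjTranspose_one,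
              Matrix.conjTranspose_smul, hVH, Complex.star_def, Complex.conj_ofReal]
            simp only [hK', Matrix.mul_assoc]
          rw [h4, Matrix.trace_mul_comm, ← Matrix.mul_assoc (1 + (t : ℂ) • V)]
          have h5 : (1 + (t : ℂ) • V) * (1 + (t : ℂ) • V) =
              1 + ((2 * t + t ^ 2 : ℝ) : ℂ) • V := by
            rw [Matrix.add_mul, Matrix.one_mul, Matrix.mul_add, Matrix.mul_one, Matrix.smul_mul,
              Matrix.mul_smul, hVV, smul_smul]
            push_cast
            rw [add_assoc, ← add_smul, ← add_smul]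
            ring_nf
          rw [h5, Matrix.add_mul, Matrix.one_mul, Matrix.trace_add, Matrix.smul_mul,
            Matrix.trace_smul, smul_eq_mul, Complex.add_re, Complex.re_ofReal_mul, hV,
            Matrix.trace_mul_comm (vecMulVec v (star v)), Matrix.mul_vecMulVec,
            Matrix.trace_vecMulVec, dotProduct_comm]
        simp only [h3]
        have h6 : ∀ a, (τ a + (2 * t + t ^ 2) * e a) ^ 2 = τ a ^ 2 +
            2 * (τ a * e a) * (2 * t + t ^ 2) + e a ^ 2 * (2 * t + t ^ 2) ^ 2 := by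
          intro a; ring
        simp only [h6, Finset.sum_add_distrib, hτsq, ← Finset.sum_mul, ← Finset.mul_sum]
      rw [hq, Matrix.det_mul, hd, norm_mul, mul_pow] at h1
      have h7 : ‖(1 + (t : ℂ))‖ ^ 4 = (1 + t) ^ 4 := by
        have : (1 + (t : ℂ)) = ((1 + t : ℝ) : ℂ) := by push_cast; rfl
        rw [this, Complex.norm_real, Real.norm_eq_abs]
        have h8 : |1 + t| ^ 4 = (|1 + t| ^ 2) ^ 2 := by ring
        rw [h8, sq_abs]
        ring
      rw [h7] at h1
      exact le_of_mul_le_mul_left h1 (by positivity)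
    set b := ∑ a, τ a * e a with hb
    set c₂ := ∑ a, e a ^ 2 with hc₂
    let f : ℝ → ℝ := fun t => (1 + (2 * b) * (2 * t + t ^ 2) + c₂ * (2 * t + t ^ 2) ^ 2) ^ m
      - (1 + t) ^ 4
    have hf0 : f 0 = 0 := by simp [f]
    have hmin : IsLocalMin f 0 := by
      refine Filter.Eventually.of_forall fun t => ?_
      rw [hf0]
      exact sub_nonneg.mpr (hpoly t)
    have hder : HasDerivAt f ((m : ℝ) * (4 * b) - 4) 0 := by
      have h1 : HasDerivAt (fun t : ℝ => 2 * t + t ^ 2) 2 0 := by
        have := ((hasDerivAt_id' (0 : ℝ)).const_mul 2).fun_add (hasDerivAt_pow 2 (0 : ℝ))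
        refine this.congr_deriv ?_
        norm_num
      have h2 : HasDerivAt (fun t : ℝ => 1 + (2 * b) * (2 * t + t ^ 2) + c₂ * (2 * t + t ^ 2) ^ 2)
          (4 * b) 0 := by
        have := ((h1.const_mul (2 * b)).const_add 1).fun_add ((h1.fun_pow 2).const_mul c₂)
        refine this.congr_deriv ?_
        norm_num
        ring
      have h3 := h2.fun_pow m
      have h4 : HasDerivAt (fun t : ℝ => (1 + t) ^ 4) 4 0 := by
        have := ((hasDerivAt_id' (0 : ℝ)).const_add 1).fun_pow 4
        refine this.congr_deriv ?_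
        norm_num
      have := h3.fun_sub h4
      refine this.congr_deriv ?_
      norm_num
    have h0 := hmin.hasDerivAt_eq_zero hder
    have hmR : (m : ℝ) ≠ 0 := by exact_mod_cast hm0.ne'
    field_simp
    linarith
  -- conclude
  have hfin : ∑ a, (τ a : ℂ) • K' a - ((1 / (m : ℝ) : ℝ) : ℂ) • (1 : Matrix n n ℂ) = 0 := by
    apply matrix_eq_zero_of_quad
    intro v
    by_cases hv0 : v = 0
    · simp [hv0]
    -- normalise
    have hnn : star v ⬝ᵥ v = ((∑ i, ‖v i‖ ^ 2 : ℝ) : ℂ) := by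
      rw [dotProduct]
      push_cast
      refine Finset.sum_congr rfl fun i _ => ?_
      rw [Pi.star_apply, Complex.star_def, ← Complex.normSq_eq_conj_mul_self,
        Complex.normSq_eq_norm_sq]
      push_cast; rfl
    set N := ∑ i, ‖v i‖ ^ 2 with hN
    have hNpos : 0 < N := by
      obtain ⟨i, hi⟩ := Function.ne_iff.mp hv0
      refine Finset.sum_pos' (fun i _ => sq_nonneg _) ⟨i, Finset.mem_univ i, ?_⟩
      have : 0 < ‖v i‖ := norm_pos_iff.mpr hi
      positivity
    set s := Real.sqrt (1 / N) with hs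
    have hs2 : s ^ 2 = 1 / N := Real.sq_sqrt (by positivity)
    have hu := hunit ((s : ℂ) • v) (by
      rw [star_smul, smul_dotProduct, dotProduct_smul, hnn, smul_eq_mul, smul_eq_mul,
        Complex.star_def, Complex.conj_ofReal, ← mul_assoc, ← Complex.ofReal_mul,
        ← Complex.ofReal_mul, ← sq, hs2, one_div, inv_mul_cancel₀ hNpos.ne', Complex.ofReal_one])
    have hquad : ∀ a, (star v ⬝ᵥ (K' a *ᵥ v)) = ((star v ⬝ᵥ (K' a *ᵥ v)).re : ℂ) := by
      intro a
      have hKH : (K' a).IsHermitian := by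
        simp only [hK']
        rw [Matrix.IsHermitian, Matrix.conjTranspose_mul, Matrix.conjTranspose_mul,
          (hH a).eq, Matrix.conjTranspose_conjTranspose, Matrix.mul_assoc]
      have : (starRingEnd ℂ) (star v ⬝ᵥ (K' a *ᵥ v)) = star v ⬝ᵥ (K' a *ᵥ v) := by
        rw [starRingEnd_apply, ← Matrix.star_dotProduct (K' a *ᵥ v) v, Matrix.star_mulVec,
          hKH.eq, Matrix.dotProduct_mulVec]
      exact (Complex.conj_eq_iff_re.mp this).symm
    have hscal : ∀ a, (star ((s : ℂ) • v) ⬝ᵥ (K' a *ᵥ ((s : ℂ) • v))).re =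
        (1 / N) * (star v ⬝ᵥ (K' a *ᵥ v)).re := by
      intro a
      rw [star_smul, smul_dotProduct, Matrix.mulVec_smul, dotProduct_smul, smul_eq_mul,
        smul_eq_mul, Complex.star_def, Complex.conj_ofReal, ← mul_assoc, ← Complex.ofReal_mul,
        ← sq, hs2, Complex.re_ofReal_mul]
    simp only [hscal] at hu
    have hu' : ∑ a, τ a * (star v ⬝ᵥ (K' a *ᵥ v)).re = (1 / (m : ℝ)) * N := by
      have h1 : ∑ a, τ a * (star v ⬝ᵥ (K' a *ᵥ v)).re =
          N * ∑ a, τ a * (1 / N * (star v ⬝ᵥ (K' a *ᵥ v)).re) := by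
        rw [Finset.mul_sum]
        refine Finset.sum_congr rfl fun a _ => ?_
        field_simp
      rw [h1, hu]
      ring
    rw [Matrix.sub_mulVec, dotProduct_sub, Matrix.smul_mulVec, Matrix.one_mulVec,
      dotProduct_smul, hnn, Matrix.sum_mulVec, dotProduct_sum]
    have h2 : ∀ a, star v ⬝ᵥ (((τ a : ℂ) • K' a) *ᵥ v) =
        ((τ a * (star v ⬝ᵥ (K' a *ᵥ v)).re : ℝ) : ℂ) := by
      intro a
      rw [Matrix.smul_mulVec, dotProduct_smul, smul_eq_mul, Complex.ofReal_mul, ← hquad]
    simp only [h2]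
    rw [← Complex.ofReal_sum, hu', smul_eq_mul, ← Complex.ofReal_mul, sub_self]
  exact sub_eq_zero.mp hfin

theorem core [DecidableEq n] [Nonempty n] (K : ι → Matrix n n ℂ)
    (hH : ∀ a, (K a).IsHermitian) (hS : Sym K) (c : ι → ℝ) (A : Matrix n n ℂ)
    (hA : A.det ≠ 0) (hP : Aᴴ * (∑ a, (c a : ℂ) • K a) * A = 1)
    (hcard : Fintype.card ι ≤ Fintype.card n) :
    ∃ (t : ι → ℝ) (q : n → ℂ), q ≠ 0 ∧ ∑ a, (t a : ℂ) • K a = vecMulVec q (star q) := by
  set m := Fintype.card n with hm
  have hm0 : 0 < m := Fintype.card_pos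
  have hmR : (0 : ℝ) < m := by exact_mod_cast hm0
  obtain ⟨B, hB, hBs⟩ := scaling_one (fun a => Aᴴ * K a * A) (fun a => by
      rw [Matrix.IsHermitian, Matrix.conjTranspose_mul, Matrix.conjTranspose_mul,
          (hH a).eq, Matrix.conjTranspose_conjTranspose, Matrix.mul_assoc])
      (sym_congr K hS _ _) c (by
        rw [← hP, Matrix.mul_sum, Matrix.sum_mul]
        refine Finset.sum_congr rfl fun a _ => ?_
        rw [Matrix.mul_smul, Matrix.smul_mul])
  obtain ⟨C, hC⟩ : ∃ C, C = A * B := ⟨_, rfl⟩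
  have hCdet : C.det ≠ 0 := by
    rw [hC, Matrix.det_mul]; exact mul_ne_zero hA hB
  set σ := Real.sqrt m with hσ
  have hσ2 : σ * σ = m := Real.mul_self_sqrt hmR.le
  set L : ι → Matrix n n ℂ := fun a => (σ : ℂ) • (Cᴴ * K a * C) with hL
  have hLH : ∀ a, (L a).IsHermitian := by
    intro a
    simp only [hL]
    rw [Matrix.IsHermitian, Matrix.conjTranspose_smul, Matrix.conjTranspose_mul,
      Matrix.conjTranspose_mul, (hH a).eq, Matrix.conjTranspose_conjTranspose, Matrix.mul_assoc,
      Complex.star_def, Complex.conj_ofReal]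
  have hLS : Sym L := by
    have := sym_congr K hS ((σ : ℂ) • Cᴴ) C
    simpa only [Matrix.smul_mul] using this
  have hLN : ∑ a, L a * L a = 1 := by
    have h1 : ∀ a, L a * L a = ((m : ℝ) : ℂ) •
        ((Bᴴ * (Aᴴ * K a * A) * B) * (Bᴴ * (Aᴴ * K a * A) * B)) := by
      intro a
      have : Cᴴ * K a * C = Bᴴ * (Aᴴ * K a * A) * B := by
        rw [hC, Matrix.conjTranspose_mul]
        simp only [Matrix.mul_assoc]
      simp only [hL]
      rw [this, Matrix.smul_mul, Matrix.mul_smul, smul_smul, ← Complex.ofReal_mul, hσ2]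
    simp only [h1]
    rw [← Finset.smul_sum, hBs, smul_smul, ← Complex.ofReal_mul, mul_one_div_cancel hmR.ne',
      Complex.ofReal_one, one_smul]
  have hcomm := commute_of_sym L hLH hLS hLN hcard
  obtain ⟨f, hf0, μ, hf⟩ := exists_joint_eigenvector L hLH hcomm
  set F : Matrix n n ℂ := vecMulVec f (star f) with hF
  set N : ℝ := ∑ i, ‖f i‖ ^ 2 with hN
  have hnn : star f ⬝ᵥ f = (N : ℂ) := by
    rw [dotProduct, hN]
    push_cast
    refine Finset.sum_congr rfl fun i _ => ?_
    rw [Pi.star_apply, Complex.star_def, ← Complex.normSq_eq_conj_mul_self,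
      Complex.normSq_eq_norm_sq]
    push_cast; rfl
  have hLF : ∀ a, L a * F = (μ a : ℂ) • F := by
    intro a
    rw [hF, Matrix.mul_vecMulVec, hf, Matrix.smul_vecMulVec]
  have hFL : ∀ a, F * L a = (μ a : ℂ) • F := by
    intro a
    have h1 : star f ᵥ* L a = (μ a : ℂ) • star f := by
      have := congrArg star (hf a)
      rw [Matrix.star_mulVec, (hLH a).eq, star_smul, Complex.star_def, Complex.conj_ofReal] at this
      exact this
    rw [hF, Matrix.vecMulVec_mul, h1, Matrix.vecMulVec_smul]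
  have hμ : ∑ a, ((μ a : ℂ) * μ a) = 1 := by
    have h1 : (∑ a, L a * L a) *ᵥ f = (∑ a, ((μ a : ℂ) * μ a)) • f := by
      rw [Matrix.sum_mulVec, Finset.sum_smul]
      refine Finset.sum_congr rfl fun a _ => ?_
      rw [← Matrix.mulVec_mulVec, hf, Matrix.mulVec_smul, hf, smul_smul]
    rw [hLN, Matrix.one_mulVec] at h1
    obtain ⟨i, hi⟩ := Function.ne_iff.mp hf0
    have h2 := congrFun h1 i
    rw [Pi.smul_apply, smul_eq_mul] at h2
    have hi' : f i ≠ 0 := hi
    have h3 : (∑ a, ((μ a : ℂ) * μ a) - 1) * f i = 0 := by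
      rw [sub_mul, one_mul, ← h2, sub_self]
    rcases mul_eq_zero.mp h3 with h4 | h4
    · exact sub_eq_zero.mp h4
    · exact absurd h4 hi'
  have hmain : ∑ a, ((N * μ a : ℝ) : ℂ) • L a = F := by
    have h1 := sym_sum L hLS F
    have h2 : ∑ a, L a * F * L a = F := by
      have : ∀ a, L a * F * L a = ((μ a : ℂ) * μ a) • F := by
        intro a
        rw [hLF, Matrix.smul_mul, hFL, smul_smul]
      simp only [this]
      rw [← Finset.sum_smul, hμ, one_smul]
    rw [h2] at h1
    rw [h1]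
    refine Finset.sum_congr rfl fun a _ => ?_
    rw [hLF, Matrix.trace_smul, hF, Matrix.trace_vecMulVec, dotProduct_comm, hnn, smul_eq_mul,
      mul_comm, Complex.ofReal_mul]
  have hsum : Cᴴ * (∑ a, ((N * μ a * σ : ℝ) : ℂ) • K a) * C = F := by
    rw [← hmain, Matrix.mul_sum, Matrix.sum_mul]
    refine Finset.sum_congr rfl fun a _ => ?_
    simp only [hL]
    rw [Matrix.mul_smul, Matrix.smul_mul, smul_smul, ← Complex.ofReal_mul]
  have hCu : IsUnit C.det := isUnit_iff_ne_zero.mpr hCdet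
  have hCHu : IsUnit Cᴴ.det := by
    rw [Matrix.det_conjTranspose]
    exact hCu.star
  refine ⟨fun a => N * μ a * σ, (C⁻¹)ᴴ *ᵥ f, ?_, ?_⟩
  · intro h
    apply hf0
    have h1 := congrArg (fun v => Cᴴ *ᵥ v) h
    simp only [Matrix.mulVec_mulVec, Matrix.mulVec_zero] at h1
    rw [← Matrix.conjTranspose_mul, Matrix.nonsing_inv_mul _ hCu, Matrix.conjTranspose_one,
      Matrix.one_mulVec] at h1
    exact h1
  · rw [Matrix.star_mulVec, Matrix.conjTranspose_conjTranspose, ← Matrix.vecMulVec_mul,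
      ← Matrix.mul_vecMulVec]
    have h1 : ∑ a, ((N * μ a * σ : ℝ) : ℂ) • K a = (C⁻¹)ᴴ * F * C⁻¹ := by
      rw [← hsum]
      have h2 : (C⁻¹)ᴴ * Cᴴ = 1 := by
        rw [← Matrix.conjTranspose_mul, Matrix.mul_nonsing_inv _ hCu, Matrix.conjTranspose_one]
      have h3 : C * C⁻¹ = 1 := Matrix.mul_nonsing_inv _ hCu
      calc ∑ a, ((N * μ a * σ : ℝ) : ℂ) • K a
          = ((C⁻¹)ᴴ * Cᴴ) * (∑ a, ((N * μ a * σ : ℝ) : ℂ) • K a) * (C * C⁻¹) := by
            rw [h2, h3, Matrix.one_mul, Matrix.mul_one]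
        _ = _ := by simp only [Matrix.mul_assoc]
    rw [h1]

theorem core_psd [DecidableEq n] (K : ι → Matrix n n ℂ)
    (hH : ∀ a, (K a).IsHermitian) (hS : Sym K) (c : ι → ℝ) (R : Matrix n n ℂ)
    (hRc : ∑ a, (c a : ℂ) • K a = R) (hR2 : ∑ a, K a * K a = R)
    (hι : 1 ≤ Fintype.card ι)
    (hcard : ((Fintype.card ι : ℝ) - 1) * (trace (R * R)).re < (trace R).re ^ 2) :
    ∃ (t : ι → ℝ) (q : n → ℂ), q ≠ 0 ∧ ∑ a, (t a : ℂ) • K a = vecMulVec q (star q) := by
  classical
  have hRH : R.IsHermitian := by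
    rw [← hR2]
    unfold Matrix.IsHermitian
    rw [Matrix.conjTranspose_sum]
    refine Finset.sum_congr rfl fun a _ => ?_
    rw [Matrix.conjTranspose_mul, (hH a).eq]
  obtain ⟨U, hU⟩ : ∃ U : Matrix n n ℂ, U = (hRH.eigenvectorUnitary : Matrix n n ℂ) := ⟨_, rfl⟩
  set ev := hRH.eigenvalues with hev
  have hUU : Uᴴ * U = 1 := by
    rw [hU, ← Matrix.star_eq_conjTranspose]
    exact Unitary.coe_star_mul_self _
  have hUU' : U * Uᴴ = 1 := by
    rw [hU, ← Matrix.star_eq_conjTranspose]
    exact Unitary.coe_mul_star_self _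
  have hRU : Uᴴ * R * U = diagonal (fun i => (ev i : ℂ)) := by
    have := hRH.conjStarAlgAut_star_eigenvectorUnitary
    rw [Unitary.conjStarAlgAut_star_apply] at this
    rw [hU, ← Matrix.star_eq_conjTranspose]
    exact this
  set K' : ι → Matrix n n ℂ := fun a => Uᴴ * K a * U with hK'
  have hK'S : Sym K' := sym_congr K hS _ _
  have hK'H : ∀ a, (K' a).IsHermitian := by
    intro a
    simp only [hK']
    rw [Matrix.IsHermitian, Matrix.conjTranspose_mul, Matrix.conjTranspose_mul,
      (hH a).eq, Matrix.conjTranspose_conjTranspose, Matrix.mul_assoc]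
  have hK'R : ∑ a, K' a * K' a = diagonal (fun i => (ev i : ℂ)) := by
    rw [← hRU, ← hR2, Matrix.mul_sum, Matrix.sum_mul]
    refine Finset.sum_congr rfl fun a _ => ?_
    simp only [hK']
    calc Uᴴ * K a * U * (Uᴴ * K a * U) = Uᴴ * K a * (U * Uᴴ) * K a * U := by
          simp only [Matrix.mul_assoc]
      _ = Uᴴ * (K a * K a) * U := by
          rw [hUU', Matrix.mul_one]; simp only [Matrix.mul_assoc]
  have hK'c : ∑ a, (c a : ℂ) • K' a = diagonal (fun i => (ev i : ℂ)) := by
    rw [← hRU, ← hRc, Matrix.mul_sum, Matrix.sum_mul]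
    refine Finset.sum_congr rfl fun a _ => ?_
    rw [Matrix.mul_smul, Matrix.smul_mul]
  -- diagonal entries
  have hdiag : ∀ i, ∑ a, ∑ j, ‖K' a i j‖ ^ 2 = ev i := by
    intro i
    have h1 := congrFun (congrFun hK'R i) i
    rw [Matrix.diagonal_apply_eq, Matrix.sum_apply] at h1
    have h2 : ∀ a, (K' a * K' a) i i = ((∑ j, ‖K' a i j‖ ^ 2 : ℝ) : ℂ) := by
      intro a
      rw [Matrix.mul_apply]
      push_cast
      refine Finset.sum_congr rfl fun j _ => ?_
      have h3 : K' a j i = star (K' a i j) := by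
        have := congrFun (congrFun (hK'H a).eq j) i
        rw [Matrix.conjTranspose_apply] at this
        exact this.symm
      rw [h3, Complex.star_def, Complex.mul_conj, Complex.normSq_eq_norm_sq]
      push_cast; rfl
    simp only [h2] at h1
    exact_mod_cast h1
  have hev0 : ∀ i, 0 ≤ ev i := by
    intro i
    rw [← hdiag i]
    exact Finset.sum_nonneg fun a _ => Finset.sum_nonneg fun j _ => sq_nonneg _
  have hzero : ∀ i, ev i = 0 → ∀ a j, K' a i j = 0 := by
    intro i hi a j
    have h1 := hdiag i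
    rw [hi, Finset.sum_eq_zero_iff_of_nonneg
      (fun a _ => Finset.sum_nonneg fun j _ => sq_nonneg _)] at h1
    have h2 := h1 a (Finset.mem_univ a)
    rw [Finset.sum_eq_zero_iff_of_nonneg (fun j _ => sq_nonneg _)] at h2
    have h3 := h2 j (Finset.mem_univ j)
    simpa using h3
  have hzero' : ∀ i, ev i = 0 → ∀ a j, K' a j i = 0 := by
    intro i hi a j
    have h3 : K' a j i = star (K' a i j) := by
      have := congrFun (congrFun (hK'H a).eq j) i
      rw [Matrix.conjTranspose_apply] at this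
      exact this.symm
    rw [h3, hzero i hi, star_zero]
  -- traces
  have htr1 : (trace R).re = ∑ i, ev i := by
    rw [hRH.trace_eq_sum_eigenvalues]
    simp [hev]
  have htr2 : (trace (R * R)).re = ∑ i, ev i ^ 2 := by
    have h1 : trace (R * R) = trace ((Uᴴ * R * U) * (Uᴴ * R * U)) := by
      have : (Uᴴ * R * U) * (Uᴴ * R * U) = Uᴴ * (R * R * U) := by
        calc (Uᴴ * R * U) * (Uᴴ * R * U) = Uᴴ * R * (U * Uᴴ) * R * U := by
              simp only [Matrix.mul_assoc]
          _ = _ := by rw [hUU', Matrix.mul_one]; simp only [Matrix.mul_assoc]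
      rw [this, Matrix.trace_mul_comm Uᴴ, Matrix.mul_assoc (R * R), hUU', Matrix.mul_one]
    rw [h1, hRU, Matrix.diagonal_mul_diagonal, Matrix.trace_diagonal, Complex.re_sum]
    refine Finset.sum_congr rfl fun i _ => ?_
    rw [← Complex.ofReal_mul, Complex.ofReal_re, sq]
  have hs1 : ∑ i, ev i = ∑ i : {i : n // ev i ≠ 0}, ev i := by
    rw [← Finset.sum_subtype (Finset.univ.filter (fun i => ev i ≠ 0)) (by simp) ev,
      Finset.sum_filter_ne_zero]
  have hs2 : ∑ i : {i : n // ev i ≠ 0}, ev i ^ 2 ≤ ∑ i, ev i ^ 2 := by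
    rw [← Finset.sum_subtype (Finset.univ.filter (fun i => ev i ≠ 0)) (by simp) (fun i => ev i ^ 2)]
    exact Finset.sum_le_sum_of_subset_of_nonneg (Finset.filter_subset _ _)
      (fun i _ _ => sq_nonneg _)
  have hCS : (∑ i : {i : n // ev i ≠ 0}, ev i) ^ 2 ≤
      (Fintype.card {i : n // ev i ≠ 0}) * ∑ i : {i : n // ev i ≠ 0}, ev i ^ 2 := by
    have := sq_sum_le_card_mul_sum_sq (s := (Finset.univ : Finset {i : n // ev i ≠ 0}))
      (f := fun i => ev i)
    rwa [Finset.card_univ] at this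
  have hcard' : Fintype.card ι ≤ Fintype.card {i : n // ev i ≠ 0} := by
    by_contra hcon
    push Not at hcon
    have h1 : (Fintype.card {i : n // ev i ≠ 0} : ℝ) ≤ (Fintype.card ι : ℝ) - 1 := by
      have : Fintype.card {i : n // ev i ≠ 0} + 1 ≤ Fintype.card ι := hcon
      have h2 : ((Fintype.card {i : n // ev i ≠ 0} + 1 : ℕ) : ℝ) ≤ (Fintype.card ι : ℝ) := by
        exact_mod_cast this
      push_cast at h2
      linarith
    rw [htr1, htr2, hs1] at hcard
    have h3 : 0 ≤ ∑ i, ev i ^ 2 := Finset.sum_nonneg fun i _ => sq_nonneg _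
    have h4 : (0 : ℝ) ≤ (Fintype.card {i : n // ev i ≠ 0} : ℝ) := by positivity
    have h5 : (Fintype.card {i : n // ev i ≠ 0} : ℝ) * ∑ i : {i : n // ev i ≠ 0}, ev i ^ 2 ≤
        ((Fintype.card ι : ℝ) - 1) * ∑ i, ev i ^ 2 := by
      calc (Fintype.card {i : n // ev i ≠ 0} : ℝ) * ∑ i : {i : n // ev i ≠ 0}, ev i ^ 2
          ≤ (Fintype.card {i : n // ev i ≠ 0} : ℝ) * ∑ i, ev i ^ 2 :=
            mul_le_mul_of_nonneg_left hs2 h4
        _ ≤ _ := mul_le_mul_of_nonneg_right h1 h3
    linarith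
  have hne : Nonempty {i : n // ev i ≠ 0} := by
    rw [← Fintype.card_pos_iff]
    omega
  -- restricted family
  set K'' : ι → Matrix {i : n // ev i ≠ 0} {i : n // ev i ≠ 0} ℂ :=
    fun a => (K' a).submatrix Subtype.val Subtype.val with hK''
  have hK''H : ∀ a, (K'' a).IsHermitian := fun a => (hK'H a).submatrix _
  have hK''S : Sym K'' := fun p q r s => hK'S p.1 q.1 r.1 s.1
  have hK''c : ∑ a, (c a : ℂ) • K'' a =
      diagonal (fun i : {i : n // ev i ≠ 0} => (ev i : ℂ)) := by
    ext i j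
    have h1 := congrFun (congrFun hK'c i.1) j.1
    rw [Matrix.sum_apply] at h1 ⊢
    have h2 : ∑ a, ((c a : ℂ) • K'' a) i j = ∑ a, ((c a : ℂ) • K' a) i.1 j.1 := rfl
    rw [h2, h1]
    by_cases hij : i = j
    · rw [hij, Matrix.diagonal_apply_eq, Matrix.diagonal_apply_eq]
    · rw [Matrix.diagonal_apply_ne _ hij, Matrix.diagonal_apply_ne]
      exact fun h => hij (Subtype.ext h)
  have hpos : ∀ i : {i : n // ev i ≠ 0}, 0 < ev i := fun i =>
    lt_of_le_of_ne (hev0 i.1) (Ne.symm i.2)
  obtain ⟨t, q, hq, htq⟩ := core K'' hK''H hK''S c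
    (diagonal (fun i : {i : n // ev i ≠ 0} => (((Real.sqrt (ev i))⁻¹ : ℝ) : ℂ))) (by
      rw [Matrix.det_diagonal, Finset.prod_ne_zero_iff]
      intro i _
      have := Real.sqrt_pos.mpr (hpos i)
      exact_mod_cast (inv_pos.mpr this).ne') (by
      rw [hK''c, Matrix.diagonal_conjTranspose, Matrix.diagonal_mul_diagonal,
        Matrix.diagonal_mul_diagonal, ← Matrix.diagonal_one]
      congr 1
      funext i
      rw [Pi.star_apply, Complex.star_def, Complex.conj_ofReal, ← Complex.ofReal_mul,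
        ← Complex.ofReal_mul]
      have h1 := Real.sqrt_pos.mpr (hpos i)
      have h2 := Real.mul_self_sqrt (hpos i).le
      have h3 : (Real.sqrt (ev i))⁻¹ * ev i * (Real.sqrt (ev i))⁻¹ = 1 := by
        rw [mul_comm, ← mul_assoc, ← mul_inv, h2, inv_mul_cancel₀ (hpos i).ne']
      rw [h3, Complex.ofReal_one]) hcard'
  set q' : n → ℂ := fun i => if h : ev i ≠ 0 then q ⟨i, h⟩ else 0 with hq'
  have hq'0 : q' ≠ 0 := by
    obtain ⟨i, hi⟩ := Function.ne_iff.mp hq
    intro h
    apply hi
    have h1 := congrFun h i.1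
    simp only [hq', dif_pos i.2] at h1
    simpa using h1
  have hsum' : ∑ a, (t a : ℂ) • K' a = vecMulVec q' (star q') := by
    ext i j
    rw [Matrix.sum_apply, Matrix.vecMulVec_apply, Pi.star_apply]
    by_cases hi : ev i ≠ 0
    · by_cases hj : ev j ≠ 0
      · have h1 := congrFun (congrFun htq ⟨i, hi⟩) ⟨j, hj⟩
        rw [Matrix.sum_apply, Matrix.vecMulVec_apply, Pi.star_apply] at h1
        simp only [hq', dif_pos hi, dif_pos hj]
        exact h1
      · push Not at hj
        have h2 : ∀ a, ((t a : ℂ) • K' a) i j = 0 := by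
          intro a
          rw [Matrix.smul_apply, hzero' j hj, smul_zero]
        simp only [h2, Finset.sum_const_zero]
        have : q' j = 0 := by simp [hq', hj]
        rw [this, star_zero, mul_zero]
    · push Not at hi
      have h2 : ∀ a, ((t a : ℂ) • K' a) i j = 0 := by
        intro a
        rw [Matrix.smul_apply, hzero i hi, smul_zero]
      simp only [h2, Finset.sum_const_zero]
      have : q' i = 0 := by simp [hq', hi]
      rw [this, zero_mul]
  refine ⟨t, U *ᵥ q', ?_, ?_⟩
  · intro h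
    apply hq'0
    have h1 := congrArg (fun v => Uᴴ *ᵥ v) h
    simp only [Matrix.mulVec_mulVec, Matrix.mulVec_zero] at h1
    rw [hUU, Matrix.one_mulVec] at h1
    exact h1
  · rw [Matrix.star_mulVec, ← Matrix.vecMulVec_mul, ← Matrix.mul_vecMulVec, ← hsum',
      Matrix.mul_sum, Matrix.sum_mul]
    refine Finset.sum_congr rfl fun a _ => ?_
    rw [Matrix.mul_smul, Matrix.smul_mul]
    congr 1
    simp only [hK']
    calc K a = (U * Uᴴ) * K a * (U * Uᴴ) := by rw [hUU', Matrix.one_mul, Matrix.mul_one]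
      _ = _ := by simp only [Matrix.mul_assoc]

end Core

section Model

variable {n : Type*} [Fintype n] [DecidableEq n]

/-- Real model of Hermitian matrices. -/
noncomputable def hmat (M : EuclideanSpace ℝ (n × n)) : Matrix n n ℂ :=
  Matrix.of fun i j => ((1 + Complex.I) / 2) * (M (i, j) : ℂ) + ((1 - Complex.I) / 2) * (M (j, i) : ℂ)

/-- Inverse of the real model. -/
noncomputable def gvec (X : Matrix n n ℂ) : EuclideanSpace ℝ (n × n) :=
  WithLp.toLp 2 fun ij => (X ij.1 ij.2).re + (X ij.1 ij.2).im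

omit [Fintype n] [DecidableEq n] in
theorem hmat_apply (M : EuclideanSpace ℝ (n × n)) (i j : n) :
    hmat M i j = ((1 + Complex.I) / 2) * (M (i, j) : ℂ) + ((1 - Complex.I) / 2) * (M (j, i) : ℂ) :=
  rfl

omit [Fintype n] [DecidableEq n] in
theorem hmat_isHermitian (M : EuclideanSpace ℝ (n × n)) : (hmat M).IsHermitian := by
  ext i j
  rw [Matrix.conjTranspose_apply, hmat_apply, hmat_apply, Complex.star_def]
  simp only [map_add, map_mul, map_div₀, map_one, map_sub, Complex.conj_I, Complex.conj_ofReal,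
    map_ofNat]
  ring

omit [Fintype n] [DecidableEq n] in
theorem hmat_gvec (X : Matrix n n ℂ) (hX : X.IsHermitian) : hmat (gvec X) = X := by
  ext i j
  rw [hmat_apply]
  have h1 : X j i = star (X i j) := by
    have := congrFun (congrFun hX.eq j) i
    rw [Matrix.conjTranspose_apply] at this
    exact this.symm
  have e1 : (gvec X) (i, j) = (X i j).re + (X i j).im := rfl
  have e2 : (gvec X) (j, i) = (X i j).re - (X i j).im := by
    change (X j i).re + (X j i).im = _
    rw [h1, Complex.star_def, Complex.conj_re, Complex.conj_im]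
    ring
  rw [e1, e2]
  apply Complex.ext
  · simp
    ring
  · simp
    ring

omit [Fintype n] [DecidableEq n] in
theorem hmat_add (M M' : EuclideanSpace ℝ (n × n)) : hmat (M + M') = hmat M + hmat M' := by
  ext i j
  rw [Matrix.add_apply, hmat_apply, hmat_apply, hmat_apply, PiLp.add_apply, PiLp.add_apply]
  push_cast
  ring

omit [Fintype n] [DecidableEq n] in
theorem hmat_smul (c : ℝ) (M : EuclideanSpace ℝ (n × n)) : hmat (c • M) = (c : ℂ) • hmat M := by
  ext i j
  rw [Matrix.smul_apply, hmat_apply, hmat_apply, PiLp.smul_apply, PiLp.smul_apply]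
  simp only [smul_eq_mul]
  push_cast
  ring

omit [DecidableEq n] in
theorem trace_hmat_mul (M M' : EuclideanSpace ℝ (n × n)) :
    trace (hmat M * hmat M') = ((inner ℝ M M' : ℝ) : ℂ) := by
  have h1 : (inner ℝ M M' : ℝ) = ∑ i, ∑ j, M (i, j) * M' (i, j) := by
    rw [EuclideanSpace.inner_eq_star_dotProduct, dotProduct, Fintype.sum_prod_type]
    refine Finset.sum_congr rfl fun i _ => Finset.sum_congr rfl fun j _ => ?_
    simp [mul_comm]
  rw [h1]
  simp only [Matrix.trace, Matrix.diag, Matrix.mul_apply, hmat_apply]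
  have h2 : ∀ i j, ((1 + Complex.I) / 2 * (M (i, j) : ℂ) + (1 - Complex.I) / 2 * (M (j, i) : ℂ)) *
      ((1 + Complex.I) / 2 * (M' (j, i) : ℂ) + (1 - Complex.I) / 2 * (M' (i, j) : ℂ)) =
      ((1 + Complex.I) / 2) ^ 2 * ((M (i, j) : ℂ) * M' (j, i)) +
      ((1 - Complex.I) / 2) ^ 2 * ((M (j, i) : ℂ) * M' (i, j)) +
      ((1 + Complex.I) / 2) * ((1 - Complex.I) / 2) * ((M (i, j) : ℂ) * M' (i, j)) +
      ((1 + Complex.I) / 2) * ((1 - Complex.I) / 2) * ((M (j, i) : ℂ) * M' (j, i)) := by
    intro i j; ring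
  simp only [h2, Finset.sum_add_distrib, ← Finset.mul_sum]
  have h3 : ∑ i, ∑ j, ((M (j, i) : ℂ) * M' (i, j)) = ∑ i, ∑ j, ((M (i, j) : ℂ) * M' (j, i)) :=
    Finset.sum_comm
  have h4 : ∑ i, ∑ j, ((M (j, i) : ℂ) * M' (j, i)) = ∑ i, ∑ j, ((M (i, j) : ℂ) * M' (i, j)) :=
    Finset.sum_comm
  rw [h3, h4]
  push_cast
  have hI : Complex.I ^ 2 = -1 := Complex.I_sq
  linear_combination (1/2 * ∑ i, ∑ j, ((M (i, j) : ℂ) * M' (j, i)) -
    1/2 * ∑ i, ∑ j, ((M (i, j) : ℂ) * M' (i, j))) * hI

omit [Fintype n] in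
/-- Converting the real coordinate identity into the complex tensor symmetry. -/
theorem tensor_of_real {ι κ : Type*} [Fintype ι] [Fintype κ] (m : ι → EuclideanSpace ℝ (n × n))
    (x : κ → n → ℂ) (D : ℝ)
    (h : ∀ a b : n × n, ∑ i, m i a * m i b +
      ∑ j, gvec (vecMulVec (x j) (star (x j))) a * gvec (vecMulVec (x j) (star (x j))) b =
      D * ((if a = b then 1 else 0) + (if a.1 = a.2 then 1 else 0) * (if b.1 = b.2 then 1 else 0))) :
    Sym (fun i => hmat (m i)) := by
  have key : ∀ p q r s, ∑ i, hmat (m i) p q * hmat (m i) r s =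
      (D : ℂ) * ((if p = s then 1 else 0) * (if q = r then 1 else 0) +
        (if p = q then 1 else 0) * (if r = s then 1 else 0)) -
      ∑ j, x j p * star (x j q) * (x j r * star (x j s)) := by
    intro p q r s
    have hX : ∀ j, vecMulVec (x j) (star (x j)) = hmat (gvec (vecMulVec (x j) (star (x j)))) := by
      intro j
      rw [hmat_gvec]
      rw [Matrix.IsHermitian, Matrix.conjTranspose_vecMulVec, star_star]
    have hX' : ∀ j p q, x j p * star (x j q) = hmat (gvec (vecMulVec (x j) (star (x j)))) p q := by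
      intro j p q
      rw [← hX]; rfl
    simp only [hX']
    simp only [hmat_apply]
    have h2 : ∀ u v w z : ℂ, ((1 + Complex.I) / 2 * u + (1 - Complex.I) / 2 * v) *
      ((1 + Complex.I) / 2 * w + (1 - Complex.I) / 2 * z) =
      (Complex.I / 2) * (u * w) - (Complex.I / 2) * (v * z) + (1 / 2) * (u * z)
        + (1 / 2) * (v * w) := by
      intro u v w z
      have hI : Complex.I ^ 2 = -1 := Complex.I_sq
      linear_combination (1/4 * u * w + 1/4 * v * z - 1/4 * u * z - 1/4 * v * w) * hI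
    simp only [h2, Finset.sum_add_distrib, Finset.sum_sub_distrib, ← Finset.mul_sum]
    have hc : ∀ a b : n × n, (∑ i, (m i a : ℂ) * (m i b : ℂ)) +
      ∑ j, (gvec (vecMulVec (x j) (star (x j))) a : ℂ) *
        (gvec (vecMulVec (x j) (star (x j))) b : ℂ) =
      (D : ℂ) * ((if a = b then 1 else 0) +
        (if a.1 = a.2 then 1 else 0) * (if b.1 = b.2 then 1 else 0)) := by
      intro a b
      have := congrArg (fun t : ℝ => (t : ℂ)) (h a b)
      simp only at this
      push_cast at this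
      have e : ∀ (P : Prop) [Decidable P], (((if P then (1 : ℝ) else 0) : ℝ) : ℂ) =
          if P then 1 else 0 := by
        intro P _; split_ifs <;> simp
      simp only [e] at this
      exact this
    have c1 := hc (p, q) (r, s)
    have c2 := hc (q, p) (s, r)
    have c3 := hc (p, q) (s, r)
    have c4 := hc (q, p) (r, s)
    simp only [Prod.mk.injEq] at c1 c2 c3 c4
    have e1 : (if (q = s ∧ p = r) then (1 : ℂ) else 0) = (if (p = r ∧ q = s) then (1 : ℂ) else 0) := by
      simp only [and_comm]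
    have e2 : (if (q = r ∧ p = s) then (1 : ℂ) else 0) = (if p = s then 1 else 0) * (if q = r then 1 else 0) := by
      by_cases h1 : p = s <;> by_cases h2 : q = r <;> simp [h1, h2]
    have e3 : (if (p = s ∧ q = r) then (1 : ℂ) else 0) = (if p = s then 1 else 0) * (if q = r then 1 else 0) := by
      by_cases h1 : p = s <;> by_cases h2 : q = r <;> simp [h1, h2]
    have e4 : (if q = p then (1 : ℂ) else 0) = (if p = q then (1 : ℂ) else 0) := by
      simp only [eq_comm]
    have e5 : (if s = r then (1 : ℂ) else 0) = (if r = s then (1 : ℂ) else 0) := by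
      simp only [eq_comm]
    rw [e1, e4, e5] at c2
    rw [e3, e5] at c3
    rw [e2, e4] at c4
    linear_combination (Complex.I / 2) * c1 - (Complex.I / 2) * c2 + (1 / 2) * c3 + (1 / 2) * c4
  intro p q r s
  simp only
  rw [key, key]
  have e1 : (if s = r then (1 : ℂ) else 0) = (if r = s then (1 : ℂ) else 0) := by
    simp only [eq_comm]
  have e2 : (if r = q then (1 : ℂ) else 0) = (if q = r then (1 : ℂ) else 0) := by
    simp only [eq_comm]
  have e3 : ∑ j, x j p * star (x j q) * (x j r * star (x j s)) =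
      ∑ j, x j p * star (x j s) * (x j r * star (x j q)) := by
    refine Finset.sum_congr rfl fun j _ => ?_
    ring
  rw [e1, e2, e3]
  ring

omit [DecidableEq n] in
theorem inner_gvec (X Y : Matrix n n ℂ) (hX : X.IsHermitian) (hY : Y.IsHermitian) :
    ((inner ℝ (gvec X) (gvec Y) : ℝ) : ℂ) = trace (X * Y) := by
  rw [← trace_hmat_mul, hmat_gvec X hX, hmat_gvec Y hY]

omit [Fintype n] [DecidableEq n] in
theorem proj_isHermitian (x : n → ℂ) : (vecMulVec x (star x)).IsHermitian := by
  rw [Matrix.IsHermitian, Matrix.conjTranspose_vecMulVec, star_star]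

omit [DecidableEq n] in
theorem trace_proj_mul (x y : n → ℂ) :
    trace (vecMulVec x (star x) * vecMulVec y (star y)) = ((‖star x ⬝ᵥ y‖ ^ 2 : ℝ) : ℂ) := by
  rw [Matrix.vecMulVec_mul_vecMulVec, Matrix.vecMulVec_smul, Matrix.trace_smul,
    Matrix.trace_vecMulVec, smul_eq_mul]
  have h1 : x ⬝ᵥ star y = star (star x ⬝ᵥ y) := by
    rw [← Matrix.star_dotProduct_star, star_star, dotProduct_comm]
  rw [h1, Complex.star_def, Complex.mul_conj, Complex.normSq_eq_norm_sq]

/-- One extension step. -/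
theorem extend_one {κ : Type*} [Fintype κ] (x : κ → n → ℂ) (d : ℕ) (hd : Fintype.card n = d)
    (hx : ∀ i, star (x i) ⬝ᵥ x i = 1)
    (hxy : ∀ i j, i ≠ j → ‖star (x i) ⬝ᵥ x j‖ ^ 2 = 1 / ((d : ℝ) + 1))
    (hN : Fintype.card κ < d ^ 2)
    (hk : ((d : ℝ) ^ 2 - Fintype.card κ - 1) ^ 2 < d + 1) :
    ∃ q : n → ℂ, q ≠ 0 ∧ ∀ i, ‖star (x i) ⬝ᵥ q‖ ^ 2 = (star q ⬝ᵥ q).re / ((d : ℝ) + 1) := by
  classical
  set N := Fintype.card κ with hNdef
  have hNR : (N : ℝ) < (d : ℝ) ^ 2 := by exact_mod_cast hN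
  have hdpos : 0 < d := by
    rcases Nat.eq_zero_or_pos d with h | h
    · rw [h] at hN; simp at hN
    · exact h
  have hdR : (0 : ℝ) < d := by exact_mod_cast hdpos
  set k : ℝ := (d : ℝ) ^ 2 - N with hkdef
  have hk0 : 0 < k := by rw [hkdef]; linarith
  set D : ℝ := d / (d + 1) with hD
  have hD0 : 0 < D := by positivity
  have hDd : D * (d + 1) = d := by
    rw [hD]; field_simp
  set P : κ → Matrix n n ℂ := fun i => vecMulVec (x i) (star (x i)) with hP
  set p : κ → EuclideanSpace ℝ (n × n) := fun i => gvec (P i) with hp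
  set τ : EuclideanSpace ℝ (n × n) := gvec 1 with hτ
  set ρ : EuclideanSpace ℝ (n × n) := (d : ℝ) • τ - ∑ i, p i with hρ
  -- Gram data
  have hpp : ∀ i, (inner ℝ (p i) (p i) : ℝ) = 1 := by
    intro i
    have h1 := inner_gvec (P i) (P i) (proj_isHermitian _) (proj_isHermitian _)
    rw [trace_proj_mul, hx] at h1
    simp only [hp]
    have h2 := Complex.ofReal_injective h1
    rw [h2]; simp
  have hpq : ∀ i j, i ≠ j → (inner ℝ (p i) (p j) : ℝ) = 1 / (d + 1) := by
    intro i j hij
    have h1 := inner_gvec (P i) (P j) (proj_isHermitian _) (proj_isHermitian _)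
    rw [trace_proj_mul, hxy i j hij] at h1
    exact Complex.ofReal_injective h1
  have hpτ : ∀ i, (inner ℝ (p i) τ : ℝ) = 1 := by
    intro i
    have h1 := inner_gvec (P i) 1 (proj_isHermitian _) Matrix.isHermitian_one
    rw [Matrix.mul_one, Matrix.trace_vecMulVec, dotProduct_comm, hx] at h1
    exact_mod_cast h1
  have hττ : (inner ℝ τ τ : ℝ) = d := by
    have h1 := inner_gvec (1 : Matrix n n ℂ) 1 Matrix.isHermitian_one Matrix.isHermitian_one
    rw [Matrix.mul_one, Matrix.trace_one, hd] at h1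
    exact_mod_cast h1
  have hsump : ∀ j, ∑ i, (inner ℝ (p i) (p j) : ℝ) = D + N / (d + 1) := by
    intro j
    have h1 : ∀ i, (inner ℝ (p i) (p j) : ℝ) = (if i = j then D else 0) + 1 / (d + 1) := by
      intro i
      by_cases h : i = j
      · rw [if_pos h, h, hpp, hD]; field_simp
      · rw [if_neg h, hpq i j h, zero_add]
    simp only [h1, Finset.sum_add_distrib, Finset.sum_ite_eq', Finset.mem_univ, if_true,
      Finset.sum_const, Finset.card_univ, ← hNdef, nsmul_eq_mul]
    ring
  have hρp : ∀ j, (inner ℝ ρ (p j) : ℝ) = k / (d + 1) := by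
    intro j
    rw [hρ, inner_sub_left, inner_smul_left, sum_inner, hsump, real_inner_comm, hpτ]
    simp only [conj_trivial]
    rw [hkdef, hD]
    field_simp
    ring
  have hρτ : (inner ℝ ρ τ : ℝ) = k := by
    rw [hρ, inner_sub_left, inner_smul_left, sum_inner, hττ]
    simp only [hpτ, conj_trivial, Finset.sum_const, Finset.card_univ, ← hNdef, nsmul_eq_mul]
    rw [hkdef]; ring
  have hρρ : (inner ℝ ρ ρ : ℝ) = k * (d + k) / (d + 1) := by
    have h1 : (inner ℝ ρ ρ : ℝ) = d * inner ℝ ρ τ - ∑ i, inner ℝ ρ (p i) := by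
      conv_lhs => rw [hρ, inner_sub_right, inner_smul_right, inner_sum]
    rw [h1, hρτ]
    simp only [hρp, Finset.sum_const, Finset.card_univ, ← hNdef, nsmul_eq_mul]
    have : (N : ℝ) = (d : ℝ) ^ 2 - k := by rw [hkdef]; ring
    rw [this]
    field_simp
    ring
  -- independence
  let u : Option κ → EuclideanSpace ℝ (n × n) := fun o => o.elim τ p
  have hu : LinearIndependent ℝ u := by
    rw [Fintype.linearIndependent_iff]
    intro g hg
    rw [Fintype.sum_option] at hg
    change g none • τ + ∑ i, g (some i) • p i = 0 at hg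
    have hj : ∀ j, g none + D * g (some j) + (∑ i, g (some i)) / (d + 1) = 0 := by
      intro j
      have h1 := congrArg (fun v => (inner ℝ v (p j) : ℝ)) hg
      simp only [inner_add_left, inner_smul_left, sum_inner, inner_zero_left, conj_trivial] at h1
      rw [real_inner_comm, hpτ] at h1
      have h2 : ∀ i, g (some i) * (inner ℝ (p i) (p j) : ℝ) =
          (if i = j then D * g (some i) else 0) + g (some i) / (d + 1) := by
        intro i
        by_cases h : i = j
        · rw [if_pos h, h, hpp, hD]; field_simp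
        · rw [if_neg h, hpq i j h, zero_add]; ring
      simp only [h2, Finset.sum_add_distrib, Finset.sum_ite_eq', Finset.mem_univ, if_true,
        ← Finset.sum_div] at h1
      linarith
    have hτ0 : g none * d + ∑ i, g (some i) = 0 := by
      have h1 := congrArg (fun v => (inner ℝ v τ : ℝ)) hg
      simp only [inner_add_left, inner_smul_left, sum_inner, inner_zero_left, conj_trivial,
        hpτ, hττ, mul_one] at h1
      exact h1
    -- sum over j
    have hsum : (N : ℝ) * g none + D * ∑ i, g (some i) + N * ((∑ i, g (some i)) / (d + 1)) = 0 := by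
      have h1 : ∑ j, (g none + D * g (some j) + (∑ i, g (some i)) / (d + 1)) = 0 := by
        simp only [hj, Finset.sum_const_zero]
      simpa only [Finset.sum_add_distrib, Finset.sum_const, Finset.card_univ, ← hNdef,
        nsmul_eq_mul, ← Finset.mul_sum] using h1
    have hg0 : g none = 0 := by
      have h1 : ∑ i, g (some i) = - (g none * d) := by linarith
      rw [h1] at hsum
      have h2 : g none * (N - (d : ℝ) ^ 2) = 0 := by
        have h3 : (N : ℝ) * g none + D * (-(g none * d)) + N * (-(g none * d) / (d + 1)) =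
            g none * (N - (d : ℝ) ^ 2) / (d + 1) := by
          rw [hD]; field_simp; ring
        rw [h3] at hsum
        rcases div_eq_zero_iff.mp hsum with h4 | h4
        · exact h4
        · exfalso; linarith
      rcases mul_eq_zero.mp h2 with h3 | h3
      · exact h3
      · exfalso; linarith
    intro o
    cases o with
    | none => exact hg0
    | some j =>
      have h1 : ∑ i, g (some i) = 0 := by rw [hg0] at hτ0; linarith
      have h2 := hj j
      rw [hg0, h1, zero_div] at h2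
      have h3 : D * g (some j) = 0 := by linarith
      rcases mul_eq_zero.mp h3 with h4 | h4
      · exfalso; linarith
      · exact h4
  -- the subspaces
  set S : Submodule ℝ (EuclideanSpace ℝ (n × n)) := Submodule.span ℝ (Set.range u) with hS
  have hfS : Module.finrank ℝ S = N + 1 := by
    rw [hS, finrank_span_eq_card hu, Fintype.card_option]
  set w := Module.finrank ℝ Sᗮ with hw
  have hfW : N + 1 + w = d ^ 2 := by
    have h1 := S.finrank_add_finrank_orthogonal
    rw [hfS, ← hw] at h1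
    rw [h1, finrank_euclideanSpace, Fintype.card_prod, hd, sq]
  let b : OrthonormalBasis (Fin w) ℝ Sᗮ := stdOrthonormalBasis ℝ Sᗮ
  let E : Fin w → EuclideanSpace ℝ (n × n) := fun a => (b a : EuclideanSpace ℝ (n × n))
  have hEp : ∀ a i, (inner ℝ (E a) (p i) : ℝ) = 0 := by
    intro a i
    have h1 : p i ∈ S := Submodule.subset_span ⟨some i, rfl⟩
    exact Submodule.inner_left_of_mem_orthogonal h1 (b a).2
  have hEτ : ∀ a, (inner ℝ (E a) τ : ℝ) = 0 := by
    intro a
    have h1 : τ ∈ S := Submodule.subset_span ⟨none, rfl⟩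
    exact Submodule.inner_left_of_mem_orthogonal h1 (b a).2
  have hEρ : ∀ a, (inner ℝ (E a) ρ : ℝ) = 0 := by
    intro a
    rw [hρ, inner_sub_right, inner_smul_right, inner_sum, hEτ]
    simp [hEp]
  -- operator identity
  let T : EuclideanSpace ℝ (n × n) →ₗ[ℝ] EuclideanSpace ℝ (n × n) :=
    ∑ i, (innerₛₗ ℝ (p i)).smulRight (p i) + (1 / k) • (innerₛₗ ℝ ρ).smulRight ρ
      + D • ∑ a, (innerₛₗ ℝ (E a)).smulRight (E a)
      - D • (LinearMap.id + (innerₛₗ ℝ τ).smulRight τ)
  have hTapp : ∀ v, T v = ∑ i, (inner ℝ (p i) v : ℝ) • p i + (1 / k) • ((inner ℝ ρ v : ℝ) • ρ)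
      + D • ∑ a, (inner ℝ (E a) v : ℝ) • E a - D • (v + (inner ℝ τ v : ℝ) • τ) := by
    intro v
    simp [T]
  have hTp : ∀ j, T (p j) = 0 := by
    intro j
    rw [hTapp]
    have h1 : ∑ i, (inner ℝ (p i) (p j) : ℝ) • p i = D • p j + (1 / ((d : ℝ) + 1)) • ∑ i, p i := by
      have h2 : ∀ i, (inner ℝ (p i) (p j) : ℝ) • p i =
          (if i = j then D • p i else 0) + (1 / ((d : ℝ) + 1)) • p i := by
        intro i
        by_cases h : i = j
        · rw [if_pos h, h, hpp, ← add_smul, hD]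
          congr 1
          field_simp
        · rw [if_neg h, hpq i j h, zero_add]
      simp only [h2, Finset.sum_add_distrib, Finset.sum_ite_eq', Finset.mem_univ, if_true,
        ← Finset.smul_sum]
    have h3 : ∑ i, p i = (d : ℝ) • τ - ρ := by rw [hρ]; abel
    rw [h1, h3, hρp, real_inner_comm, hpτ]
    simp only [hEp, zero_smul, Finset.sum_const_zero, smul_zero, add_zero, one_smul, smul_smul,
      smul_add, smul_sub]
    have e1 : 1 / k * (k / ((d : ℝ) + 1)) = 1 / (d + 1) := by field_simp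
    have e2 : 1 / ((d : ℝ) + 1) * d = D := by rw [hD]; ring
    rw [e1, e2]
    abel
  have hTτ : T τ = 0 := by
    rw [hTapp]
    simp only [hpτ, hρτ, hττ, hEτ, zero_smul, Finset.sum_const_zero, smul_zero, add_zero, one_smul,
      smul_smul]
    have h3 : ∑ i, p i = (d : ℝ) • τ - ρ := by rw [hρ]; abel
    have e1 : 1 / k * k = 1 := by field_simp
    rw [h3, e1, one_smul, smul_add, smul_smul]
    have e2 : (d : ℝ) = D + D * d := by rw [← hDd]; ring_nf; rw [hD]; field_simp; ring
    have e3 : (d : ℝ) • τ = D • τ + (D * d) • τ := by rw [← add_smul, ← e2]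
    rw [e3]
    abel
  have hTS : ∀ v ∈ S, T v = 0 := by
    intro v hv
    rw [hS] at hv
    induction hv using Submodule.span_induction with
    | mem y hy =>
      obtain ⟨o, rfl⟩ := hy
      cases o with
      | none => exact hTτ
      | some j => exact hTp j
    | zero => exact map_zero T
    | add y z _ _ hy hz => rw [map_add, hy, hz, add_zero]
    | smul c y _ hy => rw [map_smul, hy, smul_zero]
  have hTW : ∀ v ∈ Sᗮ, T v = 0 := by
    intro v hv
    rw [hTapp]
    have hp0 : ∀ i, (inner ℝ (p i) v : ℝ) = 0 := fun i =>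
      Submodule.inner_right_of_mem_orthogonal (K := S) (Submodule.subset_span ⟨some i, rfl⟩) hv
    have hτ0 : (inner ℝ τ v : ℝ) = 0 :=
      Submodule.inner_right_of_mem_orthogonal (K := S) (Submodule.subset_span ⟨none, rfl⟩) hv
    have hρ0 : (inner ℝ ρ v : ℝ) = 0 := by
      rw [hρ, inner_sub_left, inner_smul_left, sum_inner, hτ0]
      simp [hp0]
    have hE : ∑ a, (inner ℝ (E a) v : ℝ) • E a = v := by
      have h1 := b.sum_repr' ⟨v, hv⟩
      have h2 := congrArg (fun z : Sᗮ => (z : EuclideanSpace ℝ (n × n))) h1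
      simpa using h2
    rw [hE]
    simp [hp0, hτ0, hρ0]
  have hT : ∀ v, T v = 0 := by
    intro v
    obtain ⟨y, hy, z, hz, rfl⟩ := S.exists_add_mem_mem_orthogonal v
    rw [map_add, hTS y hy, hTW z hz, add_zero]
  -- the family
  set sk := Real.sqrt k with hsk
  have hsk2 : sk * sk = k := Real.mul_self_sqrt hk0.le
  have hsk0 : sk ≠ 0 := (Real.sqrt_pos.mpr hk0).ne'
  set sD := Real.sqrt D with hsD
  have hsD2 : sD * sD = D := Real.mul_self_sqrt hD0.le
  let m : Option (Fin w) → EuclideanSpace ℝ (n × n) :=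
    fun o => o.elim (sk⁻¹ • ρ) (fun a => sD • E a)
  have hreal : ∀ a c : n × n, ∑ i, m i a * m i c +
      ∑ j, gvec (vecMulVec (x j) (star (x j))) a * gvec (vecMulVec (x j) (star (x j))) c =
      D * ((if a = c then 1 else 0) + (if a.1 = a.2 then 1 else 0) *
        (if c.1 = c.2 then 1 else 0)) := by
    intro a c
    have h1 := congrArg (fun v : EuclideanSpace ℝ (n × n) => v a) (hT (EuclideanSpace.single c 1))
    rw [hTapp] at h1
    simp only [PiLp.sub_apply, PiLp.add_apply, PiLp.smul_apply, PiLp.zero_apply, WithLp.ofLp_sum,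
      Finset.sum_apply, EuclideanSpace.inner_single_right, smul_eq_mul,
      PiLp.single_apply, conj_trivial, one_mul, WithLp.ofLp_smul, Pi.smul_apply] at h1
    have h2 : ∀ e : n × n, τ e = if e.1 = e.2 then 1 else 0 := by
      intro e
      change ((1 : Matrix n n ℂ) e.1 e.2).re + ((1 : Matrix n n ℂ) e.1 e.2).im = _
      rw [Matrix.one_apply]
      split_ifs <;> simp
    rw [h2, h2] at h1
    rw [Fintype.sum_option]
    change (sk⁻¹ * ρ a) * (sk⁻¹ * ρ c) + ∑ i, (sD * E i a) * (sD * E i c) +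
      ∑ j, p j a * p j c = _
    have h3 : (sk⁻¹ * ρ a) * (sk⁻¹ * ρ c) = 1 / k * (ρ c * ρ a) := by
      rw [← hsk2]; field_simp
    have h4 : ∑ i, (sD * E i a) * (sD * E i c) = D * ∑ i, E i c * E i a := by
      rw [Finset.mul_sum]
      refine Finset.sum_congr rfl fun i _ => ?_
      rw [← hsD2]; ring
    have h5 : ∑ j, p j a * p j c = ∑ j, p j c * p j a :=
      Finset.sum_congr rfl fun j _ => mul_comm _ _
    rw [h3, h4, h5]
    linarith
  have hKS := tensor_of_real m x D hreal
  set K : Option (Fin w) → Matrix n n ℂ := fun i => hmat (m i) with hK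
  have hKH : ∀ a, (K a).IsHermitian := fun a => hmat_isHermitian _
  have h1mat : hmat τ = 1 := hmat_gvec 1 Matrix.isHermitian_one
  have htrK : ∀ a, trace (K a) = ((inner ℝ τ (m a) : ℝ) : ℂ) := by
    intro a
    rw [← trace_hmat_mul, h1mat, Matrix.one_mul]
  have hτnone : (inner ℝ τ (m none) : ℝ) = sk := by
    change (inner ℝ τ (sk⁻¹ • ρ) : ℝ) = sk
    rw [inner_smul_right, real_inner_comm, hρτ, ← hsk2]
    field_simp
  have hτsome : ∀ a, (inner ℝ τ (m (some a)) : ℝ) = 0 := by
    intro a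
    change (inner ℝ τ (sD • E a) : ℝ) = 0
    rw [inner_smul_right, real_inner_comm, hEτ, mul_zero]
  have hKnone : K none = ((sk⁻¹ : ℝ) : ℂ) • hmat ρ := hmat_smul _ _
  have hR2 : ∑ a, K a * K a = hmat ρ := by
    have h1 := sym_sum K hKS 1
    simp only [Matrix.mul_one] at h1
    rw [h1, Fintype.sum_option, htrK, hτnone]
    have h2 : ∀ a, trace (K (some a)) • K (some a) = 0 := by
      intro a
      rw [htrK, hτsome]; simp
    simp only [h2, Finset.sum_const_zero, add_zero]
    rw [hKnone, smul_smul, ← Complex.ofReal_mul, mul_inv_cancel₀ hsk0, Complex.ofReal_one,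
      one_smul]
  have hRc : ∑ a, (((fun o : Option (Fin w) => o.elim sk (fun _ => 0)) a : ℝ) : ℂ) • K a =
      hmat ρ := by
    rw [Fintype.sum_option]
    simp only [Option.elim_none, Option.elim_some, Complex.ofReal_zero, zero_smul,
      Finset.sum_const_zero, add_zero]
    rw [hKnone, smul_smul, ← Complex.ofReal_mul, mul_inv_cancel₀ hsk0, Complex.ofReal_one,
      one_smul]
  have htrR : (trace (hmat ρ)).re = k := by
    have : trace (hmat ρ) = ((inner ℝ τ ρ : ℝ) : ℂ) := by
      rw [← trace_hmat_mul, h1mat, Matrix.one_mul]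
    rw [this, Complex.ofReal_re, real_inner_comm, hρτ]
  have htrR2 : (trace (hmat ρ * hmat ρ)).re = k * (d + k) / (d + 1) := by
    rw [trace_hmat_mul, Complex.ofReal_re, hρρ]
  have hcardK : (Fintype.card (Option (Fin w)) : ℝ) = k := by
    rw [Fintype.card_option, Fintype.card_fin, hkdef]
    have : ((N + 1 + w : ℕ) : ℝ) = ((d ^ 2 : ℕ) : ℝ) := by rw [hfW]
    push_cast at this ⊢
    linarith
  obtain ⟨t, q, hq0, htq⟩ := core_psd K hKH hKS _ (hmat ρ) hRc hR2
    (by rw [Fintype.card_option]; omega) (by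
      rw [hcardK, htrR, htrR2]
      rw [mul_div_assoc', div_lt_iff₀ (by positivity)]
      nlinarith)
  refine ⟨q, hq0, fun i => ?_⟩
  have hPq : trace (P i * vecMulVec q (star q)) = ((‖star (x i) ⬝ᵥ q‖ ^ 2 : ℝ) : ℂ) :=
    trace_proj_mul _ _
  have hPK : ∀ a, trace (P i * K a) = trace (K a) / (d + 1) := by
    intro a
    have h1 : P i = hmat (p i) := (hmat_gvec _ (proj_isHermitian _)).symm
    rw [h1, trace_hmat_mul, htrK]
    cases a with
    | none =>
      rw [hτnone]
      have : (inner ℝ (p i) (m none) : ℝ) = sk / (d + 1) := by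
        change (inner ℝ (p i) (sk⁻¹ • ρ) : ℝ) = _
        rw [inner_smul_right, real_inner_comm, hρp, ← hsk2]
        field_simp
      rw [this]
      push_cast
      ring
    | some a =>
      rw [hτsome]
      have : (inner ℝ (p i) (m (some a)) : ℝ) = 0 := by
        change (inner ℝ (p i) (sD • E a) : ℝ) = _
        rw [inner_smul_right, real_inner_comm, hEp, mul_zero]
      rw [this]
      simp
  have h1 : trace (P i * vecMulVec q (star q)) = trace (vecMulVec q (star q)) / (d + 1) := by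
    rw [← htq, Matrix.mul_sum, Matrix.trace_sum, Matrix.trace_sum, Finset.sum_div]
    refine Finset.sum_congr rfl fun a _ => ?_
    rw [Matrix.mul_smul, Matrix.trace_smul, Matrix.trace_smul, hPK, smul_eq_mul, smul_eq_mul]
    ring
  rw [hPq, Matrix.trace_vecMulVec, dotProduct_comm q (star q)] at h1
  have h2 := congrArg Complex.re h1
  rw [Complex.ofReal_re] at h2
  rw [h2]
  have h3 : (star q ⬝ᵥ q / ((d : ℂ) + 1)) = (star q ⬝ᵥ q) / (((d : ℝ) + 1 : ℝ) : ℂ) := by
    push_cast; rfl
  rw [h3, Complex.div_ofReal_re]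

omit [DecidableEq n] in
/-- The projections of a family at the extremal angle are linearly independent. -/
theorem indep_proj {κ : Type*} [Fintype κ] (x : κ → n → ℂ) (d : ℕ) (hdpos : 0 < d)
    (hx : ∀ i, star (x i) ⬝ᵥ x i = 1)
    (hxy : ∀ i j, i ≠ j → ‖star (x i) ⬝ᵥ x j‖ ^ 2 = 1 / ((d : ℝ) + 1)) :
    LinearIndependent ℝ (fun i => gvec (vecMulVec (x i) (star (x i)))) := by
  classical
  set N := Fintype.card κ with hNdef
  have hdR : (0 : ℝ) < d := by exact_mod_cast hdpos
  set D : ℝ := d / (d + 1) with hD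
  have hD0 : 0 < D := by positivity
  set P : κ → Matrix n n ℂ := fun i => vecMulVec (x i) (star (x i)) with hP
  set p : κ → EuclideanSpace ℝ (n × n) := fun i => gvec (P i) with hp
  have hpp : ∀ i, (inner ℝ (p i) (p i) : ℝ) = 1 := by
    intro i
    have h1 := inner_gvec (P i) (P i) (proj_isHermitian _) (proj_isHermitian _)
    rw [trace_proj_mul, hx] at h1
    simp only [hp]
    have h2 := Complex.ofReal_injective h1
    rw [h2]; simp
  have hpq : ∀ i j, i ≠ j → (inner ℝ (p i) (p j) : ℝ) = 1 / (d + 1) := by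
    intro i j hij
    have h1 := inner_gvec (P i) (P j) (proj_isHermitian _) (proj_isHermitian _)
    rw [trace_proj_mul, hxy i j hij] at h1
    exact Complex.ofReal_injective h1
  rw [Fintype.linearIndependent_iff]
  intro g hg
  have hj : ∀ j, D * g j + (∑ i, g i) / (d + 1) = 0 := by
    intro j
    have h1 := congrArg (fun v => (inner ℝ v (p j) : ℝ)) hg
    simp only [inner_smul_left, sum_inner, inner_zero_left, conj_trivial] at h1
    have h2 : ∀ i, g i * (inner ℝ (p i) (p j) : ℝ) =
        (if i = j then D * g i else 0) + g i / (d + 1) := by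
      intro i
      by_cases h : i = j
      · rw [if_pos h, h, hpp, hD]; field_simp
      · rw [if_neg h, hpq i j h, zero_add]; ring
    simp only [h2, Finset.sum_add_distrib, Finset.sum_ite_eq', Finset.mem_univ, if_true,
      ← Finset.sum_div] at h1
    linarith
  have hsum : D * ∑ i, g i + N * ((∑ i, g i) / (d + 1)) = 0 := by
    have h1 : ∑ j, (D * g j + (∑ i, g i) / (d + 1)) = 0 := by
      simp only [hj, Finset.sum_const_zero]
    simpa only [Finset.sum_add_distrib, Finset.sum_const, Finset.card_univ, ← hNdef,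
      nsmul_eq_mul, ← Finset.mul_sum] using h1
  have hN0 : (0 : ℝ) ≤ N := Nat.cast_nonneg _
  have h0 : ∑ i, g i = 0 := by
    have h1 : (D + N / (d + 1)) * ∑ i, g i = 0 := by
      rw [← hsum]; ring
    rcases mul_eq_zero.mp h1 with h2 | h2
    · exfalso
      have : 0 ≤ (N : ℝ) / (d + 1) := by positivity
      linarith
    · exact h2
  intro j
  have h1 := hj j
  rw [h0, zero_div, add_zero] at h1
  rcases mul_eq_zero.mp h1 with h2 | h2
  · exfalso; linarith
  · exact h2

omit [DecidableEq n] in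
theorem card_le_sq {κ : Type*} [Fintype κ] (x : κ → n → ℂ) (d : ℕ) (hd : Fintype.card n = d)
    (hdpos : 0 < d)
    (hx : ∀ i, star (x i) ⬝ᵥ x i = 1)
    (hxy : ∀ i j, i ≠ j → ‖star (x i) ⬝ᵥ x j‖ ^ 2 = 1 / ((d : ℝ) + 1)) :
    Fintype.card κ ≤ d ^ 2 := by
  have h := (indep_proj x d hdpos hx hxy).fintype_card_le_finrank
  rwa [finrank_euclideanSpace, Fintype.card_prod, hd, ← sq] at h

/-- Expansion of a rank-one projection in a maximal family. -/
theorem expand {κ : Type*} [Fintype κ] (x : κ → n → ℂ) (d : ℕ) (hd : Fintype.card n = d)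
    (hdpos : 0 < d)
    (hx : ∀ i, star (x i) ⬝ᵥ x i = 1)
    (hxy : ∀ i j, i ≠ j → ‖star (x i) ⬝ᵥ x j‖ ^ 2 = 1 / ((d : ℝ) + 1))
    (hN : Fintype.card κ = d ^ 2) (u : n → ℂ) (hu : star u ⬝ᵥ u = 1) :
    vecMulVec u (star u) = ∑ j, ((((d + 1) * ‖star (x j) ⬝ᵥ u‖ ^ 2 - 1) / d : ℝ) : ℂ) •
      vecMulVec (x j) (star (x j)) := by
  classical
  have hdR : (0 : ℝ) < d := by exact_mod_cast hdpos
  set D : ℝ := d / (d + 1) with hD
  have hD0 : 0 < D := by positivity
  set P : κ → Matrix n n ℂ := fun i => vecMulVec (x i) (star (x i)) with hP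
  set p : κ → EuclideanSpace ℝ (n × n) := fun i => gvec (P i) with hp
  set τ : EuclideanSpace ℝ (n × n) := gvec 1 with hτ
  have hpp : ∀ i, (inner ℝ (p i) (p i) : ℝ) = 1 := by
    intro i
    have h1 := inner_gvec (P i) (P i) (proj_isHermitian _) (proj_isHermitian _)
    rw [trace_proj_mul, hx] at h1
    simp only [hp]
    have h2 := Complex.ofReal_injective h1
    rw [h2]; simp
  have hpq : ∀ i j, i ≠ j → (inner ℝ (p i) (p j) : ℝ) = 1 / (d + 1) := by
    intro i j hij
    have h1 := inner_gvec (P i) (P j) (proj_isHermitian _) (proj_isHermitian _)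
    rw [trace_proj_mul, hxy i j hij] at h1
    exact Complex.ofReal_injective h1
  have hpτ : ∀ i, (inner ℝ (p i) τ : ℝ) = 1 := by
    intro i
    have h1 := inner_gvec (P i) 1 (proj_isHermitian _) Matrix.isHermitian_one
    rw [Matrix.mul_one, Matrix.trace_vecMulVec, dotProduct_comm, hx] at h1
    exact_mod_cast h1
  have hττ : (inner ℝ τ τ : ℝ) = d := by
    have h1 := inner_gvec (1 : Matrix n n ℂ) 1 Matrix.isHermitian_one Matrix.isHermitian_one
    rw [Matrix.mul_one, Matrix.trace_one, hd] at h1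
    exact_mod_cast h1
  have hNR : (Fintype.card κ : ℝ) = (d : ℝ) ^ 2 := by rw [hN]; push_cast; rfl
  have hsump : ∀ j, ∑ i, (inner ℝ (p i) (p j) : ℝ) = d := by
    intro j
    have h1 : ∀ i, (inner ℝ (p i) (p j) : ℝ) = (if i = j then D else 0) + 1 / (d + 1) := by
      intro i
      by_cases h : i = j
      · rw [if_pos h, h, hpp, hD]; field_simp
      · rw [if_neg h, hpq i j h, zero_add]
    simp only [h1, Finset.sum_add_distrib, Finset.sum_ite_eq', Finset.mem_univ, if_true,
      Finset.sum_const, Finset.card_univ, hNR, nsmul_eq_mul]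
    rw [hD]; field_simp; ring
  have hsumτ : ∑ i, p i = (d : ℝ) • τ := by
    have h1 : (inner ℝ (∑ i, p i - (d : ℝ) • τ) (∑ i, p i - (d : ℝ) • τ) : ℝ) = 0 := by
      rw [inner_sub_left, inner_sub_right, inner_sub_right, inner_smul_left, inner_smul_right,
        inner_smul_right, inner_smul_left, sum_inner, inner_sum]
      have e1 : ∀ i, (inner ℝ (p i) (∑ j, p j) : ℝ) = d := by
        intro i
        rw [inner_sum]
        have : ∀ j, (inner ℝ (p i) (p j) : ℝ) = inner ℝ (p j) (p i) := fun j =>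
          real_inner_comm _ _
        simp only [this, hsump]
      have e2 : ∀ i, (inner ℝ τ (p i) : ℝ) = 1 := fun i => by rw [real_inner_comm, hpτ]
      simp only [e1, e2, sum_inner, hpτ, hττ, Finset.sum_const, Finset.card_univ, nsmul_eq_mul,
        conj_trivial, hNR]
      ring
    exact sub_eq_zero.mp (inner_self_eq_zero.mp h1)
  have hspan : Submodule.span ℝ (Set.range p) = ⊤ := by
    have h1 := (indep_proj x d hdpos hx hxy)
    apply h1.span_eq_top_of_card_eq_finrank'
    rw [finrank_euclideanSpace, Fintype.card_prod, hd, ← sq, hN]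
  let T : EuclideanSpace ℝ (n × n) →ₗ[ℝ] EuclideanSpace ℝ (n × n) :=
    ∑ i, (innerₛₗ ℝ (p i)).smulRight (p i) - D • (LinearMap.id + (innerₛₗ ℝ τ).smulRight τ)
  have hTapp : ∀ v, T v = ∑ i, (inner ℝ (p i) v : ℝ) • p i - D • (v + (inner ℝ τ v : ℝ) • τ) := by
    intro v
    simp [T]
  have hTp : ∀ j, T (p j) = 0 := by
    intro j
    rw [hTapp]
    have h1 : ∑ i, (inner ℝ (p i) (p j) : ℝ) • p i = D • p j + (1 / ((d : ℝ) + 1)) • ∑ i, p i := by
      have h2 : ∀ i, (inner ℝ (p i) (p j) : ℝ) • p i =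
          (if i = j then D • p i else 0) + (1 / ((d : ℝ) + 1)) • p i := by
        intro i
        by_cases h : i = j
        · rw [if_pos h, h, hpp, ← add_smul, hD]
          congr 1
          field_simp
        · rw [if_neg h, hpq i j h, zero_add]
      simp only [h2, Finset.sum_add_distrib, Finset.sum_ite_eq', Finset.mem_univ, if_true,
        ← Finset.smul_sum]
    rw [h1, hsumτ, real_inner_comm, hpτ, smul_smul]
    have e2 : 1 / ((d : ℝ) + 1) * d = D := by rw [hD]; ring
    rw [e2, one_smul, smul_add, sub_self]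
  have hT : ∀ v, T v = 0 := by
    intro v
    have hv : v ∈ Submodule.span ℝ (Set.range p) := by rw [hspan]; trivial
    induction hv using Submodule.span_induction with
    | mem y hy => obtain ⟨o, rfl⟩ := hy; exact hTp o
    | zero => exact map_zero T
    | add y z _ _ hy hz => rw [map_add, hy, hz, add_zero]
    | smul c y _ hy => rw [map_smul, hy, smul_zero]
  set U := gvec (vecMulVec u (star u)) with hU
  have hy : ∀ j, (inner ℝ (p j) U : ℝ) = ‖star (x j) ⬝ᵥ u‖ ^ 2 := by
    intro j
    have h1 := inner_gvec (P j) (vecMulVec u (star u)) (proj_isHermitian _) (proj_isHermitian _)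
    rw [trace_proj_mul] at h1
    exact Complex.ofReal_injective h1
  have hτU : (inner ℝ τ U : ℝ) = 1 := by
    have h1 := inner_gvec 1 (vecMulVec u (star u)) Matrix.isHermitian_one (proj_isHermitian _)
    rw [Matrix.one_mul, Matrix.trace_vecMulVec, dotProduct_comm, hu] at h1
    exact_mod_cast h1
  have hTU := hT U
  rw [hTapp, hτU, one_smul] at hTU
  have hUexp : U = ∑ j, (((d + 1) * ‖star (x j) ⬝ᵥ u‖ ^ 2 - 1) / d : ℝ) • p j := by
    have h1 : D • (U + τ) = ∑ i, (inner ℝ (p i) U : ℝ) • p i := (sub_eq_zero.mp hTU).symm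
    have h2 : U = (1 / D) • (D • (U + τ)) - (1 / (d : ℝ)) • ((d : ℝ) • τ) := by
      rw [smul_smul, smul_smul, one_div_mul_cancel hD0.ne', one_div_mul_cancel hdR.ne', one_smul,
        one_smul]
      abel
    rw [h2, h1, ← hsumτ, Finset.smul_sum, Finset.smul_sum, ← Finset.sum_sub_distrib]
    refine Finset.sum_congr rfl fun j _ => ?_
    rw [hy, smul_smul, ← sub_smul]
    congr 1
    rw [hD]; field_simp
  have hlin : ∀ (s : Finset κ) (c : κ → ℝ), hmat (∑ j ∈ s, c j • p j) =
      ∑ j ∈ s, (c j : ℂ) • hmat (p j) := by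
    intro s c
    induction s using Finset.induction_on with
    | empty =>
      simp only [Finset.sum_empty]
      ext i j
      simp [hmat]
    | insert a s ha ih =>
      rw [Finset.sum_insert ha, Finset.sum_insert ha, hmat_add, hmat_smul, ih]
  have h3 := congrArg hmat hUexp
  rw [hlin, hU, hmat_gvec _ (proj_isHermitian _)] at h3
  rw [h3]
  refine Finset.sum_congr rfl fun j _ => ?_
  rw [hp, hmat_gvec _ (proj_isHermitian _)]

/-- Uniqueness of the completing lines. -/
theorem unique_line {κ : Type*} [Fintype κ] [DecidableEq κ] (x : κ → n → ℂ) (d : ℕ)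
    (hd : Fintype.card n = d) (hdpos : 0 < d)
    (hx : ∀ i, star (x i) ⬝ᵥ x i = 1)
    (hxy : ∀ i j, i ≠ j → ‖star (x i) ⬝ᵥ x j‖ ^ 2 = 1 / ((d : ℝ) + 1))
    (hN : Fintype.card κ = d ^ 2) (J : Finset κ) (hJ : ((J.card : ℝ) - 1) < Real.sqrt (d + 1))
    (u : n → ℂ) (hu : star u ⬝ᵥ u = 1)
    (huJ : ∀ j, j ∉ J → ‖star (x j) ⬝ᵥ u‖ ^ 2 = 1 / ((d : ℝ) + 1)) :
    ∃ j ∈ J, ∃ c : ℂ, u = c • x j := by
  have hdR : (0 : ℝ) < d := by exact_mod_cast hdpos
  have hexp := expand x d hd hdpos hx hxy hN u hu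
  set c : κ → ℝ := fun j => (((d + 1) * ‖star (x j) ⬝ᵥ u‖ ^ 2 - 1) / d : ℝ) with hc
  have hc0 : ∀ j, j ∉ J → c j = 0 := by
    intro j hj
    simp only [hc]
    rw [huJ j hj]
    field_simp
    ring
  have hexp' : vecMulVec u (star u) = ∑ j ∈ J, (c j : ℂ) • vecMulVec (x j) (star (x j)) := by
    rw [hexp]
    symm
    apply Finset.sum_subset (Finset.subset_univ _)
    intro j _ hj
    rw [hc0 j hj]; simp
  have hu0 : u ≠ 0 := by
    rintro rfl
    simp at hu
  -- some coefficient is nonzero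
  have hex : ∃ j ∈ J, c j ≠ 0 := by
    by_contra hcon
    push Not at hcon
    have h1 : vecMulVec u (star u) = 0 := by
      rw [hexp']
      refine Finset.sum_eq_zero fun j hj => ?_
      rw [hcon j hj]; simp
    have h2 := congrArg (fun M => M *ᵥ u) h1
    simp only [Matrix.vecMulVec_mulVec, Matrix.zero_mulVec, hu] at h2
    apply hu0
    simpa using h2
  obtain ⟨j₁, hj₁, hcj₁⟩ := hex
  -- the Gram matrix of the missing vectors is invertible
  let A : Matrix J J ℂ := Matrix.of fun i j => star (x i) ⬝ᵥ x j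
  have hs : 0 < Real.sqrt ((d : ℝ) + 1) := Real.sqrt_pos.mpr (by positivity)
  have hAdet : A.det ≠ 0 := by
    apply det_ne_zero_of_sum_row_lt_diag
    intro k
    have h1 : ‖A k k‖ = 1 := by
      change ‖star (x k) ⬝ᵥ x k‖ = 1
      rw [hx]; simp
    rw [h1]
    have h2 : ∀ j ∈ Finset.univ.erase k, ‖A k j‖ = 1 / Real.sqrt (d + 1) := by
      intro j hj
      have hne : (k : κ) ≠ j := fun h => (Finset.ne_of_mem_erase hj) (Subtype.ext h.symm)
      have h3 := hxy k j hne
      change ‖star (x k) ⬝ᵥ x j‖ = _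
      have h4 : (1 / Real.sqrt ((d : ℝ) + 1)) ^ 2 = 1 / (d + 1) := by
        rw [div_pow, one_pow, Real.sq_sqrt (by positivity)]
      rw [← h4] at h3
      exact (pow_left_inj₀ (norm_nonneg _) (by positivity) two_ne_zero).mp h3
    rw [Finset.sum_congr rfl h2, Finset.sum_const, Finset.card_erase_of_mem (Finset.mem_univ _),
      Finset.card_univ, Fintype.card_coe, nsmul_eq_mul]
    have h5 : 1 ≤ J.card := Finset.card_pos.mpr ⟨_, k.2⟩
    rw [Nat.cast_sub h5, Nat.cast_one, mul_one_div, div_lt_one hs]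
    exact hJ
  have hAu : IsUnit A.det := isUnit_iff_ne_zero.mpr hAdet
  let a : J → ℂ := A⁻¹ *ᵥ (Pi.single ⟨j₁, hj₁⟩ 1)
  let z : n → ℂ := ∑ l : J, a l • x l
  have hz : ∀ j : J, star (x j) ⬝ᵥ z = (Pi.single ⟨j₁, hj₁⟩ 1 : J → ℂ) j := by
    intro j
    have h1 : A *ᵥ a = Pi.single ⟨j₁, hj₁⟩ 1 := by
      rw [Matrix.mulVec_mulVec, Matrix.mul_nonsing_inv _ hAu, Matrix.one_mulVec]
    rw [← h1]
    simp only [z, Matrix.mulVec, dotProduct_sum, dotProduct_smul]
    rw [dotProduct]
    refine Finset.sum_congr rfl fun l _ => ?_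
    rw [smul_eq_mul, mul_comm]
    rfl
  have hmul := congrArg (fun M => M *ᵥ z) hexp'
  simp only [Matrix.vecMulVec_mulVec, Matrix.sum_mulVec, Matrix.smul_mulVec] at hmul
  have hR : ∑ j ∈ J, (c j : ℂ) • (MulOpposite.op (star (x j) ⬝ᵥ z) • x j) = (c j₁ : ℂ) • x j₁ := by
    rw [Finset.sum_eq_single_of_mem j₁ hj₁]
    · have := hz ⟨j₁, hj₁⟩
      rw [Pi.single_eq_same] at this
      rw [this]; simp
    · intro j hj hne
      have := hz ⟨j, hj⟩
      rw [Pi.single_eq_of_ne (by intro h; exact hne (Subtype.ext_iff.mp h))] at this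
      rw [this]; simp
  rw [hR] at hmul
  refine ⟨j₁, hj₁, ?_⟩
  have hcj : (c j₁ : ℂ) ≠ 0 := by exact_mod_cast hcj₁
  set e := star u ⬝ᵥ z with he
  have hmul' : e • u = (c j₁ : ℂ) • x j₁ := by
    rw [← hmul]; simp
  have hx0 : x j₁ ≠ 0 := by
    intro h
    have := hx j₁
    rw [h] at this; simp at this
  have he0 : e ≠ 0 := by
    intro h
    rw [h, zero_smul] at hmul'
    exact (smul_ne_zero hcj hx0) hmul'.symm
  refine ⟨e⁻¹ * c j₁, ?_⟩
  rw [mul_smul, ← hmul', smul_smul, inv_mul_cancel₀ he0, one_smul]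

end Model

/-- One more vector can be added. -/
theorem add_vector (d N : ℕ) (v : Fin N → EuclideanSpace ℂ (Fin d))
    (hv1 : ∀ i, ‖v i‖ = 1)
    (hv2 : ∀ i j, i ≠ j → ‖inner ℂ (v i) (v j)‖ = 1 / Real.sqrt ((d : ℝ) + 1))
    (hN : N < d ^ 2) (hk : ((d : ℝ) ^ 2 - N - 1) ^ 2 < d + 1) :
    ∃ u : EuclideanSpace ℂ (Fin d), ‖u‖ = 1 ∧
      ∀ i, ‖inner ℂ (v i) u‖ = 1 / Real.sqrt ((d : ℝ) + 1) := by
  have hs2 : (1 / Real.sqrt ((d : ℝ) + 1)) ^ 2 = 1 / (d + 1) := by
    rw [div_pow, one_pow, Real.sq_sqrt (by positivity)]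
  have hin : ∀ a b : EuclideanSpace ℂ (Fin d), star a.ofLp ⬝ᵥ b.ofLp = inner ℂ a b := by
    intro a b
    rw [EuclideanSpace.inner_eq_star_dotProduct, dotProduct_comm]
  obtain ⟨q, hq0, hq⟩ := extend_one (n := Fin d) (fun i => (v i).ofLp) d (Fintype.card_fin d)
    (fun i => by
      rw [hin, inner_self_eq_norm_sq_to_K, hv1]; simp)
    (fun i j hij => by rw [hin, hv2 i j hij, hs2])
    (by rwa [Fintype.card_fin]) (by rwa [Fintype.card_fin])
  set Q : EuclideanSpace ℂ (Fin d) := WithLp.toLp 2 q with hQ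
  have hQ0 : Q ≠ 0 := by
    intro h
    apply hq0
    have := congrArg (fun z : EuclideanSpace ℂ (Fin d) => z.ofLp) h
    simpa [hQ] using this
  have hQn : 0 < ‖Q‖ := norm_pos_iff.mpr hQ0
  refine ⟨((‖Q‖⁻¹ : ℝ) : ℂ) • Q, ?_, ?_⟩
  · rw [norm_smul, Complex.norm_real, norm_inv, norm_norm, inv_mul_cancel₀ hQn.ne']
  · intro i
    rw [inner_smul_right, norm_mul, Complex.norm_real, norm_inv, norm_norm]
    have h1 := hq i
    have h2 : (star q ⬝ᵥ q).re = ‖Q‖ ^ 2 := by
      have : star q ⬝ᵥ q = inner ℂ Q Q := hin Q Q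
      rw [this, inner_self_eq_norm_sq_to_K]
      norm_cast
    have h3 : star (v i).ofLp ⬝ᵥ q = inner ℂ (v i) Q := hin (v i) Q
    rw [h2, h3] at h1
    have h4 : (‖Q‖⁻¹ * ‖inner ℂ (v i) Q‖) ^ 2 = (1 / Real.sqrt ((d : ℝ) + 1)) ^ 2 := by
      rw [mul_pow, h1, hs2]
      field_simp
    exact (pow_left_inj₀ (by positivity) (by positivity) two_ne_zero).mp h4

theorem extend_all (d : ℕ) : ∀ k N : ℕ, (hNk : N + k = d ^ 2) →
    ((k : ℝ) - 1) ^ 2 < d + 1 →
    ∀ v : Fin N → EuclideanSpace ℂ (Fin d), (∀ i, ‖v i‖ = 1) →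
    (∀ i j, i ≠ j → ‖inner ℂ (v i) (v j)‖ = 1 / Real.sqrt ((d : ℝ) + 1)) →
    ∃ w : Fin (d ^ 2) → EuclideanSpace ℂ (Fin d), (∀ i, ‖w i‖ = 1) ∧
      (∀ i j, i ≠ j → ‖inner ℂ (w i) (w j)‖ = 1 / Real.sqrt ((d : ℝ) + 1)) ∧
      ∀ i : Fin N, w (Fin.castLE (by omega) i) = v i := by
  intro k
  induction k with
  | zero =>
    intro N hNk _ v hv1 hv2
    have hN : N = d ^ 2 := by omega
    subst hN
    exact ⟨v, hv1, hv2, fun i => rfl⟩
  | succ k ih =>
    intro N hNk hk v hv1 hv2
    have hNR : (d : ℝ) ^ 2 - N = (k + 1 : ℕ) := by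
      have : ((N + (k + 1) : ℕ) : ℝ) = ((d ^ 2 : ℕ) : ℝ) := by rw [hNk]
      push_cast at this ⊢
      linarith
    obtain ⟨u, hu1, hu2⟩ := add_vector d N v hv1 hv2 (by omega) (by rw [hNR]; exact hk)
    have hk' : ((k : ℝ) - 1) ^ 2 < d + 1 := by
      push_cast at hk
      rcases Nat.eq_zero_or_pos k with h | h
      · subst h
        have hd1 : (1 : ℝ) ≤ d := by
          have : d ≠ 0 := by
            rintro rfl
            simp at hNk
          exact_mod_cast Nat.one_le_iff_ne_zero.mpr this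
        have h0 : (((0 : ℕ) : ℝ) - 1) ^ 2 = 1 := by norm_num
        rw [h0]
        linarith
      · have : (1 : ℝ) ≤ k := by exact_mod_cast h
        nlinarith
    obtain ⟨w, hw1, hw2, hw3⟩ := ih (N + 1) (by omega) hk' (Fin.snoc v u)
      (by
        intro i
        refine Fin.lastCases ?_ (fun j => ?_) i
        · simpa using hu1
        · simpa using hv1 j)
      (by
        intro i j
        refine Fin.lastCases ?_ (fun i' => ?_) i
        · refine Fin.lastCases ?_ (fun j' => ?_) j
          · intro h; exact absurd rfl h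
          · intro _
            simp only [Fin.snoc_last, Fin.snoc_castSucc]
            rw [norm_inner_symm]
            exact hu2 j'
        · refine Fin.lastCases ?_ (fun j' => ?_) j
          · intro _
            simp only [Fin.snoc_last, Fin.snoc_castSucc]
            exact hu2 i'
          · intro h
            simp only [Fin.snoc_castSucc]
            exact hv2 i' j' (fun h' => h (by rw [h'])))
    refine ⟨w, hw1, hw2, fun i => ?_⟩
    have h1 := hw3 i.castSucc
    rw [Fin.snoc_castSucc] at h1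
    exact h1


end Pool.Agent.Lib.MP_d0f9e0_co.Gap
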